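import Pool.Agent.Lib.Pa53cac.Small

/-!
# Bounding the names of the vertices
-/

namespace Pool.Agent.Lib.Pa53cac

open Relation

/-- A finite partial injection extends to a permutation. -/
lemma exists_perm_extend (F : Finset ℕ) (g : ℕ → ℕ) (hg : Set.InjOn g F) :
    ∃ π : Equiv.Perm ℕ, ∀ x ∈ F, π x = g x := by
  induction F using Finset.induction_on with
  | empty => exact ⟨1, by simp⟩
  | insert a F ha ih =>
    obtain ⟨π, hπ⟩ := ih (hg.mono (by simp))
    refine ⟨π.trans (Equiv.swap (π a) (g a)), ?_⟩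
    intro x hx
    rcases Finset.mem_insert.1 hx with rfl | hx'
    · simp
    · have hxa : x ≠ a := fun h => ha (h ▸ hx')
      rw [Equiv.trans_apply, hπ x hx', Equiv.swap_apply_of_ne_of_ne]
      · rw [← hπ x hx']
        exact fun h => hxa (π.injective h)
      · intro h
        exact hxa (hg (by simpa using hx) (by simp) h)

/-- Numbering the elements of a finite set. -/
lemma exists_numbering (D : Finset ℕ) : ∃ e : ℕ → ℕ, Set.InjOn e D ∧ ∀ x ∈ D, e x < D.card := by
  refine ⟨fun x => if h : x ∈ D then (D.equivFin ⟨x, h⟩ : ℕ) else 0, ?_, ?_⟩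
  · intro x hx y hy hxy
    have hx' : x ∈ D := hx
    have hy' : y ∈ D := hy
    simp only [dif_pos hx', dif_pos hy'] at hxy
    have := D.equivFin.injective (Fin.ext hxy)
    simpa using this
  · intro x hx
    simp only [dif_pos hx]
    exact (D.equivFin ⟨x, hx⟩).2

lemma exists_perm_bounded (F D : Finset ℕ) (b : ℕ) (hb : ∀ x ∈ F, x < b) :
    ∃ π : Equiv.Perm ℕ, (∀ x ∈ F, π x = x) ∧ ∀ x ∈ D, π x < b + D.card := by
  obtain ⟨e, he1, he2⟩ := exists_numbering D
  obtain ⟨π, hπ⟩ := exists_perm_extend (F ∪ D) (fun x => if x ∈ F then x else b + e x) (by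
    intro x hx y hy hxy
    rw [Finset.mem_coe, Finset.mem_union] at hx hy
    by_cases hxF : x ∈ F
    · by_cases hyF : y ∈ F
      · simpa [hxF, hyF] using hxy
      · simp only [hxF, hyF, if_true, if_false] at hxy
        have := hb x hxF
        omega
    · by_cases hyF : y ∈ F
      · simp only [hxF, hyF, if_true, if_false] at hxy
        have := hb y hyF
        omega
      · simp only [hxF, hyF, if_false] at hxy
        exact he1 (by simpa [hxF] using hx) (by simpa [hyF] using hy) (by omega))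
  refine ⟨π, ?_, ?_⟩
  · intro x hx
    rw [hπ x (Finset.mem_union_left _ hx), if_pos hx]
  · intro x hx
    rw [hπ x (Finset.mem_union_right _ hx)]
    by_cases hxF : x ∈ F
    · rw [if_pos hxF]
      have := hb x hxF
      omega
    · rw [if_neg hxF]
      have := he2 x hx
      omega

variable {ι κ : Type*} {Res : Multiset (Vtx × Vtx) → Finset ℕ → Multiset (Vtx × Vtx) → Vtx → Prop}

/-- Renaming of families. -/
lemma RFam.rename (hRes : IsRes Res) {r : ι → κ} {L : ι → Finset ℕ} {T : ι → MixedGraph}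
    {ρ : κ → Vtx} {X : Finset ℕ} {G : κ → Multiset (Vtx × Vtx)} {N : MixedGraph}
    (h : RFam Res r L T ρ X G N) {f g : ℕ → ℕ} (hf : Function.Injective f)
    (hg : Function.Injective g) (hfL : ∀ i, ∀ x ∈ L i, f x = x) :
    RFam Res r L (fun i => (T i).map (Sum.map id g)) (fun j => Sum.map f g (ρ j))
      (X.image f) (fun j => rn (Sum.map f g) (G j)) (N.map (Sum.map f g)) := by
  have hi := map_injective hf hg
  refine ⟨fun j => (h.net j).rn hf hg, fun j => (h.top j).rn hi, ?_, ?_⟩
  · intro i x hx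
    rw [Finset.mem_image]
    exact ⟨x, h.sub i hx, hfL i x hx⟩
  · intro i
    obtain ⟨H, σ, h1, h2⟩ := h.red i
    refine ⟨rn (Sum.map f g) H, Sum.map f g σ, ?_, ?_⟩
    · have h3 := hRes.ren hf hg (hfL i) h1
      rw [← cut_rn hi, image_leafSet' (hfL i)] at h3
      exact h3
    · have h3 := h2.rn hi
      have h4 : (T i).map (Sum.map f g) = (T i).map (Sum.map id g) := by
        apply MixedGraph.map_congr
        rintro (x | k) hv
        · have h5 := ((h2.isVertex (hRes.net h1)).1 hv).1
          have h6 := ((hRes.net h1).label_iff x).1 h5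
          simp [hfL i x h6]
        · rfl
      rw [h4] at h3
      exact h3

/-- The name of a vertex. -/
def nm : Vtx → ℕ := Sum.elim id id

/-- The finite set of vertices of a mixed graph. -/
lemma exists_vertex_finset (M : MixedGraph) :
    ∃ S : Finset Vtx, (∀ v, v ∈ S ↔ M.IsVertex v) ∧ S.card ≤ 2 * (M.dir.card + M.und.card) := by
  classical
  obtain ⟨l, hl⟩ : ∃ l : Multiset (Vtx × Vtx), l.map (fun e => s(e.1, e.2)) = M.und := by
    have : ∀ u : Multiset (Sym2 Vtx), ∃ l : Multiset (Vtx × Vtx),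
        l.map (fun e => s(e.1, e.2)) = u := by
      intro u
      induction u using Multiset.induction_on with
      | empty => exact ⟨0, rfl⟩
      | cons a u ih =>
        obtain ⟨l, rfl⟩ := ih
        induction a using Sym2.ind with
        | _ x y => exact ⟨(x, y) ::ₘ l, by simp⟩
    exact this M.und
  refine ⟨vset (M.dir + l), ?_, ?_⟩
  · intro v
    rw [mem_vset]
    constructor
    · rintro ⟨e, he, hv⟩
      rcases Multiset.mem_add.1 he with he | he
      · exact Or.inl ⟨e, he, hv⟩
      · refine Or.inr ⟨s(e.1, e.2), ?_, ?_⟩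
        · rw [← hl]
          exact Multiset.mem_map_of_mem _ he
        · rw [Sym2.mem_iff]
          rcases hv with hv | hv
          · exact Or.inl hv.symm
          · exact Or.inr hv.symm
    · rintro (⟨e, he, hv⟩ | ⟨e, he, hv⟩)
      · exact ⟨e, Multiset.mem_add.2 (Or.inl he), hv⟩
      · rw [← hl, Multiset.mem_map] at he
        obtain ⟨f, hf, rfl⟩ := he
        refine ⟨f, Multiset.mem_add.2 (Or.inr hf), ?_⟩
        rw [Sym2.mem_iff] at hv
        rcases hv with hv | hv
        · exact Or.inl hv.symm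
        · exact Or.inr hv.symm
  · have h1 := card_vset_le (M.dir + l)
    have h2 : l.card = M.und.card := by
      rw [← hl, Multiset.card_map]
    rw [Multiset.card_add, h2] at h1
    exact h1

lemma IsNetwork.label_iff' {G : Multiset (Vtx × Vtx)} {ρ : Vtx} {X : Finset ℕ} {N : MixedGraph}
    (h : IsNetwork G ρ X) (hN : IsTopology G ρ N) (x : ℕ) : N.IsVertex (Sum.inl x) ↔ x ∈ X := by
  rw [hN.isVertex h, h.label_iff x]
  obtain ⟨k, hk⟩ := h.rnet.2
  rw [hk]
  simp

/-- Small and bounded families. -/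
theorem RFam.bounded [Fintype ι] [Fintype κ] [Nonempty κ] (hRes : IsRes Res) {r : ι → κ}
    (hr : Function.Surjective r) {L : ι → Finset ℕ} {T : ι → MixedGraph} {ρ : κ → Vtx}
    {X : Finset ℕ} {G : κ → Multiset (Vtx × Vtx)} {N : MixedGraph}
    (h : RFam Res r L T ρ X G N) {s b B : ℕ}
    (hs : ∑ i, ((T i).dir.card + (T i).und.card) ≤ s) (hb : ∀ i, ∀ x ∈ L i, x < b)
    (hB : b + 28 * s + 4 * Fintype.card κ + 2 ≤ B) :
    ∃ (k : ℕ) (X' : Finset ℕ) (G' : κ → Multiset (Vtx × Vtx)) (N' : MixedGraph)
      (g : Equiv.Perm ℕ),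
      RFam Res r L (fun i => (T i).map (Sum.map id g)) (fun _ => Sum.inr k) X' G' N' ∧ k < B ∧
      ∀ j, (G' j).card ≤ B ∧ ∀ v, IsVertex (G' j) v → nm v < B := by
  classical
  choose S hS1 hS2 using fun i => exists_vertex_finset (T i)
  set S' := Finset.univ.biUnion S with hS'
  have hS'card : S'.card ≤ 2 * s := by
    calc S'.card ≤ ∑ i, (S i).card := Finset.card_biUnion_le
      _ ≤ ∑ i, 2 * ((T i).dir.card + (T i).und.card) := Finset.sum_le_sum fun i _ => hS2 i
      _ = 2 * ∑ i, ((T i).dir.card + (T i).und.card) := by rw [Finset.mul_sum]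
      _ ≤ 2 * s := by omega
  obtain ⟨k, X', G', N', h', hcard⟩ := h.small hRes hr (S := S') (by
    intro i v hv
    exact Finset.mem_biUnion.2 ⟨i, Finset.mem_univ _, (hS1 i v).2 hv⟩)
  have hLcard : (Finset.univ.biUnion L).card ≤ S'.card := by
    rw [← Finset.card_image_of_injective (Finset.univ.biUnion L)
      (Sum.inl_injective : Function.Injective (Sum.inl : ℕ → Vtx))]
    apply Finset.card_le_card
    intro v hv
    obtain ⟨x, hx, rfl⟩ := Finset.mem_image.1 hv
    obtain ⟨i, _, hi⟩ := Finset.mem_biUnion.1 hx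
    refine Finset.mem_biUnion.2 ⟨i, Finset.mem_univ _, (hS1 i _).2 ?_⟩
    obtain ⟨H, σ, h1, h2⟩ := h'.red i
    exact ((hRes.net h1).label_iff' h2 x).2 hi
  have j₀ := Classical.arbitrary κ
  have hG' : ∀ j, (G' j).card ≤ 14 * s + 2 * Fintype.card κ + 1 := by
    intro j
    have := hcard j
    omega
  -- all `G' j` have the same vertices
  have hV : ∀ j v, IsVertex (G' j) v → v ∈ vset (G' j₀) := by
    intro j v hv
    rw [mem_vset]
    by_cases hvk : v = Sum.inr k
    · subst hvk
      apply isVertex_of_outdeg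
      rw [(h'.net j₀).root.2]
      omega
    · have h1 : N'.IsVertex v := ((h'.top j).isVertex (h'.net j)).2 ⟨hv, hvk⟩
      exact (((h'.top j₀).isVertex (h'.net j₀)).1 h1).1
  set V := vset (G' j₀) with hVdef
  have hVcard : V.card ≤ 28 * s + 4 * Fintype.card κ + 2 := by
    have h1 : V.card ≤ 2 * (G' j₀).card := card_vset_le (G' j₀)
    have h2 := hG' j₀
    omega
  obtain ⟨f, hf1, hf2⟩ := exists_perm_bounded (Finset.univ.biUnion L) (V.image nm) b (by
    intro x hx
    obtain ⟨i, _, hi⟩ := Finset.mem_biUnion.1 hx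
    exact hb i x hi)
  obtain ⟨g, _, hg2⟩ := exists_perm_bounded ∅ (V.image nm) 0 (by simp)
  have hVn : (V.image nm).card ≤ V.card := Finset.card_image_le
  have hren := h'.rename hRes f.injective g.injective (fun i x hx =>
    hf1 x (Finset.mem_biUnion.2 ⟨i, Finset.mem_univ _, hx⟩))
  have hkV : Sum.inr k ∈ V := by
    rw [hVdef, mem_vset]
    apply isVertex_of_outdeg
    rw [(h'.net j₀).root.2]
    omega
  refine ⟨g k, _, _, _, g, hren, ?_, ?_⟩
  · have h1 := hg2 k (Finset.mem_image.2 ⟨_, hkV, rfl⟩)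
    omega
  · intro j
    refine ⟨?_, ?_⟩
    · rw [rn_card]
      have := hG' j
      omega
    · intro v hv
      obtain ⟨w, hw, rfl⟩ := isVertex_rn hv
      have h1 : nm w ∈ V.image nm := Finset.mem_image.2 ⟨w, hV j w hw, rfl⟩
      rcases w with x | l
      · have h2 : f x < b + (V.image nm).card := hf2 x h1
        show f x < B
        omega
      · have h2 : g l < 0 + (V.image nm).card := hg2 l h1
        show g l < B
        omega

end Pool.Agent.Lib.Pa53cac
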