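import Pool.Agent.Lib.Pa53cac.NormalNet

/-!
# Restrictions with removal of triangles at the root
-/

namespace Pool.Agent.Lib.Pa53cac

open Relation

/-- The restriction process with removal of triangles at the root. -/
def CleanRes (K : Multiset (Vtx × Vtx)) (A : Finset ℕ) (H : Multiset (Vtx × Vtx)) (σ : Vtx) :
    Prop :=
  ∃ H₀ σ₀, PlainRes K A H₀ σ₀ ∧ ReflTransGen (CleanStep A) (H₀, σ₀) (H, σ) ∧
    ∀ c r, ¬ RootTriangle H σ c r

/-- The cleaned topology of the network `x` is `T`. -/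
def Q (A : Finset ℕ) (T : MixedGraph) (x : Multiset (Vtx × Vtx) × Vtx) : Prop :=
  ∃ y, ReflTransGen (CleanStep A) x y ∧ (∀ c r, ¬ RootTriangle y.1 y.2 c r) ∧
    IsTopology y.1 y.2 T

lemma Q.head {A : Finset ℕ} {T : MixedGraph} {x y : Multiset (Vtx × Vtx) × Vtx}
    (h : Q A T y) (hxy : CleanStep A x y) : Q A T x := by
  obtain ⟨w, h1, h2, h3⟩ := h
  exact ⟨w, .head hxy h1, h2, h3⟩

lemma CleanStep.net {A : Finset ℕ} {x y : Multiset (Vtx × Vtx) × Vtx} (h : CleanStep A x y) :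
    IsNetwork y.1 y.2 A := by
  obtain ⟨_, _, _, h⟩ := h
  exact h.2

lemma CleanStep.sub {A : Finset ℕ} {x y : Multiset (Vtx × Vtx) × Vtx} (h : CleanStep A x y)
    {v : Vtx} : (IsVertex y.1 v → IsVertex x.1 v) ∧ indeg y.1 v ≤ indeg x.1 v := by
  obtain ⟨_, _, _, h⟩ := h
  constructor
  · intro hv
    obtain ⟨e, he, h1⟩ := steps_isVertex h.1 hv
    exact ⟨e, Multiset.mem_of_mem_erase (mem_cut.1 he).1, h1⟩
  · exact (steps_indeg_le h.1 v).trans (Multiset.countP_le_of_le _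
      ((cut_le _ _ _).trans (Multiset.erase_le _ _)))

lemma chain_net {A : Finset ℕ} {x y : Multiset (Vtx × Vtx) × Vtx}
    (h : ReflTransGen (CleanStep A) x y) (hx : IsNetwork x.1 x.2 A) : IsNetwork y.1 y.2 A := by
  rcases ReflTransGen.cases_tail h with h | ⟨_, _, h⟩
  · rw [h]
    exact hx
  · exact h.net

lemma chain_sub {A : Finset ℕ} {x y : Multiset (Vtx × Vtx) × Vtx}
    (h : ReflTransGen (CleanStep A) x y) {v : Vtx} :
    (IsVertex y.1 v → IsVertex x.1 v) ∧ indeg y.1 v ≤ indeg x.1 v := by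
  induction h with
  | refl => exact ⟨fun h => h, le_rfl⟩
  | tail _ h ih => exact ⟨fun hv => ih.1 (h.sub.1 hv), h.sub.2.trans ih.2⟩

lemma Q.vert {A : Finset ℕ} {T : MixedGraph} {x : Multiset (Vtx × Vtx) × Vtx}
    (h : Q A T x) (hx : IsNetwork x.1 x.2 A) {v : Vtx} (hv : T.IsVertex v) :
    0 < indeg x.1 v := by
  obtain ⟨y, h1, _, h3⟩ := h
  have hy := chain_net h1 hx
  rw [h3.isVertex hy] at hv
  exact (hy.rnet.1.indeg_pos hv.1 hv.2).trans_le (chain_sub h1).2

section Renaming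

variable {f g : ℕ → ℕ}

lemma rn_erase {V W : Type*} [DecidableEq V] [DecidableEq W] {h : V → W}
    (hh : Function.Injective h) (G : Multiset (V × V)) (a b : V) :
    rn h (G.erase (a, b)) = (rn h G).erase (h a, h b) := by
  rw [rn, rn, Multiset.map_erase _ (hh.prodMap hh)]
  rfl

lemma RestrictsTo.rn (hf : Function.Injective f) (hg : Function.Injective g)
    {G : Multiset (Vtx × Vtx)} {ρ : Vtx} {A : Finset ℕ} {H : Multiset (Vtx × Vtx)} {σ : Vtx}
    (hA : ∀ x ∈ A, f x = x) (h : RestrictsTo G ρ A H σ) :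
    RestrictsTo (rn (Sum.map f g) G) (Sum.map f g ρ) A (rn (Sum.map f g) H)
      (Sum.map f g σ) := by
  have hi := map_injective hf hg
  constructor
  · rw [← image_leafSet' (g := g) hA, cut_rn hi]
    exact steps_rn hi h.1
  · have := h.2.rn hf hg
    rw [image_eq_of_fix hA] at this
    exact this

lemma CleanStep.rn (hf : Function.Injective f) (hg : Function.Injective g)
    {A : Finset ℕ} (hA : ∀ x ∈ A, f x = x) {x y : Multiset (Vtx × Vtx) × Vtx}
    (h : CleanStep A x y) :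
    CleanStep A (Pa53cac.rn (Sum.map f g) x.1, Sum.map f g x.2)
      (Pa53cac.rn (Sum.map f g) y.1, Sum.map f g y.2) := by
  obtain ⟨c, r, ⟨h1, h2, h3⟩, h4⟩ := h
  refine ⟨Sum.map f g c, Sum.map f g r, ⟨rn_mem h1, rn_mem h2, rn_mem h3⟩, ?_⟩
  have := h4.rn hf hg hA
  rw [rn_erase (map_injective hf hg)] at this
  exact this

lemma chain_rn (hf : Function.Injective f) (hg : Function.Injective g)
    {A : Finset ℕ} (hA : ∀ x ∈ A, f x = x) {x y : Multiset (Vtx × Vtx) × Vtx}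
    (h : ReflTransGen (CleanStep A) x y) :
    ReflTransGen (CleanStep A) (rn (Sum.map f g) x.1, Sum.map f g x.2)
      (rn (Sum.map f g) y.1, Sum.map f g y.2) := by
  induction h with
  | refl => exact .refl
  | tail _ h ih => exact ih.tail (h.rn hf hg hA)

lemma noTri_rn (hf : Function.Injective f) (hg : Function.Injective g)
    {H : Multiset (Vtx × Vtx)} {σ : Vtx} (h : ∀ c r, ¬ RootTriangle H σ c r) :
    ∀ c r, ¬ RootTriangle (rn (Sum.map f g) H) (Sum.map f g σ) c r := by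
  have hi := map_injective hf hg
  rintro c r ⟨h1, h2, h3⟩
  obtain ⟨⟨s, c'⟩, h4, h5⟩ := mem_rn.1 h1
  obtain ⟨⟨s', r'⟩, h6, h7⟩ := mem_rn.1 h2
  obtain ⟨h8, rfl⟩ := Prod.mk.inj h5
  obtain ⟨h9, rfl⟩ := Prod.mk.inj h7
  have h10 := hi h8
  have h11 := hi h9
  simp only at h10 h11
  subst h10 h11
  exact h c' r' ⟨h4, h6, (rn_mem_iff hi).1 h3⟩

lemma Q.rn (hf : Function.Injective f) (hg : Function.Injective g)
    {A : Finset ℕ} (hA : ∀ x ∈ A, f x = x) {T : MixedGraph} {x : Multiset (Vtx × Vtx) × Vtx}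
    (h : Q A T x) :
    Q A (T.map (Sum.map f g)) (Pa53cac.rn (Sum.map f g) x.1, Sum.map f g x.2) := by
  obtain ⟨y, h1, h2, h3⟩ := h
  exact ⟨_, chain_rn hf hg hA h1, noTri_rn hf hg h2, h3.rn (map_injective hf hg)⟩

end Renaming

/-- Results of restrictions are fixed by the cut. -/
lemma res_closed {N Z : Multiset (Vtx × Vtx)} {ρ τ : Vtx} {A : Finset ℕ} (hN : Acyclic N)
    (hT : ∀ t ∈ leafSet A, ∀ e ∈ N, e.1 ≠ t)
    (hZ : PlainRes (cut N ρ (leafSet A)) A Z τ) : cut Z τ (leafSet A) = Z := by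
  classical
  obtain ⟨hZ1, hZ2⟩ := hZ
  obtain ⟨σ, hσ1, hσ2, hσ3⟩ := exists_lsa (T := leafSet A) hN (ρ := ρ)
  rw [hσ3] at hZ1
  set Y := pathUnion N σ (leafSet A) with hY
  have hYN : ∀ e ∈ Y, e ∈ N := pathUnion_subset
  obtain ⟨e₀, he₀⟩ : ∃ e, e ∈ Y := by
    by_contra hcon
    push Not at hcon
    have hY0 : Y = 0 := Multiset.eq_zero_iff_forall_notMem.2 hcon
    rw [hY0] at hZ1
    have := steps_outdeg_le hZ1 τ
    rw [hZ2.root.2] at this
    simp [outdeg] at this
  have hout : ∃ e ∈ Y, e.1 = σ := by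
    obtain ⟨x, y⟩ := e₀
    obtain ⟨h3, h4, t, ht, h5⟩ := mem_pathUnion.1 he₀
    rcases ReflTransGen.cases_head h4 with h6 | ⟨c, h6, h7⟩
    · exact ⟨_, he₀, h6.symm⟩
    · exact ⟨(σ, c), mem_pathUnion.2 ⟨h6, .refl, t, ht, (h7.tail h3).trans h5⟩, rfl⟩
  have hinv : Acyclic Z ∧ (∀ e ∈ Z, e.2 ≠ σ) ∧ (∀ t ∈ leafSet A, ∀ e ∈ Z, e.1 ≠ t) ∧
      cut Z σ (leafSet A) = Z ∧ ∃ e ∈ Z, e.1 = σ := by
    clear hZ2
    induction hZ1 with
    | refl =>
      refine ⟨hN.mono hYN, ?_, fun t ht e he => hT t ht e (hYN e he), ?_, hout⟩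
      · rintro ⟨x, y⟩ hxy h
        simp only at h
        subst h
        obtain ⟨h3, h4, _⟩ := mem_pathUnion.1 hxy
        exact hN _ (TransGen.tail' h4 h3)
      · rw [hY, cut_pathUnion, ← cut_root hN hσ2 hσ1, hσ3]
    | tail _ hst ih =>
      obtain ⟨i1, i2, i3, i4, i5⟩ := ih
      exact ⟨hst.acyclic i1, hst.head_ne i2, fun t ht => hst.tail_ne (i3 t ht),
        hst.closed i1 i2 i3 i4, hst.out_exists i2 i5⟩
  obtain ⟨_, i2, _, i4, i5⟩ := hinv
  have hστ := hZ2.root_unique i2 i5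
  rw [← hστ]
  exact i4

/-- Membership from degree equality. -/
lemma mem_of_indeg {V : Type*} [DecidableEq V] {K N : Multiset (V × V)} (hKN : K ≤ N) {x y : V}
    (hxy : (x, y) ∈ N) (h : indeg N y ≤ indeg K y) : (x, y) ∈ K := by
  by_contra hcon
  have h1 : indeg K y ≤ indeg (N.erase (x, y)) y := by
    apply Multiset.countP_le_of_le
    rw [Multiset.le_iff_count]
    intro e
    by_cases hee : e = (x, y)
    · subst hee
      rw [Multiset.count_eq_zero_of_notMem hcon]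
      omega
    · rw [Multiset.count_erase_of_ne hee]
      exact Multiset.count_le_of_le _ hKN
  have h2 := indeg_erase hxy y
  rw [if_pos rfl] at h2
  omega

/-- Persistence of a triangle at the root. -/
lemma triangle_persists {V : Type*} [DecidableEq V] {Y Z : Multiset (V × V)} {ρ c r : V}
    (hρc : ρ ≠ c) (h : ReflTransGen Step Y Z)
    (hY : (ρ, c) ∈ Y ∧ (ρ, r) ∈ Y ∧ (c, r) ∈ Y ∧ indeg Y ρ = 0 ∧ indeg Y c = 1 ∧
      outdeg Y c = 2 ∧ indeg Y r = 2) :
    (ρ, c) ∈ Z ∧ (ρ, r) ∈ Z ∧ (c, r) ∈ Z ∧ indeg Z ρ = 0 ∧ indeg Z c = 1 ∧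
      outdeg Z c = 2 ∧ indeg Z r = 2 := by
  induction h with
  | refl => exact hY
  | @tail Z W _ hst ih =>
    obtain ⟨m1, m2, m3, d1, d2, d3, d4⟩ := ih
    cases hst with
    | suppress u v w G₀ hvu hvw h₀ =>
      have hv0 : indeg G₀ v = 0 ∧ outdeg G₀ v = 0 :=
        ⟨indeg_eq_zero.2 fun e he => (h₀ e he).2, outdeg_eq_zero.2 fun e he => (h₀ e he).1⟩
      have hvi : indeg ((u, v) ::ₘ (v, w) ::ₘ G₀) v = 1 := by
        rw [indeg_cons, indeg_cons, hv0.1]
        simp [hvw.symm]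
      have hvo : outdeg ((u, v) ::ₘ (v, w) ::ₘ G₀) v = 1 := by
        rw [outdeg_cons, outdeg_cons, hv0.2]
        simp [hvu.symm]
      have n1 : ρ ≠ v := by
        rintro rfl
        omega
      have n2 : c ≠ v := by
        rintro rfl
        omega
      have n3 : r ≠ v := by
        rintro rfl
        omega
      have hmem : ∀ x y, (x, y) ∈ (u, v) ::ₘ (v, w) ::ₘ G₀ → x ≠ v → y ≠ v →
          (x, y) ∈ (u, w) ::ₘ G₀ := by
        intro x y hxy hx hy
        rcases Multiset.mem_cons.1 hxy with h1 | h1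
        · exact absurd (Prod.mk.inj h1).2 hy
        rcases Multiset.mem_cons.1 h1 with h1 | h1
        · exact absurd (Prod.mk.inj h1).1 hx
        · exact Multiset.mem_cons_of_mem h1
      have hin : ∀ x, x ≠ v → indeg ((u, w) ::ₘ G₀) x =
          indeg ((u, v) ::ₘ (v, w) ::ₘ G₀) x := by
        intro x hx
        rw [indeg_cons, indeg_cons, indeg_cons]
        simp [hx.symm]
      have hou : ∀ x, x ≠ v → outdeg ((u, w) ::ₘ G₀) x =
          outdeg ((u, v) ::ₘ (v, w) ::ₘ G₀) x := by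
        intro x hx
        rw [outdeg_cons, outdeg_cons, outdeg_cons]
        simp [hx.symm]
      rw [hin ρ n1, hin c n2, hou c n2, hin r n3]
      exact ⟨hmem _ _ m1 n1 n2, hmem _ _ m2 n1 n3, hmem _ _ m3 n2 n3, d1, d2, d3, d4⟩
    | parallel e G₀ =>
      have hmem : ∀ x, x ∈ e ::ₘ e ::ₘ G₀ → x ∈ e ::ₘ G₀ := by
        intro x hx
        rcases Multiset.mem_cons.1 hx with h1 | h1
        · rw [h1]
          exact Multiset.mem_cons_self _ _
        · exact h1
      have hr : e.2 ≠ r := by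
        intro her
        rw [indeg_cons, indeg_cons, if_pos her] at d4
        have h0 : indeg G₀ r = 0 := by omega
        have g1 : (ρ, r) = e := by
          rcases Multiset.mem_cons.1 (hmem _ m2) with h1 | h1
          · exact h1
          · exact absurd rfl (indeg_eq_zero.1 h0 _ h1)
        have g2 : (c, r) = e := by
          rcases Multiset.mem_cons.1 (hmem _ m3) with h1 | h1
          · exact h1
          · exact absurd rfl (indeg_eq_zero.1 h0 _ h1)
        exact hρc (Prod.mk.inj (g1.trans g2.symm)).1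
      have hc2 : e.2 ≠ c := by
        intro hec
        rw [indeg_cons, indeg_cons, if_pos hec] at d2
        omega
      have hc1 : e.1 ≠ c := by
        intro hec
        rw [outdeg_cons, outdeg_cons, if_pos hec] at d3
        have h0 : outdeg G₀ c = 0 := by omega
        have g2 : (c, r) = e := by
          rcases Multiset.mem_cons.1 (hmem _ m3) with h1 | h1
          · exact h1
          · exact absurd rfl (outdeg_eq_zero.1 h0 _ h1)
        exact hr (by rw [← g2])
      have hρ2 : e.2 ≠ ρ := by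
        intro heρ
        rw [indeg_cons, if_pos heρ] at d1
        omega
      refine ⟨hmem _ m1, hmem _ m2, hmem _ m3, ?_, ?_, ?_, ?_⟩
      · rw [← d1]
        simp [indeg_cons, hρ2]
      · rw [← d2]
        simp [indeg_cons, hc2]
      · rw [← d3]
        simp [outdeg_cons, hc1]
      · rw [← d4]
        simp [indeg_cons, hr]

/-- Degrees at a triangle at the root. -/
lemma RootTriangle.degrees {M : Multiset (Vtx × Vtx)} {ρ c r : Vtx} {A : Finset ℕ}
    (h : IsNetwork M ρ A) (ht : RootTriangle M ρ c r) :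
    indeg M c = 1 ∧ outdeg M c = 2 ∧ indeg M r = 2 ∧ outdeg M r = 1 ∧ ρ ≠ c ∧ ρ ≠ r ∧ c ≠ r ∧
      (∃ k, c = Sum.inr k) := by
  obtain ⟨h1, h2, h3⟩ := ht
  have hρc : ρ ≠ c := h.acyclic.ne_of_mem h1
  have hρr : ρ ≠ r := h.acyclic.ne_of_mem h2
  have hcr : c ≠ r := h.acyclic.ne_of_mem h3
  have hck : ∃ k, c = Sum.inr k := by
    rcases c with x | k
    · exfalso
      have h4 := h.leaf x ((h.label_iff x).1 ⟨_, h3, Or.inl rfl⟩)
      exact outdeg_eq_zero.1 h4.2 _ h3 rfl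
    · exact ⟨k, rfl⟩
  -- shape at the root
  obtain ⟨M₁, rfl⟩ := Multiset.exists_cons_of_mem h1
  have h2' : (ρ, r) ∈ M₁ := by
    rcases Multiset.mem_cons.1 h2 with h4 | h4
    · exact absurd (Prod.mk.inj h4).2.symm hcr
    · exact h4
  obtain ⟨M₂, rfl⟩ := Multiset.exists_cons_of_mem h2'
  have hroot : ∀ e ∈ M₂, e.1 ≠ ρ := by
    have h4 := h.root.2
    rw [outdeg_cons, outdeg_cons] at h4
    simp only [if_true] at h4
    exact outdeg_eq_zero.1 (by omega)
  have hr2 : indeg ((ρ, c) ::ₘ (ρ, r) ::ₘ M₂) r = 2 := by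
    have h4 := (h.degrees r).1
    have h5 : (c, r) ∈ M₂ := by
      rcases Multiset.mem_cons.1 h3 with h6 | h6
      · exact absurd (Prod.mk.inj h6).1.symm hρc
      rcases Multiset.mem_cons.1 h6 with h6 | h6
      · exact absurd (Prod.mk.inj h6).1.symm hρc
      · exact h6
    have h6 := indeg_pos_of_mem h5
    rw [indeg_cons, indeg_cons] at h4 ⊢
    simp only [if_true] at h4 ⊢
    rw [if_neg hcr] at h4 ⊢
    omega
  have hc1 : indeg ((ρ, c) ::ₘ (ρ, r) ::ₘ M₂) c = 1 := by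
    have h4 : 0 < indeg ((ρ, c) ::ₘ (ρ, r) ::ₘ M₂) c := indeg_pos_of_mem h1
    by_contra hcon
    have h5 : 0 < indeg M₂ c := by
      rw [indeg_cons, indeg_cons] at h4 hcon
      simp only [if_true] at h4 hcon
      rw [if_neg hcr.symm] at h4 hcon
      omega
    obtain ⟨x, hx⟩ := indeg_pos.1 h5
    have hx' : (x, c) ∈ (ρ, c) ::ₘ (ρ, r) ::ₘ M₂ :=
      Multiset.mem_cons_of_mem (Multiset.mem_cons_of_mem hx)
    have hxρ : x ≠ ρ := hroot _ hx
    rcases ReflTransGen.cases_head (h.rnet.1.reach ⟨_, hx', Or.inl rfl⟩) with h6 | ⟨y, h6, h7⟩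
    · exact hxρ h6.symm
    · rcases Multiset.mem_cons.1 h6 with h8 | h8
      · rw [(Prod.mk.inj h8).2] at h7
        exact h.acyclic c (TransGen.tail' h7 hx')
      rcases Multiset.mem_cons.1 h8 with h8 | h8
      · rw [(Prod.mk.inj h8).2] at h7
        exact h.acyclic c (TransGen.head (b := r) h3 (TransGen.tail' h7 hx'))
      · exact absurd rfl (hroot _ h8)
  have hc2 : outdeg ((ρ, c) ::ₘ (ρ, r) ::ₘ M₂) c = 2 := by
    obtain ⟨k, rfl⟩ := hck
    have := h.inner k ⟨_, h3, Or.inl rfl⟩ hρc.symm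
    omega
  have hr1 : outdeg ((ρ, c) ::ₘ (ρ, r) ::ₘ M₂) r = 1 := by
    rcases r with x | k
    · have := h.leaf x ((h.label_iff x).1 ⟨_, h3, Or.inr rfl⟩)
      omega
    · have := h.inner k ⟨_, h3, Or.inr rfl⟩ hρr.symm
      omega
  exact ⟨hc1, hc2, hr2, hr1, hρc, hρr, hcr, hck⟩

/-- A reticulation which survives the restriction remains a reticulation. -/
lemma indeg_two_of_survives {M M' : Multiset (Vtx × Vtx)} {σ b : Vtx} {A : Finset ℕ}
    (hM' : IsNetwork M' σ A) (hb : IsVertex M' b) (hb2 : ∃ k, b = Sum.inr k)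
    (hout : outdeg M b ≤ 1) (hle : outdeg M' b ≤ outdeg M b) : indeg M' b = 2 := by
  obtain ⟨k, rfl⟩ := hb2
  have hne : Sum.inr k ≠ σ := by
    intro h
    have := hM'.root.2
    rw [← h] at this
    omega
  have := hM'.inner k hb hne
  omega

lemma normal_unique {X Z W : Multiset (Vtx × Vtx)} (hX : Acyclic X)
    (h1 : ReflTransGen Step X Z) (h2 : ReflTransGen Step X W) (hZ : Normal Z) (hW : Normal W) :
    Z = W := by
  have h3 := steps_to_normal hX h2 hW h1
  rcases ReflTransGen.cases_head h3 with h | ⟨c, hc, _⟩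
  · exact h
  · exact absurd hc (hZ c)

/-- The root of a network is determined. -/
lemma IsNetwork.root_eq {M : Multiset (Vtx × Vtx)} {ρ σ : Vtx} {A B : Finset ℕ}
    (h : IsNetwork M ρ A) (h' : IsNetwork M σ B) : σ = ρ := by
  apply h.root_unique (indeg_eq_zero.1 h'.root.1)
  obtain ⟨c, hc⟩ := outdeg_pos.1 (show 0 < outdeg M σ by rw [h'.root.2]; omega)
  exact ⟨_, hc, rfl⟩

end Pool.Agent.Lib.Pa53cac
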