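import Pool.Agent.Lib.Pa53cac.Clean

/-!
# Deletion of non-surviving reticulations for cleaned restrictions
-/

namespace Pool.Agent.Lib.Pa53cac

open Relation

lemma leaf_out {M : Multiset (Vtx × Vtx)} {ρ : Vtx} {A : Finset ℕ} (h : IsNetwork M ρ A) :
    ∀ t ∈ leafSet A, ∀ e ∈ M, e.1 ≠ t := by
  rintro t ⟨x, hx, rfl⟩
  exact outdeg_eq_zero.1 (h.leaf x hx).2

/-- The case where the other arc of the triangle at the root is deleted. -/
lemma tri_other {A : Finset ℕ} {T : MixedGraph} {M : Multiset (Vtx × Vtx)} {ρ c r : Vtx}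
    (h : IsNetwork M ρ A) (ht : RootTriangle M ρ c r) {M₁ : Multiset (Vtx × Vtx)} {σ₁ : Vtx}
    (h1 : RestrictsTo (M.erase (ρ, r)) ρ A M₁ σ₁) (hQ : Q A T (M₁, σ₁)) :
    ∃ Z τ, PlainRes (cut (M.erase (c, r)) ρ (leafSet A)) A Z τ ∧ Q A T (Z, τ) := by
  classical
  obtain ⟨dc1, dc2, dr1, dr2, nρc, nρr, ncr, m, rfl⟩ := ht.degrees h
  obtain ⟨k, rfl⟩ := h.rnet.2
  have hT := leaf_out h
  have hTr : r ∉ leafSet A := by
    rintro ⟨x, hx, rfl⟩
    have := (h.leaf x hx).1
    omega
  obtain ⟨ht1, ht2, ht3⟩ := ht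
  -- shape of `M`
  obtain ⟨M₂, rfl⟩ := Multiset.exists_cons_of_mem ht1
  have ht2' : (Sum.inr k, r) ∈ M₂ := by
    rcases Multiset.mem_cons.1 ht2 with h4 | h4
    · exact absurd (Prod.mk.inj h4).2.symm ncr
    · exact h4
  obtain ⟨M₃, rfl⟩ := Multiset.exists_cons_of_mem ht2'
  have ht3' : (Sum.inr m, r) ∈ M₃ := by
    rcases Multiset.mem_cons.1 ht3 with h4 | h4
    · exact absurd (Prod.mk.inj h4).1.symm nρc
    rcases Multiset.mem_cons.1 h4 with h4 | h4
    · exact absurd (Prod.mk.inj h4).1.symm nρc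
    · exact h4
  obtain ⟨M₄, rfl⟩ := Multiset.exists_cons_of_mem ht3'
  simp only [outdeg_cons, indeg_cons, if_true, if_neg nρc, if_neg nρc.symm, if_neg nρr,
    if_neg nρr.symm, if_neg ncr, if_neg ncr.symm] at dc1 dc2 dr1 dr2
  obtain ⟨e, he⟩ := outdeg_pos.1 (show 0 < outdeg M₄ (Sum.inr m) by omega)
  obtain ⟨M₅, rfl⟩ := Multiset.exists_cons_of_mem he
  simp only [outdeg_cons, indeg_cons, if_true, if_neg ncr] at dc1 dc2 dr1 dr2
  obtain ⟨f, hf⟩ := outdeg_pos.1 (show 0 < outdeg M₅ r by omega)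
  obtain ⟨M₀, rfl⟩ := Multiset.exists_cons_of_mem hf
  simp only [outdeg_cons, indeg_cons, if_true, if_neg ncr.symm] at dc1 dc2 dr1 dr2
  have hroot := h.root
  simp only [outdeg_cons, indeg_cons, if_true, if_neg nρc.symm, if_neg nρr.symm] at hroot
  have hac := h.acyclic
  have hac' : Acyclic M₀ := hac.mono fun x hx => by simp [hx]
  have nme : (Sum.inr m : Vtx) ≠ e := hac.ne_of_mem (e := (Sum.inr m, e)) (by simp)
  have nrf : r ≠ f := hac.ne_of_mem (e := (r, f)) (by simp)
  have nρe : e ≠ Sum.inr k := by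
    rintro rfl
    simp at hroot
  have nρf : f ≠ Sum.inr k := by
    rintro rfl
    simp at hroot
  have nre : e ≠ r := by
    rintro rfl
    simp at dr1
  have nmf : f ≠ Sum.inr m := by
    rintro rfl
    simp at dc1
  rw [if_neg nme.symm, if_neg nmf] at dc1
  rw [if_neg nre, if_neg nrf.symm] at dr1
  rw [if_neg nρe, if_neg nρf] at hroot
  have c0 : indeg M₀ (Sum.inr m) = 0 ∧ outdeg M₀ (Sum.inr m) = 0 := by omega
  have r0 : indeg M₀ r = 0 ∧ outdeg M₀ r = 0 := by omega
  have ρ0 : indeg M₀ (Sum.inr k) = 0 ∧ outdeg M₀ (Sum.inr k) = 0 := by omega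
  have hc0 : ∀ x ∈ M₀, x.1 ≠ Sum.inr m ∧ x.2 ≠ Sum.inr m := fun x hx =>
    ⟨outdeg_eq_zero.1 c0.2 x hx, indeg_eq_zero.1 c0.1 x hx⟩
  have hr0 : ∀ x ∈ M₀, x.1 ≠ r ∧ x.2 ≠ r := fun x hx =>
    ⟨outdeg_eq_zero.1 r0.2 x hx, indeg_eq_zero.1 r0.1 x hx⟩
  have hρ0 : ∀ x ∈ M₀, x.1 ≠ Sum.inr k ∧ x.2 ≠ Sum.inr k := fun x hx =>
    ⟨outdeg_eq_zero.1 ρ0.2 x hx, indeg_eq_zero.1 ρ0.1 x hx⟩
  have hTsub : ∀ K : Multiset (Vtx × Vtx), (∀ x ∈ K, x.1 = Sum.inr k ∨ x.1 = Sum.inr m ∨
      x.1 = r ∨ x ∈ M₀) → ∀ t ∈ leafSet A, ∀ x ∈ K, x.1 ≠ t := by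
    intro K hK t ht x hx
    rcases hK x hx with h2 | h2 | h2 | h2
    · rw [h2]
      exact hT t ht (Sum.inr k, r) (by simp)
    · rw [h2]
      exact hT t ht (Sum.inr m, r) (by simp)
    · rw [h2]
      exact hT t ht (r, f) (by simp)
    · exact hT t ht x (by simp [h2])
  -- the two deletions
  have e1 : ((Sum.inr k, Sum.inr m) ::ₘ (Sum.inr k, r) ::ₘ (Sum.inr m, r) ::ₘ
      (Sum.inr m, e) ::ₘ (r, f) ::ₘ M₀).erase (Sum.inr k, r) =
      (Sum.inr m, r) ::ₘ (r, f) ::ₘ (Sum.inr k, Sum.inr m) ::ₘ (Sum.inr m, e) ::ₘ M₀ := by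
    rw [Multiset.cons_swap (Sum.inr k, Sum.inr m) (Sum.inr k, r), Multiset.erase_cons_head]
    simp only [← Multiset.singleton_add]
    abel
  have e2 : ((Sum.inr k, Sum.inr m) ::ₘ (Sum.inr k, r) ::ₘ (Sum.inr m, r) ::ₘ
      (Sum.inr m, e) ::ₘ (r, f) ::ₘ M₀).erase (Sum.inr m, r) =
      (Sum.inr k, Sum.inr m) ::ₘ (Sum.inr m, e) ::ₘ (Sum.inr k, r) ::ₘ (r, f) ::ₘ M₀ := by
    rw [Multiset.cons_swap (Sum.inr k, r) (Sum.inr m, r),
      Multiset.cons_swap (Sum.inr k, Sum.inr m) (Sum.inr m, r), Multiset.erase_cons_head]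
    simp only [← Multiset.singleton_add]
    abel
  rw [e2]
  unfold RestrictsTo at h1
  rw [e1] at h1
  obtain ⟨h11, h12⟩ := h1
  -- first deletion: suppress `r`
  have s1 : Step ((Sum.inr m, r) ::ₘ (r, f) ::ₘ (Sum.inr k, Sum.inr m) ::ₘ
      (Sum.inr m, e) ::ₘ M₀) ((Sum.inr m, f) ::ₘ (Sum.inr k, Sum.inr m) ::ₘ
      (Sum.inr m, e) ::ₘ M₀) := by
    apply Step.suppress _ _ _ _ ncr.symm nrf
    intro x hx
    rcases Multiset.mem_cons.1 hx with rfl | hx
    · exact ⟨nρr, ncr⟩
    rcases Multiset.mem_cons.1 hx with rfl | hx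
    · exact ⟨ncr, nre⟩
    · exact hr0 x hx
  have acK : Acyclic ((Sum.inr m, r) ::ₘ (r, f) ::ₘ (Sum.inr k, Sum.inr m) ::ₘ
      (Sum.inr m, e) ::ₘ M₀) := hac.mono fun x hx => by
    simp only [Multiset.mem_cons] at hx ⊢
    tauto
  have hρK : ∀ x ∈ (Sum.inr m, r) ::ₘ (r, f) ::ₘ (Sum.inr k, Sum.inr m) ::ₘ
      (Sum.inr m, e) ::ₘ M₀, x.2 ≠ Sum.inr k := by
    intro x hx
    simp only [Multiset.mem_cons] at hx
    rcases hx with rfl | rfl | rfl | rfl | hx
    · exact nρr.symm
    · exact nρf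
    · exact nρc.symm
    · exact nρe
    · exact (hρ0 x hx).2
  have hnorm := h12.normal
  have w1 := (iff_of_step (acK.mono fun x hx => (mem_cut.1 hx).1)
    (step_cut s1 acK (ρ := Sum.inr k) (T := leafSet A) hρK (hTsub _ (by
      intro x hx
      simp only [Multiset.mem_cons] at hx
      rcases hx with rfl | rfl | rfl | rfl | hx
      · exact Or.inr (Or.inl rfl)
      · exact Or.inr (Or.inr (Or.inl rfl))
      · exact Or.inl rfl
      · exact Or.inr (Or.inl rfl)
      · exact Or.inr (Or.inr (Or.inr hx))))) hnorm).1 h11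
  set W := (Sum.inr m, f) ::ₘ (Sum.inr m, e) ::ₘ M₀ with hW
  have e3 : (Sum.inr m, f) ::ₘ (Sum.inr k, Sum.inr m) ::ₘ (Sum.inr m, e) ::ₘ M₀ =
      (Sum.inr k, Sum.inr m) ::ₘ W := by
    rw [Multiset.cons_swap]
  have hkW : ∀ x ∈ W, x.1 ≠ Sum.inr k ∧ x.2 ≠ Sum.inr k := by
    intro x hx
    simp only [hW, Multiset.mem_cons] at hx
    rcases hx with rfl | rfl | hx
    · exact ⟨nρc.symm, nρf⟩
    · exact ⟨nρc.symm, nρe⟩
    · exact hρ0 x hx
  have acW : Acyclic ((Sum.inr k, Sum.inr m) ::ₘ W) := by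
    rw [← e3]
    exact s1.acyclic acK
  have hkT : (Sum.inr k : Vtx) ∉ leafSet A := by
    rintro ⟨x, _, hx⟩
    simp at hx
  rw [e3, cut_top acW hkW nρc hkT] at w1
  -- second deletion: suppress `c` and `r`
  have s2 : Step ((Sum.inr k, Sum.inr m) ::ₘ (Sum.inr m, e) ::ₘ (Sum.inr k, r) ::ₘ
      (r, f) ::ₘ M₀) ((Sum.inr k, e) ::ₘ (Sum.inr k, r) ::ₘ (r, f) ::ₘ M₀) := by
    apply Step.suppress _ _ _ _ nρc.symm nme
    intro x hx
    simp only [Multiset.mem_cons] at hx
    rcases hx with rfl | rfl | hx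
    · exact ⟨nρc, ncr.symm⟩
    · exact ⟨ncr.symm, nmf⟩
    · exact hc0 x hx
  have s3 : Step ((Sum.inr k, r) ::ₘ (r, f) ::ₘ (Sum.inr k, e) ::ₘ M₀)
      ((Sum.inr k, f) ::ₘ (Sum.inr k, e) ::ₘ M₀) := by
    apply Step.suppress _ _ _ _ nρr.symm nrf
    intro x hx
    simp only [Multiset.mem_cons] at hx
    rcases hx with rfl | hx
    · exact ⟨nρr, nre⟩
    · exact hr0 x hx
  have e4 : (Sum.inr k, e) ::ₘ (Sum.inr k, r) ::ₘ (r, f) ::ₘ M₀ =
      (Sum.inr k, r) ::ₘ (r, f) ::ₘ (Sum.inr k, e) ::ₘ M₀ := by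
    simp only [← Multiset.singleton_add]
    abel
  have acL : Acyclic ((Sum.inr k, Sum.inr m) ::ₘ (Sum.inr m, e) ::ₘ (Sum.inr k, r) ::ₘ
      (r, f) ::ₘ M₀) := hac.mono fun x hx => by
    simp only [Multiset.mem_cons] at hx ⊢
    tauto
  have acL2 := s2.acyclic acL
  have hρL : ∀ x ∈ (Sum.inr k, Sum.inr m) ::ₘ (Sum.inr m, e) ::ₘ (Sum.inr k, r) ::ₘ
      (r, f) ::ₘ M₀, x.2 ≠ Sum.inr k := by
    intro x hx
    simp only [Multiset.mem_cons] at hx
    rcases hx with rfl | rfl | rfl | rfl | hx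
    · exact nρc.symm
    · exact nρe
    · exact nρr.symm
    · exact nρf
    · exact (hρ0 x hx).2
  -- renaming
  have hinj : Function.Injective (Sum.map id (Equiv.swap k m) : Vtx → Vtx) :=
    map_id_injective (Equiv.swap k m).injective
  have hfix : ∀ v : Vtx, v ≠ Sum.inr k → v ≠ Sum.inr m →
      (Sum.map id (Equiv.swap k m) : Vtx → Vtx) v = v := by
    intro v h1 h2
    rcases v with x | j
    · rfl
    · simp only [Sum.map_inr]
      rw [Equiv.swap_apply_of_ne_of_ne]
      · exact fun h' => h1 (by rw [h'])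
      · exact fun h' => h2 (by rw [h'])
  have ekm : (Sum.map id (Equiv.swap k m) : Vtx → Vtx) (Sum.inr m) = Sum.inr k := by simp
  have erW : rn (Sum.map id (Equiv.swap k m)) W =
      (Sum.inr k, f) ::ₘ (Sum.inr k, e) ::ₘ M₀ := by
    rw [hW, rn_cons, rn_cons]
    simp only
    rw [ekm, hfix f nρf nmf, hfix e nρe nme.symm]
    have : rn (Sum.map id (Equiv.swap k m) : Vtx → Vtx) M₀ = rn id M₀ := by
      apply rn_congr
      rintro v ⟨x, hx, hv⟩
      have h1 := hc0 x hx
      have h2 := hρ0 x hx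
      apply hfix
      · rcases hv with rfl | rfl
        · exact h2.1
        · exact h2.2
      · rcases hv with rfl | rfl
        · exact h1.1
        · exact h1.2
    rw [this, rn_id]
  have w2 : ReflTransGen Step (cut ((Sum.inr k, f) ::ₘ (Sum.inr k, e) ::ₘ M₀) (Sum.inr k)
      (leafSet A)) (rn (Sum.map id (Equiv.swap k m)) M₁) := by
    have h2 := steps_rn hinj w1
    rw [← cut_rn hinj, ekm, image_leafSet, erW] at h2
    exact h2
  have hnet' := h12.rn Function.injective_id (Equiv.swap k m).injective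
  rw [image_eq_of_fix (f := id) (fun _ _ => rfl)] at hnet'
  refine ⟨_, _, ⟨?_, hnet'⟩, ?_⟩
  · rw [iff_of_step (acL.mono fun x hx => (mem_cut.1 hx).1)
      (step_cut s2 acL (ρ := Sum.inr k) (T := leafSet A) hρL (hTsub _ (by
        intro x hx
        simp only [Multiset.mem_cons] at hx
        rcases hx with rfl | rfl | rfl | rfl | hx
        · exact Or.inl rfl
        · exact Or.inr (Or.inl rfl)
        · exact Or.inl rfl
        · exact Or.inr (Or.inr (Or.inl rfl))
        · exact Or.inr (Or.inr (Or.inr hx))))) hnet'.normal]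
    rw [e4] at acL2 ⊢
    rw [iff_of_step (acL2.mono fun x hx => (mem_cut.1 hx).1)
      (step_cut s3 acL2 (ρ := Sum.inr k) (T := leafSet A) (by
        intro x hx
        have := s2.head_ne hρL
        rw [e4] at this
        exact this x hx) (hTsub _ (by
        intro x hx
        simp only [Multiset.mem_cons] at hx
        rcases hx with rfl | rfl | rfl | hx
        · exact Or.inl rfl
        · exact Or.inr (Or.inr (Or.inl rfl))
        · exact Or.inl rfl
        · exact Or.inr (Or.inr (Or.inr hx))))) hnet'.normal]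
    exact w2
  · have h2 := hQ.rn (f := id) Function.injective_id (Equiv.swap k m).injective
      (fun _ _ => rfl)
    have h3 : T.map (Sum.map id (Equiv.swap k m)) = T := by
      conv_rhs => rw [← T.map_id']
      apply MixedGraph.map_congr
      intro v hv
      have h4 := hQ.vert h12 hv
      have h5 : 0 < indeg W v :=
        (h4.trans_le (steps_indeg_le w1 v)).trans_le (Multiset.countP_le_of_le _ (cut_le _ _ _))
      apply hfix
      · rintro rfl
        rw [indeg_eq_zero.2 fun x hx => (hkW x hx).2] at h5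
        omega
      · rintro rfl
        rw [hW, indeg_cons, indeg_cons, c0.1, if_neg nmf, if_neg nme.symm] at h5
        omega
    rw [h3] at h2
    exact h2

/-- Deleting an arc into a reticulation which does not survive the cleaned restriction. -/
theorem clean_deletion {A : Finset ℕ} {T : MixedGraph} : ∀ (n : ℕ) (M : Multiset (Vtx × Vtx))
    (ρ : Vtx), M.card ≤ n → IsNetwork M ρ A → cut M ρ (leafSet A) = M → Q A T (M, ρ) →
    ∀ a b, (a, b) ∈ M → indeg M b = 2 → ¬ T.IsVertex b →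
    ∃ Z τ, PlainRes (cut (M.erase (a, b)) ρ (leafSet A)) A Z τ ∧ Q A T (Z, τ) := by
  classical
  intro n
  induction n with
  | zero =>
    intro M ρ hn h _ _ a b hab _ _
    have : M = 0 := Multiset.card_eq_zero.1 (by omega)
    rw [this] at hab
    simp at hab
  | succ n ih =>
    intro M ρ hn h hc hQ a b hab hb hbT
    have hT := leaf_out h
    obtain ⟨y, hy1, hy2, hy3⟩ := hQ
    have hbρ : b ≠ ρ := by
      rintro rfl
      rw [h.root.1] at hb
      omega
    rcases ReflTransGen.cases_head hy1 with hy4 | ⟨⟨M₁, σ₁⟩, hstep, hy4⟩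
    · exfalso
      subst hy4
      exact hbT ((hy3.isVertex h).2 ⟨⟨_, hab, Or.inr rfl⟩, hbρ⟩)
    have hQ₁ : Q A T (M₁, σ₁) := ⟨y, hy4, hy2, hy3⟩
    obtain ⟨c, r, htri, hres⟩ := hstep
    simp only at htri hres
    have htri' := htri
    obtain ⟨dc1, dc2, dr1, dr2, nρc, nρr, ncr, hck⟩ := htri.degrees h
    obtain ⟨t1, t2, t3⟩ := htri
    by_cases hbr : b = r
    · subst hbr
      -- the arc is one of the two arcs into `r`
      obtain ⟨a', G₀, hG, hG₀⟩ := retic_shape hb t2
      by_cases haρ : a = ρ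
      · subst haρ
        exact ⟨M₁, σ₁, hres, hQ₁⟩
      · have hac : a = c := by
          have h1 : a' = c := by
            rw [hG] at t3
            rcases Multiset.mem_cons.1 t3 with h2 | h2
            · exact absurd (Prod.mk.inj h2).1.symm nρc
            rcases Multiset.mem_cons.1 h2 with h2 | h2
            · exact (Prod.mk.inj h2).1.symm
            · exact absurd rfl (hG₀ _ h2)
          rw [hG] at hab
          rcases Multiset.mem_cons.1 hab with h2 | h2
          · exact absurd (Prod.mk.inj h2).1 haρ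
          rcases Multiset.mem_cons.1 h2 with h2 | h2
          · rw [(Prod.mk.inj h2).1, h1]
          · exact absurd rfl (hG₀ _ h2)
        subst hac
        exact tri_other h htri' hres hQ₁
    -- now `b ≠ r`
    have hbc : b ≠ c := by
      rintro rfl
      omega
    obtain ⟨kb, hkb⟩ : ∃ k, b = Sum.inr k := by
      rcases b with x | k
      · have := h.leaf x ((h.label_iff x).1 ⟨_, hab, Or.inr rfl⟩)
        omega
      · exact ⟨k, rfl⟩
    have hbout : outdeg M b ≤ 1 := by
      have := h.degrees b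
      omega
    obtain ⟨kr, hkr⟩ : ∃ k, r = Sum.inr k := by
      rcases r with x | k
      · have := h.leaf x ((h.label_iff x).1 ⟨_, t2, Or.inr rfl⟩)
        omega
      · exact ⟨k, rfl⟩
    -- the two deletions
    set N := M.erase (a, b) with hN
    set N' := M.erase (ρ, r) with hN'
    have hne : (a, b) ≠ (ρ, r) := fun h' => hbr (Prod.mk.inj h').2
    have hcomm : N'.erase (a, b) = N.erase (ρ, r) := by
      rw [hN, hN', Multiset.erase_comm]
    have hρrN : (ρ, r) ∈ N := (Multiset.mem_erase_of_ne hne.symm).2 t2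
    have habN' : (a, b) ∈ N' := (Multiset.mem_erase_of_ne hne).2 hab
    have dN : ∀ v, indeg N v + (if b = v then 1 else 0) = indeg M v := indeg_erase hab
    have dN' : ∀ v, indeg N' v + (if r = v then 1 else 0) = indeg M v := indeg_erase t2
    have dN2 : ∀ v, indeg (N.erase (ρ, r)) v + (if r = v then 1 else 0) = indeg N v :=
      indeg_erase hρrN
    have hNM : ∀ e ∈ N, e ∈ M := fun e he => Multiset.mem_of_mem_erase he
    have hN'M : ∀ e ∈ N', e ∈ M := fun e he => Multiset.mem_of_mem_erase he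
    have hNac : Acyclic N := h.acyclic.mono hNM
    have hN'ac : Acyclic N' := h.acyclic.mono hN'M
    have hpos2 : ∀ v, IsVertex M v → v ≠ ρ → 0 < indeg (N.erase (ρ, r)) v := by
      intro v hv hvρ
      have h1 := h.rnet.1.indeg_pos hv hvρ
      have h2 := dN v
      have h3 := dN2 v
      by_cases hbv : b = v
      · subst hbv
        rw [if_pos rfl] at h2
        rw [if_neg (Ne.symm hbr)] at h3
        omega
      · rw [if_neg hbv] at h2
        by_cases hrv : r = v
        · subst hrv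
          rw [if_pos rfl] at h3
          omega
        · rw [if_neg hrv] at h3
          omega
    have hreach2 : ∀ v, IsVertex M v → Reach (N.erase (ρ, r)) ρ v := by
      intro v hv
      by_cases hvρ : v = ρ
      · rw [hvρ]
      · apply reach_of_root (hNac.mono fun e he => Multiset.mem_of_mem_erase he)
        · intro w hw hwρ
          exact indeg_pos.1 (hpos2 w (isVertex_erase (isVertex_erase hw)) hwρ)
        · exact isVertex_of_indeg (hpos2 v hv hvρ)
    have hTN : ∀ t ∈ leafSet A, ∀ e ∈ N, e.1 ≠ t := fun t ht e he => hT t ht e (hNM e he)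
    have hTN' : ∀ t ∈ leafSet A, ∀ e ∈ N', e.1 ≠ t := fun t ht e he => hT t ht e (hN'M e he)
    obtain ⟨Z, τ, hZ⟩ := h.erase_res hc hab hb
    refine ⟨Z, τ, hZ, ?_⟩
    -- claim 1
    have claim1 : ∃ M₂ σ₂, PlainRes (cut (N.erase (ρ, r)) ρ (leafSet A)) A M₂ σ₂ ∧
        Q A T (M₂, σ₂) := by
      have hbN' : indeg N' b = 2 := by
        have h1 := dN' b
        rw [if_neg (Ne.symm hbr)] at h1
        omega
      have hreachN' : ∀ v, IsVertex N' v → Reach (N'.erase (a, b)) ρ v := by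
        intro v hv
        rw [hcomm]
        exact hreach2 v (isVertex_erase hv)
      by_cases hbM₁ : IsVertex M₁ b
      · have hle : outdeg M₁ b ≤ outdeg M b :=
          (steps_outdeg_le hres.1 b).trans (Multiset.countP_le_of_le _
            ((cut_le _ _ _).trans (Multiset.erase_le _ _)))
        have hb₁ : indeg M₁ b = 2 :=
          indeg_two_of_survives hres.2 hbM₁ ⟨kb, hkb⟩ hbout hle
        obtain ⟨a', σ', g1, _, g3, g4, g5⟩ := commute_cut hN'ac hTN' habN' hbN' hreachN'
          hb₁ hres.1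
        have hσ' := hres.2.root_unique g3 g4
        subst hσ'
        have hcard : M₁.card ≤ n := by
          have h1 := steps_card_le hres.1
          have h2 := Multiset.card_le_card (cut_le N' ρ (leafSet A))
          have h3 : N'.card + 1 = M.card := by
            rw [hN', Multiset.card_erase_add_one t2]
          omega
        obtain ⟨M₂, σ₂, g6, g7⟩ := ih M₁ σ' hcard hres.2 (res_closed hN'ac hTN' hres) hQ₁ a' b
          g1 hb₁ hbT
        refine ⟨M₂, σ₂, ⟨?_, g6.2⟩, g7⟩
        rw [← hcomm, g5 _ g6.2.normal]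
        exact g6.1
      · refine ⟨M₁, σ₁, ⟨?_, hres.2⟩, hQ₁⟩
        rw [← hcomm]
        exact deletion_cut hN'ac hTN' habN' hbN' hreachN' hbM₁ hres.1
    obtain ⟨M₂, σ₂, hM₂, hQ₂⟩ := claim1
    have hrN : indeg N r = 2 := by
      have h1 := dN r
      rw [if_neg hbr] at h1
      omega
    have hreachN : ∀ v, IsVertex N v → Reach (N.erase (ρ, r)) ρ v :=
      fun v hv => hreach2 v (isVertex_erase hv)
    by_cases hrZ : IsVertex Z r
    · -- the triangle at the root persists
      have hle : outdeg Z r ≤ outdeg M r :=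
        (steps_outdeg_le hZ.1 r).trans (Multiset.countP_le_of_le _
          ((cut_le _ _ _).trans (Multiset.erase_le _ _)))
      have hrZ2 : indeg Z r = 2 :=
        indeg_two_of_survives hZ.2 hrZ ⟨kr, hkr⟩ (by omega) hle
      set Y := cut N ρ (leafSet A) with hY
      have hYN : Y ≤ N := cut_le _ _ _
      have hYr : 2 ≤ indeg Y r := by
        have := steps_indeg_le hZ.1 r
        omega
      have hcrN : (c, r) ∈ N :=
        (Multiset.mem_erase_of_ne (fun h' => hbr (Prod.mk.inj h').2.symm)).2 t3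
      have hρcN : (ρ, c) ∈ N :=
        (Multiset.mem_erase_of_ne (fun h' => hbc (Prod.mk.inj h').2.symm)).2 t1
      have y2 : (ρ, r) ∈ Y := mem_of_indeg hYN hρrN (by omega)
      have y3 : (c, r) ∈ Y := mem_of_indeg hYN hcrN (by omega)
      have y1 : (ρ, c) ∈ Y := by
        obtain ⟨_, ⟨z1, _⟩, z2⟩ := mem_cut.1 y2
        obtain ⟨_, ⟨_, t, ht, z4⟩, _⟩ := mem_cut.1 y3
        exact mem_cut.2 ⟨hρcN, ⟨z1, t, ht, z4.head hcrN⟩, z2⟩
      have dρ : indeg Y ρ = 0 := by
        have h1 : indeg Y ρ ≤ indeg M ρ := Multiset.countP_le_of_le _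
          (hYN.trans (Multiset.erase_le _ _))
        rw [h.root.1] at h1
        omega
      have dc : indeg Y c = 1 := by
        have h1 : indeg Y c ≤ indeg M c := Multiset.countP_le_of_le _
          (hYN.trans (Multiset.erase_le _ _))
        have h2 := indeg_pos_of_mem y1
        omega
      have dr : indeg Y r = 2 := by
        have h1 : indeg Y r ≤ indeg N r := Multiset.countP_le_of_le _ hYN
        omega
      have doc : outdeg Y c = 2 := by
        have h1 : outdeg Y c ≤ outdeg M c := Multiset.countP_le_of_le _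
          (hYN.trans (Multiset.erase_le _ _))
        have h2 := outdeg_pos_of_mem y3
        by_contra hcon
        have h3 : outdeg Y c = 1 := by omega
        -- then `c` can be suppressed and the two arcs `(ρ, r)` merged
        obtain ⟨Y₁, hY₁⟩ := Multiset.exists_cons_of_mem y1
        have y3' : (c, r) ∈ Y₁ := by
          rw [hY₁] at y3
          rcases Multiset.mem_cons.1 y3 with h4 | h4
          · exact absurd (Prod.mk.inj h4).1.symm nρc
          · exact h4
        obtain ⟨Y₂, hY₂⟩ := Multiset.exists_cons_of_mem y3'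
        have y2' : (ρ, r) ∈ Y₂ := by
          rw [hY₁, hY₂] at y2
          rcases Multiset.mem_cons.1 y2 with h4 | h4
          · exact absurd (Prod.mk.inj h4).2.symm ncr
          rcases Multiset.mem_cons.1 h4 with h4 | h4
          · exact absurd (Prod.mk.inj h4).1 nρc
          · exact h4
        obtain ⟨Y₃, hY₃⟩ := Multiset.exists_cons_of_mem y2'
        have hYe : Y = (ρ, c) ::ₘ (c, r) ::ₘ (ρ, r) ::ₘ Y₃ := by rw [hY₁, hY₂, hY₃]
        have dcY : indeg Y₃ c = 0 ∧ outdeg Y₃ c = 0 := by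
          rw [hYe] at dc h3
          simp only [indeg_cons, outdeg_cons, if_true, if_neg nρc, if_neg ncr.symm] at dc h3
          omega
        have hs1 : Step Y ((ρ, r) ::ₘ (ρ, r) ::ₘ Y₃) := by
          rw [hYe]
          apply Step.suppress _ _ _ _ nρc.symm ncr
          intro x hx
          rcases Multiset.mem_cons.1 hx with rfl | hx
          · exact ⟨nρc, ncr.symm⟩
          · exact ⟨outdeg_eq_zero.1 dcY.2 x hx, indeg_eq_zero.1 dcY.1 x hx⟩
        have hs2 : ReflTransGen Step Y ((ρ, r) ::ₘ Y₃) :=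
          (ReflTransGen.single hs1).tail (Step.parallel _ _)
        have hYac : Acyclic Y := hNac.mono fun x hx => (mem_cut.1 hx).1
        have hs3 := steps_to_normal hYac hZ.1 hZ.2.normal hs2
        have h4 := steps_indeg_le hs3 r
        rw [hYe] at dr
        simp only [indeg_cons, if_true, if_neg ncr] at dr h4
        omega
      obtain ⟨z1, z2, z3, dzρ, _, _, _⟩ := triangle_persists nρc hZ.1
        ⟨y1, y2, y3, dρ, dc, doc, dr⟩
      have hρτ : ρ = τ := hZ.2.root_unique (indeg_eq_zero.1 dzρ) ⟨_, z1, rfl⟩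
      subst hρτ
      have hρN : ∀ e ∈ N, e.2 ≠ ρ := fun e he => indeg_eq_zero.1 h.root.1 e (hNM e he)
      obtain ⟨a', σ', _, g2, g3, g4, g5⟩ := commute_cut hNac hTN hρrN hrN hreachN hrZ2 hZ.1
      have ha' := g2 hρN
      have hσ' := hZ.2.root_unique g3 g4
      subst ha' hσ'
      refine Q.head hQ₂ ⟨c, r, ⟨z1, z2, z3⟩, ?_, hM₂.2⟩
      exact (g5 _ hM₂.2.normal).1 hM₂.1
    · have h1 := deletion_cut hNac hTN hρrN hrN hreachN hrZ hZ.1
      have h2 := normal_unique ((hNac.mono fun x hx => Multiset.mem_of_mem_erase hx).mono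
        fun x hx => (mem_cut.1 hx).1) h1 hM₂.1 hZ.2.normal hM₂.2.normal
      subst h2
      have h3 := hZ.2.root_eq hM₂.2
      subst h3
      exact hQ₂

end Pool.Agent.Lib.Pa53cac
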