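import Pool.Agent.Lib.Pa53cac.IsoProg

/-!
# Correctness and computability of the decision procedure
-/

namespace Pool.Agent.Lib.Pa53cac

open Relation Prim

variable {Res : Multiset Arc → Finset ℕ → Multiset Arc → Vtx → Prop}

/-- Compatibility, where for every restriction its own root location may be used. -/
def CompatA (Res : Multiset Arc → Finset ℕ → Multiset Arc → Vtx → Prop)
    (C : List MixedGraph) : Prop :=
  ∃ N X, IsSemiDirected N X ∧ ∀ N' ∈ C, ∃ A, N'.HasLeafSet A ∧ A ⊆ X ∧
    ∃ G ρ H σ M, IsNetwork G ρ X ∧ IsTopology G ρ N ∧ Res (cut G ρ (leafSet A)) A H σ ∧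
      IsTopology H σ M ∧ M.Iso N'

/-- Compatibility, where the same root location is used for all restrictions. -/
def CompatB (Res : Multiset Arc → Finset ℕ → Multiset Arc → Vtx → Prop)
    (C : List MixedGraph) : Prop :=
  ∃ N G ρ X, IsNetwork G ρ X ∧ IsTopology G ρ N ∧ ∀ N' ∈ C, ∃ A, N'.HasLeafSet A ∧ A ⊆ X ∧
    ∃ H σ M, Res (cut G ρ (leafSet A)) A H σ ∧ IsTopology H σ M ∧ M.Iso N'

/-- A program computing the possible results of a restriction. -/
structure ResProg (Res : Multiset Arc → Finset ℕ → Multiset Arc → Vtx → Prop)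
    (resB : List Arc × List ℕ → List (List Arc × Vtx)) : Prop where
  prim : Primrec resB
  spec : ∀ (K : List Arc) (A : List ℕ) (H : Multiset Arc) (σ : Vtx),
    Res (K : Multiset Arc) A.toFinset H σ ↔
    ∃ p ∈ resB (K, A), (p.1 : Multiset Arc) = H ∧ p.2 = σ

section Check

/-- All vertices with name below `B`. -/
def vs (B : ℕ) : List Vtx :=
  ((List.range B).map fun x => Sum.inl x) ++ ((List.range B).map fun x => Sum.inr x)

@[fun_prop] lemma pr_vs {α : Type*} [Primcodable α] {f : α → ℕ} (hf : Primrec f) :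
    Primrec fun x => vs (f x) := by
  unfold vs
  fun_prop

lemma mem_vs {B : ℕ} {v : Vtx} : v ∈ vs B ↔ nm v < B := by
  rcases v with x | k <;> simp [vs, nm]

/-- All arcs with names below `B`. -/
def arcsB (B : ℕ) : List Arc := (vs B).flatMap fun u => (vs B).map fun v => (u, v)

@[fun_prop] lemma pr_arcsB {α : Type*} [Primcodable α] {f : α → ℕ} (hf : Primrec f) :
    Primrec fun x => arcsB (f x) := by
  unfold arcsB
  fun_prop

lemma mem_arcsB {B : ℕ} {e : Arc} : e ∈ arcsB B ↔ nm e.1 < B ∧ nm e.2 < B := by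
  obtain ⟨a, b⟩ := e
  simp [arcsB, mem_vs]

/-- All networks (with their roots) of bounded size. -/
def rooted (B : ℕ) : List (List Arc × Vtx) :=
  (lists B (arcsB B)).flatMap fun l => (vs B).flatMap fun ρ =>
    bif netB l ρ then [(l, ρ)] else []

@[fun_prop] lemma pr_rooted {α : Type*} [Primcodable α] {f : α → ℕ} (hf : Primrec f) :
    Primrec fun x => rooted (f x) := by
  unfold rooted
  fun_prop

lemma mem_rooted {B : ℕ} {R : List Arc × Vtx} (h : R ∈ rooted B) :
    IsNetwork (R.1 : Multiset Arc) R.2 (labB R.1).toFinset := by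
  rw [rooted, List.mem_flatMap] at h
  obtain ⟨l, _, h⟩ := h
  rw [List.mem_flatMap] at h
  obtain ⟨ρ, _, h⟩ := h
  cases hb : netB l ρ
  · rw [hb] at h
    simp at h
  · rw [hb] at h
    simp only [cond_true, List.mem_singleton] at h
    subst h
    exact netB_iff.1 hb

lemma mem_rooted_of {B : ℕ} {l : List Arc} {ρ : Vtx} {X : Finset ℕ} (hl : l.length ≤ B)
    (hB : ∀ v, IsVertex (l : Multiset Arc) v → nm v < B) (hρ : nm ρ < B)
    (h : IsNetwork (l : Multiset Arc) ρ X) : (l, ρ) ∈ rooted B := by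
  rw [rooted, List.mem_flatMap]
  refine ⟨l, mem_lists hl ?_, ?_⟩
  · intro e he
    rw [mem_arcsB]
    exact ⟨hB _ ⟨e, he, Or.inl rfl⟩, hB _ ⟨e, he, Or.inr rfl⟩⟩
  · rw [List.mem_flatMap]
    refine ⟨ρ, mem_vs.2 hρ, ?_⟩
    rw [h.leafset_eq] at h
    rw [netB_iff.2 h]
    simp

/-- Labels of an encoded mixed graph. -/
def labP (p : List Arc × List Arc) : List ℕ := labB (p.1 ++ p.2)

@[fun_prop] lemma pr_labP {α : Type*} [Primcodable α] {f : α → List Arc × List Arc}
    (hf : Primrec f) : Primrec fun x => labP (f x) := by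
  unfold labP
  fun_prop

lemma isVertex_toMG {p : List Arc × List Arc} {v : Vtx} :
    (toMG p).IsVertex v ↔ IsVertex ((p.1 ++ p.2 : List Arc) : Multiset Arc) v := by
  simp only [MixedGraph.IsVertex, toMG, IsVertex, Multiset.mem_coe, List.mem_append, List.mem_map]
  constructor
  · rintro (⟨e, he, h⟩ | ⟨_, ⟨e, he, rfl⟩, h⟩)
    · exact ⟨e, Or.inl he, h⟩
    · rw [Sym2.mem_iff] at h
      refine ⟨e, Or.inr he, ?_⟩
      rcases h with h | h
      · exact Or.inl h.symm
      · exact Or.inr h.symm
  · rintro ⟨e, he | he, h⟩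
    · exact Or.inl ⟨e, he, h⟩
    · refine Or.inr ⟨_, ⟨e, he, rfl⟩, ?_⟩
      rw [Sym2.mem_iff]
      rcases h with h | h
      · exact Or.inl h.symm
      · exact Or.inr h.symm

lemma hasLeafSet_labP (p : List Arc × List Arc) : (toMG p).HasLeafSet (labP p).toFinset := by
  intro x
  rw [List.mem_toFinset, labP, mem_labB, isVertex_toMG]

lemma HasLeafSet.unique {M : MixedGraph} {A A' : Finset ℕ} (h : M.HasLeafSet A)
    (h' : M.HasLeafSet A') : A = A' := by
  ext x
  rw [← h x, ← h' x]

/-- Checking one restriction. -/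
def checkB (resB : List Arc × List ℕ → List (List Arc × Vtx)) (B : ℕ) (R : List Arc × Vtx)
    (p : List Arc × List Arc) : Bool :=
  all (labP p) (fun x => memb x (labB R.1)) &&
    any (resB (cutB R.1 R.2 ((labP p).map fun x => Sum.inl x), labP p)) fun h =>
      any (tops h.1 h.2) fun t => isoB B t p

@[fun_prop] lemma pr_checkB {α : Type*} [Primcodable α]
    {resB : List Arc × List ℕ → List (List Arc × Vtx)} (hres : Primrec resB) {b : α → ℕ}
    {f : α → List Arc × Vtx} {g : α → List Arc × List Arc}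
    (hb : Primrec b) (hf : Primrec f) (hg : Primrec g) :
    Primrec fun x => checkB resB (b x) (f x) (g x) := by
  unfold checkB
  fun_prop

lemma leafSet_eq (A : List ℕ) :
    {v : Vtx | v ∈ A.map fun x => Sum.inl x} = leafSet A.toFinset := by
  ext v
  simp only [Set.mem_ofPred_eq, List.mem_map, leafSet, List.mem_toFinset]
  constructor
  · rintro ⟨x, hx, rfl⟩
    exact ⟨x, hx, rfl⟩
  · rintro ⟨x, hx, rfl⟩
    exact ⟨x, hx, rfl⟩

/-- The condition checked. -/
def Cond (Res : Multiset Arc → Finset ℕ → Multiset Arc → Vtx → Prop) (G : Multiset Arc) (ρ : Vtx)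
    (X : Finset ℕ) (N' : MixedGraph) : Prop :=
  ∃ A, N'.HasLeafSet A ∧ A ⊆ X ∧ ∃ H σ M, Res (cut G ρ (leafSet A)) A H σ ∧
    IsTopology H σ M ∧ M.Iso N'

lemma checkB_sound {resB : List Arc × List ℕ → List (List Arc × Vtx)} (hres : ResProg Res resB)
    {B : ℕ} {R : List Arc × Vtx} {p : List Arc × List Arc} (h : checkB resB B R p = true) :
    Cond Res R.1 R.2 (labB R.1).toFinset (toMG p) := by
  rw [checkB, Bool.and_eq_true, all_iff, any_iff] at h
  obtain ⟨h1, ⟨H, σ⟩, h2, h3⟩ := h
  rw [any_iff] at h3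
  obtain ⟨t, h3, h4⟩ := h3
  refine ⟨(labP p).toFinset, hasLeafSet_labP p, ?_, H, σ, toMG t, ?_, ?_, isoB_sound h4⟩
  · intro x hx
    rw [List.mem_toFinset] at hx ⊢
    exact memb_iff.1 (h1 x hx)
  · have h5 := (hres.spec (cutB R.1 R.2 ((labP p).map fun x => Sum.inl x)) (labP p)
      (H : Multiset Arc) σ).2 ⟨_, h2, rfl, rfl⟩
    rw [coe_cutB, leafSet_eq] at h5
    exact h5
  · exact tops_iff.2 ⟨t, h3, rfl⟩

lemma checkB_complete {resB : List Arc × List ℕ → List (List Arc × Vtx)} (hRes : IsRes Res)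
    (hres : ResProg Res resB)
    {B : ℕ} {l : List Arc} {ρ : Vtx} {X : Finset ℕ} {p : List Arc × List Arc}
    (hl : ∀ v, IsVertex (l : Multiset Arc) v → nm v < B)
    (hp : ∀ v, (toMG p).IsVertex v → nm v < B) (hX : IsNetwork (l : Multiset Arc) ρ X)
    (h : Cond Res l ρ X (toMG p)) : checkB resB B (l, ρ) p = true := by
  obtain ⟨A, hA, hAX, H, σ, M, h1, h2, h3⟩ := h
  have hA' : A = (labP p).toFinset := HasLeafSet.unique hA (hasLeafSet_labP p)
  subst hA'
  rw [checkB, Bool.and_eq_true, all_iff, any_iff]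
  constructor
  · intro x hx
    rw [memb_iff, ← List.mem_toFinset, ← hX.leafset_eq]
    exact hAX (List.mem_toFinset.2 hx)
  · rw [← leafSet_eq, ← coe_cutB] at h1
    obtain ⟨q, hq, h4, h5⟩ := (hres.spec _ _ _ _).1 h1
    refine ⟨q, hq, ?_⟩
    rw [any_iff]
    subst h4 h5
    obtain ⟨t, ht, rfl⟩ := tops_iff.1 h2
    refine ⟨t, ht, isoB_complete h3 ?_ hp⟩
    intro v hv
    have h6 := ((h2.isVertex (hRes.net h1)).1 hv).1
    obtain ⟨e, he, h7⟩ := hRes.sub h1 h6
    rw [coe_cutB] at he
    exact hl v ⟨e, (mem_cut.1 he).1, h7⟩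

end Check

section Bound

/-- Size of an encoded mixed graph. -/
def wt (p : List Arc × List Arc) : ℕ :=
  Prim.foldr (p.1 ++ p.2) 0 fun e n =>
    scase e.1 (fun x => x) (fun x => x) + scase e.2 (fun x => x) (fun x => x) + 1 + n

@[fun_prop] lemma pr_wt {α : Type*} [Primcodable α] {f : α → List Arc × List Arc}
    (hf : Primrec f) : Primrec fun x => wt (f x) := by
  unfold wt
  fun_prop

lemma wt_aux (l : List Arc) : l.length ≤ (Prim.foldr l 0 fun e n =>
    scase e.1 (fun x => x) (fun x => x) + scase e.2 (fun x => x) (fun x => x) + 1 + n) ∧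
    ∀ v, IsVertex (l : Multiset Arc) v → nm v < (Prim.foldr l 0 fun e n =>
    scase e.1 (fun x => x) (fun x => x) + scase e.2 (fun x => x) (fun x => x) + 1 + n) := by
  induction l with
  | nil =>
    refine ⟨by simp, ?_⟩
    rintro v ⟨e, he, _⟩
    simp at he
  | cons a l ih =>
    have e1 : (Prim.foldr (a :: l) 0 fun e n =>
        scase e.1 (fun x => x) (fun x => x) + scase e.2 (fun x => x) (fun x => x) + 1 + n) =
        nm a.1 + nm a.2 + 1 + (Prim.foldr l 0 fun e n =>
        scase e.1 (fun x => x) (fun x => x) + scase e.2 (fun x => x) (fun x => x) + 1 + n) := by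
      rw [Prim.foldr, List.foldr_cons]
      rfl
    rw [e1]
    refine ⟨by rw [List.length_cons]; omega, ?_⟩
    rintro v ⟨e, he, hv⟩
    rw [← Multiset.cons_coe, Multiset.mem_cons] at he
    rcases he with rfl | he
    · rcases hv with rfl | rfl <;> omega
    · have := ih.2 v ⟨e, he, hv⟩
      omega

lemma length_le_wt (p : List Arc × List Arc) : p.1.length + p.2.length ≤ wt p := by
  have := (wt_aux (p.1 ++ p.2)).1
  rw [List.length_append] at this
  exact this

lemma nm_lt_wt {p : List Arc × List Arc} {v : Vtx} (hv : (toMG p).IsVertex v) : nm v < wt p :=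
  (wt_aux (p.1 ++ p.2)).2 v (isVertex_toMG.1 hv)

/-- Total size of the input. -/
def wts (C : List (List Arc × List Arc)) : ℕ := Prim.foldr C 0 fun p n => wt p + n

@[fun_prop] lemma pr_wts {α : Type*} [Primcodable α] {f : α → List (List Arc × List Arc)}
    (hf : Primrec f) : Primrec fun x => wts (f x) := by
  unfold wts
  fun_prop

lemma wts_eq (C : List (List Arc × List Arc)) : wts C = (C.map wt).sum := by
  induction C with
  | nil => rfl
  | cons p C ih =>
    rw [List.map_cons, List.sum_cons, ← ih]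
    rfl

lemma wt_le_wts {C : List (List Arc × List Arc)} {p : List Arc × List Arc} (hp : p ∈ C) :
    wt p ≤ wts C := by
  rw [wts_eq]
  exact List.single_le_sum (by simp) _ (List.mem_map_of_mem hp)

/-- The bound. -/
def bnd (C : List (List Arc × List Arc)) : ℕ := 29 * wts C + 4 * C.length + 10

@[fun_prop] lemma pr_bnd {α : Type*} [Primcodable α] {f : α → List (List Arc × List Arc)}
    (hf : Primrec f) : Primrec fun x => bnd (f x) := by
  unfold bnd
  fun_prop

end Bound

section Cherry

/-- The network with two leaves. -/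
lemma cherry : IsNetwork (([(Sum.inr 0, Sum.inl 0), (Sum.inr 0, Sum.inl 1)] : List Arc) :
    Multiset Arc) (Sum.inr 0) {0, 1} := by
  have h : netB [(Sum.inr 0, Sum.inl 0), (Sum.inr 0, Sum.inl 1)] (Sum.inr 0) = true := by
    decide +kernel
  have h1 := netB_iff.1 h
  have h2 : (labB [(Sum.inr 0, Sum.inl 0), (Sum.inr 0, Sum.inl 1)]).toFinset = {0, 1} := by
    decide +kernel
  rw [h2] at h1
  exact h1

end Cherry

/-- Existence of the topology. -/
lemma IsNetwork.exists_topology {G : Multiset Arc} {ρ : Vtx} {X : Finset ℕ}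
    (h : IsNetwork G ρ X) : ∃ N, IsTopology G ρ N := by
  obtain ⟨c, hc⟩ := outdeg_pos.1 (show 0 < outdeg G ρ by rw [h.root.2]; omega)
  obtain ⟨G₁, rfl⟩ := Multiset.exists_cons_of_mem hc
  have h2 := h.root.2
  rw [outdeg_cons] at h2
  simp only [if_true] at h2
  obtain ⟨d, hd⟩ := outdeg_pos.1 (show 0 < outdeg G₁ ρ by omega)
  obtain ⟨G₂, rfl⟩ := Multiset.exists_cons_of_mem hd
  by_cases h3 : indeg ((ρ, c) ::ₘ (ρ, d) ::ₘ G₂) c = 2
  · exact ⟨⟨_, _⟩, c, d, G₂, rfl, Or.inl ⟨h3, rfl, rfl⟩⟩
  · by_cases h4 : indeg ((ρ, c) ::ₘ (ρ, d) ::ₘ G₂) d = 2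
    · refine ⟨⟨_, _⟩, d, c, G₂, Multiset.cons_swap _ _ _, Or.inl ⟨h4, rfl, rfl⟩⟩
    · exact ⟨⟨_, _⟩, c, d, G₂, rfl, Or.inr ⟨h3, h4, rfl, rfl⟩⟩

section Main

variable {resB : List Arc × List ℕ → List (List Arc × Vtx)}

/-- The decision procedure, version B. -/
def decB (resB : List Arc × List ℕ → List (List Arc × Vtx)) (C : List (List Arc × List Arc)) :
    Bool :=
  any (rooted (bnd C)) fun R => all C fun p => checkB resB (bnd C) R p

/-- The decision procedure, version A. -/
def decA (resB : List Arc × List ℕ → List (List Arc × Vtx)) (C : List (List Arc × List Arc)) :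
    Bool :=
  any (rooted (bnd C)) fun R₀ => any (tops R₀.1 R₀.2) fun t₀ => all C fun p =>
    any (rooted (bnd C)) fun R => any (tops R.1 R.2) (fun t => eqMG t t₀) &&
      checkB resB (bnd C) R p

lemma pr_decB (hres : Primrec resB) : Primrec (decB resB) := by
  unfold decB
  fun_prop

lemma pr_decA (hres : Primrec resB) : Primrec (decA resB) := by
  unfold decA
  fun_prop

/-- Small and bounded solutions. -/
theorem exists_bounded {κ : Type} [Fintype κ] [Nonempty κ] (hRes : IsRes Res)
    {C : List (List Arc × List Arc)} {r : Fin C.length → κ} (hr : Function.Surjective r)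
    (hκ : Fintype.card κ ≤ C.length) {N : MixedGraph}
    {X : Finset ℕ} {G : κ → Multiset Arc} {ρ : κ → Vtx}
    (hnet : ∀ j, IsNetwork (G j) (ρ j) X) (htop : ∀ j, IsTopology (G j) (ρ j) N)
    (h : ∀ i, Cond Res (G (r i)) (ρ (r i)) X (toMG (C[i.1]))) :
    ∃ (ρ' : Vtx) (X' : Finset ℕ) (G' : κ → List Arc) (N' : MixedGraph),
      (∀ j, (G' j, ρ') ∈ rooted (bnd C)) ∧
      (∀ j, IsNetwork (G' j : Multiset Arc) ρ' X') ∧
      (∀ j, IsTopology (G' j : Multiset Arc) ρ' N') ∧
      (∀ j v, IsVertex (G' j : Multiset Arc) v → nm v < bnd C) ∧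
      ∀ i, Cond Res (G' (r i)) ρ' X' (toMG (C[i.1])) := by
  classical
  choose A hA hAX H σ M h1 h2 h3 using h
  have hfam : RFam Res r A M ρ X G N := ⟨hnet, htop, hAX, fun i => ⟨H i, σ i, h1 i, h2 i⟩⟩
  have hs : ∑ i, ((M i).dir.card + (M i).und.card) ≤ wts C := by
    have e1 : ∀ i, (M i).dir.card + (M i).und.card ≤ wt (C[i.1]) := by
      intro i
      obtain ⟨g, hg⟩ := h3 i
      refine le_trans (le_of_eq ?_) (length_le_wt (C[i.1]))
      have e2 : ((M i).map (Sum.map id g)).dir.card = (C[i.1]).1.length := by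
        rw [hg]
        simp [toMG]
      have e3 : ((M i).map (Sum.map id g)).und.card = (C[i.1]).2.length := by
        rw [hg]
        simp [toMG]
      rw [MixedGraph.map, Multiset.card_map] at e2
      rw [MixedGraph.map, Multiset.card_map] at e3
      rw [e2, e3]
    calc ∑ i, ((M i).dir.card + (M i).und.card) ≤ ∑ i : Fin C.length, wt (C[i.1]) :=
          Finset.sum_le_sum fun i _ => e1 i
      _ = (C.map wt).sum := Fin.sum_univ_fun_getElem C wt
      _ = wts C := (wts_eq C).symm
  have hb : ∀ i, ∀ x ∈ A i, x < wts C := by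
    intro i x hx
    have h4 := nm_lt_wt ((hA i x).2 hx)
    exact lt_of_lt_of_le h4 (wt_le_wts (List.getElem_mem _))
  obtain ⟨k, X', G', N', g, hF, hk, hG⟩ := hfam.bounded hRes hr hs hb (B := bnd C) (by
    rw [bnd]
    omega)
  choose l hl using fun j => (⟨(G' j).toList, Multiset.coe_toList _⟩ :
    ∃ l : List Arc, (l : Multiset Arc) = G' j)
  refine ⟨Sum.inr k, X', l, N', ?_, ?_, ?_, ?_, ?_⟩
  · intro j
    apply mem_rooted_of (X := X')
    · have := (hG j).1
      rw [← hl j, Multiset.coe_card] at this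
      exact this
    · rw [hl j]
      exact (hG j).2
    · exact hk
    · rw [hl j]
      exact hF.net j
  · intro j
    rw [hl j]
    exact hF.net j
  · intro j
    rw [hl j]
    exact hF.top j
  · intro j
    rw [hl j]
    exact (hG j).2
  · intro i
    obtain ⟨H', σ', h4, h5⟩ := hF.red i
    refine ⟨A i, hA i, hF.sub i, H', σ', _, ?_, h5, ?_⟩
    · rw [hl]
      exact h4
    · obtain ⟨g', hg'⟩ := h3 i
      refine ⟨g.symm.trans g', ?_⟩
      rw [MixedGraph.map_map, ← hg']
      congr 1
      funext v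
      rcases v with x | m
      · rfl
      · simp

theorem decB_iff (hRes : IsRes Res) (hres : ResProg Res resB) (C : List (List Arc × List Arc)) :
    decB resB C = true ↔ CompatB Res (C.map toMG) := by
  rw [decB, any_iff]
  constructor
  · rintro ⟨R, hR, h⟩
    rw [all_iff] at h
    have hnet := mem_rooted hR
    obtain ⟨N, hN⟩ := hnet.exists_topology
    refine ⟨N, _, _, _, hnet, hN, ?_⟩
    intro N' hN'
    rw [List.mem_map] at hN'
    obtain ⟨p, hp, rfl⟩ := hN'
    exact checkB_sound hres (h p hp)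
  · rintro ⟨N, G, ρ, X, hnet, htop, h⟩
    by_cases hC : C = []
    · subst hC
      refine ⟨_, mem_rooted_of (X := {0, 1}) ?_ ?_ ?_ cherry, by simp⟩
      · simp [bnd]
      · rintro v ⟨e, he, hv⟩
        simp only [Multiset.mem_coe, List.mem_cons, List.not_mem_nil, or_false] at he
        rcases he with rfl | rfl <;> rcases hv with rfl | rfl <;> simp [nm, bnd]
      · simp [nm, bnd]
    · have hpos : 0 < C.length := List.length_pos_iff.2 hC
      obtain ⟨ρ', X', G', N', h1, h2, h3, h4, h5⟩ := exists_bounded (κ := Unit) hRes (C := C)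
        (r := fun _ => ()) (fun _ => ⟨⟨0, hpos⟩, rfl⟩) (by simp; omega)
        (fun _ => hnet) (fun _ => htop) (fun i => h _ (List.mem_map_of_mem (List.getElem_mem _)))
      refine ⟨_, h1 (), ?_⟩
      rw [all_iff]
      intro p hp
      obtain ⟨i, hi, rfl⟩ := List.getElem_of_mem hp
      refine checkB_complete hRes hres (h4 ()) ?_ (h2 ()) (h5 ⟨i, hi⟩)
      intro v hv
      have h6 := nm_lt_wt hv
      have h7 := wt_le_wts (List.getElem_mem hi)
      rw [bnd]
      omega

theorem decA_iff (hRes : IsRes Res) (hres : ResProg Res resB) (C : List (List Arc × List Arc)) :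
    decA resB C = true ↔ CompatA Res (C.map toMG) := by
  rw [decA, any_iff]
  constructor
  · rintro ⟨R₀, hR₀, h⟩
    rw [any_iff] at h
    obtain ⟨t₀, ht₀, h⟩ := h
    rw [all_iff] at h
    have hnet := mem_rooted hR₀
    have htop : IsTopology (R₀.1 : Multiset Arc) R₀.2 (toMG t₀) := tops_iff.2 ⟨t₀, ht₀, rfl⟩
    refine ⟨toMG t₀, _, ⟨_, _, hnet, htop⟩, ?_⟩
    intro N' hN'
    rw [List.mem_map] at hN'
    obtain ⟨p, hp, rfl⟩ := hN'
    have h1 := h p hp
    rw [any_iff] at h1
    obtain ⟨R, hR, h2⟩ := h1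
    rw [Bool.and_eq_true, any_iff] at h2
    obtain ⟨⟨t, ht, h3⟩, h4⟩ := h2
    have hnetR := mem_rooted hR
    have htopR : IsTopology (R.1 : Multiset Arc) R.2 (toMG t) := tops_iff.2 ⟨t, ht, rfl⟩
    rw [eqMG_iff] at h3
    rw [h3] at htopR
    have hX : (labB R.1).toFinset = (labB R₀.1).toFinset := by
      ext x
      rw [← hnetR.label_iff' htopR x, ← hnet.label_iff' htop x]
    obtain ⟨A, hA, hAX, H, σ, M, h5, h6, h7⟩ := checkB_sound hres h4
    rw [hX] at hnetR hAX
    exact ⟨A, hA, hAX, R.1, R.2, H, σ, M, hnetR, htopR, h5, h6, h7⟩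
  · rintro ⟨N, X, ⟨G₀, ρ₀, hnet₀, htop₀⟩, h⟩
    by_cases hC : C = []
    · subst hC
      have hm : ((([(Sum.inr 0, Sum.inl 0), (Sum.inr 0, Sum.inl 1)] : List Arc)), Sum.inr 0) ∈
          rooted (bnd []) := by
        refine mem_rooted_of (X := {0, 1}) ?_ ?_ ?_ cherry
        · simp [bnd]
        · rintro v ⟨e, he, hv⟩
          simp only [Multiset.mem_coe, List.mem_cons, List.not_mem_nil, or_false] at he
          rcases he with rfl | rfl <;> rcases hv with rfl | rfl <;> simp [nm, bnd]
        · simp [nm, bnd]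
      refine ⟨_, hm, ?_⟩
      obtain ⟨M, hM⟩ := cherry.exists_topology
      obtain ⟨t, ht, _⟩ := tops_iff.1 hM
      rw [any_iff]
      exact ⟨t, ht, by simp⟩
    · have hpos : 0 < C.length := List.length_pos_iff.2 hC
      have h' : ∀ i : Fin C.length, ∃ A, (toMG (C[i.1])).HasLeafSet A ∧ A ⊆ X ∧
          ∃ G ρ H σ M, IsNetwork G ρ X ∧ IsTopology G ρ N ∧ Res (cut G ρ (leafSet A)) A H σ ∧
          IsTopology H σ M ∧ M.Iso (toMG (C[i.1])) :=
        fun i => h _ (List.mem_map_of_mem (List.getElem_mem _))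
      choose A hA hAX G ρ H σ M h1 h2 h3 h4 h5 using h'
      have : Nonempty (Fin C.length) := ⟨⟨0, hpos⟩⟩
      obtain ⟨ρ', X', G', N', g1, g2, g3, g4, g5⟩ := exists_bounded (κ := Fin C.length) hRes
        (C := C) (r := id) Function.surjective_id (by simp) h1 h2
        (fun i => ⟨A i, hA i, hAX i, H i, σ i, M i, h3 i, h4 i, h5 i⟩)
      refine ⟨_, g1 ⟨0, hpos⟩, ?_⟩
      rw [any_iff]
      obtain ⟨t₀, ht₀, ht₀'⟩ := tops_iff.1 (g3 ⟨0, hpos⟩)
      refine ⟨t₀, ht₀, ?_⟩
      rw [all_iff]
      intro p hp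
      obtain ⟨i, hi, rfl⟩ := List.getElem_of_mem hp
      rw [any_iff]
      refine ⟨_, g1 ⟨i, hi⟩, ?_⟩
      rw [Bool.and_eq_true, any_iff]
      constructor
      · obtain ⟨t, ht, ht'⟩ := tops_iff.1 (g3 ⟨i, hi⟩)
        exact ⟨t, ht, by rw [eqMG_iff, ht', ht₀']⟩
      · refine checkB_complete hRes hres (g4 ⟨i, hi⟩) ?_ (g2 ⟨i, hi⟩) (g5 ⟨i, hi⟩)
        intro v hv
        have h6 := nm_lt_wt hv
        have h7 := wt_le_wts (List.getElem_mem hi)
        rw [bnd]
        omega

/-- Decidability, version A. -/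
theorem compatA_computable (hRes : IsRes Res) (hres : ResProg Res resB) :
    ComputablePred fun C : List (List Arc × List Arc) => CompatA Res (C.map toMG) := by
  have h1 : PrimrecPred fun C : List (List Arc × List Arc) => decA resB C = true := by
    have : Primrec fun C : List (List Arc × List Arc) => decide (decA resB C = true) := by
      simpa using pr_decA hres.prim
    exact ⟨inferInstance, this⟩
  have h2 := h1.of_eq fun C => decA_iff hRes hres C
  obtain ⟨hd, hp⟩ := h2
  exact ⟨hd, hp.to_comp⟩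

/-- Decidability, version B. -/
theorem compatB_computable (hRes : IsRes Res) (hres : ResProg Res resB) :
    ComputablePred fun C : List (List Arc × List Arc) => CompatB Res (C.map toMG) := by
  have h1 : PrimrecPred fun C : List (List Arc × List Arc) => decB resB C = true := by
    have : Primrec fun C : List (List Arc × List Arc) => decide (decB resB C = true) := by
      simpa using pr_decB hres.prim
    exact ⟨inferInstance, this⟩
  have h2 := h1.of_eq fun C => decB_iff hRes hres C
  obtain ⟨hd, hp⟩ := h2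
  exact ⟨hd, hp.to_comp⟩

end Main

section Plain

/-- The program for the plain restriction. -/
def plainB (x : List Arc × List ℕ) : List (List Arc × Vtx) :=
  (redAll x.1).flatMap fun l => (verts l).flatMap fun σ =>
    bif netB l σ && (all (labB l) (fun y => memb y x.2) && all x.2 (fun y => memb y (labB l)))
      then [(l, σ)] else []

theorem plain_resProg : ResProg PlainRes plainB := by
  constructor
  · unfold plainB
    fun_prop
  · intro K A H σ
    constructor
    · rintro ⟨h1, h2⟩
      obtain ⟨l, hl, rfl⟩ := redAll_iff.1 h1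
      refine ⟨(l, σ), ?_, rfl, rfl⟩
      rw [plainB, List.mem_flatMap]
      refine ⟨l, hl, ?_⟩
      rw [List.mem_flatMap]
      refine ⟨σ, ?_, ?_⟩
      · rw [mem_verts]
        apply isVertex_of_outdeg
        rw [h2.root.2]
        omega
      · have h3 := h2.leafset_eq
        rw [h3] at h2
        have h4 : (all (labB l) (fun y => memb y A) && all A (fun y => memb y (labB l))) =
            true := by
          rw [Bool.and_eq_true, all_iff, all_iff]
          simp only [memb_iff]
          constructor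
          · intro x hx
            rw [← List.mem_toFinset, h3, List.mem_toFinset]
            exact hx
          · intro x hx
            rw [← List.mem_toFinset, ← h3, List.mem_toFinset]
            exact hx
        simp only [netB_iff.2 h2, h4]
        simp
    · rintro ⟨⟨l, σ'⟩, h1, rfl, rfl⟩
      rw [plainB, List.mem_flatMap] at h1
      obtain ⟨l', h2, h3⟩ := h1
      rw [List.mem_flatMap] at h3
      obtain ⟨σ', _, h4⟩ := h3
      cases hb : (netB l' σ' && (all (labB l') (fun y => memb y A) &&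
          all A (fun y => memb y (labB l'))))
      · simp only [hb] at h4
        simp at h4
      · simp only [hb] at h4
        simp only [cond_true, List.mem_singleton, Prod.mk.injEq] at h4
        obtain ⟨rfl, rfl⟩ := h4
        rw [Bool.and_eq_true, Bool.and_eq_true, all_iff, all_iff] at hb
        simp only [memb_iff] at hb
        obtain ⟨h5, h6, h7⟩ := hb
        refine ⟨redAll_iff.2 ⟨_, h2, rfl⟩, ?_⟩
        have h8 : (labB l).toFinset = A.toFinset := by
          ext x
          rw [List.mem_toFinset, List.mem_toFinset]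
          exact ⟨h6 x, h7 x⟩
        rw [← h8]
        exact netB_iff.1 h5

end Plain

end Pool.Agent.Lib.Pa53cac
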