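import Pool.Agent.Lib.Pa53cac.CleanDel
import Pool.Agent.Lib.Pa53cac.Decide

/-!
# Decidability for cleaned restrictions
-/

namespace Pool.Agent.Lib.Pa53cac

open Relation Prim

lemma cleanRes_iff {K : Multiset Arc} {A : Finset ℕ} {T : MixedGraph} :
    (∃ H σ, CleanRes K A H σ ∧ IsTopology H σ T) ↔
      ∃ H₀ σ₀, PlainRes K A H₀ σ₀ ∧ Q A T (H₀, σ₀) := by
  constructor
  · rintro ⟨H, σ, ⟨H₀, σ₀, h1, h2, h3⟩, h4⟩
    exact ⟨H₀, σ₀, h1, (H, σ), h2, h3, h4⟩
  · rintro ⟨H₀, σ₀, h1, ⟨H, σ⟩, h2, h3, h4⟩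
    exact ⟨H, σ, ⟨H₀, σ₀, h1, h2, h3⟩, h4⟩

theorem cleanRes_isRes : IsRes CleanRes := by
  have hren : ∀ {K A H σ} {f g : ℕ → ℕ}, Function.Injective f → Function.Injective g →
      (∀ x ∈ A, f x = x) → CleanRes K A H σ → CleanRes (rn (Sum.map f g) K) A
      (rn (Sum.map f g) H) (Sum.map f g σ) := by
    rintro K A H σ f g hf hg hA ⟨H₀, σ₀, h1, h2, h3⟩
    exact ⟨_, _, plainRes_isRes.ren hf hg hA h1, chain_rn hf hg hA h2, noTri_rn hf hg h3⟩
  refine ⟨?_, ?_, fun A T => ⟨?_, ?_, ?_, ?_, ?_⟩, hren⟩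
  · rintro K A H σ ⟨H₀, σ₀, h1, h2, h3⟩
    exact chain_net h2 h1.2
  · rintro K A H σ v ⟨H₀, σ₀, h1, h2, h3⟩ hv
    exact steps_isVertex h1.1 ((chain_sub h2).1 hv)
  · intro K K' hK hs
    rw [cleanRes_iff, cleanRes_iff]
    constructor
    · rintro ⟨H, σ, ⟨h1, h2⟩, h3⟩
      exact ⟨H, σ, ⟨steps_to_normal hK h1 h2.normal (.single hs), h2⟩, h3⟩
    · rintro ⟨H, σ, ⟨h1, h2⟩, h3⟩
      exact ⟨H, σ, ⟨.head hs h1, h2⟩, h3⟩
  · intro G z X a b hG hAX hz hab hb hbS h
    rw [cleanRes_iff] at h ⊢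
    obtain ⟨H, σ, ⟨h1, h2⟩, h3⟩ := h
    have hT := leafSet_outdeg hG hAX hz
    have hreach := hG.reach_erase hab hb
    by_cases hbH : IsVertex H b
    · obtain ⟨k, hk⟩ := leaf_ne_of_indeg_two hG hb
      have hbout : outdeg G b ≤ 1 := by
        have := hG.inner k (hk ▸ isVertex_of_indeg (by omega))
        rw [← hk] at this
        omega
      have hle : outdeg H b ≤ outdeg G b :=
        (steps_outdeg_le h1 b).trans (Multiset.countP_le_of_le _ (cut_le _ _ _))
      have hb2 : indeg H b = 2 := indeg_two_of_survives h2 hbH ⟨k, hk⟩ hbout hle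
      obtain ⟨a', σ', g1, _, g3, g4, g5⟩ := commute_cut hG.acyclic hT hab hb hreach hb2 h1
      have hσ' := h2.root_unique g3 g4
      subst hσ'
      obtain ⟨Z, τ, g6, g7⟩ := clean_deletion H.card H σ' le_rfl h2
        (res_closed hG.acyclic hT ⟨h1, h2⟩) h3 a' b g1 hb2 hbS
      exact ⟨Z, τ, ⟨(g5 _ g6.2.normal).2 g6.1, g6.2⟩, g7⟩
    · exact ⟨H, σ, ⟨deletion_cut hG.acyclic hT hab hb hreach hbH h1, h2⟩, h3⟩
  · rw [cleanRes_iff]
    rintro ⟨H, σ, ⟨h1, h2⟩, _⟩
    have : outdeg H σ ≤ 0 := steps_outdeg_le h1 σ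
    have := h2.root.2
    omega
  · intro K b h hb
    rw [cleanRes_iff] at h
    obtain ⟨H, σ, ⟨h1, h2⟩, h3⟩ := h
    exact (h3.vert h2 hb).trans_le (steps_indeg_le h1 b)
  · rintro K g hg hS ⟨H, σ, h1, h3⟩
    refine ⟨_, _, hren Function.injective_id hg (fun _ _ => rfl) h1, ?_⟩
    have h4 := h3.rn (map_injective Function.injective_id hg)
    have h5 : T.map (Sum.map id g) = T := by
      conv_rhs => rw [← T.map_id']
      apply MixedGraph.map_congr
      rintro (x | k) hv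
      · rfl
      · simp only [Sum.map_inr, id]
        rw [hS k hv]
    rw [h5] at h4
    exact h4

section Program

/-- Results of one cleaning step. -/
def cleanStepB (A : List ℕ) (x : List Arc × Vtx) : List (List Arc × Vtx) :=
  (splits x.1).flatMap fun p =>
    bif beq p.1.1 x.2 && any x.1 (fun e => beq e.1 x.2 && memb (e.2, p.1.2) x.1) then
      plainB (cutB p.2 x.2 (A.map fun x => Sum.inl x), A) else []

lemma pr_plainB : Primrec plainB := plain_resProg.prim

@[fun_prop] lemma pr_cleanStepB {α : Type*} [Primcodable α] {f : α → List ℕ}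
    {g : α → List Arc × Vtx} (hf : Primrec f) (hg : Primrec g) :
    Primrec fun x => cleanStepB (f x) (g x) := by
  have := pr_plainB
  unfold cleanStepB
  fun_prop

lemma cleanStepB_iff {A : List ℕ} {l : List Arc} {σ : Vtx} {y : Multiset Arc × Vtx} :
    CleanStep A.toFinset ((l : Multiset Arc), σ) y ↔
      ∃ q ∈ cleanStepB A (l, σ), ((q.1 : Multiset Arc), q.2) = y := by
  obtain ⟨H, τ⟩ := y
  constructor
  · rintro ⟨c, r, ⟨h1, h2, h3⟩, h4⟩
    simp only at h1 h2 h3 h4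
    obtain ⟨rest, hr1, hr2⟩ := exists_splits (l := l) (e := (σ, r))
      (R := (l : Multiset Arc).erase (σ, r)) (Multiset.cons_erase h2).symm
    unfold RestrictsTo at h4
    rw [← hr2, ← leafSet_eq, ← coe_cutB] at h4
    obtain ⟨q, hq, h5, h6⟩ := (plain_resProg.spec _ _ _ _).1 h4
    refine ⟨q, ?_, by rw [h5, h6]⟩
    rw [cleanStepB, List.mem_flatMap]
    refine ⟨_, hr1, ?_⟩
    have hb : (beq (σ, r).1 (l, σ).2 && any (l, σ).1 (fun e => beq e.1 (l, σ).2 &&
        memb (e.2, (σ, r).2) (l, σ).1)) = true := by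
      simp only [Bool.and_eq_true, beq_iff, any_iff, memb_iff]
      exact ⟨trivial, (σ, c), h1, rfl, h3⟩
    simp only at hb ⊢
    rw [hb]
    exact hq
  · rintro ⟨⟨q1, q2⟩, hq, h1⟩
    obtain ⟨rfl, rfl⟩ := Prod.mk.inj h1
    rw [cleanStepB, List.mem_flatMap] at hq
    obtain ⟨⟨⟨a, r⟩, rest⟩, h2, h3⟩ := hq
    simp only at h3
    cases hb : (beq a σ && any l (fun e => beq e.1 σ && memb (e.2, r) l))
    · rw [hb] at h3
      simp at h3
    · rw [hb] at h3
      simp only [Bool.and_eq_true, beq_iff, any_iff, memb_iff] at hb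
      obtain ⟨rfl, ⟨⟨a', c⟩, h4, rfl, h5⟩⟩ := hb
      have h6 := mem_splits h2
      simp only [cond_true] at h3 h4 h5
      refine ⟨c, r, ⟨h4, ?_, h5⟩, ?_⟩
      · show (a', r) ∈ (l : Multiset Arc)
        rw [h6]
        exact Multiset.mem_cons_self _ _
      · have h7 := (plain_resProg.spec (cutB rest a' (A.map fun x => Sum.inl x)) A
          (q1 : Multiset Arc) q2).2 ⟨_, h3, rfl, rfl⟩
        rw [coe_cutB, leafSet_eq] at h7
        show PlainRes (cut ((l : Multiset Arc).erase (a', r)) a' (leafSet A.toFinset)) _ _ _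
        rw [h6, Multiset.erase_cons_head]
        exact h7

/-- Results of at most `n` cleaning steps. -/
def chainN (n : ℕ) (A : List ℕ) (s : List (List Arc × Vtx)) : List (List Arc × Vtx) :=
  iter n s fun acc => acc ++ acc.flatMap fun x => cleanStepB A x

@[fun_prop] lemma pr_chainN {α : Type*} [Primcodable α] {n : α → ℕ} {f : α → List ℕ}
    {g : α → List (List Arc × Vtx)} (hn : Primrec n) (hf : Primrec f) (hg : Primrec g) :
    Primrec fun x => chainN (n x) (f x) (g x) := by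
  unfold chainN
  fun_prop

lemma chainN_succ (n : ℕ) (A : List ℕ) (s : List (List Arc × Vtx)) :
    chainN (n + 1) A s = chainN n A s ++ (chainN n A s).flatMap fun x => cleanStepB A x := by
  rw [chainN, iter, Function.iterate_succ_apply']
  rfl

lemma chainN_mono {n m : ℕ} (hnm : n ≤ m) {A : List ℕ} {s : List (List Arc × Vtx)}
    {x : List Arc × Vtx} (h : x ∈ chainN n A s) : x ∈ chainN m A s := by
  induction hnm with
  | refl => exact h
  | step _ ih =>
    rw [chainN_succ, List.mem_append]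
    exact Or.inl ih

lemma mem_chainN {n : ℕ} {A : List ℕ} {s : List (List Arc × Vtx)}
    {x : List Arc × Vtx} (h : x ∈ chainN n A s) :
    ∃ y ∈ s, ReflTransGen (CleanStep A.toFinset) ((y.1 : Multiset Arc), y.2)
      ((x.1 : Multiset Arc), x.2) := by
  induction n generalizing x with
  | zero => exact ⟨x, h, .refl⟩
  | succ n ih =>
    rw [chainN_succ, List.mem_append, List.mem_flatMap] at h
    rcases h with h | ⟨w, h1, h2⟩
    · exact ih h
    · obtain ⟨y, h3, h4⟩ := ih h1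
      exact ⟨y, h3, h4.tail (cleanStepB_iff.2 ⟨x, h2, rfl⟩)⟩

lemma CleanStep.card_lt {A : Finset ℕ} {x y : Multiset Arc × Vtx} (h : CleanStep A x y) :
    y.1.card < x.1.card := by
  obtain ⟨c, r, ⟨_, h1, _⟩, h2, _⟩ := h
  have h3 := steps_card_le h2
  have h4 := Multiset.card_le_card (cut_le (x.1.erase (x.2, r)) x.2 (leafSet A))
  have h5 := Multiset.card_erase_add_one h1
  omega

lemma exists_chainN {A : List ℕ} {s : List (List Arc × Vtx)} {y : List Arc × Vtx} (hy : y ∈ s)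
    {w : Multiset Arc × Vtx}
    (h : ReflTransGen (CleanStep A.toFinset) ((y.1 : Multiset Arc), y.2) w) :
    ∃ n, n + w.1.card ≤ y.1.length ∧ ∃ x ∈ chainN n A s, ((x.1 : Multiset Arc), x.2) = w := by
  induction h with
  | refl => exact ⟨0, by simp, y, hy, rfl⟩
  | tail _ h2 ih =>
    obtain ⟨n, hn, x, hx, rfl⟩ := ih
    obtain ⟨q, hq, rfl⟩ := cleanStepB_iff.1 h2
    have := h2.card_lt
    simp only at this hn ⊢
    refine ⟨n + 1, by omega, q, ?_, rfl⟩
    rw [chainN_succ, List.mem_append, List.mem_flatMap]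
    exact Or.inr ⟨_, hx, hq⟩

/-- Absence of triangles at the root. -/
def noTriB (x : List Arc × Vtx) : Bool :=
  !any x.1 fun e => any x.1 fun e' => beq e.1 x.2 && (beq e'.1 x.2 && memb (e.2, e'.2) x.1)

@[fun_prop] lemma pr_noTriB {α : Type*} [Primcodable α] {g : α → List Arc × Vtx}
    (hg : Primrec g) : Primrec fun x => noTriB (g x) := by
  unfold noTriB
  fun_prop

lemma noTriB_iff {x : List Arc × Vtx} :
    noTriB x = true ↔ ∀ c r, ¬ RootTriangle (x.1 : Multiset Arc) x.2 c r := by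
  obtain ⟨l, σ⟩ := x
  rw [noTriB, Bool.not_eq_true', ← Bool.not_eq_true, any_iff]
  simp only [any_iff, Bool.and_eq_true, beq_iff, memb_iff]
  constructor
  · rintro h c r ⟨h1, h2, h3⟩
    exact h ⟨(σ, c), h1, (σ, r), h2, rfl, rfl, h3⟩
  · rintro h ⟨⟨a, c⟩, h1, ⟨a', r⟩, h2, h3, h4, h5⟩
    simp only at h3 h4
    subst h3 h4
    exact h c r ⟨h1, h2, h5⟩

/-- The program for the cleaned restriction. -/
def cleanB (x : List Arc × List ℕ) : List (List Arc × Vtx) :=
  filt (chainN x.1.length x.2 (plainB x)) fun y => noTriB y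

theorem clean_resProg : ResProg CleanRes cleanB := by
  constructor
  · have := pr_plainB
    unfold cleanB
    fun_prop
  · intro K A H σ
    constructor
    · rintro ⟨H₀, σ₀, h1, h2, h3⟩
      obtain ⟨y, hy, rfl, rfl⟩ := (plain_resProg.spec _ _ _ _).1 h1
      obtain ⟨n, hn, x, hx, h4⟩ := exists_chainN hy h2
      obtain ⟨rfl, rfl⟩ := Prod.mk.inj h4
      refine ⟨x, ?_, rfl, rfl⟩
      rw [cleanB, filt_eq, List.mem_filter]
      refine ⟨chainN_mono ?_ hx, noTriB_iff.2 h3⟩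
      have h5 := steps_card_le h1.1
      simp only [Multiset.coe_card] at h5 hn
      simp only
      omega
    · rintro ⟨x, hx, rfl, rfl⟩
      rw [cleanB, filt_eq, List.mem_filter] at hx
      obtain ⟨y, h1, h2⟩ := mem_chainN hx.1
      exact ⟨_, _, (plain_resProg.spec _ _ _ _).2 ⟨y, h1, rfl, rfl⟩, h2, noTriB_iff.1 hx.2⟩

end Program

section NoParallel

lemma LeafNet.noParallel {G : Multiset Arc} {z : ℕ} {X : Finset ℕ} (h : LeafNet G z X) :
    (SD G).NoParallel := by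
  unfold MixedGraph.NoParallel
  have e1 : (SD G).dir.map (fun e => s(e.1, e.2)) + (SD G).und = G.map fun e => s(e.1, e.2) := by
    simp only [SD]
    rw [← Multiset.map_add]
    congr 1
    exact Multiset.filter_add_not _ _
  rw [e1]
  apply Multiset.Nodup.map_on _ h.simple
  rintro ⟨a, b⟩ hab ⟨c, d⟩ hcd hs
  rw [Sym2.eq_iff] at hs
  rcases hs with ⟨h1, h2⟩ | ⟨h1, h2⟩
  · exact Prod.ext h1 h2
  · exfalso
    simp only at h1 h2
    subst h1 h2
    exact h.acyclic a ((TransGen.single hab).tail hcd)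

variable {ι κ : Type*} {Res : Multiset Arc → Finset ℕ → Multiset Arc → Vtx → Prop}

/-- Solutions without parallel edges. -/
theorem RFam.noParallel [Fintype κ] [Nonempty κ] (hRes : IsRes Res) {r : ι → κ}
    {L : ι → Finset ℕ} {T : ι → MixedGraph} {ρ : κ → Vtx}
    {X : Finset ℕ} {G : κ → Multiset Arc} {N : MixedGraph}
    (h : RFam Res r L T ρ X G N) :
    ∃ (k : ℕ) (X' : Finset ℕ) (G' : κ → Multiset Arc) (N' : MixedGraph),
      RFam Res r L T (fun _ => Sum.inr k) X' G' N' ∧ N'.NoParallel := by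
  classical
  have hP := fun i => hRes.inv (L i) (T i)
  have hst : St ρ r L (fun i K => ∃ H σ, Res K (L i) H σ ∧ IsTopology H σ (T i)) X G N := by
    refine ⟨fun j => (h.net j).rnet.1, fun j => (isTopology_iff (h.net j)).1 (h.top j), h.sub, ?_,
      h.red⟩
    intro i j x _ h'
    obtain ⟨k, hk⟩ := (h.net j).rnet.2
    rw [hk] at h'
    simp at h'
  obtain ⟨z, X₂, G₂, N₂, hz, hF₂⟩ := hst.exists_fam hP
  obtain ⟨k, hk⟩ := Infinite.exists_notMem_finset
    ((Finset.univ.biUnion fun j => vset (G₂ j)).image (Sum.elim id id : Vtx → ℕ))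
  have hk1 : ∀ j, ¬ IsVertex (G₂ j) (Sum.inr k) := by
    intro j hj
    apply hk
    rw [Finset.mem_image]
    exact ⟨Sum.inr k, Finset.mem_biUnion.2 ⟨j, Finset.mem_univ _, mem_vset.2 hj⟩, rfl⟩
  choose R hR1 hR2 hR3 hR4 using fun j => (hF₂.net j).unroot (hk1 j)
  refine ⟨k, X₂, R, N₂, ⟨hR1, ?_, hF₂.sub, ?_⟩, ?_⟩
  · intro j
    rw [← hF₂.sd j]
    exact hR2 j
  · intro i
    rw [hR4 (r i) (L i) (hz _ _)]
    exact hF₂.red i
  · have j₀ := Classical.arbitrary κ
    rw [← hF₂.sd j₀]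
    exact (hF₂.net j₀).noParallel

/-- Version A with networks without parallel edges. -/
def CompatA' (Res : Multiset Arc → Finset ℕ → Multiset Arc → Vtx → Prop)
    (C : List MixedGraph) : Prop :=
  ∃ N X, IsSemiDirected N X ∧ N.NoParallel ∧ ∀ N' ∈ C, ∃ A, N'.HasLeafSet A ∧ A ⊆ X ∧
    ∃ G ρ H σ M, IsNetwork G ρ X ∧ IsTopology G ρ N ∧ Res (cut G ρ (leafSet A)) A H σ ∧
      IsTopology H σ M ∧ M.Iso N'

/-- Version B with networks without parallel edges. -/
def CompatB' (Res : Multiset Arc → Finset ℕ → Multiset Arc → Vtx → Prop)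
    (C : List MixedGraph) : Prop :=
  ∃ N G ρ X, IsNetwork G ρ X ∧ IsTopology G ρ N ∧ N.NoParallel ∧
    ∀ N' ∈ C, ∃ A, N'.HasLeafSet A ∧ A ⊆ X ∧
      ∃ H σ M, Res (cut G ρ (leafSet A)) A H σ ∧ IsTopology H σ M ∧ M.Iso N'

theorem compatA_iff (hRes : IsRes Res) (C : List MixedGraph) :
    CompatA Res C ↔ CompatA' Res C := by
  constructor
  · rintro ⟨N, X, ⟨G₀, ρ₀, hnet₀, htop₀⟩, h⟩
    have h' : ∀ i : Fin C.length, ∃ A, (C[i.1]).HasLeafSet A ∧ A ⊆ X ∧
        ∃ G ρ H σ M, IsNetwork G ρ X ∧ IsTopology G ρ N ∧ Res (cut G ρ (leafSet A)) A H σ ∧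
        IsTopology H σ M ∧ M.Iso (C[i.1]) :=
      fun i => h _ (List.getElem_mem _)
    choose A hA hAX G ρ H σ M h1 h2 h3 h4 h5 using h'
    have hfam : RFam Res (some : Fin C.length → Option (Fin C.length)) A M
        (fun j => j.elim ρ₀ ρ) X (fun j => j.elim G₀ G) N := by
      refine ⟨?_, ?_, hAX, ?_⟩
      · rintro (_ | j)
        · exact hnet₀
        · exact h1 j
      · rintro (_ | j)
        · exact htop₀
        · exact h2 j
      · intro i
        exact ⟨H i, σ i, h3 i, h4 i⟩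
    obtain ⟨k, X', G', N', hF, hN'⟩ := hfam.noParallel hRes
    refine ⟨N', X', ⟨_, _, hF.net none, hF.top none⟩, hN', ?_⟩
    intro N'' hN''
    obtain ⟨i, hi, rfl⟩ := List.getElem_of_mem hN''
    obtain ⟨H', σ', g1, g2⟩ := hF.red ⟨i, hi⟩
    exact ⟨A ⟨i, hi⟩, hA ⟨i, hi⟩, hF.sub _, _, _, H', σ', M ⟨i, hi⟩, hF.net (some ⟨i, hi⟩),
      hF.top _, g1, g2, h5 ⟨i, hi⟩⟩
  · rintro ⟨N, X, h1, _, h2⟩
    exact ⟨N, X, h1, h2⟩

theorem compatB_iff (hRes : IsRes Res) (C : List MixedGraph) :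
    CompatB Res C ↔ CompatB' Res C := by
  constructor
  · rintro ⟨N, G, ρ, X, hnet, htop, h⟩
    have h' : ∀ i : Fin C.length, ∃ A, (C[i.1]).HasLeafSet A ∧ A ⊆ X ∧
        ∃ H σ M, Res (cut G ρ (leafSet A)) A H σ ∧ IsTopology H σ M ∧ M.Iso (C[i.1]) :=
      fun i => h _ (List.getElem_mem _)
    choose A hA hAX H σ M h3 h4 h5 using h'
    have hfam : RFam Res (fun _ : Fin C.length => ()) A M
        (fun _ => ρ) X (fun _ => G) N :=
      ⟨fun _ => hnet, fun _ => htop, hAX, fun i => ⟨H i, σ i, h3 i, h4 i⟩⟩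
    obtain ⟨k, X', G', N', hF, hN'⟩ := hfam.noParallel hRes
    refine ⟨N', _, _, X', hF.net (), hF.top (), hN', ?_⟩
    intro N'' hN''
    obtain ⟨i, hi, rfl⟩ := List.getElem_of_mem hN''
    obtain ⟨H', σ', g1, g2⟩ := hF.red ⟨i, hi⟩
    exact ⟨A ⟨i, hi⟩, hA ⟨i, hi⟩, hF.sub _, H', σ', M ⟨i, hi⟩, g1, g2, h5 ⟨i, hi⟩⟩
  · rintro ⟨N, G, ρ, X, h1, h2, _, h3⟩
    exact ⟨N, G, ρ, X, h1, h2, h3⟩

end NoParallel

theorem cleanCompatible_computable :
    ComputablePred fun C : List (List Arc × List Arc) => CleanCompatible (C.map toMG) := by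
  have h := compatA_computable cleanRes_isRes clean_resProg
  exact h.of_eq fun C => compatA_iff cleanRes_isRes _

theorem cleanCompatibleRooted_computable :
    ComputablePred fun C : List (List Arc × List Arc) => CleanCompatibleRooted (C.map toMG) := by
  have h := compatB_computable cleanRes_isRes clean_resProg
  exact h.of_eq fun C => compatB_iff cleanRes_isRes _

end Pool.Agent.Lib.Pa53cac
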