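import Pool.Agent.Lib.Pa53cac.Plain

/-!
# Deleting an arc into a reticulation commutes with the restriction process
-/

namespace Pool.Agent.Lib.Pa53cac

open Relation

section

variable {V : Type*} [DecidableEq V]

lemma Step.out_exists {G H : Multiset (V × V)} (h : Step G H) {s : V}
    (hs : ∀ e ∈ G, e.2 ≠ s) (hs' : ∃ e ∈ G, e.1 = s) : ∃ e ∈ H, e.1 = s := by
  obtain ⟨e, he, rfl⟩ := hs'
  cases h with
  | suppress u v w G₀ _ _ h₀ =>
    rcases Multiset.mem_cons.1 he with rfl | he
    · exact ⟨(u, w), Multiset.mem_cons_self _ _, rfl⟩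
    rcases Multiset.mem_cons.1 he with rfl | he
    · exact absurd rfl (hs (u, v) (Multiset.mem_cons_self _ _))
    · exact ⟨e, Multiset.mem_cons_of_mem he, rfl⟩
  | parallel e' G₀ =>
    rcases Multiset.mem_cons.1 he with rfl | he
    · exact ⟨e, Multiset.mem_cons_self _ _, rfl⟩
    · exact ⟨e, he, rfl⟩

lemma iff_of_step {X Y D : Multiset (V × V)} (hX : Acyclic X) (h : ReflGen Step X Y)
    (hD : Normal D) : ReflTransGen Step X D ↔ ReflTransGen Step Y D := by
  rcases (reflGen_iff _ _ _).1 h with h | h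
  · rw [h]
  · exact ⟨fun h' => steps_to_normal hX h' hD (.single h), fun h' => .head h h'⟩

/-- Commutation of the deletion of an arc into a surviving reticulation with the steps. -/
theorem commute {M : Multiset (V × V)} {b : V} (hbM : indeg M b = 2)
    {ρ : V} {T : Set V} {G : Multiset (V × V)} (hGM : ReflTransGen Step G M) :
    Acyclic G → (∀ e ∈ G, e.2 ≠ ρ) → (∀ t ∈ T, ∀ e ∈ G, e.1 ≠ t) →
    indeg G b = 2 → ∀ a, (a, b) ∈ G → ∃ a', (a', b) ∈ M ∧ ((∀ e ∈ G, e.2 ≠ a) → a' = a) ∧
      ∀ D, Normal D → (ReflTransGen Step (cut (G.erase (a, b)) ρ T) D ↔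
        ReflTransGen Step (cut (M.erase (a', b)) ρ T) D) := by
  induction hGM using ReflTransGen.head_induction_on with
  | refl =>
    intro _ _ _ _ a ha
    exact ⟨a, ha, fun _ => rfl, fun D _ => Iff.rfl⟩
  | @head G H hGH hHM ih =>
    intro hG hρ hT hb a ha
    have hH := hGH.acyclic hG
    have hρ' := hGH.head_ne hρ
    have hT' : ∀ t ∈ T, ∀ e ∈ H, e.1 ≠ t := fun t ht => hGH.tail_ne (hT t ht)
    have hHb : indeg H b = 2 := by
      have h1 := hGH.indeg_le b
      have h2 := steps_indeg_le hHM b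
      omega
    specialize ih hH hρ' hT' hHb
    -- it suffices to treat one step
    suffices hone : ∃ a₁, (a₁, b) ∈ H ∧ ((∀ e ∈ G, e.2 ≠ a) → a₁ = a) ∧
        ReflGen Step (cut (G.erase (a, b)) ρ T) (cut (H.erase (a₁, b)) ρ T) by
      obtain ⟨a₁, h1, h2, h3⟩ := hone
      obtain ⟨a', h4, h5, h6⟩ := ih a₁ h1
      refine ⟨a', h4, ?_, ?_⟩
      · intro hs
        have h7 := h2 hs
        subst h7
        exact h5 (hGH.head_ne hs)
      · intro D hD
        rw [← h6 D hD]
        exact iff_of_step (hG.mono fun e he =>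
          Multiset.mem_of_mem_erase (mem_cut.1 he).1) h3 hD
    cases hGH with
    | suppress u v w G₀ hvu hvw h₀ =>
      have hv1 : indeg ((u, v) ::ₘ (v, w) ::ₘ G₀) v = 1 := by
        have : indeg G₀ v = 0 := indeg_eq_zero.2 fun e he => (h₀ e he).2
        simp [indeg_cons, this, hvw.symm]
      have hbv : b ≠ v := by
        rintro rfl
        omega
      rcases Multiset.mem_cons.1 ha with h1 | h1
      · exact absurd (Prod.mk.inj h1).2 hbv
      rcases Multiset.mem_cons.1 h1 with h1 | h1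
      · -- the tracked arc is `(v, w)`
        obtain ⟨rfl, rfl⟩ := Prod.mk.inj h1
        refine ⟨u, Multiset.mem_cons_self _ _, ?_, ?_⟩
        · intro hs
          exact absurd rfl (hs (u, a) (Multiset.mem_cons_self _ _))
        rw [Multiset.erase_cons_head]
        have hne : (u, a) ≠ (a, b) := fun h => hvu (Prod.mk.inj h).1.symm
        rw [Multiset.erase_cons_tail _ hne, Multiset.erase_cons_head]
        have h3 : cut ((u, a) ::ₘ G₀) ρ T = cut G₀ ρ T := by
          apply cut_cons_sink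
          · exact fun e he => (h₀ e he).1
          · exact hvu.symm
          · intro haT
            exact hT a haT (a, b) (Multiset.mem_cons_of_mem (Multiset.mem_cons_self _ _)) rfl
        rw [h3]
      · -- the tracked arc is elsewhere
        obtain ⟨G₁, rfl⟩ := Multiset.exists_cons_of_mem h1
        have e1 : ((u, v) ::ₘ (v, w) ::ₘ (a, b) ::ₘ G₁).erase (a, b) =
            (u, v) ::ₘ (v, w) ::ₘ G₁ := by
          rw [Multiset.cons_swap (v, w), Multiset.cons_swap (u, v), Multiset.erase_cons_head]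
        have e2 : ((u, w) ::ₘ (a, b) ::ₘ G₁).erase (a, b) = (u, w) ::ₘ G₁ := by
          rw [Multiset.cons_swap (u, w), Multiset.erase_cons_head]
        refine ⟨a, Multiset.mem_cons_of_mem (Multiset.mem_cons_self _ _), fun _ => rfl, ?_⟩
        rw [e1, e2]
        have hst : Step ((u, v) ::ₘ (v, w) ::ₘ G₁) ((u, w) ::ₘ G₁) :=
          Step.suppress _ _ _ _ hvu hvw fun e he => h₀ e (Multiset.mem_cons_of_mem he)
        have hsub : ∀ e ∈ (u, v) ::ₘ (v, w) ::ₘ G₁, e ∈ (u, v) ::ₘ (v, w) ::ₘ (a, b) ::ₘ G₁ := by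
          intro e he
          simp only [Multiset.mem_cons] at he ⊢
          tauto
        exact step_cut hst (hG.mono hsub) (ρ := ρ) (T := T) (fun e he => hρ e (hsub e he))
          (fun t ht e he => hT t ht e (hsub e he))
    | parallel e' G₀ =>
      have hne : e'.2 ≠ b := by
        intro h
        rw [indeg_cons, indeg_cons, if_pos h] at hb
        rw [indeg_cons, if_pos h] at hHb
        omega
      rcases Multiset.mem_cons.1 ha with h1 | h1
      · exact absurd (by rw [← h1]) hne
      rcases Multiset.mem_cons.1 h1 with h1 | h1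
      · exact absurd (by rw [← h1]) hne
      obtain ⟨G₁, rfl⟩ := Multiset.exists_cons_of_mem h1
      have e1 : (e' ::ₘ e' ::ₘ (a, b) ::ₘ G₁).erase (a, b) = e' ::ₘ e' ::ₘ G₁ := by
        rw [Multiset.cons_swap e' (a, b), Multiset.cons_swap e' (a, b), Multiset.erase_cons_head]
      have e2 : (e' ::ₘ (a, b) ::ₘ G₁).erase (a, b) = e' ::ₘ G₁ := by
        rw [Multiset.cons_swap e' (a, b), Multiset.erase_cons_head]
      refine ⟨a, Multiset.mem_cons_of_mem (Multiset.mem_cons_self _ _), fun _ => rfl, ?_⟩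
      rw [e1, e2]
      have hst : Step (e' ::ₘ e' ::ₘ G₁) (e' ::ₘ G₁) := Step.parallel _ _
      have hsub : ∀ e ∈ e' ::ₘ e' ::ₘ G₁, e ∈ e' ::ₘ e' ::ₘ (a, b) ::ₘ G₁ := by
        intro e he
        simp only [Multiset.mem_cons] at he ⊢
        tauto
      exact step_cut hst (hG.mono hsub) (ρ := ρ) (T := T) (fun e he => hρ e (hsub e he))
        (fun t ht e he => hT t ht e (hsub e he))

/-- Facts on the path union below the lowest vertex on all paths, after deleting an arc. -/
lemma erase_lsa {N : Multiset (V × V)} (hN : Acyclic N) {ρ σ : V}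
    {T : Set V} {a b : V} (hσ1 : Reach N ρ σ) (hσ2 : OnAllPaths N ρ T σ)
    (hσ3 : cut N ρ T = pathUnion N σ T)
    (hreach : ∀ v, IsVertex N v → Reach (N.erase (a, b)) ρ v) :
    cut (N.erase (a, b)) ρ T = cut ((pathUnion N σ T).erase (a, b)) σ T ∧
    ((a, b) ∈ N → (a, b) ∈ pathUnion N σ T → indeg (pathUnion N σ T) b = indeg N b) := by
  classical
  have hsubN : ∀ e ∈ N.erase (a, b), e ∈ N := fun e he => Multiset.mem_of_mem_erase he
  have hσ1' : Reach (N.erase (a, b)) ρ σ := by
    rcases ReflTransGen.cases_tail hσ1 with h | ⟨c, _, hc⟩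
    · rw [h]
    · exact hreach σ ⟨(c, σ), hc, Or.inr rfl⟩
  have hσ2' : OnAllPaths (N.erase (a, b)) ρ T σ := by
    rw [onAllPaths_iff] at hσ2 ⊢
    exact fun t ht h => hσ2 t ht (h.mono hsubN)
  constructor
  · rw [cut_root (hN.mono hsubN) hσ2' hσ1']
    apply cut_congr
    rw [pathUnion_erase]
  · intro hab he
    obtain ⟨_, h1, t, ht, h2⟩ := mem_pathUnion.1 he
    simp only at h1 h2
    have hσb : SReach N σ b := TransGen.tail' h1 hab
    rw [indeg, indeg, pathUnion, Multiset.countP_filter]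
    apply Multiset.countP_congr rfl
    rintro ⟨x, y⟩ hxy
    refine propext ⟨fun h => h.1, ?_⟩
    rintro rfl
    refine ⟨rfl, ?_, t, ht, h2⟩
    have hρx : Reach N ρ x := Reach.mono hsubN (hreach x ⟨(x, y), hxy, Or.inl rfl⟩)
    rcases av_or σ hρx with h | h
    · exact h.2
    · exfalso
      have hav : Av N σ y t := by
        rcases av_or σ h2 with h' | h'
        · exact absurd (hσb.trans_left h'.1) (hN σ)
        · exact h'
      exact onAllPaths_iff.1 hσ2 t ht
        ((h.trans (Av.of_adj hxy h.ne_right hav.ne_left)).trans hav)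

/-- General form of the commutation theorem. -/
theorem commute_cut {N M : Multiset (V × V)} (hN : Acyclic N) {ρ : V}
    {T : Set V} (hT : ∀ t ∈ T, ∀ e ∈ N, e.1 ≠ t)
    {a b : V} (hab : (a, b) ∈ N) (hb : indeg N b = 2)
    (hreach : ∀ v, IsVertex N v → Reach (N.erase (a, b)) ρ v)
    (hbM : indeg M b = 2) (hNM : ReflTransGen Step (cut N ρ T) M) :
    ∃ a' σ, (a', b) ∈ M ∧ ((∀ e ∈ N, e.2 ≠ a) → a' = a) ∧
      (∀ e ∈ M, e.2 ≠ σ) ∧ (∃ e ∈ M, e.1 = σ) ∧
      ∀ D, Normal D → (ReflTransGen Step (cut (N.erase (a, b)) ρ T) D ↔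
        ReflTransGen Step (cut (M.erase (a', b)) σ T) D) := by
  classical
  obtain ⟨σ, hσ1, hσ2, hσ3⟩ := exists_lsa (T := T) hN (ρ := ρ)
  obtain ⟨key, hdeg⟩ := erase_lsa (a := a) (b := b) hN hσ1 hσ2 hσ3 hreach
  set G := pathUnion N σ T with hG
  have hGac : Acyclic G := hN.mono pathUnion_subset
  rw [hσ3] at hNM
  -- the arc is in `G`
  have hGb : 2 ≤ indeg G b := by
    have := steps_indeg_le hNM b
    omega
  have hGb' : indeg G b ≤ indeg N b := Multiset.countP_le_of_le _ (by
    rw [hG, pathUnion]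
    exact Multiset.filter_le _ _)
  have he : (a, b) ∈ G := by
    by_contra hcon
    have h1 : indeg G b ≤ indeg (N.erase (a, b)) b := by
      apply Multiset.countP_le_of_le
      rw [Multiset.le_iff_count]
      intro e
      by_cases hee : e = (a, b)
      · subst hee
        rw [Multiset.count_eq_zero_of_notMem hcon]
        omega
      · rw [Multiset.count_erase_of_ne hee]
        exact Multiset.count_le_of_le _ (by
          rw [hG, pathUnion]
          exact Multiset.filter_le _ _)
    have h2 : indeg (N.erase (a, b)) b + 1 = indeg N b := by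
      conv_rhs => rw [← Multiset.cons_erase hab, indeg_cons]
      simp
    omega
  have hρG : ∀ e ∈ G, e.2 ≠ σ := by
    rintro ⟨x, y⟩ hxy h
    simp only at h
    subst h
    obtain ⟨h3, h4, _⟩ := mem_pathUnion.1 hxy
    exact hN _ (TransGen.tail' h4 h3)
  have hTG : ∀ t ∈ T, ∀ e ∈ G, e.1 ≠ t := fun t ht e he => hT t ht e (pathUnion_subset e he)
  obtain ⟨a', h1, h2, h3⟩ := commute hbM hNM hGac hρG hTG (by omega) a he
  refine ⟨a', σ, h1, fun hs => h2 fun e he => hs e (pathUnion_subset e he), ?_, ?_, ?_⟩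
  · clear h1 h2 h3 hbM
    induction hNM with
    | refl => exact hρG
    | tail _ h ih => exact h.head_ne ih
  · have hout : ∃ e ∈ G, e.1 = σ := by
      obtain ⟨_, h4, t, ht, h5⟩ := mem_pathUnion.1 he
      rcases ReflTransGen.cases_head h4 with h6 | ⟨c, h6, h7⟩
      · exact ⟨(a, b), he, h6.symm⟩
      · exact ⟨(σ, c), mem_pathUnion.2 ⟨h6, .refl, t, ht, (h7.tail hab).trans h5⟩, rfl⟩
    clear h1 h2 h3 hbM
    have hboth : (∀ e ∈ M, e.2 ≠ σ) ∧ ∃ e ∈ M, e.1 = σ := by
      induction hNM with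
      | refl => exact ⟨hρG, hout⟩
      | tail _ h ih => exact ⟨h.head_ne ih.1, h.out_exists ih.1 ih.2⟩
    exact hboth.2
  · intro D hD
    rw [key]
    exact h3 D hD

end

end Pool.Agent.Lib.Pa53cac
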