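import Pool.Agent.Lib.Pa53cac.Steps

namespace Pool.Agent.Lib.Pa53cac

open Relation

variable {V : Type*}

/-- `e` is incident with `v`. -/
def touch (v : V) (e : V × V) : Prop := e.1 = v ∨ e.2 = v

instance [DecidableEq V] (v : V) : DecidablePred (touch v) := fun e =>
  inferInstanceAs (Decidable (e.1 = v ∨ e.2 = v))

section

variable [DecidableEq V]

lemma filter_erase_pos {G : Multiset (V × V)} {p : V × V → Prop} [DecidablePred p] {e : V × V}
    (he : p e) : (G.erase e).filter p = (G.filter p).erase e := by
  ext a
  by_cases ha : p a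
  · rw [Multiset.count_filter_of_pos ha]
    by_cases hae : a = e
    · subst hae
      rw [Multiset.count_erase_self, Multiset.count_erase_self, Multiset.count_filter_of_pos ha]
    · rw [Multiset.count_erase_of_ne hae, Multiset.count_erase_of_ne hae,
        Multiset.count_filter_of_pos ha]
  · rw [Multiset.count_filter_of_neg ha]
    have hae : a ≠ e := fun h => ha (h ▸ he)
    rw [Multiset.count_erase_of_ne hae, Multiset.count_filter_of_neg ha]

lemma filter_erase_neg {G : Multiset (V × V)} {p : V × V → Prop} [DecidablePred p] {e : V × V}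
    (he : ¬ p e) : (G.erase e).filter p = G.filter p := by
  ext a
  by_cases ha : p a
  · rw [Multiset.count_filter_of_pos ha, Multiset.count_filter_of_pos ha]
    have hae : a ≠ e := fun h => he (h ▸ ha)
    rw [Multiset.count_erase_of_ne hae]
  · rw [Multiset.count_filter_of_neg ha, Multiset.count_filter_of_neg ha]

/-- Functional description of the suppression step. -/
lemma step_suppress {G : Multiset (V × V)} {u v w : V} (hvu : v ≠ u) (hvw : v ≠ w)
    (h : G.filter (touch v) = {(u, v), (v, w)}) :
    Step G ((u, w) ::ₘ G.filter (fun e => ¬ touch v e)) := by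
  have h1 := Multiset.filter_add_not (touch v) G
  rw [h] at h1
  have h2 : G = (u, v) ::ₘ (v, w) ::ₘ G.filter (fun e => ¬ touch v e) := by
    conv_lhs => rw [← h1]
    simp [Multiset.insert_eq_cons, Multiset.cons_add]
  conv_lhs => rw [h2]
  refine Step.suppress _ _ _ _ hvu hvw ?_
  intro e he
  have := (Multiset.mem_filter.1 he).2
  simp only [touch, not_or] at this
  exact this

/-- Functional description of the deletion of a parallel arc. -/
lemma step_parallel {G : Multiset (V × V)} {e : V × V} (h : 2 ≤ G.count e) :
    Step G (G.erase e) := by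
  have h1 : e ∈ G := Multiset.count_pos.1 (by omega)
  have h2 : e ∈ G.erase e := by
    rw [← Multiset.count_pos, Multiset.count_erase_self]
    omega
  have h3 : G = e ::ₘ e ::ₘ (G.erase e).erase e := by
    rw [Multiset.cons_erase h2, Multiset.cons_erase h1]
  have h4 : G.erase e = e ::ₘ (G.erase e).erase e := (Multiset.cons_erase h2).symm
  rw [h4]
  conv_lhs => rw [h3]
  exact Step.parallel _ _

lemma step_cases {G H : Multiset (V × V)} (h : Step G H) :
    (∃ u v w, v ≠ u ∧ v ≠ w ∧ G.filter (touch v) = {(u, v), (v, w)} ∧
      H = (u, w) ::ₘ G.filter (fun e => ¬ touch v e)) ∨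
    (∃ e, 2 ≤ G.count e ∧ H = G.erase e) := by
  cases h with
  | suppress u v w G₀ hvu hvw h₀ =>
    left
    have hf1 : G₀.filter (touch v) = 0 := by
      rw [Multiset.filter_eq_nil]
      intro e he hc
      rcases hc with hc | hc
      · exact (h₀ e he).1 hc
      · exact (h₀ e he).2 hc
    have hf2 : G₀.filter (fun e => ¬ touch v e) = G₀ := by
      rw [Multiset.filter_eq_self]
      intro e he hc
      rcases hc with hc | hc
      · exact (h₀ e he).1 hc
      · exact (h₀ e he).2 hc
    refine ⟨u, v, w, hvu, hvw, ?_, ?_⟩
    · rw [Multiset.filter_cons_of_pos (p := touch v) (a := (u, v)) _ (Or.inr rfl),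
        Multiset.filter_cons_of_pos (p := touch v) (a := (v, w)) _ (Or.inl rfl), hf1]
      rfl
    · rw [Multiset.filter_cons_of_neg, Multiset.filter_cons_of_neg, hf2]
      · simp [touch]
      · simp [touch]
  | parallel e G₀ =>
    right
    refine ⟨e, ?_, ?_⟩
    · rw [Multiset.count_cons_self, Multiset.count_cons_self]
      omega
    · rw [Multiset.erase_cons_head]

lemma mem_of_touch_eq {G : Multiset (V × V)} {u v w : V}
    (h : G.filter (touch v) = {(u, v), (v, w)}) :
    (u, v) ∈ G ∧ (v, w) ∈ G ∧ ∀ e ∈ G, touch v e → e = (u, v) ∨ e = (v, w) := by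
  refine ⟨?_, ?_, ?_⟩
  · have : (u, v) ∈ G.filter (touch v) := by rw [h]; simp
    exact Multiset.mem_of_mem_filter this
  · have : (v, w) ∈ G.filter (touch v) := by rw [h]; simp
    exact Multiset.mem_of_mem_filter this
  · intro e he ht
    have : e ∈ G.filter (touch v) := Multiset.mem_filter.2 ⟨he, ht⟩
    rw [h] at this
    simpa using this

/-- Diamond for a suppression and a parallel deletion. -/
lemma diamond_sp {G : Multiset (V × V)} {u v w : V} (hvu : v ≠ u) (hvw : v ≠ w)
    (h : G.filter (touch v) = {(u, v), (v, w)}) {e : V × V} (he : 2 ≤ G.count e) :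
    ∃ D, Step ((u, w) ::ₘ G.filter (fun e => ¬ touch v e)) D ∧ Step (G.erase e) D := by
  have hnt : ¬ touch v e := by
    intro ht
    have h1 : (G.filter (touch v)).count e = G.count e := Multiset.count_filter_of_pos ht
    rw [h] at h1
    have h2 : ({(u, v), (v, w)} : Multiset (V × V)).count e ≤ 1 := by
      have hne : (u, v) ≠ (v, w) := fun h => hvu (Prod.mk.inj h).1.symm
      have hnd : ({(u, v), (v, w)} : Multiset (V × V)).Nodup := by
        simp [hne]
      exact Multiset.nodup_iff_count_le_one.1 hnd e
    omega
  have hmem : e ∈ G.filter (fun e => ¬ touch v e) :=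
    Multiset.mem_filter.2 ⟨Multiset.count_pos.1 (by omega), hnt⟩
  have hcnt : (G.filter (fun e => ¬ touch v e)).count e = G.count e :=
    Multiset.count_filter_of_pos hnt
  refine ⟨((u, w) ::ₘ G.filter (fun e => ¬ touch v e)).erase e, ?_, ?_⟩
  · apply step_parallel
    rw [Multiset.count_cons, hcnt]
    omega
  · have h1 : (G.erase e).filter (touch v) = {(u, v), (v, w)} := by
      rw [filter_erase_neg, h]
      exact hnt
    have h2 := step_suppress hvu hvw h1
    convert h2 using 1
    rw [filter_erase_pos]
    · by_cases huw : e = (u, w)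
      · subst huw
        rw [Multiset.erase_cons_head, Multiset.cons_erase hmem]
      · rw [Multiset.erase_cons_tail _ (Ne.symm huw)]
    · exact hnt

lemma filter_touch_filter {G : Multiset (V × V)} {v v' : V} :
    (G.filter (fun e => ¬ touch v e)).filter (touch v') =
      (G.filter (touch v')).filter (fun e => ¬ touch v e) := by
  rw [Multiset.filter_filter, Multiset.filter_filter]
  apply Multiset.filter_congr
  intro e _
  exact and_comm

lemma filter_ntouch_filter {G : Multiset (V × V)} {v v' : V} :
    (G.filter (fun e => ¬ touch v e)).filter (fun e => ¬ touch v' e) =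
      (G.filter (fun e => ¬ touch v' e)).filter (fun e => ¬ touch v e) := by
  rw [Multiset.filter_filter, Multiset.filter_filter]
  apply Multiset.filter_congr
  intro e _
  exact and_comm

omit [DecidableEq V] in
lemma pair_filter_both {a b : V × V} {p : V × V → Prop} [DecidablePred p] (ha : p a) (hb : p b) :
    ({a, b} : Multiset (V × V)).filter p = {a, b} := by
  rw [Multiset.filter_eq_self]
  intro x hx
  simp only [Multiset.insert_eq_cons, Multiset.mem_cons, Multiset.mem_singleton] at hx
  rcases hx with rfl | rfl <;> assumption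

omit [DecidableEq V] in
lemma pair_filter_right {a b : V × V} {p : V × V → Prop} [DecidablePred p] (ha : ¬ p a)
    (hb : p b) : ({a, b} : Multiset (V × V)).filter p = {b} := by
  rw [Multiset.insert_eq_cons, Multiset.filter_cons_of_neg _ ha, Multiset.filter_eq_self]
  intro x hx
  rw [Multiset.mem_singleton] at hx
  rwa [hx]

omit [DecidableEq V] in
lemma pair_filter_left {a b : V × V} {p : V × V → Prop} [DecidablePred p] (ha : p a)
    (hb : ¬ p b) : ({a, b} : Multiset (V × V)).filter p = {a} := by
  rw [Multiset.insert_eq_cons, Multiset.filter_cons_of_pos _ ha]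
  have : ({b} : Multiset (V × V)).filter p = 0 := by
    rw [Multiset.filter_eq_nil]
    intro x hx
    rw [Multiset.mem_singleton] at hx
    rwa [hx]
  rw [this]
  rfl

/-- Two adjacent suppressions. -/
lemma diamond_ss_adj {G : Multiset (V × V)} (hG : Acyclic G) {u v v' w' : V}
    (hvu : v ≠ u) (hvv : v ≠ v') (hvw' : v' ≠ w')
    (h : G.filter (touch v) = {(u, v), (v, v')})
    (h' : G.filter (touch v') = {(v, v'), (v', w')}) :
    ∃ D, Step ((u, v') ::ₘ G.filter (fun e => ¬ touch v e)) D ∧
      Step ((v, w') ::ₘ G.filter (fun e => ¬ touch v' e)) D := by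
  obtain ⟨m1, m2, _⟩ := mem_of_touch_eq h
  obtain ⟨_, m3, _⟩ := mem_of_touch_eq h'
  have hw'v : w' ≠ v := by
    rintro rfl
    exact hG w' ((TransGen.single m2).tail m3)
  have hv'u : v' ≠ u := by
    rintro rfl
    exact hG v' ((TransGen.single m1).tail m2)
  have k1 : ((u, v') ::ₘ G.filter (fun e => ¬ touch v e)).filter (touch v') =
      {(u, v'), (v', w')} := by
    rw [Multiset.filter_cons_of_pos (p := touch v') (a := (u, v')) _ (Or.inr rfl),
      filter_touch_filter, h', pair_filter_right]
    · rfl
    · simp [touch]
    · simp [touch, hvv.symm, hw'v]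
  have k2 : ((v, w') ::ₘ G.filter (fun e => ¬ touch v' e)).filter (touch v) =
      {(u, v), (v, w')} := by
    rw [Multiset.filter_cons_of_pos (p := touch v) (a := (v, w')) _ (Or.inl rfl),
      filter_touch_filter, h, pair_filter_left]
    · exact Multiset.pair_comm _ _
    · simp [touch, hv'u.symm, hvv]
    · simp [touch]
  have s1 := step_suppress hv'u hvw' k1
  have s2 := step_suppress hvu hw'v.symm k2
  refine ⟨_, s1, ?_⟩
  convert s2 using 2
  rw [Multiset.filter_cons_of_neg, Multiset.filter_cons_of_neg, filter_ntouch_filter]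
  · simp [touch]
  · simp [touch]

lemma diamond_ss {G : Multiset (V × V)} (hG : Acyclic G) {u v w u' v' w' : V}
    (hvu : v ≠ u) (hvw : v ≠ w) (hvu' : v' ≠ u') (hvw' : v' ≠ w') (hvv : v ≠ v')
    (h : G.filter (touch v) = {(u, v), (v, w)})
    (h' : G.filter (touch v') = {(u', v'), (v', w')}) :
    ∃ D, Step ((u, w) ::ₘ G.filter (fun e => ¬ touch v e)) D ∧
      Step ((u', w') ::ₘ G.filter (fun e => ¬ touch v' e)) D := by
  obtain ⟨m1, m2, m3⟩ := mem_of_touch_eq h
  obtain ⟨m1', m2', m3'⟩ := mem_of_touch_eq h'
  by_cases hw : w = v'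
  · subst hw
    have : u' = v := by
      rcases m3' _ m2 (Or.inr rfl) with h1 | h1
      · exact (Prod.mk.inj h1).1.symm
      · exact absurd (Prod.mk.inj h1).1 hvv
    subst this
    exact diamond_ss_adj hG hvu hvv hvw' h h'
  · by_cases hu : u = v'
    · subst hu
      have : w' = v := by
        rcases m3' _ m1 (Or.inl rfl) with h1 | h1
        · exact absurd (Prod.mk.inj h1).2 hvv
        · exact (Prod.mk.inj h1).2.symm
      subst this
      obtain ⟨D, d1, d2⟩ := diamond_ss_adj hG hvu' hvv.symm hvw h' h
      exact ⟨D, d2, d1⟩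
    · have hu'v : u' ≠ v := by
        rintro rfl
        rcases m3 _ m1' (Or.inl rfl) with h1 | h1
        · exact hvv (Prod.mk.inj h1).2.symm
        · exact hw (Prod.mk.inj h1).2.symm
      have hw'v : w' ≠ v := by
        rintro rfl
        rcases m3 _ m2' (Or.inr rfl) with h1 | h1
        · exact hu (Prod.mk.inj h1).1.symm
        · exact hvw (Prod.mk.inj h1).2
      have k1 : ((u, w) ::ₘ G.filter (fun e => ¬ touch v e)).filter (touch v') =
          {(u', v'), (v', w')} := by
        rw [Multiset.filter_cons_of_neg, filter_touch_filter, h', pair_filter_both]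
        · simp [touch, hu'v, hvv.symm]
        · simp [touch, hw'v, hvv.symm]
        · simp [touch, hu, hw]
      have k2 : ((u', w') ::ₘ G.filter (fun e => ¬ touch v' e)).filter (touch v) =
          {(u, v), (v, w)} := by
        rw [Multiset.filter_cons_of_neg, filter_touch_filter, h, pair_filter_both]
        · simp [touch, hu, hvv]
        · simp [touch, hw, hvv]
        · simp [touch, hu'v, hw'v]
      have s1 := step_suppress hvu' hvw' k1
      have s2 := step_suppress hvu hvw k2
      refine ⟨_, s1, ?_⟩
      convert s2 using 1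
      rw [Multiset.filter_cons_of_pos, Multiset.filter_cons_of_pos, filter_ntouch_filter,
        Multiset.cons_swap]
      · simp [touch, hu'v, hw'v]
      · simp [touch, hu, hw]

lemma diamond {G H K : Multiset (V × V)} (hG : Acyclic G) (h1 : Step G H) (h2 : Step G K) :
    H = K ∨ ∃ D, Step H D ∧ Step K D := by
  rcases step_cases h1 with ⟨u, v, w, hvu, hvw, hf, rfl⟩ | ⟨e, he, rfl⟩
  · rcases step_cases h2 with ⟨u', v', w', hvu', hvw', hf', rfl⟩ | ⟨e', he', rfl⟩
    · by_cases hvv : v = v'
      · subst hvv
        left
        obtain ⟨m1, m2, m3⟩ := mem_of_touch_eq hf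
        obtain ⟨m1', m2', m3'⟩ := mem_of_touch_eq hf'
        have hu : u = u' := by
          rcases m3' _ m1 (Or.inr rfl) with h | h
          · exact (Prod.mk.inj h).1
          · exact absurd (Prod.mk.inj h).1.symm hvu
        have hw : w = w' := by
          rcases m3' _ m2 (Or.inl rfl) with h | h
          · exact absurd (Prod.mk.inj h).2.symm hvw
          · exact (Prod.mk.inj h).2
        rw [hu, hw]
      · right
        exact diamond_ss hG hvu hvw hvu' hvw' hvv hf hf'
    · right
      exact diamond_sp hvu hvw hf he'
  · rcases step_cases h2 with ⟨u', v', w', hvu', hvw', hf', rfl⟩ | ⟨e', he', rfl⟩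
    · right
      obtain ⟨D, d1, d2⟩ := diamond_sp hvu' hvw' hf' he
      exact ⟨D, d2, d1⟩
    · by_cases hee : e = e'
      · subst hee
        exact Or.inl rfl
      · right
        refine ⟨(G.erase e).erase e', ?_, ?_⟩
        · apply step_parallel
          rw [Multiset.count_erase_of_ne (Ne.symm hee)]
          exact he'
        · rw [Multiset.erase_comm]
          apply step_parallel
          rw [Multiset.count_erase_of_ne hee]
          exact he

end

lemma steps_acyclic {G H : Multiset (V × V)} (h : ReflTransGen Step G H) (hG : Acyclic G) :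
    Acyclic H := by
  induction h with
  | refl => exact hG
  | tail _ h ih => exact h.acyclic ih

lemma steps_card_le {G H : Multiset (V × V)} (h : ReflTransGen Step G H) : H.card ≤ G.card := by
  induction h with
  | refl => exact le_rfl
  | tail _ h ih => exact h.card_lt.le.trans ih

/-- No further reduction is possible. -/
def Normal (M : Multiset (V × V)) : Prop := ∀ D, ¬ Step M D

/-- Uniqueness of normal forms. -/
lemma steps_to_normal {G H M : Multiset (V × V)} (hG : Acyclic G)
    (hM : ReflTransGen Step G M) (hN : Normal M) (hH : ReflTransGen Step G H) :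
    ReflTransGen Step H M := by
  classical
  let r : Multiset (V × V) → Multiset (V × V) → Prop := fun G H => Acyclic G ∧ Step G H
  have lift : ∀ {A B : Multiset (V × V)}, Acyclic A → ReflTransGen Step A B →
      ReflTransGen r A B := by
    intro A B hA h
    induction h with
    | refl => exact .refl
    | tail h1 h2 ih => exact ih.tail ⟨steps_acyclic h1 hA, h2⟩
  have cr : Join (ReflTransGen r) M H := by
    refine church_rosser (r := r) ?_ (lift hG hM) (lift hG hH)
    rintro a b c ⟨ha, hab⟩ ⟨_, hac⟩
    rcases diamond ha hab hac with rfl | ⟨D, d1, d2⟩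
    · exact ⟨b, .refl, .refl⟩
    · exact ⟨D, .single ⟨hab.acyclic ha, d1⟩, .single ⟨hac.acyclic ha, d2⟩⟩
  obtain ⟨D, h1, h2⟩ := cr
  have hMD : M = D := by
    rcases ReflTransGen.cases_head h1 with h | ⟨c, hc, _⟩
    · exact h
    · exact absurd hc.2 (hN c)
  rw [← hMD] at h2
  exact rtg_mono (fun _ _ h => h.2) h2

end Pool.Agent.Lib.Pa53cac
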