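import Pool.Agent.Lib.Pa53cac.Family

namespace Pool.Agent.Lib.Pa53cac

open Relation

lemma indeg_eq_count {V : Type*} [DecidableEq V] (G : Multiset (V × V)) (v : V) :
    indeg G v = (G.map Prod.snd).count v := by
  rw [indeg, Multiset.count_map, Multiset.countP_eq_card_filter]
  congr 1
  exact Multiset.filter_congr fun e _ => eq_comm

lemma outdeg_eq_count {V : Type*} [DecidableEq V] (G : Multiset (V × V)) (v : V) :
    outdeg G v = (G.map Prod.fst).count v := by
  rw [outdeg, Multiset.count_map, Multiset.countP_eq_card_filter]
  congr 1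
  exact Multiset.filter_congr fun e _ => eq_comm

/-- The vertex set. -/
def vset {V : Type*} [DecidableEq V] (G : Multiset (V × V)) : Finset V :=
  (G.map Prod.fst + G.map Prod.snd).toFinset

lemma mem_vset {V : Type*} [DecidableEq V] {G : Multiset (V × V)} {v : V} :
    v ∈ vset G ↔ IsVertex G v := by
  simp only [vset, Multiset.mem_toFinset, Multiset.mem_add, Multiset.mem_map]
  constructor
  · rintro (⟨e, he, h⟩ | ⟨e, he, h⟩)
    · exact ⟨e, he, Or.inl h⟩
    · exact ⟨e, he, Or.inr h⟩
  · rintro ⟨e, he, h | h⟩
    · exact Or.inl ⟨e, he, h⟩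
    · exact Or.inr ⟨e, he, h⟩

lemma card_vset_le {V : Type*} [DecidableEq V] (G : Multiset (V × V)) :
    (vset G).card ≤ 2 * G.card := by
  refine (Multiset.toFinset_card_le _).trans ?_
  simp
  omega

lemma sum_indeg {V : Type*} [DecidableEq V] (G : Multiset (V × V)) :
    ∑ v ∈ vset G, indeg G v = G.card := by
  simp only [indeg_eq_count]
  rw [Multiset.sum_count_eq_card]
  · simp
  · intro v hv
    rw [vset, Multiset.mem_toFinset]
    exact Multiset.mem_add.2 (Or.inr hv)

lemma sum_outdeg {V : Type*} [DecidableEq V] (G : Multiset (V × V)) :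
    ∑ v ∈ vset G, outdeg G v = G.card := by
  simp only [outdeg_eq_count]
  rw [Multiset.sum_count_eq_card]
  · simp
  · intro v hv
    rw [vset, Multiset.mem_toFinset]
    exact Multiset.mem_add.2 (Or.inl hv)

/-- Number of arcs of a leaf-rooted network. -/
lemma LeafNet.card_le {G : Multiset (Vtx × Vtx)} {z : ℕ} {X : Finset ℕ} (h : LeafNet G z X)
    {R : Finset Vtx} (hR : ∀ b, indeg G b = 2 → b ∈ R) :
    G.card ≤ 2 * X.card + 3 * R.card := by
  classical
  have h1 : ∀ v ∈ vset G, 2 * indeg G v ≤ outdeg G v +
      2 * (if v ∈ X.image Sum.inl then 1 else 0) + 3 * (if v ∈ R then 1 else 0) := by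
    intro v hv
    rw [mem_vset] at hv
    rcases v with x | k
    · have hx := (h.label_iff x).1 hv
      have hmem : (Sum.inl x : Vtx) ∈ X.image Sum.inl := Finset.mem_image_of_mem _ hx
      rw [if_pos hmem]
      by_cases hxz : x = z
      · subst hxz
        have := h.root.1
        omega
      · have := (h.leaf x hx hxz).1
        omega
    · rcases h.inner k hv with h2 | h2
      · omega
      · have := hR _ h2.1
        rw [if_pos this]
        omega
  have h2 := Finset.sum_le_sum h1
  rw [← Finset.mul_sum, sum_indeg, Finset.sum_add_distrib, Finset.sum_add_distrib, sum_outdeg,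
    ← Finset.mul_sum, ← Finset.mul_sum] at h2
  have h3 : ∑ v ∈ vset G, (if v ∈ X.image Sum.inl then 1 else 0) ≤ X.card := by
    rw [Finset.sum_ite_mem, Finset.sum_const, smul_eq_mul, mul_one]
    refine (Finset.card_le_card Finset.inter_subset_right).trans ?_
    exact Finset.card_image_le
  have h4 : ∑ v ∈ vset G, (if v ∈ R then 1 else 0) ≤ R.card := by
    rw [Finset.sum_ite_mem, Finset.sum_const, smul_eq_mul, mul_one]
    exact Finset.card_le_card Finset.inter_subset_right
  omega

variable {ι κ : Type*} {z : κ → ℕ} {r : ι → κ} {L : ι → Finset ℕ} {S' : ι → Set Vtx}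
  {P : ι → Multiset (Vtx × Vtx) → Prop}

/-- Small model property. -/
theorem Fam.small [Fintype ι] [Fintype κ] [Nonempty κ] (hP : ∀ i, Inv (L i) (S' i) (P i))
    (hr : Function.Surjective r) (hz : ∀ j i, z j ∉ L i)
    {S : Finset Vtx} (hS : ∀ i, ∀ v ∈ S' i, v ∈ S)
    (hex : ∃ X G N, Fam z r L P X G N) :
    ∃ X G N, Fam z r L P X G N ∧ ∀ j, (G j).card ≤
      2 * ((Finset.univ.biUnion L).card + Fintype.card κ + S.card) + 3 * S.card := by
  classical
  obtain ⟨N, ⟨X, G, h⟩, hmin⟩ := (measure mu).wf.has_min
    {N | ∃ X G, Fam z r L P X G N} (by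
      obtain ⟨X, G, N, h⟩ := hex
      exact ⟨N, X, G, h⟩)
  have hmin' : ∀ X' G' N', Fam z r L P X' G' N' → ¬ mu N' < mu N := fun X' G' N' h' =>
    hmin N' ⟨X', G', h'⟩
  have hsurv : ∀ j b, indeg (G j) b = 2 → ∃ i, b ∈ S' i := by
    intro j b hb
    by_contra hcon
    rw [not_exists] at hcon
    obtain ⟨X', G', N', h', hlt⟩ := h.replace hP hz hb hcon
    exact hmin' _ _ _ h' hlt
  have hR : ∀ j b, indeg (G j) b = 2 → b ∈ S := fun j b hb => by
    obtain ⟨i, hi⟩ := hsurv j b hb
    exact hS i b hi
  refine ⟨X, G, N, h, fun j => ?_⟩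
  have hXcard : X.card ≤ (Finset.univ.biUnion L).card + Fintype.card κ + S.card := by
    set D := X \ (Finset.univ.biUnion L ∪ Finset.univ.image z) with hD
    have h1 : X.card ≤ D.card + (Finset.univ.biUnion L ∪ Finset.univ.image z).card := by
      have : X ⊆ D ∪ (Finset.univ.biUnion L ∪ Finset.univ.image z) := by
        intro x hx
        rw [Finset.mem_union, hD, Finset.mem_sdiff]
        tauto
      exact (Finset.card_le_card this).trans (Finset.card_union_le _ _)
    have h2 : (Finset.univ.biUnion L ∪ Finset.univ.image z).card ≤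
        (Finset.univ.biUnion L).card + Fintype.card κ :=
      (Finset.card_union_le _ _).trans (Nat.add_le_add_left Finset.card_image_le _)
    have h3 : D.card ≤ S.card := by
      have hq : ∀ x ∈ D, ∃ q y p, (y, Sum.inl x) ∈ G j ∧ (p, y) ∈ G j ∧ (y, q) ∈ G j ∧
          (p, q) ∈ G j ∧ indeg (G j) q = 2 ∧ outdeg (G j) y = 2 := by
        intro x hx
        rw [hD, Finset.mem_sdiff, Finset.mem_union, not_or] at hx
        obtain ⟨hx, hxL, hxz⟩ := hx
        have hxL' : ∀ j, x ∉ L j := fun j hj =>
          hxL (Finset.mem_biUnion.2 ⟨j, Finset.mem_univ _, hj⟩)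
        have hxz' : ∀ j, x ≠ z j := fun j hj =>
          hxz (Finset.mem_image.2 ⟨j, Finset.mem_univ _, hj.symm⟩)
        rcases h.drop hP hr hz hsurv hx hxL' hxz' with ⟨X', G', N', h', hlt⟩ | ⟨y, hy⟩
        · exact absurd hlt (hmin' _ _ _ h')
        · obtain ⟨p, q, h4⟩ := hy j
          exact ⟨q, y, p, h4⟩
      choose! q y p hq1 hq2 hq3 hq4 hq5 hq6 using hq
      apply Finset.card_le_card_of_injOn q
      · intro x hx
        exact hR j _ (hq5 x hx)
      · intro x hx x' hx' hqq
        have hx0 : x ∈ D := hx
        have hx0' : x' ∈ D := hx'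
        -- the two arcs into `q`
        obtain ⟨a', G₀, hG, hG₀⟩ := retic_shape (hq5 x hx0) (hq3 x hx0)
        have hyp : y x ≠ p x := fun h' =>
          (h.net j).acyclic.ne_of_mem (hq2 x hx0) h'.symm
        have into : ∀ c, (c, q x) ∈ G j → c = y x ∨ c = p x := by
          have hpa : p x = a' := by
            have := hq4 x hx0
            rw [hG] at this
            rcases Multiset.mem_cons.1 this with h1 | h1
            · exact absurd (Prod.mk.inj h1).1.symm hyp
            rcases Multiset.mem_cons.1 h1 with h1 | h1
            · exact (Prod.mk.inj h1).1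
            · exact absurd rfl (hG₀ _ h1)
          intro c hc
          rw [hG] at hc
          rcases Multiset.mem_cons.1 hc with h1 | h1
          · exact Or.inl (Prod.mk.inj h1).1
          rcases Multiset.mem_cons.1 h1 with h1 | h1
          · rw [hpa]
            exact Or.inr (Prod.mk.inj h1).1
          · exact absurd rfl (hG₀ _ h1)
        have e1 := hq3 x' hx0'
        have e2 := hq4 x' hx0'
        rw [← hqq] at e1 e2
        rcases into _ e1 with h1 | h1
        · -- same parent
          have o := hq6 x hx0
          have e3 := hq1 x' hx0'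
          rw [h1] at e3
          by_contra hne
          have hqx : q x ≠ Sum.inl x := by
            intro h'
            have := hq5 x hx0
            rw [h'] at this
            have := leaf_ne_of_indeg_two (h.net j) this
            simp at this
          have hqx' : q x ≠ Sum.inl x' := by
            intro h'
            have := hq5 x hx0
            rw [h'] at this
            have := leaf_ne_of_indeg_two (h.net j) this
            simp at this
          obtain ⟨G₁, hG₁⟩ := Multiset.exists_cons_of_mem (hq3 x hx0)
          have f1 : (y x, Sum.inl x) ∈ G₁ := by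
            have := hq1 x hx0
            rw [hG₁] at this
            rcases Multiset.mem_cons.1 this with h2 | h2
            · exact absurd (Prod.mk.inj h2).2.symm hqx
            · exact h2
          obtain ⟨G₂, rfl⟩ := Multiset.exists_cons_of_mem f1
          have f2 : (y x, Sum.inl x') ∈ G₂ := by
            rw [hG₁] at e3
            rcases Multiset.mem_cons.1 e3 with h2 | h2
            · exact absurd (Prod.mk.inj h2).2.symm hqx'
            rcases Multiset.mem_cons.1 h2 with h2 | h2
            · have := (Prod.mk.inj h2).2
              rw [Sum.inl.injEq] at this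
              exact absurd this.symm hne
            · exact h2
          rw [hG₁, outdeg_cons, outdeg_cons] at o
          have := outdeg_pos_of_mem f2
          simp only [if_true] at o
          omega
        · rcases into _ e2 with h2 | h2
          · exfalso
            have := hq2 x' hx0'
            rw [h1, h2] at this
            exact (h.net j).acyclic (y x) ((TransGen.single this).tail (hq2 x hx0))
          · exfalso
            have := hq2 x' hx0'
            rw [h1, h2] at this
            exact (h.net j).acyclic.not_adj_self _ this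
    omega
  have := (h.net j).card_le (hR j)
  omega

end Pool.Agent.Lib.Pa53cac
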