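import Mathlib

/-!
# Phylogenetic networks, their restrictions and semi-directed topologies

Definitions used in the statement about compatibility of semi-directed phylogenetic networks.
-/

namespace Pool.Agent.Lib.Pa53cac

open Relation

section Multigraph

variable {V : Type*}

/-- In the directed multigraph with arc multiset `G`, there is an arc from `u` to `v`. -/
def Adj (G : Multiset (V × V)) (u v : V) : Prop := (u, v) ∈ G

/-- `v` is a vertex of `G`: an end of some arc (our graphs have no isolated vertices). -/
def IsVertex (G : Multiset (V × V)) (v : V) : Prop := ∃ e ∈ G, e.1 = v ∨ e.2 = v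

/-- The out-degree of `v` in `G`. -/
def outdeg [DecidableEq V] (G : Multiset (V × V)) (v : V) : ℕ := G.countP fun e => e.1 = v

/-- The in-degree of `v` in `G`. -/
def indeg [DecidableEq V] (G : Multiset (V × V)) (v : V) : ℕ := G.countP fun e => e.2 = v

/-- `G` has no directed cycle. -/
def Acyclic (G : Multiset (V × V)) : Prop := ∀ v, ¬ TransGen (Adj G) v v

/-- `l` is a directed path of `G` from `a` to `b`. -/
def IsPath (G : Multiset (V × V)) (a b : V) (l : List V) : Prop :=
  l.IsChain (Adj G) ∧ l.head? = some a ∧ l.getLast? = some b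

/-- The vertex `s` lies on every directed path of `G` from `ρ` to a vertex of `T`. -/
def OnAllPaths (G : Multiset (V × V)) (ρ : V) (T : Set V) (s : V) : Prop :=
  ∀ t ∈ T, ∀ l, IsPath G ρ t l → s ∈ l

open scoped Classical in
/-- The union of the directed paths of `G` from `ρ` to the vertices in `T`
(as the multiset of its arcs). -/
noncomputable def pathUnion (G : Multiset (V × V)) (ρ : V) (T : Set V) : Multiset (V × V) :=
  G.filter fun e => ReflTransGen (Adj G) ρ e.1 ∧ ∃ t ∈ T, ReflTransGen (Adj G) e.2 t

open scoped Classical in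
/-- Steps (i) and (ii) of a restriction: keep the union of the directed paths from `ρ` to `T`, and
delete every vertex above a vertex that lies on all these paths. -/
noncomputable def cut (G : Multiset (V × V)) (ρ : V) (T : Set V) : Multiset (V × V) :=
  (pathUnion G ρ T).filter fun e => ¬ ∃ s, OnAllPaths G ρ T s ∧ TransGen (Adj G) e.1 s

/-- Steps (iii) and (iv) of a restriction: suppress a vertex `v` with exactly one incoming arc
`(u, v)` and exactly one outgoing arc `(v, w)`; or delete one of two parallel arcs. -/
inductive Step : Multiset (V × V) → Multiset (V × V) → Prop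
  | suppress (u v w : V) (G : Multiset (V × V)) : v ≠ u → v ≠ w →
      (∀ e ∈ G, e.1 ≠ v ∧ e.2 ≠ v) → Step ((u, v) ::ₘ (v, w) ::ₘ G) ((u, w) ::ₘ G)
  | parallel (e : V × V) (G : Multiset (V × V)) : Step (e ::ₘ e ::ₘ G) (e ::ₘ G)

end Multigraph

/-- Vertices of our networks: `Sum.inl x` is the leaf labelled `x`, and the `Sum.inr k` are the
unlabelled vertices. -/
abbrev Vtx := ℕ ⊕ ℕ

/-- The leaves with labels in `A`. -/
def leafSet (A : Finset ℕ) : Set Vtx := {v | ∃ x ∈ A, v = Sum.inl x}

/-- `G` is a phylogenetic network with root `ρ` and leaf set `X`. -/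
structure IsNetwork (G : Multiset (Vtx × Vtx)) (ρ : Vtx) (X : Finset ℕ) : Prop where
  acyclic : Acyclic G
  simple : G.Nodup
  root : indeg G ρ = 0 ∧ outdeg G ρ = 2
  label_iff : ∀ x, IsVertex G (Sum.inl x) ↔ x ∈ X
  leaf : ∀ x ∈ X, indeg G (Sum.inl x) = 1 ∧ outdeg G (Sum.inl x) = 0
  inner : ∀ k, IsVertex G (Sum.inr k) → Sum.inr k ≠ ρ →
    (indeg G (Sum.inr k) = 1 ∧ outdeg G (Sum.inr k) = 2) ∨
    (indeg G (Sum.inr k) = 2 ∧ outdeg G (Sum.inr k) = 1)

/-- The phylogenetic network `H` with root `σ` is a restriction to the leaf set `A` of the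
phylogenetic network `G` with root `ρ`. -/
def RestrictsTo (G : Multiset (Vtx × Vtx)) (ρ : Vtx) (A : Finset ℕ)
    (H : Multiset (Vtx × Vtx)) (σ : Vtx) : Prop :=
  ReflTransGen Step (cut G ρ (leafSet A)) H ∧ IsNetwork H σ A

/-- A finite mixed graph on `Vtx` (without isolated vertices). -/
structure MixedGraph where
  /-- the directed edges -/
  dir : Multiset (Vtx × Vtx)
  /-- the undirected edges -/
  und : Multiset (Sym2 Vtx)

/-- `M` is the semi-directed topology of the phylogenetic network `G` with root `ρ`: the root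
`ρ`, with children `c` and `d`, is suppressed, and all edges which do not enter a reticulation (a
vertex of in-degree two) are undirected.  The edge which replaces the two edges at the root enters
`c` if `c` is a reticulation, and is undirected if neither `c` nor `d` is a reticulation. -/
def IsTopology (G : Multiset (Vtx × Vtx)) (ρ : Vtx) (M : MixedGraph) : Prop :=
  ∃ c d G₀, G = (ρ, c) ::ₘ (ρ, d) ::ₘ G₀ ∧
    ((indeg G c = 2 ∧
        M.dir = (d, c) ::ₘ G₀.filter (fun e => indeg G e.2 = 2) ∧
        M.und = (G₀.filter fun e => indeg G e.2 ≠ 2).map fun e => s(e.1, e.2)) ∨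
      (indeg G c ≠ 2 ∧ indeg G d ≠ 2 ∧
        M.dir = G₀.filter (fun e => indeg G e.2 = 2) ∧
        M.und = s(c, d) ::ₘ (G₀.filter fun e => indeg G e.2 ≠ 2).map fun e => s(e.1, e.2)))

/-- `v` is a vertex of the mixed graph `M`: an end of some edge. -/
def MixedGraph.IsVertex (M : MixedGraph) (v : Vtx) : Prop :=
  (∃ e ∈ M.dir, e.1 = v ∨ e.2 = v) ∨ ∃ e ∈ M.und, v ∈ e

/-- Rename the vertices of a mixed graph. -/
def MixedGraph.map (h : Vtx → Vtx) (M : MixedGraph) : MixedGraph :=
  ⟨M.dir.map (Prod.map h h), M.und.map (Sym2.map h)⟩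

/-- Isomorphism of mixed graphs, preserving leaf labels and edge directions: the unlabelled
vertices are renamed by a permutation. -/
def MixedGraph.Iso (M M' : MixedGraph) : Prop :=
  ∃ g : Equiv.Perm ℕ, M.map (Sum.map id g) = M'

/-- `A` is the set of leaf labels of the mixed graph `M`. -/
def MixedGraph.HasLeafSet (M : MixedGraph) (A : Finset ℕ) : Prop :=
  ∀ x, M.IsVertex (Sum.inl x) ↔ x ∈ A

/-- `N` is a phylogenetic semi-directed network with leaf set `X`: the semi-directed topology of a
phylogenetic network with leaf set `X`. -/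
def IsSemiDirected (N : MixedGraph) (X : Finset ℕ) : Prop :=
  ∃ G ρ, IsNetwork G ρ X ∧ IsTopology G ρ N

/-- The mixed graph `N'` is isomorphic to a restriction to `A` of the phylogenetic semi-directed
network `N` with leaf set `X`: it is obtained by rooting `N` at a valid root location, restricting
to `A`, and taking the semi-directed topology. -/
def SemiRestrictsTo (N : MixedGraph) (X A : Finset ℕ) (N' : MixedGraph) : Prop :=
  ∃ G ρ H σ M, IsNetwork G ρ X ∧ IsTopology G ρ N ∧ RestrictsTo G ρ A H σ ∧
    IsTopology H σ M ∧ M.Iso N'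

/-- The family `C` of mixed graphs is compatible. -/
def Compatible (C : List MixedGraph) : Prop :=
  ∃ N X, IsSemiDirected N X ∧
    ∀ N' ∈ C, ∃ A, N'.HasLeafSet A ∧ A ⊆ X ∧ SemiRestrictsTo N X A N'

/-- The family `C` of mixed graphs is compatible, and all restrictions of `N` may be computed with
the same root location of `N`. -/
def CompatibleRooted (C : List MixedGraph) : Prop :=
  ∃ N G ρ X, IsNetwork G ρ X ∧ IsTopology G ρ N ∧
    ∀ N' ∈ C, ∃ A, N'.HasLeafSet A ∧ A ⊆ X ∧
      ∃ H σ M, RestrictsTo G ρ A H σ ∧ IsTopology H σ M ∧ M.Iso N'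

/-- The network `H` with root `σ` has a triangle at its root: `c` and `r` are the two children of
`σ` and there is an arc from `c` to `r`.  Then the semi-directed topology of `H` has two parallel
edges from `c` to `r`. -/
def RootTriangle (H : Multiset (Vtx × Vtx)) (σ c r : Vtx) : Prop :=
  (σ, c) ∈ H ∧ (σ, r) ∈ H ∧ (c, r) ∈ H

/-- One of the two parallel edges given by a triangle at the root is deleted, and the restriction
process is applied again.  The pairs consist of a network and its root. -/
def CleanStep (A : Finset ℕ) (x y : Multiset (Vtx × Vtx) × Vtx) : Prop :=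
  ∃ c r, RootTriangle x.1 x.2 c r ∧ RestrictsTo (x.1.erase (x.2, r)) x.2 A y.1 y.2

/-- The network `H` with root `σ` and without a triangle at the root is a restriction to `A` of
the network `G` with root `ρ`, where parallel edges of the semi-directed topology (that is,
triangles at the root) are also removed during the process. -/
def CleanRestrictsTo (G : Multiset (Vtx × Vtx)) (ρ : Vtx) (A : Finset ℕ)
    (H : Multiset (Vtx × Vtx)) (σ : Vtx) : Prop :=
  ∃ H₀ σ₀, RestrictsTo G ρ A H₀ σ₀ ∧ Relation.ReflTransGen (CleanStep A) (H₀, σ₀) (H, σ) ∧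
    ∀ c r, ¬ RootTriangle H σ c r

/-- The mixed graph has no parallel edges. -/
def MixedGraph.NoParallel (N : MixedGraph) : Prop :=
  (N.dir.map (fun e => s(e.1, e.2)) + N.und).Nodup

/-- The family `C` of mixed graphs is compatible, where semi-directed networks have no parallel
edges. -/
def CleanCompatible (C : List MixedGraph) : Prop :=
  ∃ N X, IsSemiDirected N X ∧ N.NoParallel ∧
    ∀ N' ∈ C, ∃ A, N'.HasLeafSet A ∧ A ⊆ X ∧
      ∃ G ρ H σ M, IsNetwork G ρ X ∧ IsTopology G ρ N ∧ CleanRestrictsTo G ρ A H σ ∧
        IsTopology H σ M ∧ M.Iso N'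

/-- The family `C` of mixed graphs is compatible, where semi-directed networks have no parallel
edges, and all restrictions of `N` may be computed with the same root location of `N`. -/
def CleanCompatibleRooted (C : List MixedGraph) : Prop :=
  ∃ N G ρ X, IsNetwork G ρ X ∧ IsTopology G ρ N ∧ N.NoParallel ∧
    ∀ N' ∈ C, ∃ A, N'.HasLeafSet A ∧ A ⊆ X ∧
      ∃ H σ M, CleanRestrictsTo G ρ A H σ ∧ IsTopology H σ M ∧ M.Iso N'

/-- The mixed graph encoded by a list of directed edges and a list of undirected edges. -/
def toMG (p : List (Vtx × Vtx) × List (Vtx × Vtx)) : MixedGraph :=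
  ⟨(p.1 : Multiset (Vtx × Vtx)),
    ((p.2.map fun e => s(e.1, e.2) : List (Sym2 Vtx)) : Multiset (Sym2 Vtx))⟩

end Pool.Agent.Lib.Pa53cac
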