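import Pool.Agent.Lib.Pa53cac.Confluence

namespace Pool.Agent.Lib.Pa53cac

open Relation

variable {V : Type*}

lemma Step.card_eq {G H : Multiset (V × V)} (h : Step G H) : H.card + 1 = G.card := by
  cases h <;> simp

/-- If everything is in the cut, this remains so after a step. -/
lemma Step.closed {G H : Multiset (V × V)} (h : Step G H) (hG : Acyclic G) {ρ : V} {T : Set V}
    (hρ : ∀ e ∈ G, e.2 ≠ ρ) (hT : ∀ t ∈ T, ∀ e ∈ G, e.1 ≠ t) (hc : cut G ρ T = G) :
    cut H ρ T = H := by
  have h1 := step_cut h hG hρ hT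
  rw [hc] at h1
  have h2 : (cut H ρ T).card ≤ H.card := Multiset.card_le_card (cut_le H ρ T)
  have h3 := h.card_eq
  apply Multiset.eq_of_le_of_card_le (cut_le H ρ T)
  rcases (reflGen_iff _ _ _).1 h1 with h1 | h1
  · rw [h1]
    omega
  · have := h1.card_eq
    omega

lemma Step.head_ne {G H : Multiset (V × V)} (h : Step G H) {ρ : V}
    (hρ : ∀ e ∈ G, e.2 ≠ ρ) : ∀ e ∈ H, e.2 ≠ ρ := by
  cases h with
  | suppress u v w G₀ _ _ _ =>
    intro e he
    rcases Multiset.mem_cons.1 he with rfl | he
    · exact hρ (v, w) (Multiset.mem_cons_of_mem (Multiset.mem_cons_self _ _))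
    · exact hρ e (Multiset.mem_cons_of_mem (Multiset.mem_cons_of_mem he))
  | parallel e G₀ =>
    intro e' he'
    exact hρ e' (Multiset.mem_cons_of_mem he')

lemma Step.tail_ne {G H : Multiset (V × V)} (h : Step G H) {t : V}
    (hρ : ∀ e ∈ G, e.1 ≠ t) : ∀ e ∈ H, e.1 ≠ t := by
  cases h with
  | suppress u v w G₀ _ _ _ =>
    intro e he
    rcases Multiset.mem_cons.1 he with rfl | he
    · exact hρ (u, v) (Multiset.mem_cons_self _ _)
    · exact hρ e (Multiset.mem_cons_of_mem (Multiset.mem_cons_of_mem he))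
  | parallel e G₀ =>
    intro e' he'
    exact hρ e' (Multiset.mem_cons_of_mem he')

section Deg

variable [DecidableEq V]

lemma indeg_cons (e : V × V) (G : Multiset (V × V)) (v : V) :
    indeg (e ::ₘ G) v = indeg G v + if e.2 = v then 1 else 0 := by
  rw [indeg, indeg, Multiset.countP_cons]

lemma outdeg_cons (e : V × V) (G : Multiset (V × V)) (v : V) :
    outdeg (e ::ₘ G) v = outdeg G v + if e.1 = v then 1 else 0 := by
  rw [outdeg, outdeg, Multiset.countP_cons]

lemma indeg_eq_zero {G : Multiset (V × V)} {v : V} : indeg G v = 0 ↔ ∀ e ∈ G, e.2 ≠ v := by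
  rw [indeg, Multiset.countP_eq_zero]

lemma outdeg_eq_zero {G : Multiset (V × V)} {v : V} : outdeg G v = 0 ↔ ∀ e ∈ G, e.1 ≠ v := by
  rw [outdeg, Multiset.countP_eq_zero]

lemma indeg_pos {G : Multiset (V × V)} {v : V} : 0 < indeg G v ↔ ∃ u, Adj G u v := by
  rw [indeg, Multiset.countP_pos]
  constructor
  · rintro ⟨⟨a, b⟩, he, rfl⟩
    exact ⟨a, he⟩
  · rintro ⟨u, hu⟩
    exact ⟨(u, v), hu, rfl⟩

lemma outdeg_pos {G : Multiset (V × V)} {v : V} : 0 < outdeg G v ↔ ∃ u, Adj G v u := by
  rw [outdeg, Multiset.countP_pos]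
  constructor
  · rintro ⟨⟨a, b⟩, he, rfl⟩
    exact ⟨b, he⟩
  · rintro ⟨u, hu⟩
    exact ⟨(v, u), hu, rfl⟩

lemma Step.indeg_le {G H : Multiset (V × V)} (h : Step G H) (x : V) :
    indeg H x ≤ indeg G x := by
  cases h with
  | suppress u v w G₀ _ _ _ =>
    simp only [indeg_cons]
    omega
  | parallel e G₀ =>
    simp only [indeg_cons]
    omega

/-- Deleting one of the two arcs into a vertex which does not survive does not change the
normal form. -/
theorem deletion {M : Multiset (V × V)} {b : V} (hbM : ¬ IsVertex M b)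
    {ρ : V} {T : Set V} {G : Multiset (V × V)} (hGM : ReflTransGen Step G M) :
    Acyclic G → (∀ e ∈ G, e.2 ≠ ρ) → (∀ t ∈ T, ∀ e ∈ G, e.1 ≠ t) → cut G ρ T = G →
    indeg G b = 2 → ∀ a, (a, b) ∈ G → ReflTransGen Step (cut (G.erase (a, b)) ρ T) M := by
  induction hGM using ReflTransGen.head_induction_on with
  | refl =>
    intro _ _ _ _ _ a ha
    exact absurd ⟨(a, b), ha, Or.inr rfl⟩ hbM
  | @head G H hGH hHM ih =>
    intro hG hρ hT hc hb a ha
    have hH := hGH.acyclic hG
    have hρ' := hGH.head_ne hρ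
    have hT' : ∀ t ∈ T, ∀ e ∈ H, e.1 ≠ t := fun t ht => hGH.tail_ne (hT t ht)
    have hc' := hGH.closed hG hρ hT hc
    specialize ih hH hρ' hT' hc'
    cases hGH with
    | suppress u v w G₀ hvu hvw h₀ =>
      have hv1 : indeg ((u, v) ::ₘ (v, w) ::ₘ G₀) v = 1 := by
        have : indeg G₀ v = 0 := indeg_eq_zero.2 fun e he => (h₀ e he).2
        simp [indeg_cons, this, hvw.symm]
      have hbv : b ≠ v := by
        rintro rfl
        omega
      have hb' : indeg ((u, w) ::ₘ G₀) b = 2 := by
        rw [← hb]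
        simp [indeg_cons, hbv.symm]
      rcases Multiset.mem_cons.1 ha with h1 | h1
      · exact absurd (Prod.mk.inj h1).2 hbv
      rcases Multiset.mem_cons.1 h1 with h1 | h1
      · -- the tracked arc is `(v, w)`
        obtain ⟨rfl, rfl⟩ := Prod.mk.inj h1
        have h2 := ih hb' u (Multiset.mem_cons_self _ _)
        rw [Multiset.erase_cons_head] at h2
        have hne : (u, a) ≠ (a, b) := fun h => hvu (Prod.mk.inj h).1.symm
        rw [Multiset.erase_cons_tail _ hne, Multiset.erase_cons_head]
        have h3 : cut ((u, a) ::ₘ G₀) ρ T = cut G₀ ρ T := by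
          apply cut_congr
          have : (u, a) ::ₘ G₀ = G₀ + {(u, a)} := by
            rw [add_comm]
            rfl
          rw [this]
          apply pathUnion_add
          intro e he
          rw [Multiset.mem_singleton] at he
          subst he
          rintro ⟨_, t, ht, h⟩
          rw [← this] at h
          rcases ReflTransGen.cases_head h with h | ⟨c, h, _⟩
          · exact hT t ht (a, b) (Multiset.mem_cons_of_mem (Multiset.mem_cons_self _ _)) h
          · rcases Multiset.mem_cons.1 h with h | h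
            · exact hvu (Prod.mk.inj h).1
            · exact (h₀ _ h).1 rfl
        rw [h3]
        exact h2
      · -- the tracked arc is elsewhere
        obtain ⟨G₁, rfl⟩ := Multiset.exists_cons_of_mem h1
        have e1 : ((u, v) ::ₘ (v, w) ::ₘ (a, b) ::ₘ G₁).erase (a, b) =
            (u, v) ::ₘ (v, w) ::ₘ G₁ := by
          rw [Multiset.cons_swap (v, w), Multiset.cons_swap (u, v), Multiset.erase_cons_head]
        have e2 : ((u, w) ::ₘ (a, b) ::ₘ G₁).erase (a, b) = (u, w) ::ₘ G₁ := by
          rw [Multiset.cons_swap (u, w), Multiset.erase_cons_head]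
        have h2 := ih hb' a (Multiset.mem_cons_of_mem (Multiset.mem_cons_self _ _))
        rw [e2] at h2
        rw [e1]
        have hst : Step ((u, v) ::ₘ (v, w) ::ₘ G₁) ((u, w) ::ₘ G₁) :=
          Step.suppress _ _ _ _ hvu hvw fun e he => h₀ e (Multiset.mem_cons_of_mem he)
        have hsub : ∀ e ∈ (u, v) ::ₘ (v, w) ::ₘ G₁, e ∈ (u, v) ::ₘ (v, w) ::ₘ (a, b) ::ₘ G₁ := by
          intro e he
          simp only [Multiset.mem_cons] at he ⊢
          tauto
        have h4 := step_cut hst (hG.mono hsub) (ρ := ρ) (T := T) (fun e he => hρ e (hsub e he))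
          (fun t ht e he => hT t ht e (hsub e he))
        rcases (reflGen_iff _ _ _).1 h4 with h4 | h4
        · rw [← h4]
          exact h2
        · exact .head h4 h2
    | parallel e' G₀ =>
      rcases Multiset.mem_cons.1 ha with h1 | h1
      · subst h1
        rw [Multiset.erase_cons_head, hc']
        exact hHM
      rcases Multiset.mem_cons.1 h1 with h1 | h1
      · subst h1
        rw [Multiset.erase_cons_head, hc']
        exact hHM
      obtain ⟨G₁, rfl⟩ := Multiset.exists_cons_of_mem h1
      have hne : e'.2 ≠ b := by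
        intro h
        simp [indeg_cons, h] at hb
      have hb' : indeg (e' ::ₘ (a, b) ::ₘ G₁) b = 2 := by
        rw [← hb]
        simp [indeg_cons, hne]
      have e1 : (e' ::ₘ e' ::ₘ (a, b) ::ₘ G₁).erase (a, b) = e' ::ₘ e' ::ₘ G₁ := by
        rw [Multiset.cons_swap e' (a, b), Multiset.cons_swap e' (a, b), Multiset.erase_cons_head]
      have e2 : (e' ::ₘ (a, b) ::ₘ G₁).erase (a, b) = e' ::ₘ G₁ := by
        rw [Multiset.cons_swap e' (a, b), Multiset.erase_cons_head]
      have h2 := ih hb' a (Multiset.mem_cons_of_mem (Multiset.mem_cons_self _ _))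
      rw [e2] at h2
      rw [e1]
      have hst : Step (e' ::ₘ e' ::ₘ G₁) (e' ::ₘ G₁) := Step.parallel _ _
      have hsub : ∀ e ∈ e' ::ₘ e' ::ₘ G₁, e ∈ e' ::ₘ e' ::ₘ (a, b) ::ₘ G₁ := by
        intro e he
        simp only [Multiset.mem_cons] at he ⊢
        tauto
      have h4 := step_cut hst (hG.mono hsub) (ρ := ρ) (T := T) (fun e he => hρ e (hsub e he))
        (fun t ht e he => hT t ht e (hsub e he))
      rcases (reflGen_iff _ _ _).1 h4 with h4 | h4
      · rw [← h4]
        exact h2
      · exact .head h4 h2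

end Deg

/-! ### The lowest vertex on all paths -/

open scoped Classical in
/-- Number of arcs below a vertex. -/
noncomputable def rank (G : Multiset (V × V)) (v : V) : ℕ :=
  (G.filter fun e => Reach G v e.1).card

open scoped Classical in
/-- Number of arcs above a vertex. -/
noncomputable def corank (G : Multiset (V × V)) (v : V) : ℕ :=
  (G.filter fun e => Reach G e.2 v).card

lemma rank_lt {G : Multiset (V × V)} (hG : Acyclic G) {a b : V} (h : Adj G a b) :
    rank G b < rank G a := by
  classical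
  unfold rank
  apply Multiset.card_lt_card
  refine lt_of_le_of_ne (Multiset.monotone_filter_right _ fun e he => he.head h) ?_
  intro heq
  have h1 : (a, b) ∈ G.filter fun e => Reach G a e.1 :=
    Multiset.mem_filter.2 ⟨h, .refl⟩
  rw [← heq] at h1
  have h2 := (Multiset.mem_filter.1 h1).2
  exact hG a (TransGen.head' h h2)

lemma corank_lt {G : Multiset (V × V)} (hG : Acyclic G) {a b : V} (h : Adj G a b) :
    corank G a < corank G b := by
  classical
  unfold corank
  apply Multiset.card_lt_card
  refine lt_of_le_of_ne (Multiset.monotone_filter_right _ fun e he => he.tail h) ?_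
  intro heq
  have h1 : (a, b) ∈ G.filter fun e => Reach G e.2 b :=
    Multiset.mem_filter.2 ⟨h, .refl⟩
  rw [← heq] at h1
  have h2 := (Multiset.mem_filter.1 h1).2
  exact hG a (TransGen.head' h h2)

lemma rank_lt_of_sreach {G : Multiset (V × V)} (hG : Acyclic G) {a b : V} (h : SReach G a b) :
    rank G b < rank G a := by
  induction h with
  | single h => exact rank_lt hG h
  | tail _ h ih => exact (rank_lt hG h).trans ih

/-- If every vertex except `ρ` has an incoming arc then all vertices are below `ρ`. -/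
lemma reach_of_root {G : Multiset (V × V)} (hG : Acyclic G) {ρ : V}
    (h : ∀ v, IsVertex G v → v ≠ ρ → ∃ u, Adj G u v) {v : V} (hv : IsVertex G v) :
    Reach G ρ v := by
  induction hn : corank G v using Nat.strong_induction_on generalizing v with
  | _ n ih =>
    by_cases hvρ : v = ρ
    · rw [hvρ]
    · obtain ⟨u, hu⟩ := h v hv hvρ
      have h1 := corank_lt hG hu
      exact (ih (corank G u) (by omega) ⟨(u, v), hu, Or.inl rfl⟩ rfl).tail hu

/-- Existence of the lowest vertex on all paths, and the resulting description of the cut. -/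
lemma exists_lsa {G : Multiset (V × V)} (hG : Acyclic G) {ρ : V} {T : Set V} :
    ∃ σ, Reach G ρ σ ∧ OnAllPaths G ρ T σ ∧ cut G ρ T = pathUnion G σ T := by
  classical
  obtain ⟨σ, ⟨hσ1, hσ2⟩, hmin⟩ := (measure (rank G)).wf.has_min
    {s | Reach G ρ s ∧ OnAllPaths G ρ T s} ⟨ρ, .refl, fun t _ l hl => by
      obtain ⟨_, h, _⟩ := hl
      cases l with
      | nil => simp at h
      | cons a l =>
        simp only [List.head?_cons, Option.some.injEq] at h
        simp [h]⟩
  refine ⟨σ, hσ1, hσ2, ?_⟩
  rw [cut_root hG hσ2 hσ1, cut, Multiset.filter_eq_self]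
  rintro ⟨a, b⟩ he ⟨s, hs, has⟩
  obtain ⟨_, h1, t, ht, h2⟩ := mem_pathUnion.1 he
  have hss : SReach G σ s := TransGen.trans_right h1 has
  have hsall : OnAllPaths G ρ T s := by
    rw [onAllPaths_iff] at hs hσ2 ⊢
    intro t' ht' hav
    rcases hav.split σ with h | ⟨_, h⟩
    · exact hs t' ht' h.2
    · exact hσ2 t' ht' h
  exact hmin s ⟨hσ1.trans hss.to_reflTransGen, hsall⟩ (rank_lt_of_sreach hG hss)

/-- Cutting after erasing an arc. -/
lemma pathUnion_erase [DecidableEq V] (G : Multiset (V × V)) (σ : V) (T : Set V) (e : V × V) :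
    pathUnion (G.erase e) σ T = pathUnion ((pathUnion G σ T).erase e) σ T := by
  classical
  set P : V × V → Prop := fun e => Reach G σ e.1 ∧ ∃ t ∈ T, Reach G e.2 t with hP
  have hpu : pathUnion G σ T = G.filter P := rfl
  have hsplit : G.filter P + G.filter (fun e => ¬ P e) = G := Multiset.filter_add_not _ _
  obtain ⟨D, hD, hGD⟩ : ∃ D, (∀ d ∈ D, ¬ P d) ∧ G.erase e = (pathUnion G σ T).erase e + D := by
    by_cases he : e ∈ G.filter P
    · refine ⟨G.filter (fun e => ¬ P e), fun d hd => (Multiset.mem_filter.1 hd).2, ?_⟩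
      conv_lhs => rw [← hsplit]
      rw [Multiset.erase_add_left_pos _ he, hpu]
    · refine ⟨(G.filter (fun e => ¬ P e)).erase e, fun d hd =>
        (Multiset.mem_filter.1 (Multiset.mem_of_mem_erase hd)).2, ?_⟩
      conv_lhs => rw [← hsplit]
      rw [Multiset.erase_add_right_neg _ he, hpu, Multiset.erase_of_notMem he]
  rw [hGD]
  apply pathUnion_add
  rintro d hd ⟨h1, t, ht, h2⟩
  have hsub : ∀ f ∈ (pathUnion G σ T).erase e + D, f ∈ G := by
    rw [← hGD]
    intro f hf
    exact Multiset.mem_of_mem_erase hf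
  exact hD d hd ⟨Reach.mono hsub h1, t, ht, Reach.mono hsub h2⟩

/-- General form of the deletion lemma. -/
theorem deletion_cut [DecidableEq V] {N M : Multiset (V × V)} (hN : Acyclic N) {ρ : V}
    {T : Set V} (hT : ∀ t ∈ T, ∀ e ∈ N, e.1 ≠ t)
    {a b : V} (hab : (a, b) ∈ N) (hb : indeg N b = 2)
    (hreach : ∀ v, IsVertex N v → Reach (N.erase (a, b)) ρ v)
    (hbM : ¬ IsVertex M b) (hNM : ReflTransGen Step (cut N ρ T) M) :
    ReflTransGen Step (cut (N.erase (a, b)) ρ T) M := by
  classical
  have hsubN : ∀ e ∈ N.erase (a, b), e ∈ N := fun e he => Multiset.mem_of_mem_erase he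
  obtain ⟨σ, hσ1, hσ2, hσ3⟩ := exists_lsa (T := T) hN (ρ := ρ)
  set G := pathUnion N σ T with hG
  have hσ1' : Reach (N.erase (a, b)) ρ σ := by
    rcases ReflTransGen.cases_tail hσ1 with h | ⟨c, _, hc⟩
    · rw [h]
    · exact hreach σ ⟨(c, σ), hc, Or.inr rfl⟩
  have hσ2' : OnAllPaths (N.erase (a, b)) ρ T σ := by
    rw [onAllPaths_iff] at hσ2 ⊢
    exact fun t ht h => hσ2 t ht (h.mono hsubN)
  have key : cut (N.erase (a, b)) ρ T = cut (G.erase (a, b)) σ T := by
    rw [cut_root (hN.mono hsubN) hσ2' hσ1']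
    apply cut_congr
    rw [pathUnion_erase]
  rw [key]
  have hGac : Acyclic G := hN.mono pathUnion_subset
  have hGc : cut G σ T = G := by
    rw [hG, cut_pathUnion, ← cut_root hN hσ2 hσ1, hσ3]
  rw [hσ3] at hNM
  by_cases he : (a, b) ∈ G
  · obtain ⟨_, h1, t, ht, h2⟩ := mem_pathUnion.1 he
    simp only at h1 h2
    have hσb : SReach N σ b := TransGen.tail' h1 hab
    apply deletion hbM hNM hGac
    · rintro ⟨x, y⟩ hxy h
      simp only at h
      subst h
      obtain ⟨h3, h4, _⟩ := mem_pathUnion.1 hxy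
      exact hN _ (TransGen.tail' h4 h3)
    · intro t ht e he
      exact hT t ht e (pathUnion_subset e he)
    · exact hGc
    · rw [← hb, indeg, indeg, hG, pathUnion, Multiset.countP_filter]
      apply Multiset.countP_congr rfl
      rintro ⟨x, y⟩ hxy
      refine propext ⟨fun h => h.1, ?_⟩
      rintro rfl
      refine ⟨rfl, ?_, t, ht, h2⟩
      have hρx : Reach N ρ x := Reach.mono hsubN (hreach x ⟨(x, y), hxy, Or.inl rfl⟩)
      rcases av_or σ hρx with h | h
      · exact h.2
      · exfalso
        have hav : Av N σ y t := by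
          rcases av_or σ h2 with h' | h'
          · exact absurd (hσb.trans_left h'.1) (hN σ)
          · exact h'
        exact onAllPaths_iff.1 hσ2 t ht
          ((h.trans (Av.of_adj hxy h.ne_right hav.ne_left)).trans hav)
    · exact he
  · rw [Multiset.erase_of_notMem he, hGc]
    exact hNM

end Pool.Agent.Lib.Pa53cac
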