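import Pool.Agent.Lib.Pa53cac.Rename

namespace Pool.Agent.Lib.Pa53cac

open Relation

/-! ### Preliminaries on leaf-rooted networks -/

lemma mem_SD_dir {G : Multiset (Vtx × Vtx)} {e : Vtx × Vtx} :
    e ∈ (SD G).dir ↔ e ∈ G ∧ indeg G e.2 = 2 := by
  simp [SD]

lemma mem_SD_und {G : Multiset (Vtx × Vtx)} {e : Sym2 Vtx} :
    e ∈ (SD G).und ↔ ∃ f ∈ G, indeg G f.2 ≠ 2 ∧ s(f.1, f.2) = e := by
  simp only [SD, Multiset.mem_map, Multiset.mem_filter]
  constructor
  · rintro ⟨f, ⟨h1, h2⟩, h3⟩
    exact ⟨f, h1, h2, h3⟩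
  · rintro ⟨f, h1, h2, h3⟩
    exact ⟨f, ⟨h1, h2⟩, h3⟩

lemma LeafNet.indeg_le {G : Multiset (Vtx × Vtx)} {z : ℕ} {X : Finset ℕ}
    (h : LeafNet G z X) (v : Vtx) : indeg G v ≤ 2 := by
  by_cases hv : IsVertex G v
  · rcases v with x | k
    · by_cases hx : x = z
      · subst hx
        have := h.root.1
        omega
      · have := h.leaf x ((h.label_iff x).1 hv) hx
        omega
    · have := h.inner k hv
      omega
  · have := indeg_outdeg_zero hv
    omega

lemma LeafNet.indeg_pos {G : Multiset (Vtx × Vtx)} {z : ℕ} {X : Finset ℕ}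
    (h : LeafNet G z X) {v : Vtx} (hv : IsVertex G v) (hvz : v ≠ Sum.inl z) :
    0 < indeg G v := by
  rcases v with x | k
  · have := h.leaf x ((h.label_iff x).1 hv) (fun h' => hvz (by rw [h']))
    omega
  · have := h.inner k hv
    omega

lemma Step.isVertex {V : Type*} {G H : Multiset (V × V)} (h : Step G H) {v : V}
    (hv : IsVertex H v) : IsVertex G v := by
  cases h with
  | suppress u y w G₀ _ _ _ =>
    rw [isVertex_cons] at hv
    rw [isVertex_cons, isVertex_cons]
    simp only at hv ⊢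
    tauto
  | parallel e G₀ =>
    rw [isVertex_cons]
    exact Or.inr hv

lemma steps_isVertex {V : Type*} {G H : Multiset (V × V)} (h : ReflTransGen Step G H) {v : V}
    (hv : IsVertex H v) : IsVertex G v := by
  induction h with
  | refl => exact hv
  | tail _ h ih => exact ih (h.isVertex hv)

/-- A vertex of the cut reaches a target. -/
lemma reach_of_isVertex_cut {V : Type*} {G : Multiset (V × V)} {ρ : V} {T : Set V} {v : V}
    (hv : IsVertex (cut G ρ T) v) : ∃ t ∈ T, Reach G v t := by
  obtain ⟨⟨a, b⟩, he, h⟩ := hv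
  obtain ⟨he, ⟨_, t, ht, hr⟩, _⟩ := mem_cut.1 he
  rcases h with h | h
  · simp only at h
    subst h
    exact ⟨t, ht, hr.head he⟩
  · simp only at h
    subst h
    exact ⟨t, ht, hr⟩

/-- A vertex with a single outgoing arc, towards a sink. -/
lemma reach_single {V : Type*} [DecidableEq V] {G : Multiset (V × V)} {y w t : V}
    (hy : outdeg G y = 1)
    (hyw : (y, w) ∈ G) (hw : outdeg G w = 0) (h : Reach G y t) : t = y ∨ t = w := by
  rcases ReflTransGen.cases_head h with h | ⟨c, h1, h2⟩
  · exact Or.inl h.symm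
  · right
    have hc : c = w := by
      obtain ⟨G₁, rfl⟩ := Multiset.exists_cons_of_mem hyw
      rw [outdeg_cons] at hy
      simp only [if_true] at hy
      have h0 : outdeg G₁ y = 0 := by omega
      rcases Multiset.mem_cons.1 h1 with h | h
      · exact (Prod.mk.inj h).2
      · exact absurd rfl (outdeg_eq_zero.1 h0 _ h)
    subst hc
    rcases ReflTransGen.cases_head h2 with h | ⟨d, h3, _⟩
    · exact h.symm
    · exact absurd rfl (outdeg_eq_zero.1 hw _ h3)

lemma leafSet_outdeg {G : Multiset (Vtx × Vtx)} {z : ℕ} {X A : Finset ℕ}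
    (h : LeafNet G z X) (hA : A ⊆ X) (hz : z ∉ A) :
    ∀ t ∈ leafSet A, ∀ e ∈ G, e.1 ≠ t := by
  rintro t ⟨x, hx, rfl⟩
  have := (h.leaf x (hA hx) (fun h' => hz (h' ▸ hx))).2
  exact outdeg_eq_zero.1 this

/-- Everything is reachable from the root, also after deleting one arc into a reticulation. -/
lemma LeafNet.reach_erase {G : Multiset (Vtx × Vtx)} {z : ℕ} {X : Finset ℕ}
    (h : LeafNet G z X) {a b : Vtx} (hab : (a, b) ∈ G) (hb : indeg G b = 2) :
    ∀ v, IsVertex G v → Reach (G.erase (a, b)) (Sum.inl z) v := by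
  obtain ⟨G₁, rfl⟩ := Multiset.exists_cons_of_mem hab
  rw [Multiset.erase_cons_head]
  have hsub : ∀ e ∈ G₁, e ∈ (a, b) ::ₘ G₁ := fun e he => Multiset.mem_cons_of_mem he
  have hpos : ∀ v, IsVertex ((a, b) ::ₘ G₁) v → v ≠ Sum.inl z → 0 < indeg G₁ v := by
    intro v hv hvz
    have h1 := h.indeg_pos hv hvz
    rw [indeg_cons] at h1
    by_cases hbv : b = v
    · subst hbv
      rw [indeg_cons] at hb
      simp only [if_true] at hb
      omega
    · simpa [hbv] using h1
  intro v hv
  by_cases hvz : v = Sum.inl z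
  · rw [hvz]
  · apply reach_of_root (h.acyclic.mono hsub)
    · intro w hw hwz
      have hw' : IsVertex ((a, b) ::ₘ G₁) w := isVertex_cons.2 (Or.inr hw)
      exact Pa53cac.indeg_pos.1 (hpos w hw' hwz)
    · exact isVertex_of_indeg (hpos v hv hvz)

section Sym2lemma

variable {V : Type*}

lemma sym2_pair {p q p' q' y : V}
    (h : ({s(p, y), s(y, q)} : Multiset (Sym2 V)) = {s(p', y), s(y, q')}) :
    s(p, q) = s(p', q') := by
  have key : ∀ {a b c d : V}, s(a, y) = s(b, y) → s(c, y) = s(d, y) → a = b ∧ c = d := by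
    intro a b c d h1 h2
    rw [Sym2.eq_iff] at h1 h2
    constructor
    · rcases h1 with h1 | h1
      · exact h1.1
      · rw [h1.1, ← h1.2]
    · rcases h2 with h2 | h2
      · exact h2.1
      · rw [h2.1, ← h2.2]
  rw [Sym2.eq_swap (a := y) (b := q), Sym2.eq_swap (a := y) (b := q'),
    Multiset.insert_eq_cons, Multiset.insert_eq_cons, Multiset.cons_eq_cons] at h
  rcases h with ⟨h1, h2⟩ | ⟨_, cs, h1, h2⟩
  · rw [Multiset.singleton_inj] at h2
    obtain ⟨rfl, rfl⟩ := key h1 h2
    rfl
  · have hcs : cs = 0 := by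
      have := congrArg Multiset.card h1
      simpa using this.symm
    subst hcs
    simp only [Multiset.cons_zero, Multiset.singleton_inj] at h1 h2
    obtain ⟨rfl, rfl⟩ := key h1 h2.symm
    rw [Sym2.eq_swap]

end Sym2lemma

/-! ### Families of leaf-rooted networks with the same underlying mixed graph -/

/-- A property `P` of cut networks with leaf set `A` which is invariant under the steps (iii) and
(iv), under removal of reticulations outside `S`, and under renaming. -/
structure Inv (A : Finset ℕ) (S : Set Vtx) (P : Multiset (Vtx × Vtx) → Prop) : Prop where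
  step : ∀ {K K'}, Acyclic K → Step K K' → (P K ↔ P K')
  del : ∀ {G : Multiset (Vtx × Vtx)} {z : ℕ} {X : Finset ℕ} {a b : Vtx}, LeafNet G z X →
    A ⊆ X → z ∉ A → (a, b) ∈ G → indeg G b = 2 → b ∉ S →
    P (cut G (Sum.inl z) (leafSet A)) → P (cut (G.erase (a, b)) (Sum.inl z) (leafSet A))
  nz : ¬ P 0
  vert : ∀ {K b}, P K → b ∈ S → 0 < indeg K b
  ren : ∀ {K} {g : ℕ → ℕ}, Function.Injective g → (∀ k, Sum.inr k ∈ S → g k = k) → P K →
    P (rn (Sum.map id g) K)

variable {ι κ : Type*}

/-- The networks `G j`, rooted at the leaves `z j`, have the same underlying mixed graph `N`, and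
the restriction of `G (r i)` to `L i` has the property `P i`. -/
structure Fam (z : κ → ℕ) (r : ι → κ) (L : ι → Finset ℕ)
    (P : ι → Multiset (Vtx × Vtx) → Prop) (X : Finset ℕ)
    (G : κ → Multiset (Vtx × Vtx)) (N : MixedGraph) : Prop where
  net : ∀ j, LeafNet (G j) (z j) X
  sd : ∀ j, SD (G j) = N
  sub : ∀ i, L i ⊆ X
  red : ∀ i, P i (cut (G (r i)) (Sum.inl (z (r i))) (leafSet (L i)))

/-- The size measure. -/
def mu (N : MixedGraph) : ℕ := 3 * Multiset.card N.dir + Multiset.card N.und

variable {z : κ → ℕ} {r : ι → κ} {L : ι → Finset ℕ} {S : ι → Set Vtx}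
  {P : ι → Multiset (Vtx × Vtx) → Prop}

/-- A reticulation which does not survive in any restriction can be removed. -/
theorem Fam.replace (hP : ∀ i, Inv (L i) (S i) (P i)) (hz : ∀ j i, z j ∉ L i)
    {X : Finset ℕ} {G : κ → Multiset (Vtx × Vtx)} {N : MixedGraph} (h : Fam z r L P X G N)
    {j₀ : κ} {b : Vtx} (hb : indeg (G j₀) b = 2) (hbM : ∀ i, b ∉ S i) :
    ∃ X' G' N', Fam z r L P X' G' N' ∧ mu N' < mu N := by
  classical
  obtain ⟨a, ha⟩ : ∃ a, (a, b) ∈ G j₀ := indeg_pos.1 (by omega)
  have haN : (a, b) ∈ N.dir := by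
    rw [← h.sd j₀]
    exact mem_SD_dir.2 ⟨ha, hb⟩
  have haj : ∀ j, (a, b) ∈ G j ∧ indeg (G j) b = 2 := by
    intro j
    rw [← h.sd j] at haN
    exact mem_SD_dir.1 haN
  obtain ⟨x, hx⟩ := Infinite.exists_notMem_finset X
  obtain ⟨x', hx'⟩ := Infinite.exists_notMem_finset (insert x X)
  rw [Finset.mem_insert, not_or] at hx'
  have hxx : x ≠ x' := fun h' => hx'.1 h'.symm
  have hGj : ∀ j, (a, b) ::ₘ (G j).erase (a, b) = G j := fun j => Multiset.cons_erase (haj j).1
  have hsd : ∀ j, SD ((a, Sum.inl x) ::ₘ (b, Sum.inl x') ::ₘ (G j).erase (a, b)) =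
      ⟨N.dir.filter (fun e => e.2 ≠ b), s(a, Sum.inl x) ::ₘ s(b, Sum.inl x') ::ₘ
        (((N.dir.filter (fun e => e.2 = b)).erase (a, b)).map
          (fun e => s(e.1, e.2)) + N.und)⟩ := by
    intro j
    have h1 := SD_replace (a := a) (b := b) (G₁ := (G j).erase (a, b)) (x := x) (x' := x')
      (by rw [hGj]; exact (haj j).2)
      (by
        rw [hGj]
        exact fun hv => hx (((h.net j).label_iff x).1 hv))
      (by
        rw [hGj]
        exact fun hv => hx'.2 (((h.net j).label_iff x').1 hv)) hxx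
    rw [hGj, h.sd j] at h1
    exact h1
  refine ⟨insert x (insert x' X), fun j => (a, Sum.inl x) ::ₘ (b, Sum.inl x') ::ₘ
    (G j).erase (a, b), _, ⟨?_, hsd, ?_, ?_⟩, ?_⟩
  · intro j
    apply LeafNet.replace
    · rw [hGj]
      exact h.net j
    · rw [hGj]
      exact (haj j).2
    · exact hx
    · exact hx'.2
    · exact hxx
  · intro j
    exact (h.sub j).trans ((Finset.subset_insert _ _).trans (Finset.subset_insert _ _))
  · intro i
    set j := r i with hj
    have hsub : ∀ e ∈ (G j).erase (a, b), e ∈ G j := fun e he => Multiset.mem_of_mem_erase he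
    have hnx : ∀ y, y ∉ X → ∀ e ∈ G j, e.1 ≠ Sum.inl y := by
      intro y hy e he h'
      exact hy (((h.net j).label_iff y).1 ⟨e, he, Or.inl h'⟩)
    have hnL : ∀ y, y ∉ X → Sum.inl y ∉ leafSet (L i) := by
      rintro y hy ⟨w, hw, hw'⟩
      rw [Sum.inl.injEq] at hw'
      exact hy (hw' ▸ h.sub i hw)
    have hb' : b ≠ Sum.inl x' := by
      rintro rfl
      exact hx'.2 (((h.net j).label_iff x').1 ⟨_, (haj j).1, Or.inr rfl⟩)
    have hbx : b ≠ Sum.inl x := by
      rintro rfl
      exact hx (((h.net j).label_iff x).1 ⟨_, (haj j).1, Or.inr rfl⟩)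
    rw [cut_cons_sink, cut_cons_sink]
    · exact (hP i).del (h.net j) (h.sub i) (hz j i) (haj j).1 (haj j).2 (hbM i) (h.red i)
    · intro e he
      exact hnx x' hx'.2 e (hsub e he)
    · exact hb'
    · exact hnL x' hx'.2
    · intro e he
      rcases Multiset.mem_cons.1 he with rfl | he
      · exact hbx
      · exact hnx x hx e (hsub e he)
    · exact hnx x hx (a, b) (haj j).1
    · exact hnL x hx
  · have hcard : (N.dir.filter (fun e => e.2 = b)).card = 2 := by
      rw [← hb, ← h.sd j₀]
      simp only [SD, Multiset.filter_filter, indeg, Multiset.countP_eq_card_filter]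
      congr 1
      apply Multiset.filter_congr
      intro e _
      constructor
      · exact fun h => h.1
      · intro h'
        refine ⟨h', ?_⟩
        rw [h', ← Multiset.countP_eq_card_filter]
        exact hb
    have hsplit : (N.dir.filter (fun e => e.2 = b)).card +
        (N.dir.filter (fun e => ¬ e.2 = b)).card = N.dir.card := by
      rw [← Multiset.card_add, Multiset.filter_add_not]
    have her : ((N.dir.filter (fun e => e.2 = b)).erase (a, b)).card = 1 := by
      rw [Multiset.card_erase_of_mem, hcard]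
      · rfl
      · exact Multiset.mem_filter.2 ⟨haN, rfl⟩
    simp only [mu, Multiset.card_cons, Multiset.card_add, Multiset.card_map, her]
    simp only [ne_eq]
    omega

/-- The parent of a leaf is not the root (if some restriction is nonempty). -/
lemma not_root_adj {G : Multiset (Vtx × Vtx)} {z : ℕ} {X A : Finset ℕ}
    (h : LeafNet G z X) {x : ℕ} (hx : x ∈ X) (hxz : x ≠ z) (hxA : x ∉ A) (hzA : z ∉ A)
    (hcut0 : cut G (Sum.inl z) (leafSet A) ≠ 0) :
    (Sum.inl z, Sum.inl x) ∉ G := by
  intro hadj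
  have hcut : cut G (Sum.inl z) (leafSet A) = 0 := by
    rw [Multiset.eq_zero_iff_forall_notMem]
    intro e he
    obtain ⟨t, ⟨w, hw, rfl⟩, hr⟩ := reach_of_isVertex_cut ⟨e, he, Or.inr rfl⟩
    obtain ⟨he', ⟨hz, _⟩, _⟩ := mem_cut.1 he
    have hr' : Reach G (Sum.inl z) (Sum.inl w) := (hz.tail he').trans hr
    rcases reach_single h.root.2 hadj (h.leaf x hx hxz).2 hr' with h1 | h1
    · rw [Sum.inl.injEq] at h1
      exact hzA (h1 ▸ hw)
    · rw [Sum.inl.injEq] at h1
      exact hxA (h1 ▸ hw)
  exact hcut0 hcut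

/-- Shape of the networks around a leaf outside the `L j` when no reticulation can be removed. -/
lemma Fam.leaf_shape [Nonempty κ] (hP : ∀ i, Inv (L i) (S i) (P i)) (hr : Function.Surjective r)
    (hz : ∀ j i, z j ∉ L i)
    {X : Finset ℕ} {G : κ → Multiset (Vtx × Vtx)} {N : MixedGraph} (h : Fam z r L P X G N)
    (hsurv : ∀ j b, indeg (G j) b = 2 → ∃ i, b ∈ S i)
    {x : ℕ} (hx : x ∈ X) (hxL : ∀ i, x ∉ L i) (hxz : ∀ j, x ≠ z j) :
    ∃ y, ∀ j, (y, Sum.inl x) ∈ G j ∧ indeg (G j) y = 1 ∧ outdeg (G j) y = 2 := by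
  classical
  obtain ⟨j₀⟩ := ‹Nonempty κ›
  obtain ⟨y, hy⟩ := indeg_pos.1 (show 0 < indeg (G j₀) (Sum.inl x) by
    have := (h.net j₀).leaf x hx (hxz j₀)
    omega)
  have hyj : ∀ j, (y, Sum.inl x) ∈ G j := by
    intro j
    have h1 : s(y, Sum.inl x) ∈ N.und := by
      rw [← h.sd j₀, mem_SD_und]
      refine ⟨(y, Sum.inl x), hy, ?_, rfl⟩
      have := (h.net j₀).leaf x hx (hxz j₀)
      simp only
      omega
    rw [← h.sd j, mem_SD_und] at h1
    obtain ⟨⟨c, d⟩, hf, _, h2⟩ := h1
    simp only at h2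
    rw [Sym2.eq_iff] at h2
    rcases h2 with ⟨rfl, rfl⟩ | ⟨rfl, rfl⟩
    · exact hf
    · exfalso
      have := ((h.net j).leaf x hx (hxz j)).2
      exact outdeg_eq_zero.1 this _ hf rfl
  refine ⟨y, fun j => ⟨hyj j, ?_⟩⟩
  -- `y` is not a label
  have hynotroot : ∀ j, y ≠ Sum.inl (z j) := by
    rintro j rfl
    obtain ⟨i, rfl⟩ := hr j
    refine not_root_adj (h.net (r i)) hx (hxz (r i)) (hxL i) (hz (r i) i) ?_ (hyj (r i))
    intro h0
    have := h.red i
    rw [h0] at this
    exact (hP i).nz this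
  obtain ⟨k, rfl⟩ : ∃ k, y = Sum.inr k := by
    rcases y with w | k
    · exfalso
      have hw : w ∈ X := ((h.net j).label_iff w).1 ⟨_, hyj j, Or.inl rfl⟩
      have h1 := ((h.net j).leaf w hw (fun h' => hynotroot j (by rw [h']))).2
      exact outdeg_eq_zero.1 h1 _ (hyj j) rfl
    · exact ⟨k, rfl⟩
  rcases (h.net j).inner k ⟨_, hyj j, Or.inl rfl⟩ with h1 | h1
  · exact h1
  · exfalso
    obtain ⟨i, hi⟩ := hsurv j _ h1.1
    obtain ⟨t, ⟨w, hw, rfl⟩, hrt⟩ := reach_of_isVertex_cut
      (isVertex_of_indeg ((hP i).vert (h.red i) hi))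
    -- in `G (r i)`, the vertex is also a reticulation
    have h2 : indeg (G (r i)) (Sum.inr k) = 2 := by
      obtain ⟨a, ha⟩ : ∃ a, (a, Sum.inr k) ∈ G j := indeg_pos.1 (by omega)
      have h3 : (a, Sum.inr k) ∈ N.dir := by
        rw [← h.sd j]
        exact mem_SD_dir.2 ⟨ha, h1.1⟩
      rw [← h.sd (r i)] at h3
      exact (mem_SD_dir.1 h3).2
    have h3 : outdeg (G (r i)) (Sum.inr k) = 1 := by
      rcases (h.net (r i)).inner k ⟨_, hyj (r i), Or.inl rfl⟩ with h4 | h4
      · omega
      · exact h4.2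
    rcases reach_single h3 (hyj (r i)) ((h.net (r i)).leaf x hx (hxz (r i))).2 hrt with h4 | h4
    · simp at h4
    · rw [Sum.inl.injEq] at h4
      exact hxL i (h4 ▸ hw)

/-- A leaf outside the `L j` can be removed unless its parent lies in a triangle. -/
theorem Fam.drop [Nonempty κ] (hP : ∀ i, Inv (L i) (S i) (P i)) (hr : Function.Surjective r)
    (hz : ∀ j i, z j ∉ L i)
    {X : Finset ℕ} {G : κ → Multiset (Vtx × Vtx)} {N : MixedGraph} (h : Fam z r L P X G N)
    (hsurv : ∀ j b, indeg (G j) b = 2 → ∃ i, b ∈ S i)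
    {x : ℕ} (hx : x ∈ X) (hxL : ∀ i, x ∉ L i) (hxz : ∀ j, x ≠ z j) :
    (∃ X' G' N', Fam z r L P X' G' N' ∧ mu N' < mu N) ∨
    (∃ y, ∀ j, ∃ p q, (y, Sum.inl x) ∈ G j ∧ (p, y) ∈ G j ∧ (y, q) ∈ G j ∧ (p, q) ∈ G j ∧
      indeg (G j) q = 2 ∧ outdeg (G j) y = 2) := by
  classical
  obtain ⟨y, hy⟩ := h.leaf_shape hP hr hz hsurv hx hxL hxz
  have hshape : ∀ j, ∃ p q G₀, G j = (p, y) ::ₘ (y, q) ::ₘ (y, Sum.inl x) ::ₘ G₀ ∧ y ≠ p ∧
      y ≠ q ∧ y ≠ Sum.inl x ∧ ∀ e ∈ G₀, e.1 ≠ y ∧ e.2 ≠ y := fun j =>
    tree_shape (h.net j).acyclic (hy j).2.1 (hy j).2.2 (hy j).1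
  choose p q G₀ hG hyp hyq hyx h₀ using hshape
  by_cases hall : ∀ j, (p j, q j) ∉ G₀ j
  · left
    -- the leaf has no other arcs
    have hlx : ∀ j, indeg (G₀ j) (Sum.inl x) = 0 ∧ outdeg (G₀ j) (Sum.inl x) = 0 ∧
        q j ≠ Sum.inl x ∧ p j ≠ Sum.inl x := by
      intro j
      have h1 := (h.net j).leaf x hx (hxz j)
      rw [hG j] at h1
      rw [indeg_cons, indeg_cons, indeg_cons, outdeg_cons, outdeg_cons, outdeg_cons] at h1
      simp only [if_true, hyx j, if_false] at h1
      have hqx : q j ≠ Sum.inl x := by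
        intro h'
        rw [if_pos h'] at h1
        omega
      have hpx : p j ≠ Sum.inl x := by
        intro h'
        rw [if_pos h'] at h1
        omega
      rw [if_neg hqx, if_neg hpx] at h1
      refine ⟨by omega, by omega, hqx, hpx⟩
    have hx₀ : ∀ j, ∀ e ∈ G₀ j, e.1 ≠ Sum.inl x ∧ e.2 ≠ Sum.inl x := fun j e he =>
      ⟨outdeg_eq_zero.1 (hlx j).2.1 e he, indeg_eq_zero.1 (hlx j).1 e he⟩
    have hSD := fun j => SD_drop (p := p j) (y := y) (q := q j) (G₀ := G₀ j) (x := x) (hyp j)
      (hyq j) (hyx j) (hlx j).2.2.1 (hlx j).2.2.2 (hx₀ j) (h₀ j)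
    simp only [← hG, h.sd] at hSD
    have hcommon : ∀ i j, SD ((p i, q i) ::ₘ G₀ i) = SD ((p j, q j) ::ₘ G₀ j) := by
      intro i j
      by_cases hqi : indeg (G i) (q i) = 2
      · obtain ⟨a1, a2, a3⟩ := (hSD i).1 hqi
        have hqj : q j = q i := by
          have h1 : (y, q i) ∈ G j := by
            rw [← h.sd j] at a1
            exact (mem_SD_dir.1 a1).1
          rw [hG j] at h1
          simp only [Multiset.mem_cons, Prod.mk.injEq, true_and] at h1
          rcases h1 with h1 | h1 | h1 | h1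
          · exact absurd h1.1 (hyp j)
          · exact h1.symm
          · exact absurd h1 (hlx i).2.2.1
          · exact absurd rfl (h₀ j _ h1).1
        have hqj' : indeg (G j) (q j) = 2 := by
          rw [hqj]
          rw [← h.sd j] at a1
          exact (mem_SD_dir.1 a1).2
        obtain ⟨b1, b2, b3⟩ := (hSD j).1 hqj'
        have hp : p i = p j := by
          rw [a2, Multiset.pair_comm, Multiset.pair_comm (s(p j, y)), Multiset.insert_eq_cons,
            Multiset.insert_eq_cons, Multiset.cons_inj_right, Multiset.singleton_inj] at b2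
          rw [Sym2.eq_iff] at b2
          rcases b2 with b2 | b2
          · exact b2.1
          · exact absurd b2.2 (hyp j)
        rw [a3, b3, hp, hqj]
      · obtain ⟨a1, a2, a3⟩ := (hSD i).2 hqi
        have hqj' : indeg (G j) (q j) ≠ 2 := by
          intro h'
          exact a1 _ ((hSD j).1 h').1
        obtain ⟨b1, b2, b3⟩ := (hSD j).2 hqj'
        have hpq : s(p i, q i) = s(p j, q j) := by
          apply sym2_pair (y := y)
          rw [a2] at b2
          have c1 : ∀ a b c : Sym2 Vtx, ({a, b, c} : Multiset (Sym2 Vtx)) = c ::ₘ {a, b} := by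
            intro a b c
            simp only [Multiset.insert_eq_cons]
            rw [← Multiset.cons_zero c, ← Multiset.cons_zero b, Multiset.cons_swap b c,
              Multiset.cons_swap a c]
          rw [c1, c1, Multiset.cons_inj_right] at b2
          exact b2
        rw [a3, b3, hpq]
    have j₀ := Classical.arbitrary κ
    refine ⟨X.erase x, fun j => (p j, q j) ::ₘ G₀ j, SD ((p j₀, q j₀) ::ₘ G₀ j₀),
      ⟨?_, fun j => hcommon j j₀, ?_, ?_⟩, ?_⟩
    · intro j
      have hn := h.net j
      rw [hG j] at hn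
      exact hn.drop (hxz j) (hyp j) (hyq j) (hyx j) (h₀ j) (hall j)
    · intro i w hw
      exact Finset.mem_erase.2 ⟨fun h' => hxL i (h' ▸ hw), h.sub i hw⟩
    · intro i
      set j := r i with hj
      have hTx : Sum.inl x ∉ leafSet (L i) := by
        rintro ⟨w, hw, hw'⟩
        rw [Sum.inl.injEq] at hw'
        exact hxL i (hw' ▸ hw)
      have e1 : cut (G j) (Sum.inl (z j)) (leafSet (L i)) =
          cut ((p j, y) ::ₘ (y, q j) ::ₘ G₀ j) (Sum.inl (z j)) (leafSet (L i)) := by
        rw [hG j, Multiset.cons_swap (y, q j), Multiset.cons_swap (p j, y)]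
        apply cut_cons_sink
        · intro e he
          rcases Multiset.mem_cons.1 he with rfl | he
          · exact (hlx j).2.2.2
          rcases Multiset.mem_cons.1 he with rfl | he
          · exact hyx j
          · exact (hx₀ j e he).1
        · exact hyx j
        · exact hTx
      have hac : Acyclic ((p j, y) ::ₘ (y, q j) ::ₘ G₀ j) := by
        refine (h.net j).acyclic.mono ?_
        intro e he
        rw [hG j]
        simp only [Multiset.mem_cons] at he ⊢
        tauto
      have hsub : ∀ e ∈ (p j, y) ::ₘ (y, q j) ::ₘ G₀ j, e ∈ G j := by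
        intro e he
        rw [hG j]
        simp only [Multiset.mem_cons] at he ⊢
        tauto
      have hst := step_cut (Step.suppress (p j) y (q j) (G₀ j) (hyp j) (hyq j) (h₀ j)) hac
        (ρ := Sum.inl (z j)) (T := leafSet (L i))
        (fun e he => indeg_eq_zero.1 (h.net j).root.1 e (hsub e he))
        (fun t ht e he => leafSet_outdeg (h.net j) (h.sub i) (hz j i) t ht e (hsub e he))
      rw [← e1] at hst
      rcases (reflGen_iff _ _ _).1 hst with h' | h'
      · rw [h']
        exact h.red i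
      · exact ((hP i).step ((h.net j).acyclic.mono fun e he => (mem_cut.1 he).1) h').1
          (h.red i)
    · -- the measure decreases
      have hcardN : N.dir.card + N.und.card = (G j₀).card := by
        rw [← h.sd j₀]
        simp only [SD, Multiset.card_map]
        rw [← Multiset.card_add]
        congr 1
        exact Multiset.filter_add_not _ _
      have hund : (N.und.filter (fun e => y ∈ e)).card + (N.und.filter (fun e => y ∉ e)).card =
          N.und.card := by
        rw [← Multiset.card_add, Multiset.filter_add_not]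
      by_cases hq : indeg (G j₀) (q j₀) = 2
      · obtain ⟨a1, a2, a3⟩ := (hSD j₀).1 hq
        have hdir : (N.dir.filter (fun e => e.1 = y)).card +
            (N.dir.filter (fun e => ¬ e.1 = y)).card = N.dir.card := by
          rw [← Multiset.card_add, Multiset.filter_add_not]
        have hpos : 0 < (N.dir.filter (fun e => e.1 = y)).card := by
          rw [Multiset.card_pos_iff_exists_mem]
          exact ⟨_, Multiset.mem_filter.2 ⟨a1, rfl⟩⟩
        rw [a2] at hund
        rw [a3]
        simp only [mu, Multiset.card_cons, ne_eq, Multiset.insert_eq_cons,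
          Multiset.card_singleton] at hund ⊢
        omega
      · obtain ⟨a1, a2, a3⟩ := (hSD j₀).2 hq
        rw [a2] at hund
        rw [a3]
        simp only [mu, Multiset.card_cons, Multiset.insert_eq_cons,
          Multiset.card_singleton] at hund ⊢
        omega
  · right
    simp only [not_forall, not_not] at hall
    obtain ⟨j₁, hj₁⟩ := hall
    have m1 : (p j₁, q j₁) ∈ G j₁ := by
      rw [hG j₁]
      simp [hj₁]
    have m2 : (y, q j₁) ∈ G j₁ := by
      rw [hG j₁]
      simp
    have m3 : (p j₁, y) ∈ G j₁ := by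
      rw [hG j₁]
      simp
    have hq2 : indeg (G j₁) (q j₁) = 2 := by
      have h1 := (h.net j₁).indeg_le (q j₁)
      have h2 : 2 ≤ indeg (G j₁) (q j₁) := by
        rw [hG j₁, indeg_cons, indeg_cons, indeg_cons]
        have := indeg_pos_of_mem hj₁
        simp only [if_true]
        omega
      omega
    have d1 : (p j₁, q j₁) ∈ N.dir := by
      rw [← h.sd j₁]
      exact mem_SD_dir.2 ⟨m1, hq2⟩
    have d2 : (y, q j₁) ∈ N.dir := by
      rw [← h.sd j₁]
      exact mem_SD_dir.2 ⟨m2, hq2⟩
    have d3 : s(p j₁, y) ∈ N.und := by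
      rw [← h.sd j₁, mem_SD_und]
      refine ⟨_, m3, ?_, rfl⟩
      simp only
      rw [(hy j₁).2.1]
      omega
    have hpx : p j₁ ≠ Sum.inl x := by
      intro h'
      have := ((h.net j₁).leaf x hx (hxz j₁)).2
      exact outdeg_eq_zero.1 this _ m3 h'
    refine ⟨y, fun j => ⟨p j₁, q j₁, (hy j).1, ?_, ?_, ?_, ?_, (hy j).2.2⟩⟩
    · rw [← h.sd j, mem_SD_und] at d3
      obtain ⟨⟨c, d⟩, hf, _, h2⟩ := d3
      simp only at h2
      rw [Sym2.eq_iff] at h2
      rcases h2 with ⟨rfl, rfl⟩ | ⟨rfl, rfl⟩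
      · exact hf
      · exfalso
        -- `(c, d) = (y, p)`: then `p` would be `q` or the leaf
        rw [← h.sd j] at d1 d2
        have e1 := (mem_SD_dir.1 d1).1
        have e2 := (mem_SD_dir.1 d2).1
        rw [hG j] at hf e2
        simp only [Multiset.mem_cons, Prod.mk.injEq, true_and] at hf e2
        have hqx : q j₁ ≠ Sum.inl x := by
          intro h'
          have := ((h.net j₁).leaf x hx (hxz j₁)).1
          rw [← h'] at this
          omega
        have hqj : q j₁ = q j := by
          rcases e2 with h1 | h1 | h1 | h1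
          · exact absurd h1.1 (hyp j)
          · exact h1
          · exact absurd h1 hqx
          · exact absurd rfl (h₀ j _ h1).1
        rcases hf with h1 | h1 | h1 | h1
        · exact absurd h1.1 (hyp j)
        · rw [h1, ← hqj] at e1
          exact (h.net j).acyclic.not_adj_self _ e1
        · exact hpx h1
        · exact absurd rfl (h₀ j _ h1).1
    · rw [← h.sd j] at d2
      exact (mem_SD_dir.1 d2).1
    · rw [← h.sd j] at d1
      exact (mem_SD_dir.1 d1).1
    · rw [← h.sd j] at d1
      exact (mem_SD_dir.1 d1).2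

end Pool.Agent.Lib.Pa53cac
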