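import Pool.Agent.Lib.Pa53cac.Prog

/-!
# Deciding isomorphism
-/

namespace Pool.Agent.Lib.Pa53cac

open Relation Prim

/-- Swap of two numbers. -/
def swapB (s : ℕ × ℕ) (k : ℕ) : ℕ := bif beq k s.1 then s.2 else bif beq k s.2 then s.1 else k

@[fun_prop] lemma pr_swapB {α : Type*} [Primcodable α] {f : α → ℕ × ℕ} {g : α → ℕ}
    (hf : Primrec f) (hg : Primrec g) : Primrec fun x => swapB (f x) (g x) := by
  unfold swapB
  fun_prop

lemma swapB_eq (s : ℕ × ℕ) (k : ℕ) : swapB s k = Equiv.swap s.1 s.2 k := by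
  rw [Equiv.swap_apply_def, swapB]
  by_cases h1 : k = s.1
  · simp [h1, beq]
  · by_cases h2 : k = s.2
    · simp [h1, h2, beq]
    · simp [h1, h2, beq]

/-- Swap of two unlabelled vertices. -/
def swV (s : ℕ × ℕ) (v : Vtx) : Vtx := scase v (fun x => Sum.inl x) fun k => Sum.inr (swapB s k)

@[fun_prop] lemma pr_swV {α : Type*} [Primcodable α] {f : α → ℕ × ℕ} {g : α → Vtx}
    (hf : Primrec f) (hg : Primrec g) : Primrec fun x => swV (f x) (g x) := by
  unfold swV
  fun_prop

lemma swV_eq (s : ℕ × ℕ) : swV s = Sum.map id (Equiv.swap s.1 s.2) := by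
  funext v
  rcases v with x | k
  · rfl
  · simp [swV, scase, swapB_eq]

/-- Swap in a list of arcs. -/
def swL (s : ℕ × ℕ) (l : List Arc) : List Arc := l.map fun e => (swV s e.1, swV s e.2)

@[fun_prop] lemma pr_swL {α : Type*} [Primcodable α] {f : α → ℕ × ℕ} {g : α → List Arc}
    (hf : Primrec f) (hg : Primrec g) : Primrec fun x => swL (f x) (g x) := by
  unfold swL
  fun_prop

/-- Apply a list of swaps. -/
def applyS (τ : List (ℕ × ℕ)) (p : List Arc × List Arc) : List Arc × List Arc :=
  Prim.foldl τ p fun p s => (swL s p.1, swL s p.2)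

@[fun_prop] lemma pr_applyS {α : Type*} [Primcodable α] {f : α → List (ℕ × ℕ)}
    {g : α → List Arc × List Arc}
    (hf : Primrec f) (hg : Primrec g) : Primrec fun x => applyS (f x) (g x) := by
  unfold applyS
  fun_prop

/-- The permutation given by a list of swaps. -/
def permS (τ : List (ℕ × ℕ)) : Equiv.Perm ℕ :=
  τ.foldl (fun π s => π.trans (Equiv.swap s.1 s.2)) (Equiv.refl ℕ)

lemma permS_concat (τ : List (ℕ × ℕ)) (s : ℕ × ℕ) :
    permS (τ ++ [s]) = (permS τ).trans (Equiv.swap s.1 s.2) := by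
  rw [permS, List.foldl_append]
  rfl

lemma applyS_concat (τ : List (ℕ × ℕ)) (s : ℕ × ℕ) (p : List Arc × List Arc) :
    applyS (τ ++ [s]) p = (swL s (applyS τ p).1, swL s (applyS τ p).2) := by
  rw [applyS, Prim.foldl, List.foldl_append]
  rfl

lemma toMG_swL (s : ℕ × ℕ) (p : List Arc × List Arc) :
    toMG (swL s p.1, swL s p.2) = (toMG p).map (Sum.map id (Equiv.swap s.1 s.2)) := by
  apply MixedGraph.ext'
  · simp only [toMG, MixedGraph.map, swL, swV_eq, Multiset.map_coe]
    rfl
  · simp only [toMG, MixedGraph.map, swL, swV_eq, Multiset.map_coe, List.map_map]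
    rfl

lemma toMG_applyS (τ : List (ℕ × ℕ)) (p : List Arc × List Arc) :
    toMG (applyS τ p) = (toMG p).map (Sum.map id (permS τ)) := by
  induction τ using List.reverseRecOn with
  | nil =>
    have : (Sum.map id (permS []) : Vtx → Vtx) = id := by
      funext v
      rcases v with x | k <;> rfl
    rw [this, MixedGraph.map_id']
    rfl
  | append_singleton τ s ih =>
    rw [applyS_concat, toMG_swL, ih, MixedGraph.map_map, permS_concat]
    congr 1
    funext v
    rcases v with x | k <;> rfl

/-- Every finite partial injection is given by few swaps of bounded numbers. -/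
lemma exists_permS (F : Finset ℕ) (g : ℕ → ℕ) (hg : Set.InjOn g F) (B : ℕ)
    (hF : ∀ x ∈ F, x < B) (hgF : ∀ x ∈ F, g x < B) :
    ∃ τ : List (ℕ × ℕ), τ.length ≤ F.card ∧ (∀ s ∈ τ, s.1 < B ∧ s.2 < B) ∧
      (∀ x, x < B → permS τ x < B) ∧ ∀ x ∈ F, permS τ x = g x := by
  induction F using Finset.induction_on with
  | empty => exact ⟨[], by simp, by simp, fun x hx => hx, by simp⟩
  | insert a F ha ih =>
    obtain ⟨τ, h1, h2, h3, h4⟩ := ih (hg.mono (by simp))
      (fun x hx => hF x (Finset.mem_insert_of_mem hx))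
      (fun x hx => hgF x (Finset.mem_insert_of_mem hx))
    have ha1 : permS τ a < B := h3 a (hF a (Finset.mem_insert_self _ _))
    have ha2 : g a < B := hgF a (Finset.mem_insert_self _ _)
    refine ⟨τ ++ [(permS τ a, g a)], ?_, ?_, ?_, ?_⟩
    · rw [List.length_append, Finset.card_insert_of_notMem ha]
      simpa using h1
    · intro s hs
      rcases List.mem_append.1 hs with hs | hs
      · exact h2 s hs
      · rw [List.mem_singleton] at hs
        subst hs
        exact ⟨ha1, ha2⟩
    · intro x hx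
      rw [permS_concat, Equiv.trans_apply, Equiv.swap_apply_def]
      split_ifs
      · exact ha2
      · exact ha1
      · exact h3 x hx
    · intro x hx
      rw [permS_concat, Equiv.trans_apply]
      simp only
      rcases Finset.mem_insert.1 hx with rfl | hx'
      · simp
      · have hxa : x ≠ a := fun h => ha (h ▸ hx')
        rw [h4 x hx', Equiv.swap_apply_of_ne_of_ne]
        · rw [← h4 x hx']
          exact fun h => hxa ((permS τ).injective h)
        · intro h
          exact hxa (hg (by simpa using hx) (by simp) h)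

/-- Pairs of numbers below `B`. -/
def prs (B : ℕ) : List (ℕ × ℕ) :=
  (List.range B).flatMap fun a => (List.range B).map fun b => (a, b)

@[fun_prop] lemma pr_prs {α : Type*} [Primcodable α] {f : α → ℕ} (hf : Primrec f) :
    Primrec fun x => prs (f x) := by
  unfold prs
  fun_prop

lemma mem_prs {B : ℕ} {s : ℕ × ℕ} : s ∈ prs B ↔ s.1 < B ∧ s.2 < B := by
  obtain ⟨a, b⟩ := s
  simp [prs]

/-- Bounded isomorphism test. -/
def isoB (B : ℕ) (p q : List Arc × List Arc) : Bool :=
  any (lists B (prs B)) fun τ => eqMG (applyS τ p) q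

@[fun_prop] lemma pr_isoB {α : Type*} [Primcodable α] {b : α → ℕ} {f g : α → List Arc × List Arc}
    (hb : Primrec b) (hf : Primrec f) (hg : Primrec g) :
    Primrec fun x => isoB (b x) (f x) (g x) := by
  unfold isoB
  fun_prop

lemma isoB_sound {B : ℕ} {p q : List Arc × List Arc} (h : isoB B p q = true) :
    (toMG p).Iso (toMG q) := by
  rw [isoB, any_iff] at h
  obtain ⟨τ, _, h⟩ := h
  rw [eqMG_iff, toMG_applyS] at h
  exact ⟨permS τ, h⟩

lemma MixedGraph.isVertex_map {h : Vtx → Vtx} {M : MixedGraph} {v : Vtx} (hv : M.IsVertex v) :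
    (M.map h).IsVertex (h v) := by
  rcases hv with ⟨e, he, h1⟩ | ⟨e, he, h1⟩
  · left
    refine ⟨Prod.map h h e, Multiset.mem_map_of_mem _ he, ?_⟩
    rcases h1 with rfl | rfl
    · exact Or.inl rfl
    · exact Or.inr rfl
  · right
    exact ⟨Sym2.map h e, Multiset.mem_map_of_mem _ he, Sym2.mem_map.2 ⟨v, h1, rfl⟩⟩

lemma isoB_complete {B : ℕ} {p q : List Arc × List Arc} (h : (toMG p).Iso (toMG q))
    (hp : ∀ v, (toMG p).IsVertex v → nm v < B) (hq : ∀ v, (toMG q).IsVertex v → nm v < B) :
    isoB B p q = true := by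
  classical
  obtain ⟨g, hg⟩ := h
  obtain ⟨S, hS, _⟩ := exists_vertex_finset (toMG p)
  set F : Finset ℕ := (Finset.range B).filter fun k => Sum.inr k ∈ S with hF
  have hFB : ∀ k ∈ F, k < B := fun k hk => by
    rw [hF, Finset.mem_filter, Finset.mem_range] at hk
    exact hk.1
  have hgF : ∀ k ∈ F, g k < B := by
    intro k hk
    rw [hF, Finset.mem_filter] at hk
    have h1 := (hS _).1 hk.2
    have h2 := MixedGraph.isVertex_map (h := Sum.map id g) h1
    rw [hg] at h2
    exact hq _ h2
  obtain ⟨τ, h1, h2, _, h4⟩ := exists_permS F g g.injective.injOn B hFB hgF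
  have hFcard : F.card ≤ B := by
    calc F.card ≤ (Finset.range B).card := Finset.card_filter_le _ _
      _ = B := Finset.card_range B
  rw [isoB, any_iff]
  refine ⟨τ, mem_lists (by omega) (fun s hs => mem_prs.2 (h2 s hs)), ?_⟩
  rw [eqMG_iff, toMG_applyS, ← hg]
  apply MixedGraph.map_congr
  rintro (x | k) hv
  · rfl
  · have hk : k ∈ F := by
      rw [hF, Finset.mem_filter, Finset.mem_range]
      exact ⟨hp _ hv, (hS _).2 hv⟩
    simp [h4 k hk]

end Pool.Agent.Lib.Pa53cac
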