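import Pool.Agent.Lib.Pa53cac.Deletion

/-!
# Leaf-rooted networks

A rooted network whose root is a leaf (with one child).
-/

namespace Pool.Agent.Lib.Pa53cac

open Relation

/-- A network rooted at its leaf `z`, with leaf set `X`. -/
structure LeafNet (G : Multiset (Vtx × Vtx)) (z : ℕ) (X : Finset ℕ) : Prop where
  acyclic : Acyclic G
  simple : G.Nodup
  mem : z ∈ X
  root : indeg G (Sum.inl z) = 0 ∧ outdeg G (Sum.inl z) = 1
  label_iff : ∀ x, IsVertex G (Sum.inl x) ↔ x ∈ X
  leaf : ∀ x ∈ X, x ≠ z → indeg G (Sum.inl x) = 1 ∧ outdeg G (Sum.inl x) = 0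
  inner : ∀ k, IsVertex G (Sum.inr k) →
    (indeg G (Sum.inr k) = 1 ∧ outdeg G (Sum.inr k) = 2) ∨
    (indeg G (Sum.inr k) = 2 ∧ outdeg G (Sum.inr k) = 1)

/-- The mixed graph underlying a leaf-rooted network. -/
def SD (G : Multiset (Vtx × Vtx)) : MixedGraph where
  dir := G.filter fun e => indeg G e.2 = 2
  und := (G.filter fun e => indeg G e.2 ≠ 2).map fun e => s(e.1, e.2)

section General

variable {V : Type*}

lemma isVertex_cons {e : V × V} {G : Multiset (V × V)} {v : V} :
    IsVertex (e ::ₘ G) v ↔ (e.1 = v ∨ e.2 = v) ∨ IsVertex G v := by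
  constructor
  · rintro ⟨f, hf, h⟩
    rcases Multiset.mem_cons.1 hf with rfl | hf
    · exact Or.inl h
    · exact Or.inr ⟨f, hf, h⟩
  · rintro (h | ⟨f, hf, h⟩)
    · exact ⟨e, Multiset.mem_cons_self _ _, h⟩
    · exact ⟨f, Multiset.mem_cons_of_mem hf, h⟩

lemma Acyclic.cons_sink {G : Multiset (V × V)} (hG : Acyclic G) {u w : V}
    (hw : ∀ e ∈ G, e.1 ≠ w) (huw : u ≠ w) : Acyclic ((u, w) ::ₘ G) := by
  have key : ∀ a b, TransGen (Adj ((u, w) ::ₘ G)) a b → b ≠ w → TransGen (Adj G) a b := by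
    intro a b h
    induction h with
    | @single b h =>
      intro hb
      rcases Multiset.mem_cons.1 h with h | h
      · exact absurd (Prod.mk.inj h).2 hb
      · exact .single h
    | @tail b c _ hbc ih =>
      intro hc
      rcases Multiset.mem_cons.1 hbc with h | h
      · exact absurd (Prod.mk.inj h).2 hc
      · exact (ih (hw _ h)).tail h
  intro v hv
  refine hG v (key v v hv ?_)
  obtain ⟨c, hvc, _⟩ := TransGen.head'_iff.1 hv
  rcases Multiset.mem_cons.1 hvc with h | h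
  · rw [(Prod.mk.inj h).1]
    exact huw
  · exact hw _ h

lemma not_isVertex_iff {G : Multiset (V × V)} {v : V} :
    ¬ IsVertex G v ↔ ∀ e ∈ G, e.1 ≠ v ∧ e.2 ≠ v := by
  constructor
  · intro h e he
    exact ⟨fun h' => h ⟨e, he, Or.inl h'⟩, fun h' => h ⟨e, he, Or.inr h'⟩⟩
  · rintro h ⟨e, he, h' | h'⟩
    · exact (h e he).1 h'
    · exact (h e he).2 h'

/-- A sink which is not a target can be dropped. -/
lemma cut_cons_sink {G : Multiset (V × V)} {u w ρ : V} {T : Set V} (hw : ∀ e ∈ G, e.1 ≠ w)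
    (huw : u ≠ w) (hT : w ∉ T) : cut ((u, w) ::ₘ G) ρ T = cut G ρ T := by
  apply cut_congr
  have : (u, w) ::ₘ G = G + {(u, w)} := by
    rw [add_comm]
    rfl
  rw [this]
  apply pathUnion_add
  intro e he
  rw [Multiset.mem_singleton] at he
  subst he
  rintro ⟨_, t, ht, h⟩
  rw [← this] at h
  rcases ReflTransGen.cases_head h with h | ⟨c, h, _⟩
  · have h' : w = t := h
    exact hT (h' ▸ ht)
  · rcases Multiset.mem_cons.1 h with h | h
    · exact huw (Prod.mk.inj h).1.symm
    · exact hw _ h rfl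

/-- A source above which nothing else happens can be dropped. -/
lemma cut_cons_source {G : Multiset (V × V)} {u w : V} {T : Set V}
    (hu : ∀ e ∈ G, e.2 ≠ u) (huw : u ≠ w) :
    cut ((u, w) ::ₘ G) w T = cut G w T := by
  apply cut_congr
  have : (u, w) ::ₘ G = G + {(u, w)} := by
    rw [add_comm]
    rfl
  rw [this]
  apply pathUnion_add
  intro e he
  rw [Multiset.mem_singleton] at he
  subst he
  rintro ⟨h, _⟩
  rw [← this] at h
  rcases ReflTransGen.cases_tail h with h | ⟨c, _, h⟩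
  · exact huw h
  · rcases Multiset.mem_cons.1 h with h | h
    · exact huw (Prod.mk.inj h).2
    · exact hu _ h rfl

section Deg

variable [DecidableEq V]

lemma indeg_pos_of_mem {G : Multiset (V × V)} {a b : V} (h : (a, b) ∈ G) : 0 < indeg G b :=
  indeg_pos.2 ⟨a, h⟩

lemma outdeg_pos_of_mem {G : Multiset (V × V)} {a b : V} (h : (a, b) ∈ G) : 0 < outdeg G a :=
  outdeg_pos.2 ⟨b, h⟩

lemma indeg_outdeg_zero {G : Multiset (V × V)} {v : V} (h : ¬ IsVertex G v) :
    indeg G v = 0 ∧ outdeg G v = 0 := by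
  rw [not_isVertex_iff] at h
  exact ⟨indeg_eq_zero.2 fun e he => (h e he).2, outdeg_eq_zero.2 fun e he => (h e he).1⟩

lemma isVertex_of_indeg {G : Multiset (V × V)} {v : V} (h : 0 < indeg G v) : IsVertex G v := by
  obtain ⟨u, hu⟩ := indeg_pos.1 h
  exact ⟨_, hu, Or.inr rfl⟩

lemma isVertex_of_outdeg {G : Multiset (V × V)} {v : V} (h : 0 < outdeg G v) : IsVertex G v := by
  obtain ⟨u, hu⟩ := outdeg_pos.1 h
  exact ⟨_, hu, Or.inl rfl⟩

lemma isVertex_iff_deg {G : Multiset (V × V)} {v : V} :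
    IsVertex G v ↔ 0 < indeg G v ∨ 0 < outdeg G v := by
  constructor
  · rintro ⟨⟨a, b⟩, he, rfl | rfl⟩
    · exact Or.inr (outdeg_pos_of_mem he)
    · exact Or.inl (indeg_pos_of_mem he)
  · rintro (h | h)
    · exact isVertex_of_indeg h
    · exact isVertex_of_outdeg h

/-- The shape around a vertex with one incoming and two outgoing arcs. -/
lemma tree_shape {G : Multiset (V × V)} (hG : Acyclic G) {y r : V} (h1 : indeg G y = 1)
    (h2 : outdeg G y = 2) (hr : (y, r) ∈ G) :
    ∃ p q G₀, G = (p, y) ::ₘ (y, q) ::ₘ (y, r) ::ₘ G₀ ∧ y ≠ p ∧ y ≠ q ∧ y ≠ r ∧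
      ∀ e ∈ G₀, e.1 ≠ y ∧ e.2 ≠ y := by
  have hyr : y ≠ r := hG.ne_of_mem hr
  obtain ⟨G₁, rfl⟩ := Multiset.exists_cons_of_mem hr
  rw [outdeg_cons] at h2
  simp only [if_true] at h2
  obtain ⟨q, hq⟩ := outdeg_pos.1 (show 0 < outdeg G₁ y by omega)
  obtain ⟨G₂, rfl⟩ := Multiset.exists_cons_of_mem hq
  have hyq : y ≠ q := hG.ne_of_mem (e := (y, q)) (Multiset.mem_cons_of_mem hq)
  rw [outdeg_cons] at h2
  simp only [if_true] at h2
  rw [indeg_cons, indeg_cons] at h1
  simp only [hyr.symm, hyq.symm, if_false] at h1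
  obtain ⟨p, hp⟩ := indeg_pos.1 (show 0 < indeg G₂ y by omega)
  obtain ⟨G₃, rfl⟩ := Multiset.exists_cons_of_mem hp
  have hyp : p ≠ y := hG.ne_of_mem (e := (p, y))
    (Multiset.mem_cons_of_mem (Multiset.mem_cons_of_mem hp))
  rw [indeg_cons] at h1
  simp only [if_true] at h1
  rw [outdeg_cons] at h2
  simp only [hyp, if_false] at h2
  refine ⟨p, q, G₃, ?_, hyp.symm, hyq, hyr, ?_⟩
  · rw [Multiset.cons_swap (y, r), Multiset.cons_swap (y, r), Multiset.cons_swap (y, q)]
  · intro e he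
    exact ⟨outdeg_eq_zero.1 (by omega) e he, indeg_eq_zero.1 (by omega) e he⟩

/-- The shape around a vertex with two incoming arcs. -/
lemma retic_shape {G : Multiset (V × V)} {a b : V} (h1 : indeg G b = 2)
    (hab : (a, b) ∈ G) :
    ∃ a' G₀, G = (a, b) ::ₘ (a', b) ::ₘ G₀ ∧ ∀ e ∈ G₀, e.2 ≠ b := by
  obtain ⟨G₁, rfl⟩ := Multiset.exists_cons_of_mem hab
  rw [indeg_cons] at h1
  simp only [if_true] at h1
  obtain ⟨q, hq⟩ := indeg_pos.1 (show 0 < indeg G₁ b by omega)
  obtain ⟨G₂, rfl⟩ := Multiset.exists_cons_of_mem hq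
  rw [indeg_cons] at h1
  simp only [if_true] at h1
  refine ⟨q, G₂, rfl, ?_⟩
  exact indeg_eq_zero.1 (by omega)

end Deg

end General

/-! ### Replacing an arc into a reticulation by two leaves -/

lemma leaf_ne_of_indeg_two {G : Multiset (Vtx × Vtx)} {z : ℕ} {X : Finset ℕ}
    (h : LeafNet G z X) {b : Vtx} (hb : indeg G b = 2) : ∃ k, b = Sum.inr k := by
  rcases b with x | k
  · exfalso
    have hx : x ∈ X := (h.label_iff x).1 (isVertex_of_indeg (by omega))
    by_cases hxz : x = z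
    · subst hxz
      have := h.root.1
      omega
    · have := (h.leaf x hx hxz).1
      omega
  · exact ⟨k, rfl⟩

theorem LeafNet.replace {a b : Vtx} {G₁ : Multiset (Vtx × Vtx)} {z : ℕ} {X : Finset ℕ}
    (h : LeafNet ((a, b) ::ₘ G₁) z X) (hb : indeg ((a, b) ::ₘ G₁) b = 2) {x x' : ℕ}
    (hx : x ∉ X) (hx' : x' ∉ X) (hxx : x ≠ x') :
    LeafNet ((a, Sum.inl x) ::ₘ (b, Sum.inl x') ::ₘ G₁) z (insert x (insert x' X)) := by
  obtain ⟨k, rfl⟩ := leaf_ne_of_indeg_two h hb
  have hne : ∀ y, y ∉ X → ¬ IsVertex ((a, Sum.inr k) ::ₘ G₁) (Sum.inl y) := fun y hy hv =>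
    hy ((h.label_iff y).1 hv)
  have hab : a ≠ Sum.inr k := h.acyclic.ne_of_mem (e := (a, Sum.inr k)) (Multiset.mem_cons_self _ _)
  have hax : ∀ y, y ∉ X → a ≠ Sum.inl y := by
    rintro y hy rfl
    exact hne y hy ⟨_, Multiset.mem_cons_self _ _, Or.inl rfl⟩
  have hin : ∀ v, indeg ((a, Sum.inl x) ::ₘ (Sum.inr k, Sum.inl x') ::ₘ G₁) v =
      indeg G₁ v + (if Sum.inl x' = v then 1 else 0) + (if Sum.inl x = v then 1 else 0) := by
    intro v
    rw [indeg_cons, indeg_cons]
  have hout : ∀ v, outdeg ((a, Sum.inl x) ::ₘ (Sum.inr k, Sum.inl x') ::ₘ G₁) v =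
      outdeg G₁ v + (if Sum.inr k = v then 1 else 0) + (if a = v then 1 else 0) := by
    intro v
    rw [outdeg_cons, outdeg_cons]
  have hin' : ∀ v, indeg ((a, Sum.inr k) ::ₘ G₁) v =
      indeg G₁ v + (if Sum.inr k = v then 1 else 0) := fun v => by rw [indeg_cons]
  have hout' : ∀ v, outdeg ((a, Sum.inr k) ::ₘ G₁) v =
      outdeg G₁ v + (if a = v then 1 else 0) := fun v => by rw [outdeg_cons]
  have hsub : ∀ e ∈ G₁, e ∈ (a, Sum.inr k) ::ₘ G₁ := fun e he => Multiset.mem_cons_of_mem he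
  have hzero : ∀ y, y ∉ X → indeg G₁ (Sum.inl y) = 0 ∧ outdeg G₁ (Sum.inl y) = 0 := by
    intro y hy
    have h1 := indeg_outdeg_zero (hne y hy)
    rw [hin', hout'] at h1
    constructor <;> omega
  have hzx : z ≠ x := fun h' => hx (h' ▸ h.mem)
  have hzx' : z ≠ x' := fun h' => hx' (h' ▸ h.mem)
  refine ⟨?_, ?_, ?_, ?_, ?_, ?_, ?_⟩
  · apply Acyclic.cons_sink
    · apply Acyclic.cons_sink
      · exact h.acyclic.mono hsub
      · exact outdeg_eq_zero.1 (hzero x' hx').2
      · simp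
    · intro e he
      rcases Multiset.mem_cons.1 he with rfl | he
      · simp
      · exact outdeg_eq_zero.1 (hzero x hx).2 e he
    · exact hax x hx
  · have hnd := h.simple
    rw [Multiset.nodup_cons] at hnd
    rw [Multiset.nodup_cons, Multiset.nodup_cons]
    refine ⟨?_, ?_, hnd.2⟩
    · intro hm
      rcases Multiset.mem_cons.1 hm with hm | hm
      · exact hab (Prod.mk.inj hm).1
      · have := indeg_pos_of_mem hm
        have := (hzero x hx).1
        omega
    · intro hm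
      have := indeg_pos_of_mem hm
      have := (hzero x' hx').1
      omega
  · simp [h.mem]
  · have h1 := h.root
    rw [hin', hout'] at h1
    rw [hin, hout]
    simp only [Sum.inl.injEq, hzx.symm, hzx'.symm, if_false, reduceCtorEq] at h1 ⊢
    omega
  · intro y
    have h1 := h.label_iff y
    rw [isVertex_iff_deg, hin', hout'] at h1
    rw [isVertex_iff_deg, hin, hout, Finset.mem_insert, Finset.mem_insert]
    by_cases hyx : y = x
    · subst hyx
      simp
    · by_cases hyx' : y = x'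
      · subst hyx'
        simp
      · rw [← h1]
        simp [hyx, hyx', Ne.symm hyx, Ne.symm hyx']
  · intro y hy hyz
    rw [hin, hout]
    rw [Finset.mem_insert, Finset.mem_insert] at hy
    by_cases hyx : y = x
    · subst hyx
      have h1 := hzero y hx
      simp [h1.1, h1.2, hax y hx, hxx.symm]
    · by_cases hyx' : y = x'
      · subst hyx'
        have h1 := hzero y hx'
        simp [h1.1, h1.2, hax y hx', hxx]
      · have hyX : y ∈ X := by tauto
        have h1 := h.leaf y hyX hyz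
        rw [hin', hout'] at h1
        simp only [reduceCtorEq, if_false] at h1
        simp only [Sum.inl.injEq, Ne.symm hyx, Ne.symm hyx', if_false, reduceCtorEq]
        omega
  · intro l hl
    rw [hin, hout]
    by_cases hlk : l = k
    · subst hlk
      left
      have h1 := h.inner l ⟨_, Multiset.mem_cons_self _ _, Or.inr rfl⟩
      rw [hb] at h1
      rw [hin'] at hb
      rw [hout'] at h1
      simp only [if_true] at hb
      simp [hab] at h1 ⊢
      omega
    · have hv : IsVertex ((a, Sum.inr k) ::ₘ G₁) (Sum.inr l) := by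
        rw [isVertex_iff_deg, hin, hout] at hl
        rw [isVertex_iff_deg, hin', hout']
        simp [Ne.symm hlk] at hl ⊢
        omega
      have h1 := h.inner l hv
      rw [hin', hout'] at h1
      simp [Ne.symm hlk] at h1 ⊢
      exact h1

end Pool.Agent.Lib.Pa53cac
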