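import Pool.Agent.Lib.Pa53cac.LeafNet

namespace Pool.Agent.Lib.Pa53cac

open Relation

lemma LeafNet.inner_of_outdeg {G : Multiset (Vtx × Vtx)} {z : ℕ} {X : Finset ℕ}
    (h : LeafNet G z X) {y : Vtx} (hy : outdeg G y = 2) : ∃ k, y = Sum.inr k := by
  rcases y with x | k
  · exfalso
    have hx : x ∈ X := (h.label_iff x).1 (isVertex_of_outdeg (by omega))
    by_cases hxz : x = z
    · subst hxz
      have := h.root.2
      omega
    · have := (h.leaf x hx hxz).2
      omega
  · exact ⟨k, rfl⟩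

/-- Dropping a leaf attached to a vertex `y`, and suppressing `y`. -/
theorem LeafNet.drop {p y q : Vtx} {G₀ : Multiset (Vtx × Vtx)} {z x : ℕ} {X : Finset ℕ}
    (h : LeafNet ((p, y) ::ₘ (y, q) ::ₘ (y, Sum.inl x) ::ₘ G₀) z X) (hxz : x ≠ z)
    (hyp : y ≠ p) (hyq : y ≠ q) (hyx : y ≠ Sum.inl x)
    (h₀ : ∀ e ∈ G₀, e.1 ≠ y ∧ e.2 ≠ y) (hpq : (p, q) ∉ G₀) :
    LeafNet ((p, q) ::ₘ G₀) z (X.erase x) := by
  have hxX : x ∈ X := (h.label_iff x).1
    ⟨(y, Sum.inl x), by simp, Or.inr rfl⟩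
  have hin : ∀ v, indeg ((p, y) ::ₘ (y, q) ::ₘ (y, Sum.inl x) ::ₘ G₀) v =
      indeg G₀ v + (if Sum.inl x = v then 1 else 0) + (if q = v then 1 else 0) +
        (if y = v then 1 else 0) := by
    intro v
    rw [indeg_cons, indeg_cons, indeg_cons]
  have hout : ∀ v, outdeg ((p, y) ::ₘ (y, q) ::ₘ (y, Sum.inl x) ::ₘ G₀) v =
      outdeg G₀ v + (if y = v then 1 else 0) + (if y = v then 1 else 0) +
        (if p = v then 1 else 0) := by
    intro v
    rw [outdeg_cons, outdeg_cons, outdeg_cons]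
  have hin' : ∀ v, indeg ((p, q) ::ₘ G₀) v = indeg G₀ v + (if q = v then 1 else 0) :=
    fun v => by rw [indeg_cons]
  have hout' : ∀ v, outdeg ((p, q) ::ₘ G₀) v = outdeg G₀ v + (if p = v then 1 else 0) :=
    fun v => by rw [outdeg_cons]
  have hlx := h.leaf x hxX hxz
  rw [hin, hout] at hlx
  simp only [if_true, hyx, if_false] at hlx
  have hpx : p ≠ Sum.inl x := by
    intro h'
    rw [if_pos h'] at hlx
    omega
  have hqx : q ≠ Sum.inl x := by
    intro h'
    rw [if_pos h'] at hlx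
    omega
  rw [if_neg hpx, if_neg hqx] at hlx
  have hy0 : indeg G₀ y = 0 ∧ outdeg G₀ y = 0 :=
    ⟨indeg_eq_zero.2 fun e he => (h₀ e he).2, outdeg_eq_zero.2 fun e he => (h₀ e he).1⟩
  obtain ⟨l, hl⟩ := h.inner_of_outdeg (y := y) (by
    rw [hout, if_pos rfl, if_neg hyp.symm]
    omega)
  refine ⟨?_, ?_, ?_, ?_, ?_, ?_, ?_⟩
  · have h1 : Acyclic ((p, y) ::ₘ (y, q) ::ₘ G₀) := by
      refine h.acyclic.mono ?_
      intro e he
      simp only [Multiset.mem_cons] at he ⊢
      tauto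
    exact (Step.suppress p y q G₀ hyp hyq h₀).acyclic h1
  · have hnd := h.simple
    rw [Multiset.nodup_cons, Multiset.nodup_cons, Multiset.nodup_cons] at hnd
    rw [Multiset.nodup_cons]
    exact ⟨hpq, hnd.2.2.2⟩
  · exact Finset.mem_erase.2 ⟨hxz.symm, h.mem⟩
  · have h1 := h.root
    rw [hin, hout] at h1
    rw [hin', hout']
    simp only [hl, reduceCtorEq, if_false] at h1
    simp only [Sum.inl.injEq, hxz, if_false] at h1
    exact ⟨h1.1, h1.2⟩
  · intro w
    have h1 := h.label_iff w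
    rw [isVertex_iff_deg, hin, hout] at h1
    simp only [hl, reduceCtorEq, if_false, Sum.inl.injEq] at h1
    rw [isVertex_iff_deg, hin', hout', Finset.mem_erase]
    by_cases hwx : w = x
    · subst hwx
      simp [hlx.2, hpx, hqx]
      omega
    · rw [← h1]
      simp [Ne.symm hwx, hwx]
  · intro w hw hwz
    rw [Finset.mem_erase] at hw
    have h1 := h.leaf w hw.2 hwz
    rw [hin, hout] at h1
    rw [hin', hout']
    simp only [hl, reduceCtorEq, if_false, Sum.inl.injEq, Ne.symm hw.1] at h1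
    exact h1
  · intro w hw
    by_cases hwl : w = l
    · exfalso
      rw [isVertex_iff_deg, hin', hout', hwl, ← hl, hy0.1, hy0.2, if_neg hyq.symm,
        if_neg hyp.symm] at hw
      omega
    · have hv : IsVertex ((p, y) ::ₘ (y, q) ::ₘ (y, Sum.inl x) ::ₘ G₀) (Sum.inr w) := by
        rw [isVertex_iff_deg, hin', hout'] at hw
        rw [isVertex_iff_deg, hin, hout]
        omega
      have h1 := h.inner w hv
      rw [hin, hout] at h1
      rw [hin', hout']
      simp only [hl, reduceCtorEq, if_false, Sum.inr.injEq, Ne.symm hwl] at h1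
      exact h1

/-! ### Underlying mixed graphs -/

lemma MixedGraph.ext' {M M' : MixedGraph} (h1 : M.dir = M'.dir) (h2 : M.und = M'.und) :
    M = M' := by
  cases M
  cases M'
  simp only at h1 h2
  rw [h1, h2]

lemma SD_replace {a b : Vtx} {G₁ : Multiset (Vtx × Vtx)} {x x' : ℕ}
    (hb : indeg ((a, b) ::ₘ G₁) b = 2)
    (hx : ¬ IsVertex ((a, b) ::ₘ G₁) (Sum.inl x)) (hx' : ¬ IsVertex ((a, b) ::ₘ G₁) (Sum.inl x'))
    (hxx : x ≠ x') :
    SD ((a, Sum.inl x) ::ₘ (b, Sum.inl x') ::ₘ G₁) =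
      ⟨(SD ((a, b) ::ₘ G₁)).dir.filter (fun e => e.2 ≠ b),
        s(a, Sum.inl x) ::ₘ s(b, Sum.inl x') ::ₘ
        ((((SD ((a, b) ::ₘ G₁)).dir.filter (fun e => e.2 = b)).erase (a, b)).map
          (fun e => s(e.1, e.2)) + (SD ((a, b) ::ₘ G₁)).und)⟩ := by
  obtain ⟨a', G₂, hG, h₂⟩ := retic_shape hb (Multiset.mem_cons_self _ _)
  rw [Multiset.cons_inj_right] at hG
  subst hG
  rw [not_isVertex_iff] at hx hx'
  have hbx : b ≠ Sum.inl x := (hx (a, b) (by simp)).2
  have hbx' : b ≠ Sum.inl x' := (hx' (a, b) (by simp)).2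
  have hx2 : ∀ e ∈ G₂, e.2 ≠ Sum.inl x := fun e he => (hx e (by simp [he])).2
  have hx2' : ∀ e ∈ G₂, e.2 ≠ Sum.inl x' := fun e he => (hx' e (by simp [he])).2
  have i2x : indeg G₂ (Sum.inl x) = 0 := indeg_eq_zero.2 hx2
  have i2x' : indeg G₂ (Sum.inl x') = 0 := indeg_eq_zero.2 hx2'
  have i2b : indeg G₂ b = 0 := indeg_eq_zero.2 h₂
  set G := (a, b) ::ₘ (a', b) ::ₘ G₂ with hG
  set G' := (a, Sum.inl x) ::ₘ (b, Sum.inl x') ::ₘ (a', b) ::ₘ G₂ with hG'
  have hin : ∀ e ∈ G₂, indeg G' e.2 = indeg G e.2 := by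
    intro e he
    rw [hG, hG']
    simp only [indeg_cons]
    rw [if_neg (hx2 e he).symm, if_neg (hx2' e he).symm, if_neg (h₂ e he).symm]
  have e1 : G₂.filter (fun e => indeg G' e.2 = 2) = G₂.filter (fun e => indeg G e.2 = 2) :=
    Multiset.filter_congr fun e he => by rw [hin e he]
  have e2 : G₂.filter (fun e => indeg G' e.2 ≠ 2) = G₂.filter (fun e => indeg G e.2 ≠ 2) :=
    Multiset.filter_congr fun e he => by rw [hin e he]
  have ib' : indeg G' b = 1 := by
    rw [hG']
    simp only [indeg_cons, i2b]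
    simp [hbx.symm, hbx'.symm]
  have ix : indeg G' (Sum.inl x) = 1 := by
    rw [hG']
    simp only [indeg_cons, i2x]
    simp [hbx, hxx.symm]
  have ix' : indeg G' (Sum.inl x') = 1 := by
    rw [hG']
    simp only [indeg_cons, i2x']
    simp [hbx', hxx]
  have hdir : (SD G).dir = (a, b) ::ₘ (a', b) ::ₘ G₂.filter (fun e => indeg G e.2 = 2) := by
    simp only [SD]
    conv_lhs => rw [hG]
    rw [Multiset.filter_cons_of_pos, Multiset.filter_cons_of_pos]
    · exact hb
    · exact hb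
  have hund : (SD G).und = (G₂.filter (fun e => indeg G e.2 ≠ 2)).map fun e => s(e.1, e.2) := by
    simp only [SD]
    conv_lhs =>
      rw [hG, Multiset.filter_cons_of_neg _ (by simp [← hG, hb]),
        Multiset.filter_cons_of_neg _ (by simp [← hG, hb])]
  have hdir' : (SD G').dir = G₂.filter (fun e => indeg G e.2 = 2) := by
    simp only [SD]
    conv_lhs =>
      rw [hG', Multiset.filter_cons_of_neg _ (by simp [← hG', ix]),
        Multiset.filter_cons_of_neg _ (by simp [← hG', ix']),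
        Multiset.filter_cons_of_neg _ (by simp [← hG', ib'])]
    exact e1
  have hund' : (SD G').und = s(a, Sum.inl x) ::ₘ s(b, Sum.inl x') ::ₘ s(a', b) ::ₘ
      (G₂.filter (fun e => indeg G e.2 ≠ 2)).map fun e => s(e.1, e.2) := by
    simp only [SD]
    conv_lhs =>
      rw [hG', Multiset.filter_cons_of_pos _ (by simp [← hG', ix]),
        Multiset.filter_cons_of_pos _ (by simp [← hG', ix']),
        Multiset.filter_cons_of_pos _ (by simp [← hG', ib'])]
    rw [Multiset.map_cons, Multiset.map_cons, Multiset.map_cons, e2]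
  have f1 : (G₂.filter (fun e => indeg G e.2 = 2)).filter (fun e => e.2 ≠ b) =
      G₂.filter (fun e => indeg G e.2 = 2) := by
    rw [Multiset.filter_eq_self]
    intro e he
    exact h₂ e (Multiset.mem_of_mem_filter he)
  have f2 : (G₂.filter (fun e => indeg G e.2 = 2)).filter (fun e => e.2 = b) = 0 := by
    rw [Multiset.filter_eq_nil]
    intro e he
    exact h₂ e (Multiset.mem_of_mem_filter he)
  apply MixedGraph.ext'
  · rw [hdir', hdir]
    simp [f1]
  · rw [hund', hdir, hund]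
    simp only
    rw [Multiset.filter_cons_of_pos (p := fun e => e.2 = b) (a := (a, b)) _ rfl,
      Multiset.filter_cons_of_pos (p := fun e => e.2 = b) (a := (a', b)) _ rfl, f2,
      Multiset.erase_cons_head]
    rfl

/-- The mixed graph after dropping a leaf. -/
lemma SD_drop {p y q : Vtx} {G₀ : Multiset (Vtx × Vtx)} {x : ℕ}
    (hyp : y ≠ p) (hyq : y ≠ q) (hyx : y ≠ Sum.inl x)
    (hqx : q ≠ Sum.inl x) (hpx : p ≠ Sum.inl x) (hx : ∀ e ∈ G₀, e.1 ≠ Sum.inl x ∧ e.2 ≠ Sum.inl x)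
    (h₀ : ∀ e ∈ G₀, e.1 ≠ y ∧ e.2 ≠ y) :
    (indeg ((p, y) ::ₘ (y, q) ::ₘ (y, Sum.inl x) ::ₘ G₀) q = 2 →
      (y, q) ∈ (SD ((p, y) ::ₘ (y, q) ::ₘ (y, Sum.inl x) ::ₘ G₀)).dir ∧
      (SD ((p, y) ::ₘ (y, q) ::ₘ (y, Sum.inl x) ::ₘ G₀)).und.filter (fun e => y ∈ e) =
        {s(p, y), s(y, Sum.inl x)} ∧
      SD ((p, q) ::ₘ G₀) =
      ⟨(p, q) ::ₘ (SD ((p, y) ::ₘ (y, q) ::ₘ (y, Sum.inl x) ::ₘ G₀)).dir.filter
          (fun e => e.1 ≠ y),
        (SD ((p, y) ::ₘ (y, q) ::ₘ (y, Sum.inl x) ::ₘ G₀)).und.filter (fun e => y ∉ e)⟩) ∧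
    (indeg ((p, y) ::ₘ (y, q) ::ₘ (y, Sum.inl x) ::ₘ G₀) q ≠ 2 →
      (∀ r, (y, r) ∉ (SD ((p, y) ::ₘ (y, q) ::ₘ (y, Sum.inl x) ::ₘ G₀)).dir) ∧
      (SD ((p, y) ::ₘ (y, q) ::ₘ (y, Sum.inl x) ::ₘ G₀)).und.filter (fun e => y ∈ e) =
        {s(p, y), s(y, q), s(y, Sum.inl x)} ∧
      SD ((p, q) ::ₘ G₀) =
      ⟨(SD ((p, y) ::ₘ (y, q) ::ₘ (y, Sum.inl x) ::ₘ G₀)).dir,
        s(p, q) ::ₘ
        (SD ((p, y) ::ₘ (y, q) ::ₘ (y, Sum.inl x) ::ₘ G₀)).und.filter (fun e => y ∉ e)⟩) := by
  set G := (p, y) ::ₘ (y, q) ::ₘ (y, Sum.inl x) ::ₘ G₀ with hG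
  set G' := (p, q) ::ₘ G₀ with hG'
  have i0y : indeg G₀ y = 0 := indeg_eq_zero.2 fun e he => (h₀ e he).2
  have i0x : indeg G₀ (Sum.inl x) = 0 := indeg_eq_zero.2 fun e he => (hx e he).2
  have iy : indeg G y = 1 := by
    rw [hG]
    simp only [indeg_cons, i0y]
    simp [hyq.symm, hyx.symm]
  have ix : indeg G (Sum.inl x) = 1 := by
    rw [hG]
    simp only [indeg_cons, i0x]
    simp [hqx, hyx]
  have hin : ∀ v, v ≠ y → v ≠ Sum.inl x → indeg G' v = indeg G v := by
    intro v hv hv'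
    rw [hG, hG']
    simp only [indeg_cons]
    rw [if_neg hv'.symm, if_neg hv.symm]
    omega
  have hin0 : ∀ e ∈ G₀, indeg G' e.2 = indeg G e.2 := fun e he =>
    hin e.2 (h₀ e he).2 (hx e he).2
  have hinq : indeg G' q = indeg G q := hin q hyq.symm hqx
  have e1 : G₀.filter (fun e => indeg G' e.2 = 2) = G₀.filter (fun e => indeg G e.2 = 2) :=
    Multiset.filter_congr fun e he => by rw [hin0 e he]
  have e2 : G₀.filter (fun e => indeg G' e.2 ≠ 2) = G₀.filter (fun e => indeg G e.2 ≠ 2) :=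
    Multiset.filter_congr fun e he => by rw [hin0 e he]
  have f1 : (G₀.filter (fun e => indeg G e.2 = 2)).filter (fun e => e.1 ≠ y) =
      G₀.filter (fun e => indeg G e.2 = 2) := by
    rw [Multiset.filter_eq_self]
    intro e he
    exact (h₀ e (Multiset.mem_of_mem_filter he)).1
  have f2 : ((G₀.filter (fun e => indeg G e.2 ≠ 2)).map fun e => s(e.1, e.2)).filter
      (fun e => y ∉ e) = (G₀.filter (fun e => indeg G e.2 ≠ 2)).map fun e => s(e.1, e.2) := by
    rw [Multiset.filter_eq_self]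
    intro e he
    obtain ⟨f, hf, rfl⟩ := Multiset.mem_map.1 he
    have := h₀ f (Multiset.mem_of_mem_filter hf)
    simp only [Sym2.mem_iff, not_or]
    exact ⟨this.1.symm, this.2.symm⟩
  have f3 : ((G₀.filter (fun e => indeg G e.2 ≠ 2)).map fun e => s(e.1, e.2)).filter
      (fun e => y ∈ e) = 0 := by
    rw [Multiset.filter_eq_nil]
    intro e he
    obtain ⟨f, hf, rfl⟩ := Multiset.mem_map.1 he
    have := h₀ f (Multiset.mem_of_mem_filter hf)
    simp only [Sym2.mem_iff, not_or]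
    exact ⟨this.1.symm, this.2.symm⟩
  constructor
  · intro hq
    have hdir : (SD G).dir = (y, q) ::ₘ G₀.filter (fun e => indeg G e.2 = 2) := by
      simp only [SD]
      conv_lhs =>
        rw [hG, Multiset.filter_cons_of_neg _ (by simp [← hG, iy]),
          Multiset.filter_cons_of_pos _ (by simp [← hG, hq]),
          Multiset.filter_cons_of_neg _ (by simp [← hG, ix])]
    have hund : (SD G).und = s(p, y) ::ₘ s(y, Sum.inl x) ::ₘ
        (G₀.filter (fun e => indeg G e.2 ≠ 2)).map fun e => s(e.1, e.2) := by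
      simp only [SD]
      conv_lhs =>
        rw [hG, Multiset.filter_cons_of_pos _ (by simp [← hG, iy]),
          Multiset.filter_cons_of_neg _ (by simp [← hG, hq]),
          Multiset.filter_cons_of_pos _ (by simp [← hG, ix])]
      rw [Multiset.map_cons, Multiset.map_cons]
    refine ⟨?_, ?_, ?_⟩
    · rw [hdir]
      exact Multiset.mem_cons_self _ _
    · rw [hund, Multiset.filter_cons_of_pos _ (by simp), Multiset.filter_cons_of_pos _ (by simp),
        f3]
      rfl
    · apply MixedGraph.ext'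
      · rw [hdir]
        simp only [SD]
        conv_lhs => rw [hG', Multiset.filter_cons_of_pos _ (by simp [← hG', hinq, hq])]
        rw [e1, Multiset.filter_cons_of_neg _ (by simp), f1]
      · rw [hund]
        simp only [SD]
        conv_lhs => rw [hG', Multiset.filter_cons_of_neg _ (by simp [← hG', hinq, hq])]
        rw [e2, Multiset.filter_cons_of_neg _ (by simp), Multiset.filter_cons_of_neg _ (by simp),
          f2]
  · intro hq
    have hdir : (SD G).dir = G₀.filter (fun e => indeg G e.2 = 2) := by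
      simp only [SD]
      conv_lhs =>
        rw [hG, Multiset.filter_cons_of_neg _ (by simp [← hG, iy]),
          Multiset.filter_cons_of_neg _ (by simp [← hG, hq]),
          Multiset.filter_cons_of_neg _ (by simp [← hG, ix])]
    have hund : (SD G).und = s(p, y) ::ₘ s(y, q) ::ₘ s(y, Sum.inl x) ::ₘ
        (G₀.filter (fun e => indeg G e.2 ≠ 2)).map fun e => s(e.1, e.2) := by
      simp only [SD]
      conv_lhs =>
        rw [hG, Multiset.filter_cons_of_pos _ (by simp [← hG, iy]),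
          Multiset.filter_cons_of_pos _ (by simp [← hG, hq]),
          Multiset.filter_cons_of_pos _ (by simp [← hG, ix])]
      rw [Multiset.map_cons, Multiset.map_cons, Multiset.map_cons]
    refine ⟨?_, ?_, ?_⟩
    · intro r hr
      rw [hdir] at hr
      exact (h₀ _ (Multiset.mem_of_mem_filter hr)).1 rfl
    · rw [hund, Multiset.filter_cons_of_pos _ (by simp), Multiset.filter_cons_of_pos _ (by simp),
        Multiset.filter_cons_of_pos _ (by simp), f3]
      rfl
    · apply MixedGraph.ext'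
      · rw [hdir]
        simp only [SD]
        conv_lhs => rw [hG', Multiset.filter_cons_of_neg _ (by simp [← hG', hinq, hq])]
        rw [e1]
      · rw [hund]
        simp only [SD]
        conv_lhs => rw [hG', Multiset.filter_cons_of_pos _ (by simp [← hG', hinq, hq])]
        rw [Multiset.map_cons, e2, Multiset.filter_cons_of_neg _ (by simp),
          Multiset.filter_cons_of_neg _ (by simp), Multiset.filter_cons_of_neg _ (by simp), f2]

end Pool.Agent.Lib.Pa53cac
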