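import Pool.Agent.Lib.Pa53cac.Reroot

/-!
# The family theorem for arbitrary roots
-/

namespace Pool.Agent.Lib.Pa53cac

open Relation

/-- Cutting at a root with a single outgoing arc. -/
lemma cut_top {V : Type*} {G : Multiset (V × V)} {s t : V} {T : Set V}
    (hG : Acyclic ((s, t) ::ₘ G)) (hs : ∀ e ∈ G, e.1 ≠ s ∧ e.2 ≠ s) (hst : s ≠ t)
    (hT : s ∉ T) : cut ((s, t) ::ₘ G) s T = cut G t T := by
  have hadj : Adj ((s, t) ::ₘ G) s t := Multiset.mem_cons_self _ _
  rw [cut_root hG (σ := t) (ρ := s) ?_ (.single hadj), cut_cons_source ?_ hst]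
  · exact fun e he => (hs e he).2
  · rw [onAllPaths_iff]
    rintro x hx ⟨_, h2⟩
    rcases ReflTransGen.cases_head h2 with h3 | ⟨b, h3, _⟩
    · exact hT (h3 ▸ hx)
    · rcases Multiset.mem_cons.1 h3.1 with h4 | h4
      · exact h3.2 (Prod.mk.inj h4).2
      · exact (hs _ h4).1 rfl

/-- Renaming the unlabelled vertices. -/
lemma image_leafSet (g : ℕ → ℕ) (A : Finset ℕ) :
    (Sum.map id g : Vtx → Vtx) '' leafSet A = leafSet A := by
  ext v
  constructor
  · rintro ⟨_, ⟨x, hx, rfl⟩, rfl⟩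
    exact ⟨x, hx, rfl⟩
  · rintro ⟨x, hx, rfl⟩
    exact ⟨Sum.inl x, ⟨x, hx, rfl⟩, rfl⟩

lemma map_id_injective {g : ℕ → ℕ} (hg : Function.Injective g) :
    Function.Injective (Sum.map id g : Vtx → Vtx) :=
  Sum.map_injective.2 ⟨Function.injective_id, hg⟩

/-- The cut of the leaf-rooted network obtained by attaching a leaf at the root. -/
lemma cut_attach {G₀ : Multiset (Vtx × Vtx)} {X L : Finset ℕ} {c d : Vtx} {z m k : ℕ}
    (h : RNet ((Sum.inr k, c) ::ₘ (Sum.inr k, d) ::ₘ G₀) (Sum.inr k) X)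
    (hy : ¬ IsVertex ((Sum.inr k, c) ::ₘ (Sum.inr k, d) ::ₘ G₀) (Sum.inr m)) (hz : z ∉ X)
    (hL : z ∉ L) :
    cut ((Sum.inl z, Sum.inr m) ::ₘ (Sum.inr m, c) ::ₘ (Sum.inr m, d) ::ₘ G₀) (Sum.inl z)
      (leafSet L) = rn (Sum.map id (Equiv.swap k m))
        (cut ((Sum.inr k, c) ::ₘ (Sum.inr k, d) ::ₘ G₀) (Sum.inr k) (leafSet L)) := by
  have hat := rnet_attach h rfl rfl hy hz
  have hzv : ¬ IsVertex ((Sum.inr k, c) ::ₘ (Sum.inr k, d) ::ₘ G₀) (Sum.inl z) :=
    fun h' => hz ((h.label_iff z).1 h')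
  obtain ⟨f1, f2, f3, f4⟩ := h.root_facts rfl
  rw [not_isVertex_iff] at hy hzv
  have hinj : Function.Injective (Sum.map id (Equiv.swap k m) : Vtx → Vtx) :=
    map_id_injective (Equiv.swap k m).injective
  have hfix : ∀ v : Vtx, v ≠ Sum.inr k → v ≠ Sum.inr m →
      (Sum.map id (Equiv.swap k m) : Vtx → Vtx) v = v := by
    intro v h1 h2
    rcases v with x | j
    · rfl
    · simp only [Sum.map_inr]
      rw [Equiv.swap_apply_of_ne_of_ne]
      · exact fun h' => h1 (by rw [h'])
      · exact fun h' => h2 (by rw [h'])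
  rw [cut_top hat.acyclic]
  · rw [← cut_rn hinj, image_leafSet]
    have e0 : (Sum.map id (Equiv.swap k m) : Vtx → Vtx) (Sum.inr k) = Sum.inr m := by
      simp
    rw [e0]
    congr 1
    rw [rn_cons, rn_cons]
    simp only
    rw [e0, hfix c f2 (hy _ (Multiset.mem_cons_self _ _)).2,
      hfix d f3 (hy (Sum.inr k, d) (by simp)).2]
    congr 2
    have : rn (Sum.map id (Equiv.swap k m) : Vtx → Vtx) G₀ = rn id G₀ := by
      apply rn_congr
      rintro v ⟨e, he, hv⟩
      have h1 := f1 e he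
      have h2 := hy e (by simp [he])
      apply hfix
      · rcases hv with rfl | rfl
        · exact h1.1
        · exact h1.2
      · rcases hv with rfl | rfl
        · exact h2.1
        · exact h2.2
    rw [this, rn_id]
  · intro e he
    rcases Multiset.mem_cons.1 he with rfl | he
    · exact ⟨by simp, (hzv (Sum.inr k, c) (by simp)).2⟩
    rcases Multiset.mem_cons.1 he with rfl | he
    · exact ⟨by simp, (hzv (Sum.inr k, d) (by simp)).2⟩
    · exact hzv e (by simp [he])
  · simp
  · rintro ⟨w, hw, hw'⟩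
    rw [Sum.inl.injEq] at hw'
    exact hL (hw' ▸ hw)

variable {ι κ : Type*} {r : ι → κ} {L : ι → Finset ℕ} {S : ι → Set Vtx}
  {P : ι → Multiset (Vtx × Vtx) → Prop}

/-- A family of rootings of the same mixed graph `N` (at unlabelled roots or at leaves). -/
structure St (ρ : κ → Vtx) (r : ι → κ) (L : ι → Finset ℕ)
    (P : ι → Multiset (Vtx × Vtx) → Prop) (X : Finset ℕ)
    (G : κ → Multiset (Vtx × Vtx)) (N : MixedGraph) : Prop where
  net : ∀ j, RNet (G j) (ρ j) X
  top : ∀ j, ∃ S, Base (G j) (ρ j) S ∧ SD S = N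
  sub : ∀ i, L i ⊆ X
  notin : ∀ i j, ∀ x ∈ L i, Sum.inl x ≠ ρ j
  red : ∀ i, P i (cut (G (r i)) (ρ (r i)) (leafSet (L i)))

/-- One root is moved to a new leaf. -/
theorem St.attach [Fintype κ] (hP : ∀ i, Inv (L i) (S i) (P i)) {ρ : κ → Vtx} {X : Finset ℕ}
    {G : κ → Multiset (Vtx × Vtx)} {N : MixedGraph} (h : St ρ r L P X G N) (j₀ : κ) {k : ℕ}
    (hk : ρ j₀ = Sum.inr k) [DecidableEq κ] :
    ∃ z X' G' N', St (Function.update ρ j₀ (Sum.inl z)) r L P X' G' N' := by
  classical
  obtain ⟨z, hz⟩ := Infinite.exists_notMem_finset X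
  obtain ⟨m, hm⟩ := Infinite.exists_notMem_finset
    ((Finset.univ.biUnion fun j => insert (ρ j) (vset (G j))).image
      (Sum.elim id id : Vtx → ℕ))
  have hm1 : ∀ j, ¬ IsVertex (G j) (Sum.inr m) := by
    intro j hj
    apply hm
    rw [Finset.mem_image]
    refine ⟨Sum.inr m, Finset.mem_biUnion.2 ⟨j, Finset.mem_univ _, ?_⟩, rfl⟩
    exact Finset.mem_insert_of_mem (mem_vset.2 hj)
  have hm2 : ∀ j, Sum.inr m ≠ ρ j := by
    intro j hj
    apply hm
    rw [Finset.mem_image]
    refine ⟨Sum.inr m, Finset.mem_biUnion.2 ⟨j, Finset.mem_univ _, ?_⟩, rfl⟩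
    rw [hj]
    exact Finset.mem_insert_self _ _
  have hzL : ∀ i, z ∉ L i := fun i hi => hz (h.sub i hi)
  obtain ⟨S₀, hB₀, hN₀⟩ := h.top j₀
  rcases hB₀ with ⟨w, hw, _⟩ | ⟨k', c, d, G₀, hk', hG, hd2, rfl⟩
  · rw [hk] at hw
    simp at hw
  have hkk : k' = k := by
    rw [hk] at hk'
    exact (Sum.inr.inj hk').symm
  subst hkk
  have hnet := h.net j₀
  rw [hG] at hnet hd2
  have hyj := hm1 j₀
  rw [hG] at hyj
  -- the new mixed graph
  set N' : MixedGraph := if indeg ((d, c) ::ₘ G₀) c = 2 then insDir N d c (Sum.inr m) z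
    else insUnd N d c (Sum.inr m) z with hN'
  -- the other networks
  have hother : ∀ j, ∃ G', RNet G' (ρ j) (insert z X) ∧ (∃ S, Base G' (ρ j) S ∧ SD S = N') ∧
      ∀ i, r i = j → P i (cut G' (ρ j) (leafSet (L i))) := by
    intro j
    obtain ⟨Sj, hBj, hNj⟩ := h.top j
    obtain ⟨u, v, huv, hcase⟩ : ∃ u v, (u, v) ∈ Sj ∧
        N' = if indeg Sj v = 2 then insDir N u v (Sum.inr m) z
          else insUnd N u v (Sum.inr m) z := by
      by_cases h2 : indeg ((d, c) ::ₘ G₀) c = 2
      · have h3 : (d, c) ∈ N.dir := by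
          rw [← hN₀, mem_SD_dir]
          exact ⟨Multiset.mem_cons_self _ _, h2⟩
        rw [← hNj, mem_SD_dir] at h3
        refine ⟨d, c, h3.1, ?_⟩
        rw [hN', if_pos h2, if_pos h3.2]
      · have h3 : s(d, c) ∈ N.und := by
          rw [← hN₀, mem_SD_und]
          exact ⟨(d, c), Multiset.mem_cons_self _ _, h2, rfl⟩
        rw [← hNj, mem_SD_und] at h3
        obtain ⟨⟨u, v⟩, h4, h5, h6⟩ := h3
        refine ⟨u, v, h4, ?_⟩
        simp only at h5 h6
        rw [hN', if_neg h2, if_neg h5]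
        rw [Sym2.eq_iff] at h6
        rcases h6 with ⟨rfl, rfl⟩ | ⟨rfl, rfl⟩
        · rfl
        · exact insUnd_comm _ _ _ _ _
    obtain ⟨u', hu', hB'⟩ := base_ins (h.net j) hBj huv (rfl : Sum.inr m = Sum.inr m)
      (hm1 j) hz
    have hGe : (u', v) ::ₘ (G j).erase (u', v) = G j := Multiset.cons_erase hu'
    refine ⟨ins ((G j).erase (u', v)) u' v (Sum.inr m) z, ?_, ⟨_, hB', ?_⟩, ?_⟩
    · apply rnet_ins (m := m) _ rfl
      · rw [hGe]
        exact hm1 j
      · exact hz
      · exact hm2 j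
      · rw [hGe]
        exact h.net j
    · have hSe : (u, v) ::ₘ Sj.erase (u, v) = Sj := Multiset.cons_erase huv
      rw [SD_ins (m := m) rfl, hSe, hNj, hcase]
      · rw [hSe]
        exact fun h' => hm1 j (hBj.isVertex h')
      · rw [hSe]
        exact fun h' => hz (((h.net j).label_iff z).1 (hBj.isVertex h'))
    · rintro i rfl
      apply ins_red (m := m) (X := X) (hP i).step
      · rw [hGe]
        exact h.net _
      · rfl
      · rw [hGe]
        exact hm1 _
      · exact hz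
      · exact hm2 _
      · exact h.sub i
      · exact h.notin i (r i)
      · rw [hGe]
        exact h.red i
  choose G' hG1 hG2 hG3 using hother
  set Gz := (Sum.inl z, Sum.inr m) ::ₘ (Sum.inr m, c) ::ₘ (Sum.inr m, d) ::ₘ G₀ with hGz
  have hGz1 : RNet Gz (Sum.inl z) (insert z X) := by
    rw [hk] at hnet
    rw [hk] at hyj
    exact rnet_attach hnet rfl rfl hyj hz
  have hGz2 : SD Gz = N' := by
    rw [hN', ← hN₀]
    exact SD_attach hnet hk hd2 (rfl : Sum.inr m = Sum.inr m) hyj hz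
  refine ⟨z, insert z X, Function.update G' j₀ Gz, N', ⟨?_, ?_, ?_, ?_, ?_⟩⟩
  · intro j
    by_cases hj : j = j₀
    · subst hj
      rw [Function.update_self, Function.update_self]
      exact hGz1
    · rw [Function.update_of_ne hj, Function.update_of_ne hj]
      exact hG1 j
  · intro j
    by_cases hj : j = j₀
    · subst hj
      rw [Function.update_self, Function.update_self]
      exact ⟨Gz, Or.inl ⟨z, rfl, rfl⟩, hGz2⟩
    · rw [Function.update_of_ne hj, Function.update_of_ne hj]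
      exact hG2 j
  · exact fun i => (h.sub i).trans (Finset.subset_insert _ _)
  · intro i j x hx
    by_cases hj : j = j₀
    · subst hj
      rw [Function.update_self]
      intro h'
      rw [Sum.inl.injEq] at h'
      exact hzL i (h' ▸ hx)
    · rw [Function.update_of_ne hj]
      exact h.notin i j x hx
  · intro i
    by_cases hj : r i = j₀
    · rw [hj, Function.update_self, Function.update_self]
      have hred := h.red i
      rw [hj, hG, hk] at hred
      rw [hk] at hnet hyj
      rw [hGz, cut_attach hnet hyj hz (hzL i)]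
      refine (hP i).ren (Equiv.swap k' m).injective ?_ hred
      intro l hl
      have hpos := (hP i).vert hred hl
      have hlv := isVertex_of_indeg hpos
      have hle : IsVertex ((Sum.inr k', c) ::ₘ (Sum.inr k', d) ::ₘ G₀) (Sum.inr l) := by
        obtain ⟨e, he, he'⟩ := hlv
        exact ⟨e, (mem_cut.1 he).1, he'⟩
      have hlm : l ≠ m := by
        rintro rfl
        exact hyj hle
      have hlk : l ≠ k' := by
        rintro rfl
        obtain ⟨a, ha⟩ := indeg_pos.1 hpos
        exact indeg_eq_zero.1 hnet.root_in _ (mem_cut.1 ha).1 rfl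
      exact Equiv.swap_apply_of_ne_of_ne hlk hlm
    · rw [Function.update_of_ne hj, Function.update_of_ne hj]
      exact hG3 (r i) i rfl

/-- All roots are moved to leaves. -/
theorem St.exists_fam [Fintype κ] (hP : ∀ i, Inv (L i) (S i) (P i)) {ρ : κ → Vtx} {X : Finset ℕ}
    {G : κ → Multiset (Vtx × Vtx)} {N : MixedGraph} (h : St ρ r L P X G N) :
    ∃ (z : κ → ℕ) (X' : Finset ℕ) (G' : κ → Multiset (Vtx × Vtx)) (N' : MixedGraph),
      (∀ j i, z j ∉ L i) ∧ Fam z r L P X' G' N' := by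
  classical
  have key : ∀ J : Finset κ, ∃ (ρ : κ → Vtx) (X : Finset ℕ) (G : κ → Multiset (Vtx × Vtx))
      (N : MixedGraph), St ρ r L P X G N ∧ ∀ j ∈ J, ∃ z, ρ j = Sum.inl z := by
    intro J
    induction J using Finset.induction_on with
    | empty => exact ⟨ρ, X, G, N, h, by simp⟩
    | insert j₀ J hj₀ ih =>
      obtain ⟨ρ, X, G, N, h, hJ⟩ := ih
      rcases hρ : ρ j₀ with z | k
      · refine ⟨ρ, X, G, N, h, ?_⟩
        intro j hj
        rcases Finset.mem_insert.1 hj with rfl | hj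
        · exact ⟨z, hρ⟩
        · exact hJ j hj
      · obtain ⟨z, X', G', N', h'⟩ := h.attach hP j₀ hρ
        refine ⟨_, X', G', N', h', ?_⟩
        intro j hj
        by_cases hjj : j = j₀
        · subst hjj
          rw [Function.update_self]
          exact ⟨z, rfl⟩
        · rw [Function.update_of_ne hjj]
          rcases Finset.mem_insert.1 hj with hj | hj
          · exact absurd hj hjj
          · exact hJ j hj
  obtain ⟨ρ, X, G, N, h, hJ⟩ := key Finset.univ
  choose z hz using fun j => hJ j (Finset.mem_univ j)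
  refine ⟨z, X, G, N, ?_, ⟨?_, ?_, h.sub, ?_⟩⟩
  · intro j i hi
    exact h.notin i j _ hi (hz j).symm
  · intro j
    have := h.net j
    rw [hz j] at this
    exact this.leafNet
  · intro j
    obtain ⟨S, hB, hS⟩ := h.top j
    rcases hB with ⟨w, _, rfl⟩ | ⟨k, _, _, _, hk, _⟩
    · exact hS
    · rw [hz j] at hk
      simp at hk
  · intro i
    have := h.red i
    rw [hz (r i)] at this
    exact this

end Pool.Agent.Lib.Pa53cac
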