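import Pool.Agent.Lib.Pa53cac.Commute

/-!
# Normal forms after deleting an arc are networks
-/

namespace Pool.Agent.Lib.Pa53cac

open Relation

section

variable {V : Type*}

/-- Existence of normal forms. -/
lemma exists_normal (G : Multiset (V × V)) : ∃ M, ReflTransGen Step G M ∧ Normal M := by
  induction hn : G.card using Nat.strong_induction_on generalizing G with
  | _ n ih =>
    by_cases h : ∃ H, Step G H
    · obtain ⟨H, hH⟩ := h
      obtain ⟨M, h1, h2⟩ := ih H.card (by rw [← hn]; exact hH.card_lt) H rfl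
      exact ⟨M, .head hH h1, h2⟩
    · exact ⟨G, .refl, fun D hD => h ⟨D, hD⟩⟩

lemma Step.in_exists {G H : Multiset (V × V)} (h : Step G H) {s : V}
    (hs : ∀ e ∈ G, e.1 ≠ s) (hs' : ∃ e ∈ G, e.2 = s) : ∃ e ∈ H, e.2 = s := by
  obtain ⟨e, he, rfl⟩ := hs'
  cases h with
  | suppress u v w G₀ _ _ h₀ =>
    rcases Multiset.mem_cons.1 he with rfl | he
    · exact absurd rfl (hs (v, w) (Multiset.mem_cons_of_mem (Multiset.mem_cons_self _ _)))
    rcases Multiset.mem_cons.1 he with rfl | he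
    · exact ⟨(u, w), Multiset.mem_cons_self _ _, rfl⟩
    · exact ⟨e, Multiset.mem_cons_of_mem he, rfl⟩
  | parallel e' G₀ =>
    rcases Multiset.mem_cons.1 he with rfl | he
    · exact ⟨e, Multiset.mem_cons_self _ _, rfl⟩
    · exact ⟨e, he, rfl⟩

variable [DecidableEq V]

/-- Normal graphs have no vertices of degree (1, 1). -/
lemma Normal.not_deg_one {Z : Multiset (V × V)} (hZ : Normal Z) (hac : Acyclic Z) {v : V}
    (h1 : indeg Z v = 1) : outdeg Z v ≠ 1 := by
  intro h2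
  obtain ⟨u, hu⟩ := indeg_pos.1 (show 0 < indeg Z v by omega)
  obtain ⟨w, hw⟩ := outdeg_pos.1 (show 0 < outdeg Z v by omega)
  have hvu : v ≠ u := fun h => hac.not_adj_self v (by
    have := hu
    rw [← h] at this
    exact this)
  have hvw : v ≠ w := fun h => hac.not_adj_self v (by
    have := hw
    rw [← h] at this
    exact this)
  obtain ⟨Z₁, rfl⟩ := Multiset.exists_cons_of_mem hu
  have hw' : (v, w) ∈ Z₁ := by
    rcases Multiset.mem_cons.1 hw with h | h
    · exact absurd (Prod.mk.inj h).1 hvu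
    · exact h
  obtain ⟨Z₂, rfl⟩ := Multiset.exists_cons_of_mem hw'
  rw [indeg_cons, indeg_cons] at h1
  rw [outdeg_cons, outdeg_cons] at h2
  simp only [if_true] at h1 h2
  rw [if_neg hvw.symm] at h1
  rw [if_neg hvu.symm] at h2
  refine hZ _ (Step.suppress u v w Z₂ hvu hvw ?_)
  intro e he
  exact ⟨outdeg_eq_zero.1 (by omega) e he, indeg_eq_zero.1 (by omega) e he⟩

lemma Normal.nodup {Z : Multiset (V × V)} (hZ : Normal Z) : Z.Nodup := by
  rw [Multiset.nodup_iff_count_le_one]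
  intro e
  by_contra h
  exact hZ _ (step_parallel (G := Z) (e := e) (by omega))

lemma isVertex_erase {N : Multiset (V × V)} {e : V × V} {v : V} (hv : IsVertex (N.erase e) v) :
    IsVertex N v := by
  obtain ⟨f, hf, h⟩ := hv
  exact ⟨f, Multiset.mem_of_mem_erase hf, h⟩

lemma indeg_erase {N : Multiset (V × V)} {a b : V} (hab : (a, b) ∈ N) (v : V) :
    indeg (N.erase (a, b)) v + (if b = v then 1 else 0) = indeg N v := by
  conv_rhs => rw [← Multiset.cons_erase hab, indeg_cons]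

lemma outdeg_erase {N : Multiset (V × V)} {a b : V} (hab : (a, b) ∈ N) (v : V) :
    outdeg (N.erase (a, b)) v + (if a = v then 1 else 0) = outdeg N v := by
  conv_rhs => rw [← Multiset.cons_erase hab, outdeg_cons]

/-- If all vertices but `ρ` have an incoming arc in `N.erase e`, everything is reachable. -/
lemma reach_erase_of {N : Multiset (V × V)} (hN : Acyclic N) {ρ : V} {e : V × V}
    (h : ∀ v, IsVertex N v → v ≠ ρ → 0 < indeg (N.erase e) v) :
    ∀ v, IsVertex N v → Reach (N.erase e) ρ v := by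
  intro v hv
  by_cases hvρ : v = ρ
  · rw [hvρ]
  · apply reach_of_root (hN.mono fun e he => Multiset.mem_of_mem_erase he)
    · intro w hw hwρ
      exact indeg_pos.1 (h w (isVertex_erase hw) hwρ)
    · exact isVertex_of_indeg (h v hv hvρ)

end

/-- The root is the only source. -/
lemma IsNetwork.root_unique {M : Multiset (Vtx × Vtx)} {ρ σ : Vtx} {A : Finset ℕ}
    (h : IsNetwork M ρ A) (h1 : ∀ e ∈ M, e.2 ≠ σ) (h2 : ∃ e ∈ M, e.1 = σ) : σ = ρ := by
  by_contra hne
  obtain ⟨e, he, h3⟩ := h2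
  have h4 := h.rnet.1.indeg_pos ⟨e, he, Or.inl h3⟩ hne
  rw [indeg_eq_zero.2 h1] at h4
  omega

lemma IsNetwork.degrees {M : Multiset (Vtx × Vtx)} {ρ : Vtx} {A : Finset ℕ}
    (h : IsNetwork M ρ A) (v : Vtx) :
    indeg M v ≤ 2 ∧ outdeg M v ≤ 2 ∧ indeg M v + outdeg M v ≤ 3 := by
  by_cases hv : IsVertex M v
  · rcases v with x | k
    · have := h.leaf x ((h.label_iff x).1 hv)
      omega
    · by_cases hk : Sum.inr k = ρ
      · rw [hk]
        have := h.root
        omega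
      · have := h.inner k hv hk
        omega
  · have := indeg_outdeg_zero hv
    omega

/-- In a network which equals its cut, there are at least two leaves. -/
lemma IsNetwork.two_leaves {M : Multiset (Vtx × Vtx)} {ρ : Vtx} {A : Finset ℕ}
    (h : IsNetwork M ρ A) (hc : cut M ρ (leafSet A) = M) (x : ℕ) :
    ∃ y ∈ A, y ≠ x := by
  by_contra hcon
  push Not at hcon
  obtain ⟨c, hc'⟩ := outdeg_pos.1 (show 0 < outdeg M ρ by rw [h.root.2]; omega)
  have h1 : (ρ, c) ∈ cut M ρ (leafSet A) := by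
    rw [hc]
    exact hc'
  obtain ⟨_, ⟨_, t, ⟨y, hy, rfl⟩, h2⟩, h3⟩ := mem_cut.1 h1
  apply h3
  refine ⟨Sum.inl y, ?_, TransGen.head' hc' h2⟩
  rw [onAllPaths_iff]
  rintro t ⟨y', hy', rfl⟩ hav
  have : y' = y := by rw [hcon y hy, hcon y' hy']
  subst this
  exact hav.ne_right rfl

/-- Deleting an arc into a reticulation of a network and restricting gives a network. -/
theorem IsNetwork.erase_res {M : Multiset (Vtx × Vtx)} {ρ : Vtx} {A : Finset ℕ}
    (h : IsNetwork M ρ A) (hc : cut M ρ (leafSet A) = M) {a b : Vtx} (hab : (a, b) ∈ M)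
    (hb : indeg M b = 2) :
    ∃ Z σ, PlainRes (cut (M.erase (a, b)) ρ (leafSet A)) A Z σ := by
  classical
  set N := M.erase (a, b) with hN
  have hNM : ∀ e ∈ N, e ∈ M := fun e he => Multiset.mem_of_mem_erase he
  have hNac : Acyclic N := h.acyclic.mono hNM
  have hTN : ∀ t ∈ leafSet A, ∀ e ∈ N, e.1 ≠ t := by
    rintro t ⟨x, hx, rfl⟩ e he
    exact outdeg_eq_zero.1 (h.leaf x hx).2 e (hNM e he)
  have hreachN : ∀ v, IsVertex M v → Reach N ρ v := by
    apply reach_erase_of h.acyclic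
    intro v hv hvρ
    have h1 := h.rnet.1.indeg_pos hv hvρ
    have h2 := indeg_erase hab v
    by_cases hbv : b = v
    · subst hbv
      rw [if_pos rfl] at h2
      omega
    · rw [if_neg hbv] at h2
      omega
  obtain ⟨σ, hσ1, hσ2, hσ3⟩ := exists_lsa (T := leafSet A) hNac (ρ := ρ)
  rw [hσ3]
  set Y := pathUnion N σ (leafSet A) with hY
  have hYN : ∀ e ∈ Y, e ∈ N := pathUnion_subset
  have hYac : Acyclic Y := hNac.mono hYN
  obtain ⟨Z, hZ1, hZ2⟩ := exists_normal Y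
  refine ⟨Z, σ, hZ1, ?_⟩
  -- the in-arcs of the leaves
  have hleafarc : ∀ x ∈ A, ∃ e ∈ Y, e.2 = Sum.inl x := by
    intro x hx
    have hbx : b ≠ Sum.inl x := by
      rintro rfl
      have := (h.leaf x hx).1
      omega
    obtain ⟨p, hp⟩ := indeg_pos.1 (show 0 < indeg N (Sum.inl x) by
      have h1 : indeg N (Sum.inl x) + (if b = Sum.inl x then 1 else 0) =
        indeg M (Sum.inl x) := indeg_erase hab (Sum.inl x)
      rw [if_neg hbx] at h1
      have := (h.leaf x hx).1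
      omega)
    have hσx : Sum.inl x ≠ σ := by
      rintro rfl
      obtain ⟨y, hy, hyx⟩ := h.two_leaves hc x
      have hry : Reach N ρ (Sum.inl y) := hreachN _ ((h.label_iff y).2 hy)
      rw [onAllPaths_iff] at hσ2
      rcases av_or (Sum.inl x) hry with h1 | h1
      · rcases ReflTransGen.cases_head h1.2 with h2 | ⟨c, h2, _⟩
        · exact hyx (Sum.inl.inj h2).symm
        · exact hTN (Sum.inl x) ⟨x, hx, rfl⟩ _ h2 rfl
      · exact hσ2 _ ⟨y, hy, rfl⟩ h1
    refine ⟨(p, Sum.inl x), mem_pathUnion.2 ⟨hp, ?_, Sum.inl x, ⟨x, hx, rfl⟩, .refl⟩, rfl⟩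
    have hrp : Reach N ρ p := hreachN _ ⟨_, hNM _ hp, Or.inl rfl⟩
    rcases av_or σ hrp with h1 | h1
    · exact h1.2
    · exfalso
      rw [onAllPaths_iff] at hσ2
      exact hσ2 _ ⟨x, hx, rfl⟩ (h1.trans (Av.of_adj hp h1.ne_right hσx))
  -- invariants
  have hinv : Acyclic Z ∧ (∀ e ∈ Z, e.2 ≠ σ) ∧ (∀ t ∈ leafSet A, ∀ e ∈ Z, e.1 ≠ t) ∧
      cut Z σ (leafSet A) = Z ∧ ∀ x ∈ A, ∃ e ∈ Z, e.2 = Sum.inl x := by
    clear hZ2
    induction hZ1 with
    | refl =>
      refine ⟨hYac, ?_, fun t ht e he => hTN t ht e (hYN e he), ?_, hleafarc⟩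
      · rintro ⟨x, y⟩ hxy h
        simp only at h
        subst h
        obtain ⟨h3, h4, _⟩ := mem_pathUnion.1 hxy
        exact hNac _ (TransGen.tail' h4 h3)
      · rw [hY, cut_pathUnion, ← cut_root hNac hσ2 hσ1, hσ3]
    | tail _ hst ih =>
      obtain ⟨i1, i2, i3, i4, i5⟩ := ih
      exact ⟨hst.acyclic i1, hst.head_ne i2, fun t ht => hst.tail_ne (i3 t ht),
        hst.closed i1 i2 i3 i4, fun x hx => hst.in_exists (i3 _ ⟨x, hx, rfl⟩) (i5 x hx)⟩
  obtain ⟨i1, i2, i3, i4, i5⟩ := hinv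
  have hvert : ∀ v, IsVertex Z v → IsVertex M v := by
    intro v hv
    obtain ⟨e, he, h1⟩ := steps_isVertex hZ1 hv
    exact ⟨e, hNM e (hYN e he), h1⟩
  have hdeg : ∀ v, indeg Z v ≤ indeg M v ∧ outdeg Z v ≤ outdeg M v := by
    intro v
    have hYM : Y ≤ M := (by
      rw [hY, pathUnion]
      exact Multiset.filter_le _ _ : Y ≤ N).trans (Multiset.erase_le _ _)
    exact ⟨(steps_indeg_le hZ1 v).trans (Multiset.countP_le_of_le _ hYM),
      (steps_outdeg_le hZ1 v).trans (Multiset.countP_le_of_le _ hYM)⟩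
  have hin : ∀ v, IsVertex Z v → v ≠ σ → 0 < indeg Z v := by
    rintro v ⟨⟨p, q⟩, he, hv⟩ hvσ
    have hc1 : (p, q) ∈ cut Z σ (leafSet A) := by
      rw [i4]
      exact he
    obtain ⟨_, ⟨h1, _⟩, _⟩ := mem_cut.1 hc1
    rcases hv with rfl | rfl
    · rcases ReflTransGen.cases_tail h1 with h2 | ⟨c, _, h2⟩
      · exact absurd h2 hvσ
      · exact indeg_pos.2 ⟨c, h2⟩
    · exact indeg_pos.2 ⟨p, he⟩
  have hout : ∀ v, IsVertex Z v → v ∉ leafSet A → 0 < outdeg Z v := by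
    rintro v ⟨⟨p, q⟩, he, hv⟩ hvT
    have hc1 : (p, q) ∈ cut Z σ (leafSet A) := by
      rw [i4]
      exact he
    obtain ⟨_, ⟨_, t, ht, h1⟩, _⟩ := mem_cut.1 hc1
    rcases hv with rfl | rfl
    · exact outdeg_pos.2 ⟨q, he⟩
    · rcases ReflTransGen.cases_head h1 with h2 | ⟨c, h2, _⟩
      · exact absurd (h2 ▸ ht) hvT
      · exact outdeg_pos.2 ⟨c, h2⟩
  have hσT : ∀ x ∈ A, (Sum.inl x : Vtx) ≠ σ := by
    rintro x hx rfl
    obtain ⟨e, he, h1⟩ := i5 x hx
    exact i2 e he h1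
  obtain ⟨x₀, hx₀, _⟩ := h.two_leaves hc 0
  have hσout : outdeg Z σ = 2 := by
    have h1 : 0 < outdeg Z σ := by
      obtain ⟨e, he, h1⟩ := i5 x₀ hx₀
      have hc1 : e ∈ cut Z σ (leafSet A) := by
        rw [i4]
        exact he
      obtain ⟨_, ⟨h2, _⟩, _⟩ := mem_cut.1 hc1
      rcases ReflTransGen.cases_head h2 with h3 | ⟨c, h3, _⟩
      · exact outdeg_pos.2 ⟨e.2, by rw [h3]; exact he⟩
      · exact outdeg_pos.2 ⟨c, h3⟩
    have h2 : outdeg Z σ ≤ 2 := (hdeg σ).2.trans (h.degrees σ).2.1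
    by_contra hcon
    have h3 : outdeg Z σ = 1 := by omega
    obtain ⟨y, hy⟩ := outdeg_pos.1 h1
    have hc1 : (σ, y) ∈ cut Z σ (leafSet A) := by
      rw [i4]
      exact hy
    obtain ⟨_, _, h4⟩ := mem_cut.1 hc1
    apply h4
    refine ⟨y, ?_, .single hy⟩
    rw [onAllPaths_iff]
    rintro t ⟨x, hx, rfl⟩ ⟨_, hav⟩
    rcases ReflTransGen.cases_head hav with h5 | ⟨c, h5, _⟩
    · exact hσT x hx h5.symm
    · obtain ⟨Z₁, hZ₁⟩ := Multiset.exists_cons_of_mem hy
      have h6 : outdeg Z₁ σ = 0 := by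
        rw [hZ₁, outdeg_cons] at h3
        simp only [if_true] at h3
        omega
      have h7 := h5.1
      rw [hZ₁] at h7
      rcases Multiset.mem_cons.1 h7 with h8 | h8
      · exact h5.2 (Prod.mk.inj h8).2
      · exact outdeg_eq_zero.1 h6 _ h8 rfl
  refine ⟨i1, hZ2.nodup, ⟨indeg_eq_zero.2 i2, hσout⟩, ?_, ?_, ?_⟩
  · intro x
    constructor
    · intro hx
      exact (h.label_iff x).1 (hvert _ hx)
    · intro hx
      obtain ⟨e, he, h1⟩ := i5 x hx
      exact ⟨e, he, Or.inr h1⟩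
  · intro x hx
    obtain ⟨e, he, h1⟩ := i5 x hx
    have h2 := hin _ ⟨e, he, Or.inr h1⟩ (hσT x hx)
    have h3 := hdeg (Sum.inl x)
    have h4 := h.leaf x hx
    omega
  · intro k hk hkσ
    have h1 := hin _ hk hkσ
    have h2 := hout _ hk (by
      rintro ⟨x, _, hx⟩
      simp at hx)
    have h3 := hdeg (Sum.inr k)
    have h4 := h.degrees (Sum.inr k)
    have h5 : ¬ (indeg Z (Sum.inr k) = 1 ∧ outdeg Z (Sum.inr k) = 1) := fun h' =>
      hZ2.not_deg_one i1 h'.1 h'.2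
    omega

end Pool.Agent.Lib.Pa53cac
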