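import Pool.Agent.Lib.Pa53cac.Defs

namespace Pool.Agent.Lib.Pa53cac

open Relation

variable {V : Type*}

/-- Reachability. -/
abbrev Reach (G : Multiset (V × V)) : V → V → Prop := ReflTransGen (Adj G)

/-- Reachability by a nonempty path. -/
abbrev SReach (G : Multiset (V × V)) : V → V → Prop := TransGen (Adj G)

lemma rtg_mono {r p : V → V → Prop} (h : ∀ a b, r a b → p a b) {a b : V}
    (hab : ReflTransGen r a b) : ReflTransGen p a b := by
  induction hab with
  | refl => exact .refl
  | tail _ hbc ih => exact ih.tail (h _ _ hbc)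

lemma tg_mono {r p : V → V → Prop} (h : ∀ a b, r a b → p a b) {a b : V}
    (hab : TransGen r a b) : TransGen p a b := by
  induction hab with
  | single h1 => exact .single (h _ _ h1)
  | tail _ hbc ih => exact ih.tail (h _ _ hbc)

/-- Either a walk passes through `s`, or it avoids `s`. -/
lemma rtg_split {r : V → V → Prop} (s : V) {a b : V} (h : ReflTransGen r a b) :
    (ReflTransGen r a s ∧ ReflTransGen r s b) ∨
      (a ≠ s ∧ ReflTransGen (fun p q => r p q ∧ q ≠ s) a b) := by
  induction h with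
  | refl =>
    by_cases h : a = s
    · left
      subst h
      exact ⟨.refl, .refl⟩
    · right
      exact ⟨h, .refl⟩
  | @tail b c hab hbc ih =>
    rcases ih with ⟨h1, h2⟩ | ⟨h1, h2⟩
    · exact Or.inl ⟨h1, h2.tail hbc⟩
    · by_cases hc : c = s
      · left
        subst hc
        exact ⟨hab.tail hbc, .refl⟩
      · right
        exact ⟨h1, h2.tail ⟨hbc, hc⟩⟩

/-- There is a directed path from `a` to `b` avoiding `s`. -/
def Av (G : Multiset (V × V)) (s a b : V) : Prop :=
  a ≠ s ∧ ReflTransGen (fun p q => Adj G p q ∧ q ≠ s) a b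

lemma Av.reach {G : Multiset (V × V)} {s a b : V} (h : Av G s a b) : Reach G a b :=
  rtg_mono (fun _ _ h => h.1) h.2

lemma av_or {G : Multiset (V × V)} (s : V) {a b : V} (h : Reach G a b) :
    (Reach G a s ∧ Reach G s b) ∨ Av G s a b := rtg_split s h

lemma Av.trans {G : Multiset (V × V)} {s a b c : V} (h : Av G s a b) (h' : Av G s b c) :
    Av G s a c := ⟨h.1, h.2.trans h'.2⟩

lemma Av.of_adj {G : Multiset (V × V)} {s a b : V} (h : Adj G a b) (ha : a ≠ s) (hb : b ≠ s) :
    Av G s a b := ⟨ha, .single ⟨h, hb⟩⟩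

lemma Av.ne_left {G : Multiset (V × V)} {s a b : V} (h : Av G s a b) : a ≠ s := h.1

lemma Av.ne_right {G : Multiset (V × V)} {s a b : V} (h : Av G s a b) : b ≠ s := by
  rcases ReflTransGen.cases_tail h.2 with h1 | ⟨c, _, h2⟩
  · rw [h1]
    exact h.1
  · exact h2.2

/-- The suffix of a path avoiding `s`. -/
lemma Av.split {G : Multiset (V × V)} {s a b : V} (c : V) (h : Av G s a b) :
    (Av G s a c ∧ Av G s c b) ∨ (∃ _ : Av G s a b, Av G c a b) := by
  rcases rtg_split c h.2 with ⟨h1, h2⟩ | ⟨h1, h2⟩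
  · left
    have h3 : Av G s a c := ⟨h.1, h1⟩
    exact ⟨h3, h3.ne_right, h2⟩
  · right
    exact ⟨h, h1, rtg_mono (fun _ _ h => ⟨h.1.1, h.2⟩) h2⟩

lemma onAllPaths_iff {G : Multiset (V × V)} {ρ : V} {T : Set V} {s : V} :
    OnAllPaths G ρ T s ↔ ∀ t ∈ T, ¬ Av G s ρ t := by
  constructor
  · intro h t ht hav
    obtain ⟨l, hl, hlast⟩ := List.exists_isChain_cons_of_relationReflTransGen hav.2
    have hmem : s ∈ ρ :: l := by
      refine h t ht (ρ :: l) ⟨?_, rfl, ?_⟩
      · exact hl.imp fun _ _ h => h.1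
      · rw [List.getLast?_eq_some_getLast (List.cons_ne_nil _ _), hlast]
    have key : ∀ (l : List V) (a : V), a ≠ s →
        (a :: l).IsChain (fun p q => Adj G p q ∧ q ≠ s) → s ∉ a :: l := by
      intro l
      induction l with
      | nil =>
        intro a ha _
        simpa using ha.symm
      | cons b l ih =>
        intro a ha hc
        rw [List.isChain_cons_cons] at hc
        have := ih b hc.1.2 hc.2
        simp only [List.mem_cons, not_or] at this ⊢
        exact ⟨ha.symm, this⟩
    exact key l ρ hav.1 hl hmem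
  · intro h t ht l hl
    by_contra hs
    apply h t ht
    obtain ⟨h1, h2, h3⟩ := hl
    cases l with
    | nil => simp at h2
    | cons a l =>
      simp only [List.head?_cons, Option.some.injEq] at h2
      subst h2
      refine ⟨fun h => hs (by simp [h]), ?_⟩
      apply List.relationReflTransGen_of_exists_isChain_cons l
      · have key : ∀ (l : List V) (a : V), (a :: l).IsChain (Adj G) → s ∉ l →
            (a :: l).IsChain (fun p q => Adj G p q ∧ q ≠ s) := by
          intro l
          induction l with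
          | nil =>
            intro a _ _
            exact .singleton _
          | cons b l ih =>
            intro a hc hs
            rw [List.isChain_cons_cons] at hc ⊢
            simp only [List.mem_cons, not_or] at hs
            exact ⟨⟨hc.1, Ne.symm hs.1⟩, ih b hc.2 hs.2⟩
        exact key l a h1 fun h => hs (List.mem_cons_of_mem _ h)
      · rw [List.getLast?_eq_some_getLast (List.cons_ne_nil _ _)] at h3
        exact Option.some.inj h3

/-! ### The predicate cutting out `cut G ρ T` -/

/-- The arcs `e` in the `cut`. -/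
def InCut (G : Multiset (V × V)) (ρ : V) (T : Set V) (e : V × V) : Prop :=
  (Reach G ρ e.1 ∧ ∃ t ∈ T, Reach G e.2 t) ∧
    ¬ ∃ s, OnAllPaths G ρ T s ∧ SReach G e.1 s

lemma cut_eq_filter [DecidableEq V] (G : Multiset (V × V)) (ρ : V) (T : Set V)
    [DecidablePred (InCut G ρ T)] :
    cut G ρ T = G.filter (InCut G ρ T) := by
  classical
  rw [cut, pathUnion, Multiset.filter_filter]
  apply Multiset.filter_congr
  intro e _
  rw [InCut, and_comm]

lemma mem_cut {G : Multiset (V × V)} {ρ : V} {T : Set V} {e : V × V} :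
    e ∈ cut G ρ T ↔ e ∈ G ∧ InCut G ρ T e := by
  classical
  rw [cut_eq_filter, Multiset.mem_filter]

lemma mem_pathUnion {G : Multiset (V × V)} {ρ : V} {T : Set V} {e : V × V} :
    e ∈ pathUnion G ρ T ↔ e ∈ G ∧ Reach G ρ e.1 ∧ ∃ t ∈ T, Reach G e.2 t := by
  classical
  rw [pathUnion, Multiset.mem_filter]

lemma cut_le (G : Multiset (V × V)) (ρ : V) (T : Set V) : cut G ρ T ≤ G := by
  classical
  rw [cut_eq_filter]
  exact Multiset.filter_le _ _

lemma Acyclic.mono {G H : Multiset (V × V)} (hG : Acyclic G) (h : ∀ e ∈ H, e ∈ G) :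
    Acyclic H := fun v hv => hG v (tg_mono (fun _ _ h' => h _ h') hv)

lemma Acyclic.antisymm {G : Multiset (V × V)} (hG : Acyclic G) {a b : V}
    (h : Reach G a b) (h' : Reach G b a) : a = b := by
  by_contra hab
  rcases ReflTransGen.cases_head h with h1 | ⟨c, h1, h2⟩
  · exact hab h1
  · exact hG a (TransGen.head' h1 (h2.trans h'))

lemma sreach_of_reach_ne {G : Multiset (V × V)} {a b : V} (h : Reach G a b) (hab : a ≠ b) :
    SReach G a b := by
  rcases ReflTransGen.cases_head h with h1 | ⟨c, h1, h2⟩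
  · exact absurd h1 hab
  · exact TransGen.head' h1 h2

lemma Acyclic.not_adj_self {G : Multiset (V × V)} (hG : Acyclic G) (a : V) : ¬ Adj G a a :=
  fun h => hG a (.single h)

lemma Acyclic.ne_of_mem {G : Multiset (V × V)} (hG : Acyclic G) {e : V × V} (he : e ∈ G) :
    e.1 ≠ e.2 := by
  intro h
  apply hG e.1
  apply TransGen.single
  show (e.1, e.1) ∈ G
  nth_rewrite 2 [h]
  exact he

/-- If `σ` lies on all paths from `ρ` to `T`, cutting from `ρ` and cutting from `σ` agree. -/
lemma cut_root {G : Multiset (V × V)} (hG : Acyclic G) {ρ σ : V} {T : Set V}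
    (hσ : OnAllPaths G ρ T σ) (hρσ : Reach G ρ σ) : cut G ρ T = cut G σ T := by
  classical
  rw [cut_eq_filter, cut_eq_filter]
  apply Multiset.filter_congr
  rintro ⟨a, b⟩ he
  have hadj : Adj G a b := he
  rw [onAllPaths_iff] at hσ
  constructor
  · rintro ⟨⟨h1, t, ht, h2⟩, h3⟩
    simp only at h1 h2 h3
    -- σ is above `a`
    have hσa : Reach G σ a := by
      rcases av_or σ h1 with h | h
      · exact h.2
      rcases av_or σ h2 with h' | h'
      · exact absurd ⟨σ, onAllPaths_iff.2 hσ, TransGen.head' hadj h'.1⟩ h3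
      · exact absurd ((h.trans (Av.of_adj hadj h.ne_right h'.ne_left)).trans h') (hσ t ht)
    refine ⟨⟨hσa, t, ht, h2⟩, ?_⟩
    rintro ⟨s, hs, has⟩
    refine h3 ⟨s, ?_, has⟩
    rw [onAllPaths_iff] at hs ⊢
    intro t' ht' hav
    rcases hav.split σ with h | ⟨_, h⟩
    · exact hs t' ht' h.2
    · exact hσ t' ht' h
  · rintro ⟨⟨h1, t, ht, h2⟩, h3⟩
    simp only at h1 h2 h3
    refine ⟨⟨hρσ.trans h1, t, ht, h2⟩, ?_⟩
    rintro ⟨s, hs, has⟩
    refine h3 ⟨s, ?_, has⟩
    rw [onAllPaths_iff] at hs ⊢
    intro t' ht' hav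
    rcases av_or s hρσ with h | h
    · -- s above σ, and σ above a above s
      exact hG a (has.trans_left (h.2.trans h1))
    · exact hs t' ht' (h.trans hav)

/-- Sub-multigraph monotonicity of reachability. -/
lemma Reach.mono {G H : Multiset (V × V)} (h : ∀ e ∈ H, e ∈ G) {a b : V} (hr : Reach H a b) :
    Reach G a b := rtg_mono (fun _ _ h' => h _ h') hr

lemma SReach.mono {G H : Multiset (V × V)} (h : ∀ e ∈ H, e ∈ G) {a b : V} (hr : SReach H a b) :
    SReach G a b := tg_mono (fun _ _ h' => h _ h') hr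

lemma pathUnion_subset {G : Multiset (V × V)} {ρ : V} {T : Set V} :
    ∀ e ∈ pathUnion G ρ T, e ∈ G := fun _ he => (mem_pathUnion.1 he).1

/-- A path between vertices of the path union stays in the path union. -/
lemma reach_pathUnion {G : Multiset (V × V)} {ρ : V} {T : Set V} {a b t : V}
    (hρ : Reach G ρ a) (ht : t ∈ T) (hbt : Reach G b t) (h : Reach G a b) :
    Reach (pathUnion G ρ T) a b := by
  induction h using ReflTransGen.head_induction_on with
  | refl => exact .refl
  | @head a c hac hcb ih =>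
    refine ReflTransGen.head ?_ (ih (hρ.tail hac))
    exact mem_pathUnion.2 ⟨hac, hρ, t, ht, hcb.trans hbt⟩

lemma av_pathUnion {G : Multiset (V × V)} {ρ : V} {T : Set V} {s a b t : V}
    (hρ : Reach G ρ a) (ht : t ∈ T) (hbt : Reach G b t) (h : Av G s a b) :
    Av (pathUnion G ρ T) s a b := by
  refine ⟨h.1, ?_⟩
  have h2 := h.2
  clear h
  induction h2 using ReflTransGen.head_induction_on with
  | refl => exact .refl
  | @head a c hac hcb ih =>
    refine ReflTransGen.head ⟨?_, hac.2⟩ (ih (hρ.tail hac.1))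
    exact mem_pathUnion.2 ⟨hac.1, hρ, t, ht,
      (rtg_mono (fun _ _ h => h.1) hcb).trans hbt⟩

lemma sreach_pathUnion {G : Multiset (V × V)} {ρ : V} {T : Set V} {a b t : V}
    (hρ : Reach G ρ a) (ht : t ∈ T) (hbt : Reach G b t) (h : SReach G a b) :
    SReach (pathUnion G ρ T) a b := by
  obtain ⟨c, hac, hcb⟩ := TransGen.head'_iff.1 h
  exact TransGen.head' (mem_pathUnion.2 ⟨hac, hρ, t, ht, hcb.trans hbt⟩)
    (reach_pathUnion (hρ.tail hac) ht hbt hcb)

lemma Av.mono {G H : Multiset (V × V)} (h : ∀ e ∈ H, e ∈ G) {s a b : V} (hr : Av H s a b) :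
    Av G s a b := ⟨hr.1, rtg_mono (fun _ _ h' => ⟨h _ h'.1, h'.2⟩) hr.2⟩

/-- `cut` only depends on the path union. -/
lemma cut_pathUnion (G : Multiset (V × V)) (ρ : V) (T : Set V) :
    cut (pathUnion G ρ T) ρ T = cut G ρ T := by
  classical
  rw [cut_eq_filter]
  conv_rhs => rw [cut]
  apply Multiset.filter_congr
  rintro ⟨a, b⟩ he
  obtain ⟨he, hρa, t, ht, hbt⟩ := mem_pathUnion.1 he
  simp only at hρa hbt
  have hadj : Adj G a b := he
  have hst : ∀ s, OnAllPaths (pathUnion G ρ T) ρ T s ↔ OnAllPaths G ρ T s := by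
    intro s
    rw [onAllPaths_iff, onAllPaths_iff]
    constructor
    · intro h t' ht' hav
      exact h t' ht' (av_pathUnion .refl ht' .refl hav)
    · intro h t' ht' hav
      exact h t' ht' (hav.mono pathUnion_subset)
  constructor
  · rintro ⟨_, h3⟩ ⟨s, hs, has⟩
    refine h3 ⟨s, (hst s).2 hs, ?_⟩
    -- s reaches t
    have hρt : Reach G ρ t := (hρa.tail hadj).trans hbt
    rcases av_or s hρt with h | h
    · exact sreach_pathUnion hρa ht h.2 has
    · exact absurd h (onAllPaths_iff.1 hs t ht)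
  · intro h3
    refine ⟨⟨reach_pathUnion .refl ht ((ReflTransGen.single hadj).trans hbt) hρa, t, ht,
      reach_pathUnion (hρa.tail hadj) ht .refl hbt⟩, ?_⟩
    rintro ⟨s, hs, has⟩
    exact h3 ⟨s, (hst s).1 hs, SReach.mono pathUnion_subset has⟩

/-- `cut` only depends on the path union. -/
lemma cut_congr {G H : Multiset (V × V)} {ρ : V} {T : Set V}
    (h : pathUnion G ρ T = pathUnion H ρ T) : cut G ρ T = cut H ρ T := by
  rw [← cut_pathUnion G, h, cut_pathUnion]

/-- A general criterion for equality of path unions: if `H ≤ G` as multisets and all further arcs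
of `G` are not on a path from `ρ` to `T` in `G`. -/
lemma pathUnion_add {H D : Multiset (V × V)} {ρ : V} {T : Set V}
    (h : ∀ e ∈ D, ¬ (Reach (H + D) ρ e.1 ∧ ∃ t ∈ T, Reach (H + D) e.2 t)) :
    pathUnion (H + D) ρ T = pathUnion H ρ T := by
  classical
  have hsub : ∀ e ∈ H, e ∈ H + D := fun e he => Multiset.mem_add.2 (Or.inl he)
  have key : ∀ {a b t : V}, Reach (H + D) ρ a → t ∈ T → Reach (H + D) b t →
      Reach (H + D) a b → Reach H a b := by
    intro a b t hρ ht hbt hab
    induction hab using ReflTransGen.head_induction_on with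
    | refl => exact .refl
    | @head a c hac hcb ih =>
      refine ReflTransGen.head ?_ (ih (hρ.tail hac))
      rcases Multiset.mem_add.1 hac with h' | h'
      · exact h'
      · exact absurd ⟨hρ, t, ht, hcb.trans hbt⟩ (h _ h')
  rw [pathUnion, pathUnion, Multiset.filter_add]
  have h2 : D.filter (fun e => Reach (H + D) ρ e.1 ∧ ∃ t ∈ T, Reach (H + D) e.2 t) = 0 := by
    rw [Multiset.filter_eq_nil]
    exact h
  rw [h2, add_zero]
  apply Multiset.filter_congr
  rintro ⟨a, b⟩ he
  have hadj : Adj (H + D) a b := hsub _ he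
  constructor
  · rintro ⟨h1, t, ht, h3⟩
    exact ⟨key .refl ht ((ReflTransGen.single hadj).trans h3) h1, t, ht,
      key (h1.tail hadj) ht .refl h3⟩
  · rintro ⟨h1, t, ht, h3⟩
    exact ⟨Reach.mono hsub h1, t, ht, Reach.mono hsub h3⟩

end Pool.Agent.Lib.Pa53cac
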