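import Pool.Agent.Lib.Pa53cac.Mixed

/-!
# Restrictions: invariance
-/

namespace Pool.Agent.Lib.Pa53cac

open Relation

lemma indeg_filter_touch {V : Type*} [DecidableEq V] {G : Multiset (V × V)} {v : V} :
    indeg G v = indeg (G.filter (touch v)) v := by
  rw [indeg, indeg, Multiset.countP_filter]
  apply Multiset.countP_congr rfl
  intro e _
  simp only [touch, eq_iff_iff]
  tauto

lemma outdeg_filter_touch {V : Type*} [DecidableEq V] {G : Multiset (V × V)} {v : V} :
    outdeg G v = outdeg (G.filter (touch v)) v := by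
  rw [outdeg, outdeg, Multiset.countP_filter]
  apply Multiset.countP_congr rfl
  intro e _
  simp only [touch, eq_iff_iff]
  tauto

/-- Networks admit no further steps. -/
lemma IsNetwork.normal {H : Multiset (Vtx × Vtx)} {σ : Vtx} {A : Finset ℕ}
    (h : IsNetwork H σ A) : Normal H := by
  intro D hD
  rcases step_cases hD with ⟨u, v, w, hvu, hvw, hf, _⟩ | ⟨e, he, _⟩
  · have h1 : indeg H v = 1 := by
      rw [indeg_filter_touch, hf, Multiset.insert_eq_cons, ← Multiset.cons_zero (v, w),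
        indeg_cons, indeg_cons]
      simp only [if_true]
      rw [if_neg hvw.symm]
      simp [indeg]
    have h2 : outdeg H v = 1 := by
      rw [outdeg_filter_touch, hf, Multiset.insert_eq_cons, ← Multiset.cons_zero (v, w),
        outdeg_cons, outdeg_cons]
      simp only [if_true]
      rw [if_neg hvu.symm]
      simp [outdeg]
    have hv : IsVertex H v := isVertex_of_indeg (by omega)
    rcases v with x | k
    · have := (h.leaf x ((h.label_iff x).1 hv)).2
      omega
    · by_cases hσ : Sum.inr k = σ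
      · have := h.root.1
        rw [← hσ] at this
        omega
      · have := h.inner k hv hσ
        omega
  · have := Multiset.nodup_iff_count_le_one.1 h.simple e
    omega

lemma Step.outdeg_le {V : Type*} [DecidableEq V] {G H : Multiset (V × V)} (h : Step G H) (x : V) :
    outdeg H x ≤ outdeg G x := by
  cases h with
  | suppress u v w G₀ _ _ _ =>
    rw [outdeg_cons, outdeg_cons, outdeg_cons]
    simp only
    omega
  | parallel e G₀ =>
    rw [outdeg_cons, outdeg_cons, outdeg_cons]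
    omega

lemma steps_outdeg_le {V : Type*} [DecidableEq V] {G H : Multiset (V × V)}
    (h : ReflTransGen Step G H) (x : V) : outdeg H x ≤ outdeg G x := by
  induction h with
  | refl => rfl
  | tail _ h1 ih => exact (h1.outdeg_le x).trans ih

lemma steps_indeg_le {V : Type*} [DecidableEq V] {G H : Multiset (V × V)}
    (h : ReflTransGen Step G H) (x : V) : indeg H x ≤ indeg G x := by
  induction h with
  | refl => rfl
  | tail _ h1 ih => exact (h1.indeg_le x).trans ih

lemma isVertex_SD {S : Multiset (Vtx × Vtx)} {v : Vtx} :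
    (SD S).IsVertex v ↔ IsVertex S v := by
  constructor
  · rintro (⟨e, he, h⟩ | ⟨e, he, h⟩)
    · exact ⟨e, (mem_SD_dir.1 he).1, h⟩
    · obtain ⟨f, hf, _, rfl⟩ := mem_SD_und.1 he
      rw [Sym2.mem_iff] at h
      rcases h with rfl | rfl
      · exact ⟨f, hf, Or.inl rfl⟩
      · exact ⟨f, hf, Or.inr rfl⟩
  · rintro ⟨e, he, h⟩
    by_cases h2 : indeg S e.2 = 2
    · exact Or.inl ⟨e, mem_SD_dir.2 ⟨he, h2⟩, h⟩
    · refine Or.inr ⟨s(e.1, e.2), mem_SD_und.2 ⟨e, he, h2, rfl⟩, ?_⟩
      rw [Sym2.mem_iff]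
      rcases h with h | h
      · exact Or.inl h.symm
      · exact Or.inr h.symm

/-- The vertices of the topology are the vertices except the root. -/
lemma IsTopology.isVertex {H : Multiset (Vtx × Vtx)} {σ : Vtx} {A : Finset ℕ} {T : MixedGraph}
    (hT : IsTopology H σ T) (h : IsNetwork H σ A) {v : Vtx} :
    T.IsVertex v ↔ IsVertex H v ∧ v ≠ σ := by
  obtain ⟨hr, k, hk⟩ := h.rnet
  obtain ⟨S, hB, rfl⟩ := (isTopology_iff h).1 hT
  rw [isVertex_SD]
  rcases hB with ⟨z, hz, _⟩ | ⟨k', c, d, G₀, hk', rfl, hd, rfl⟩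
  · rw [hk] at hz
    simp at hz
  · obtain ⟨f1, f2, f3, f4⟩ := hr.root_facts hk
    rw [isVertex_cons, isVertex_cons, isVertex_cons]
    simp only
    constructor
    · rintro ((rfl | rfl) | h1)
      · exact ⟨Or.inr (Or.inl (Or.inr rfl)), f3⟩
      · exact ⟨Or.inl (Or.inr rfl), f2⟩
      · refine ⟨Or.inr (Or.inr h1), ?_⟩
        rintro rfl
        obtain ⟨e, he, h2⟩ := h1
        have := f1 e he
        tauto
    · rintro ⟨(h1 | h1) | (h1 | h1) | h1, h2⟩
      · exact absurd h1.symm h2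
      · exact Or.inl (Or.inr h1)
      · exact absurd h1.symm h2
      · exact Or.inl (Or.inl h1)
      · exact Or.inr h1

section Renaming

variable {f g : ℕ → ℕ}

lemma map_injective (hf : Function.Injective f) (hg : Function.Injective g) :
    Function.Injective (Sum.map f g : Vtx → Vtx) :=
  Sum.map_injective.2 ⟨hf, hg⟩

lemma isVertex_rn_inl (hf : Function.Injective f) (hg : Function.Injective g)
    {H : Multiset (Vtx × Vtx)} {y : ℕ} : IsVertex (rn (Sum.map f g) H) (Sum.inl y) ↔
      ∃ x, f x = y ∧ IsVertex H (Sum.inl x) := by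
  constructor
  · intro hy
    obtain ⟨v, hv, hvy⟩ := isVertex_rn hy
    rcases v with x | k
    · exact ⟨x, Sum.inl.inj hvy, hv⟩
    · simp at hvy
  · rintro ⟨x, rfl, hx⟩
    exact (isVertex_rn_iff (map_injective hf hg)).2 hx

lemma IsNetwork.rn (hf : Function.Injective f) (hg : Function.Injective g)
    {H : Multiset (Vtx × Vtx)} {σ : Vtx} {A : Finset ℕ} (h : IsNetwork H σ A) :
    IsNetwork (rn (Sum.map f g) H) (Sum.map f g σ) (A.image f) := by
  have hi := map_injective hf hg
  refine ⟨acyclic_rn hi h.acyclic, nodup_rn hi h.simple, ?_, ?_, ?_, ?_⟩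
  · rw [indeg_rn hi, outdeg_rn hi]
    exact h.root
  · intro y
    rw [isVertex_rn_inl hf hg, Finset.mem_image]
    constructor
    · rintro ⟨x, hx, hv⟩
      exact ⟨x, (h.label_iff x).1 hv, hx⟩
    · rintro ⟨x, hx, hy⟩
      exact ⟨x, hy, (h.label_iff x).2 hx⟩
  · intro y hy
    obtain ⟨x, hx, rfl⟩ := Finset.mem_image.1 hy
    have e : (Sum.inl (f x) : Vtx) = Sum.map f g (Sum.inl x) := rfl
    rw [e, indeg_rn hi, outdeg_rn hi]
    exact h.leaf x hx
  · intro j hj hjσ
    obtain ⟨v, hv, hvj⟩ := isVertex_rn hj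
    rcases v with x | k
    · simp at hvj
    · rw [← hvj, indeg_rn hi, outdeg_rn hi]
      apply h.inner k hv
      rintro rfl
      exact hjσ hvj.symm

lemma filter_indeg_rn {V W : Type*} [DecidableEq V] [DecidableEq W] {h : V → W}
    (hi : Function.Injective h) (H G₀ : Multiset (V × V)) (p : ℕ → Prop) [DecidablePred p] :
    (Pa53cac.rn h G₀).filter (fun e => p (indeg (Pa53cac.rn h H) e.2)) =
      Pa53cac.rn h (G₀.filter fun e => p (indeg H e.2)) := by
  have e0 : ∀ e : V × V, p (indeg (Pa53cac.rn h H) (h e.2)) ↔ p (indeg H e.2) := by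
    intro e
    rw [indeg_rn hi]
  conv_lhs => rw [show Pa53cac.rn h G₀ = G₀.map (Prod.map h h) from rfl]
  rw [Multiset.filter_map]
  congr 1
  apply Multiset.filter_congr
  intro e _
  exact e0 e

lemma IsTopology.rn {h : Vtx → Vtx} (hi : Function.Injective h)
    {H : Multiset (Vtx × Vtx)} {σ : Vtx} {T : MixedGraph} (hT : IsTopology H σ T) :
    IsTopology (rn h H) (h σ) (T.map h) := by
  obtain ⟨c, d, G₀, rfl, hcase⟩ := hT
  refine ⟨h c, h d, Pa53cac.rn h G₀, by rw [rn_cons, rn_cons], ?_⟩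
  have key : ∀ p : ℕ → Prop, ∀ [DecidablePred p],
      (Pa53cac.rn h G₀).filter (fun e => p (indeg (Pa53cac.rn h ((σ, c) ::ₘ (σ, d) ::ₘ G₀)) e.2)) =
      Pa53cac.rn h (G₀.filter fun e => p (indeg ((σ, c) ::ₘ (σ, d) ::ₘ G₀) e.2)) :=
    fun p _ => filter_indeg_rn hi _ _ p
  have e1 := key (fun n => n = 2)
  have e2 := key (fun n => n ≠ 2)
  have e3 : ∀ K : Multiset (Vtx × Vtx), (Pa53cac.rn h K).map (fun e => s(e.1, e.2)) =
      (K.map fun e => s(e.1, e.2)).map (Sym2.map h) := by
    intro K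
    rw [Pa53cac.rn, Multiset.map_map, Multiset.map_map]
    rfl
  rcases hcase with ⟨h1, h2, h3⟩ | ⟨h1, h2, h3, h4⟩
  · left
    refine ⟨by rw [indeg_rn hi]; exact h1, ?_, ?_⟩
    · rw [e1, MixedGraph.map, h2]
      simp [Pa53cac.rn, Prod.map]
    · rw [e2, e3, MixedGraph.map, h3]
  · right
    refine ⟨by rw [indeg_rn hi]; exact h1, by rw [indeg_rn hi]; exact h2, ?_, ?_⟩
    · rw [e1, MixedGraph.map, h3]
      rfl
    · rw [e2, e3, MixedGraph.map, h4]
      simp

lemma MixedGraph.map_congr {h h' : Vtx → Vtx} {T : MixedGraph}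
    (hc : ∀ v, T.IsVertex v → h v = h' v) : T.map h = T.map h' := by
  apply MixedGraph.ext'
  · apply Multiset.map_congr rfl
    intro e he
    simp only [Prod.map]
    rw [hc e.1 (Or.inl ⟨e, he, Or.inl rfl⟩), hc e.2 (Or.inl ⟨e, he, Or.inr rfl⟩)]
  · apply Multiset.map_congr rfl
    intro e he
    induction e using Sym2.ind with
    | _ a b =>
      rw [Sym2.map_mk, Sym2.map_mk, hc a (Or.inr ⟨_, he, Sym2.mem_mk_left a b⟩),
        hc b (Or.inr ⟨_, he, Sym2.mem_mk_right a b⟩)]

lemma MixedGraph.map_id' (T : MixedGraph) : T.map id = T := by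
  apply MixedGraph.ext'
  · simp [MixedGraph.map]
  · simp [MixedGraph.map]

lemma MixedGraph.map_map (h h' : Vtx → Vtx) (T : MixedGraph) :
    (T.map h).map h' = T.map (h' ∘ h) := by
  apply MixedGraph.ext'
  · simp only [MixedGraph.map, Multiset.map_map]
    rfl
  · simp only [MixedGraph.map, Multiset.map_map]
    apply Multiset.map_congr rfl
    intro e _
    simp only [Function.comp]
    rw [Sym2.map_map]
    rfl

lemma image_leafSet' {A : Finset ℕ} (hA : ∀ x ∈ A, f x = x) :
    (Sum.map f g : Vtx → Vtx) '' leafSet A = leafSet A := by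
  ext v
  constructor
  · rintro ⟨_, ⟨x, hx, rfl⟩, rfl⟩
    exact ⟨x, hx, by simp [hA x hx]⟩
  · rintro ⟨x, hx, rfl⟩
    exact ⟨Sum.inl x, ⟨x, hx, rfl⟩, by simp [hA x hx]⟩

end Renaming

/-- A notion of restriction result: `Res K A H σ` says that processing the cut `K` further results
in the network `H` with root `σ` and leaf set `A`. -/
structure IsRes (Res : Multiset (Vtx × Vtx) → Finset ℕ → Multiset (Vtx × Vtx) → Vtx → Prop) :
    Prop where
  net : ∀ {K A H σ}, Res K A H σ → IsNetwork H σ A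
  sub : ∀ {K A H σ v}, Res K A H σ → IsVertex H v → IsVertex K v
  inv : ∀ A T, Inv A {v | T.IsVertex v} (fun K => ∃ H σ, Res K A H σ ∧ IsTopology H σ T)
  ren : ∀ {K A H σ} {f g : ℕ → ℕ}, Function.Injective f → Function.Injective g →
    (∀ x ∈ A, f x = x) → Res K A H σ → Res (rn (Sum.map f g) K) A (rn (Sum.map f g) H)
      (Sum.map f g σ)

/-- The restriction process as in the problem. -/
def PlainRes (K : Multiset (Vtx × Vtx)) (A : Finset ℕ) (H : Multiset (Vtx × Vtx)) (σ : Vtx) :
    Prop :=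
  ReflTransGen Step K H ∧ IsNetwork H σ A

lemma image_eq_of_fix {A : Finset ℕ} {f : ℕ → ℕ} (hA : ∀ x ∈ A, f x = x) : A.image f = A := by
  ext x
  rw [Finset.mem_image]
  constructor
  · rintro ⟨y, hy, rfl⟩
    rw [hA y hy]
    exact hy
  · intro hx
    exact ⟨x, hx, hA x hx⟩

theorem plainRes_isRes : IsRes PlainRes := by
  have hren : ∀ {K A H σ} {f g : ℕ → ℕ}, Function.Injective f → Function.Injective g →
      (∀ x ∈ A, f x = x) → PlainRes K A H σ → PlainRes (rn (Sum.map f g) K) A
      (rn (Sum.map f g) H) (Sum.map f g σ) := by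
    rintro K A H σ f g hf hg hA ⟨h1, h2⟩
    refine ⟨steps_rn (map_injective hf hg) h1, ?_⟩
    have := h2.rn hf hg
    rw [image_eq_of_fix hA] at this
    exact this
  refine ⟨fun h => h.2, fun h hv => steps_isVertex h.1 hv,
    fun A T => ⟨?_, ?_, ?_, ?_, ?_⟩, hren⟩
  · intro K K' hK hs
    constructor
    · rintro ⟨H, σ, ⟨h1, h2⟩, h3⟩
      exact ⟨H, σ, ⟨steps_to_normal hK h1 h2.normal (.single hs), h2⟩, h3⟩
    · rintro ⟨H, σ, ⟨h1, h2⟩, h3⟩
      exact ⟨H, σ, ⟨.head hs h1, h2⟩, h3⟩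
  · rintro G z X a b hG hAX hz hab hb hbS ⟨H, σ, ⟨h1, h2⟩, h3⟩
    refine ⟨H, σ, ⟨?_, h2⟩, h3⟩
    apply deletion_cut hG.acyclic (leafSet_outdeg hG hAX hz) hab hb
      (hG.reach_erase hab hb) _ h1
    intro hbH
    apply hbS
    show T.IsVertex b
    rw [h3.isVertex h2]
    refine ⟨hbH, ?_⟩
    rintro rfl
    obtain ⟨k, rfl⟩ := leaf_ne_of_indeg_two hG hb
    have h4 := h2.root.2
    have h5 := steps_outdeg_le h1 (Sum.inr k)
    have h6 : outdeg (cut G (Sum.inl z) (leafSet A)) (Sum.inr k) ≤ outdeg G (Sum.inr k) :=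
      Multiset.countP_le_of_le _ (cut_le _ _ _)
    have h7 := hG.inner k (isVertex_of_indeg (by omega))
    omega
  · rintro ⟨H, σ, ⟨h1, h2⟩, _⟩
    have : outdeg H σ ≤ 0 := steps_outdeg_le h1 σ
    have := h2.root.2
    omega
  · rintro K b ⟨H, σ, ⟨h1, h2⟩, h3⟩ hb
    have hb' : T.IsVertex b := hb
    rw [h3.isVertex h2] at hb'
    obtain ⟨hr, _⟩ := h2.rnet
    exact (hr.indeg_pos hb'.1 hb'.2).trans_le (steps_indeg_le h1 b)
  · rintro K g hg hS ⟨H, σ, h1, h3⟩
    refine ⟨_, _, hren Function.injective_id hg (fun _ _ => rfl) h1, ?_⟩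
    have h4 := h3.rn (map_injective Function.injective_id hg)
    have h5 : T.map (Sum.map id g) = T := by
      conv_rhs => rw [← T.map_id']
      apply MixedGraph.map_congr
      rintro (x | k) hv
      · rfl
      · simp only [Sum.map_inr, id]
        rw [hS k hv]
    rw [h5] at h4
    exact h4

end Pool.Agent.Lib.Pa53cac
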