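import Mathlib

/-!
# `fun_prop` support for primitive recursive functions
-/

namespace Pool.Agent.Lib.Pa53cac.Prim

open Primrec

attribute [fun_prop] Primrec

variable {α β γ δ σ : Type*} [Primcodable α] [Primcodable β] [Primcodable γ] [Primcodable δ]
  [Primcodable σ]

@[fun_prop] theorem pr_id : Primrec (fun x : α => x) := Primrec.id
@[fun_prop] theorem pr_const (b : β) : Primrec (fun _ : α => b) := Primrec.const b
@[fun_prop] theorem pr_comp {f : β → γ} {g : α → β} (hf : Primrec f) (hg : Primrec g) :
    Primrec (fun x => f (g x)) := hf.comp hg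

@[fun_prop] theorem pr_fst {f : α → β × γ} (hf : Primrec f) : Primrec fun x => (f x).1 :=
  Primrec.fst.comp hf
@[fun_prop] theorem pr_snd {f : α → β × γ} (hf : Primrec f) : Primrec fun x => (f x).2 :=
  Primrec.snd.comp hf
@[fun_prop] theorem pr_mk {f : α → β} {g : α → γ} (hf : Primrec f) (hg : Primrec g) :
    Primrec fun x => (f x, g x) := hf.pair hg

@[fun_prop] theorem pr_inl {f : α → β} (hf : Primrec f) :
    Primrec fun x => (Sum.inl (f x) : β ⊕ γ) := Primrec.sumInl.comp hf
@[fun_prop] theorem pr_inr {f : α → γ} (hf : Primrec f) :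
    Primrec fun x => (Sum.inr (f x) : β ⊕ γ) := Primrec.sumInr.comp hf

/-- Case distinction. -/
def scase (s : β ⊕ γ) (g : β → σ) (h : γ → σ) : σ := Sum.casesOn s g h

@[fun_prop] theorem pr_scase {f : α → β ⊕ γ} {g : α → β → σ} {h : α → γ → σ} (hf : Primrec f)
    (hg : Primrec fun p : α × β => g p.1 p.2) (hh : Primrec fun p : α × γ => h p.1 p.2) :
    Primrec fun x => scase (f x) (g x) (h x) :=
  Primrec.sumCasesOn hf hg hh

@[fun_prop] theorem pr_add {f g : α → ℕ} (hf : Primrec f) (hg : Primrec g) :
    Primrec fun x => f x + g x := Primrec.nat_add.comp hf hg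
@[fun_prop] theorem pr_mul {f g : α → ℕ} (hf : Primrec f) (hg : Primrec g) :
    Primrec fun x => f x * g x := Primrec.nat_mul.comp hf hg

@[fun_prop] theorem pr_cons {f : α → β} {g : α → List β} (hf : Primrec f) (hg : Primrec g) :
    Primrec fun x => f x :: g x := Primrec.list_cons.comp hf hg
@[fun_prop] theorem pr_append {f g : α → List β} (hf : Primrec f) (hg : Primrec g) :
    Primrec fun x => f x ++ g x := Primrec.list_append.comp hf hg
@[fun_prop] theorem pr_map {f : α → List β} {g : α → β → γ} (hf : Primrec f)
    (hg : Primrec fun p : α × β => g p.1 p.2) : Primrec fun x => (f x).map (g x) :=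
  Primrec.list_map hf hg
@[fun_prop] theorem pr_flatMap {f : α → List β} {g : α → β → List γ} (hf : Primrec f)
    (hg : Primrec fun p : α × β => g p.1 p.2) : Primrec fun x => (f x).flatMap (g x) :=
  Primrec.list_flatMap hf hg
@[fun_prop] theorem pr_length {f : α → List β} (hf : Primrec f) :
    Primrec fun x => (f x).length := Primrec.list_length.comp hf
@[fun_prop] theorem pr_range {f : α → ℕ} (hf : Primrec f) :
    Primrec fun x => List.range (f x) := Primrec.list_range.comp hf

/-- Fold, with the accumulator second. -/
def foldl (l : List β) (b : σ) (g : σ → β → σ) : σ := l.foldl g b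

@[fun_prop] theorem pr_foldl {f : α → List β} {b : α → σ} {g : α → σ → β → σ} (hf : Primrec f)
    (hb : Primrec b) (hg : Primrec fun p : α × (σ × β) => g p.1 p.2.1 p.2.2) :
    Primrec fun x => foldl (f x) (b x) (g x) :=
  (Primrec.list_foldl (h := fun a p => g a p.1 p.2) hf hb hg).of_eq fun _ => rfl

/-- Fold from the right. -/
def foldr (l : List β) (b : σ) (g : β → σ → σ) : σ := l.foldr g b

@[fun_prop] theorem pr_foldr {f : α → List β} {b : α → σ} {g : α → β → σ → σ} (hf : Primrec f)
    (hb : Primrec b) (hg : Primrec fun p : α × (β × σ) => g p.1 p.2.1 p.2.2) :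
    Primrec fun x => foldr (f x) (b x) (g x) :=
  (Primrec.list_foldr (h := fun a p => g a p.1 p.2) hf hb hg).of_eq fun _ => rfl

/-- Iteration. -/
def iter (n : ℕ) (b : σ) (g : σ → σ) : σ := g^[n] b

@[fun_prop] theorem pr_iter {n : α → ℕ} {b : α → σ} {g : α → σ → σ} (hn : Primrec n)
    (hb : Primrec b) (hg : Primrec fun p : α × σ => g p.1 p.2) :
    Primrec fun x => iter (n x) (b x) (g x) :=
  Primrec.nat_iterate hn hb hg

/-- Boolean equality. -/
def beq [DecidableEq β] (a b : β) : Bool := decide (a = b)

@[simp] lemma beq_iff [DecidableEq β] {a b : β} : beq a b = true ↔ a = b := by simp [beq]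

@[fun_prop] theorem pr_beq [DecidableEq β] {f g : α → β} (hf : Primrec f) (hg : Primrec g) :
    Primrec fun x => beq (f x) (g x) :=
  (PrimrecRel.decide (Primrec.eq (α := β))).comp hf hg

/-- Boolean order. -/
def ble (a b : ℕ) : Bool := decide (a ≤ b)

@[simp] lemma ble_iff {a b : ℕ} : ble a b = true ↔ a ≤ b := by simp [ble]

@[fun_prop] theorem pr_ble {f g : α → ℕ} (hf : Primrec f) (hg : Primrec g) :
    Primrec fun x => ble (f x) (g x) :=
  (PrimrecRel.decide Primrec.nat_le).comp hf hg

@[fun_prop] theorem pr_and {f g : α → Bool} (hf : Primrec f) (hg : Primrec g) :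
    Primrec fun x => f x && g x := Primrec.and.comp hf hg
@[fun_prop] theorem pr_or {f g : α → Bool} (hf : Primrec f) (hg : Primrec g) :
    Primrec fun x => f x || g x := Primrec.or.comp hf hg
@[fun_prop] theorem pr_not {f : α → Bool} (hf : Primrec f) :
    Primrec fun x => !f x := Primrec.not.comp hf
@[fun_prop] theorem pr_cond {c : α → Bool} {f g : α → σ} (hc : Primrec c) (hf : Primrec f)
    (hg : Primrec g) : Primrec fun x => bif c x then f x else g x := Primrec.cond hc hf hg

/-- Bounded universal quantification. -/
def all (l : List β) (p : β → Bool) : Bool := foldr l true fun a b => p a && b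

@[simp] lemma all_iff {l : List β} {p : β → Bool} : all l p = true ↔ ∀ a ∈ l, p a = true := by
  induction l with
  | nil => simp [all, foldr]
  | cons a l ih =>
    simp only [all, foldr, List.foldr_cons, Bool.and_eq_true, List.mem_cons, forall_eq_or_imp]
      at ih ⊢
    rw [ih]

@[fun_prop] theorem pr_all {f : α → List β} {p : α → β → Bool} (hf : Primrec f)
    (hp : Primrec fun q : α × β => p q.1 q.2) : Primrec fun x => all (f x) (p x) := by
  unfold all
  fun_prop

/-- Bounded existential quantification. -/
def any (l : List β) (p : β → Bool) : Bool := foldr l false fun a b => p a || b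

@[simp] lemma any_iff {l : List β} {p : β → Bool} : any l p = true ↔ ∃ a ∈ l, p a = true := by
  induction l with
  | nil => simp [any, foldr]
  | cons a l ih =>
    simp only [any, foldr, List.foldr_cons, Bool.or_eq_true, List.mem_cons,
      exists_eq_or_imp] at ih ⊢
    rw [ih]

@[fun_prop] theorem pr_any {f : α → List β} {p : α → β → Bool} (hf : Primrec f)
    (hp : Primrec fun q : α × β => p q.1 q.2) : Primrec fun x => any (f x) (p x) := by
  unfold any
  fun_prop

/-- Filter. -/
def filt (l : List β) (p : β → Bool) : List β := l.flatMap fun a => bif p a then [a] else []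

lemma filt_eq {l : List β} {p : β → Bool} : filt l p = l.filter p := by
  induction l with
  | nil => rfl
  | cons a l ih =>
    rw [filt, List.flatMap_cons, ← filt, ih]
    cases h : p a
    · simp [h]
    · simp [h]

@[fun_prop] theorem pr_filt {f : α → List β} {p : α → β → Bool} (hf : Primrec f)
    (hp : Primrec fun q : α × β => p q.1 q.2) : Primrec fun x => filt (f x) (p x) := by
  unfold filt
  fun_prop

/-- Membership. -/
def memb [DecidableEq β] (a : β) (l : List β) : Bool := any l fun b => beq a b

@[simp] lemma memb_iff [DecidableEq β] {a : β} {l : List β} : memb a l = true ↔ a ∈ l := by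
  simp [memb]

@[fun_prop] theorem pr_memb [DecidableEq β] {f : α → β} {g : α → List β} (hf : Primrec f)
    (hg : Primrec g) : Primrec fun x => memb (f x) (g x) := by
  unfold memb
  fun_prop

/-- Number of elements with a property. -/
def cnt (l : List β) (p : β → Bool) : ℕ := (filt l p).length

@[fun_prop] theorem pr_cnt {f : α → List β} {p : α → β → Bool} (hf : Primrec f)
    (hp : Primrec fun q : α × β => p q.1 q.2) : Primrec fun x => cnt (f x) (p x) := by
  unfold cnt
  fun_prop

/-- Enough sublists. -/
def subs (l : List β) : List (List β) := foldr l [[]] fun a acc => acc ++ acc.map fun s => a :: s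

@[fun_prop] theorem pr_subs {f : α → List β} (hf : Primrec f) :
    Primrec fun x => subs (f x) := by
  unfold subs
  fun_prop

lemma filter_mem_subs (l : List β) (p : β → Bool) : l.filter p ∈ subs l := by
  induction l with
  | nil => simp [subs, foldr]
  | cons a l ih =>
    rw [subs, foldr, List.foldr_cons]
    have e : List.foldr (fun a acc => acc ++ acc.map fun s => a :: s) [[]] l = subs l := rfl
    rw [e, List.mem_append, List.mem_map]
    cases h : p a
    · left
      simpa [h] using ih
    · right
      exact ⟨_, ih, by simp [h]⟩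

/-- All ways of selecting one element. -/
def splits (l : List β) : List (β × List β) :=
  (foldr l ([], []) fun a (acc : List β × List (β × List β)) =>
    (a :: acc.1, (a, acc.1) :: acc.2.map fun p => (p.1, a :: p.2))).2

@[fun_prop] theorem pr_splits {f : α → List β} (hf : Primrec f) :
    Primrec fun x => splits (f x) := by
  unfold splits
  fun_prop

lemma splits_aux (l : List β) :
    (foldr l (([], []) : List β × List (β × List β)) fun a (acc : List β × List (β × List β)) =>
    (a :: acc.1, (a, acc.1) :: acc.2.map fun p => (p.1, a :: p.2))).1 = l := by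
  induction l with
  | nil => rfl
  | cons a l ih =>
    rw [foldr, List.foldr_cons]
    exact congrArg _ ih

lemma splits_cons (a : β) (l : List β) :
    splits (a :: l) = (a, l) :: (splits l).map fun p => (p.1, a :: p.2) := by
  rw [splits, foldr, List.foldr_cons]
  have := splits_aux l
  rw [foldr] at this
  simp only [this]
  rfl

lemma mem_splits {l : List β} {e : β} {r : List β} (h : (e, r) ∈ splits l) :
    ((l : List β) : Multiset β) = e ::ₘ (r : Multiset β) := by
  induction l generalizing e r with
  | nil => simp [splits, foldr] at h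
  | cons a l ih =>
    rw [splits_cons, List.mem_cons, List.mem_map] at h
    rcases h with h | ⟨⟨e', r'⟩, h1, h2⟩
    · obtain ⟨rfl, rfl⟩ := Prod.mk.inj h
      rfl
    · obtain ⟨rfl, rfl⟩ := Prod.mk.inj h2
      rw [← Multiset.cons_coe, ih h1, Multiset.cons_swap]
      rfl

lemma exists_splits {l : List β} {e : β} {R : Multiset β}
    (h : ((l : List β) : Multiset β) = e ::ₘ R) : ∃ r, (e, r) ∈ splits l ∧ (r : Multiset β) = R := by
  classical
  induction l generalizing e R with
  | nil =>
    exact absurd h (by simp)
  | cons a l ih =>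
    rw [splits_cons]
    by_cases hae : a = e
    · subst hae
      refine ⟨l, by simp, ?_⟩
      rw [← Multiset.cons_coe] at h
      exact (Multiset.cons_inj_right _).1 h
    · rw [← Multiset.cons_coe, Multiset.cons_eq_cons] at h
      rcases h with ⟨h1, _⟩ | ⟨_, cs, h1, h2⟩
      · exact absurd h1 hae
      · obtain ⟨r, hr, rfl⟩ := ih h1
        refine ⟨a :: r, ?_, ?_⟩
        · rw [List.mem_cons, List.mem_map]
          exact Or.inr ⟨_, hr, rfl⟩
        · rw [h2]
          rfl

/-- All lists of length at most `n` with entries in `l`. -/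
def lists (n : ℕ) (l : List β) : List (List β) :=
  iter n [[]] fun acc => [] :: acc.flatMap fun s => l.map fun a => a :: s

@[fun_prop] theorem pr_lists {f : α → ℕ} {g : α → List β} (hf : Primrec f) (hg : Primrec g) :
    Primrec fun x => lists (f x) (g x) := by
  unfold lists
  fun_prop

lemma mem_lists {n : ℕ} {l s : List β} (hn : s.length ≤ n) (hs : ∀ a ∈ s, a ∈ l) :
    s ∈ lists n l := by
  induction n generalizing s with
  | zero =>
    have : s = [] := List.length_eq_zero_iff.1 (by omega)
    simp [lists, iter, this]
  | succ n ih =>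
    rw [lists, iter, Function.iterate_succ_apply']
    have e : (fun acc : List (List β) => [] :: acc.flatMap fun s => l.map fun a => a :: s)^[n]
      [[]] = lists n l := rfl
    rw [e]
    rcases s with _ | ⟨a, s⟩
    · simp
    · rw [List.mem_cons, List.mem_flatMap]
      right
      refine ⟨s, ih ?_ ?_, ?_⟩
      · simpa using hn
      · exact fun b hb => hs b (List.mem_cons_of_mem _ hb)
      · rw [List.mem_map]
        exact ⟨a, hs a (by simp), rfl⟩

/-- Test for being a permutation. -/
def perm [DecidableEq β] (l l' : List β) : Bool :=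
  all (l ++ l') fun a => beq (cnt l fun b => beq a b) (cnt l' fun b => beq a b)

@[fun_prop] theorem pr_perm [DecidableEq β] {f g : α → List β} (hf : Primrec f)
    (hg : Primrec g) : Primrec fun x => perm (f x) (g x) := by
  unfold perm
  fun_prop

lemma cnt_eq [DecidableEq β] (l : List β) (a : β) :
    cnt l (fun b => beq a b) = (l : Multiset β).count a := by
  rw [cnt, filt_eq, Multiset.coe_count, List.count_eq_countP, List.countP_eq_length_filter]
  congr 1
  apply List.filter_congr
  intro b _
  simp only [beq]
  by_cases h : a = b
  · simp [h]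
  · simp [h, Ne.symm h]

lemma perm_iff [DecidableEq β] {l l' : List β} :
    perm l l' = true ↔ (l : Multiset β) = (l' : Multiset β) := by
  rw [perm, all_iff]
  simp only [beq_iff, cnt_eq]
  constructor
  · intro h
    ext a
    by_cases ha : a ∈ l ++ l'
    · exact h a ha
    · rw [List.mem_append, not_or] at ha
      rw [Multiset.count_eq_zero_of_notMem, Multiset.count_eq_zero_of_notMem]
      · simpa using ha.2
      · simpa using ha.1
  · intro h a _
    rw [h]

end Pool.Agent.Lib.Pa53cac.Prim
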