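import Pool.Agent.Lib.Pa53cac.Bounded
import Pool.Agent.Lib.Pa53cac.Prim

/-!
# The decision procedure
-/

namespace Pool.Agent.Lib.Pa53cac

open Relation Prim

/-- Arcs. -/
abbrev Arc := Vtx × Vtx

section Reach

/-- The vertices. -/
def verts (G : List Arc) : List Vtx := G.map (fun e => e.1) ++ G.map (fun e => e.2)

lemma mem_verts {G : List Arc} {v : Vtx} : v ∈ verts G ↔ IsVertex (G : Multiset Arc) v := by
  simp only [verts, List.mem_append, List.mem_map, IsVertex, Multiset.mem_coe]
  constructor
  · rintro (⟨e, h1, h2⟩ | ⟨e, h1, h2⟩)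
    · exact ⟨e, h1, Or.inl h2⟩
    · exact ⟨e, h1, Or.inr h2⟩
  · rintro ⟨e, h1, h2 | h2⟩
    · exact Or.inl ⟨e, h1, h2⟩
    · exact Or.inr ⟨e, h1, h2⟩

@[fun_prop] lemma pr_verts {α : Type*} [Primcodable α] {f : α → List Arc} (hf : Primrec f) :
    Primrec fun x => verts (f x) := by
  unfold verts
  fun_prop

/-- Reachability. -/
def reachB (G : List Arc) (a b : Vtx) : Bool :=
  all (subs (a :: verts G)) fun C =>
    !(memb a C && all G fun e => !memb e.1 C || memb e.2 C) || memb b C

@[fun_prop] lemma pr_reachB {α : Type*} [Primcodable α] {f : α → List Arc} {g h : α → Vtx}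
    (hf : Primrec f) (hg : Primrec g) (hh : Primrec h) :
    Primrec fun x => reachB (f x) (g x) (h x) := by
  unfold reachB
  fun_prop

lemma reachB_iff {G : List Arc} {a b : Vtx} :
    reachB G a b = true ↔ Reach (G : Multiset Arc) a b := by
  classical
  simp only [reachB, all_iff, Bool.or_eq_true, Bool.not_eq_true', Bool.and_eq_false_iff,
    memb_iff]
  constructor
  · intro h
    have h1 := h _ (filter_mem_subs (a :: verts G) fun v => decide (Reach (G : Multiset Arc) a v))
    rcases h1 with (h1 | h1) | h1
    · exfalso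
      rw [← Bool.not_eq_true, memb_iff, List.mem_filter] at h1
      exact h1 ⟨by simp, by simpa using (ReflTransGen.refl : Reach (G : Multiset Arc) a a)⟩
    · exfalso
      rw [← Bool.not_eq_true, all_iff] at h1
      apply h1
      intro e he
      rw [Bool.or_eq_true, Bool.not_eq_true', ← Bool.not_eq_true, memb_iff, memb_iff,
        List.mem_filter, List.mem_filter]
      by_cases hr : Reach (G : Multiset Arc) a e.1
      · right
        refine ⟨?_, ?_⟩
        · exact List.mem_cons_of_mem _ (mem_verts.2 ⟨e, he, Or.inr rfl⟩)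
        · rw [decide_eq_true_iff]
          exact hr.tail he
      · left
        intro h2
        exact hr (by simpa using h2.2)
    · rw [List.mem_filter] at h1
      simpa using h1.2
  · intro hr C _
    by_cases hC : memb a C = true ∧ all G (fun e => !memb e.1 C || memb e.2 C) = true
    · right
      obtain ⟨h1, h2⟩ := hC
      rw [memb_iff] at h1
      rw [all_iff] at h2
      induction hr with
      | refl => exact h1
      | @tail b c _ hbc ih =>
        have h3 := h2 (b, c) hbc
        rw [Bool.or_eq_true, Bool.not_eq_true', ← Bool.not_eq_true, memb_iff, memb_iff] at h3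
        tauto
    · left
      rw [not_and_or, Bool.not_eq_true, Bool.not_eq_true] at hC
      exact hC

/-- Strict reachability. -/
def sreachB (G : List Arc) (a b : Vtx) : Bool := any G fun e => beq e.1 a && reachB G e.2 b

@[fun_prop] lemma pr_sreachB {α : Type*} [Primcodable α] {f : α → List Arc} {g h : α → Vtx}
    (hf : Primrec f) (hg : Primrec g) (hh : Primrec h) :
    Primrec fun x => sreachB (f x) (g x) (h x) := by
  unfold sreachB
  fun_prop

lemma sreachB_iff {G : List Arc} {a b : Vtx} :
    sreachB G a b = true ↔ SReach (G : Multiset Arc) a b := by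
  simp only [sreachB, any_iff, Bool.and_eq_true, beq_iff, reachB_iff]
  constructor
  · rintro ⟨⟨x, y⟩, he, rfl, h⟩
    exact TransGen.head' he h
  · intro h
    obtain ⟨c, h1, h2⟩ := TransGen.head'_iff.1 h
    exact ⟨(a, c), h1, rfl, h2⟩

/-- Reachability avoiding a vertex. -/
def avB (G : List Arc) (s a b : Vtx) : Bool := !beq a s && reachB (filt G fun e => !beq e.2 s) a b

@[fun_prop] lemma pr_avB {α : Type*} [Primcodable α] {f : α → List Arc} {k g h : α → Vtx}
    (hf : Primrec f) (hk : Primrec k) (hg : Primrec g) (hh : Primrec h) :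
    Primrec fun x => avB (f x) (k x) (g x) (h x) := by
  unfold avB
  fun_prop

lemma avB_iff {G : List Arc} {s a b : Vtx} :
    avB G s a b = true ↔ Av (G : Multiset Arc) s a b := by
  rw [avB, Bool.and_eq_true, Bool.not_eq_true', ← Bool.not_eq_true, beq_iff, reachB_iff, Av,
    Reach]
  have : (Adj ((filt G fun e => !beq e.2 s : List Arc) : Multiset Arc)) =
      fun p q => Adj (G : Multiset Arc) p q ∧ q ≠ s := by
    funext p q
    rw [filt_eq]
    simp only [Adj, Multiset.mem_coe, List.mem_filter, Bool.not_eq_true', eq_iff_iff]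
    rw [← Bool.not_eq_true, beq_iff]
  rw [this]

/-- Lying on all paths. -/
def onAllB (G : List Arc) (ρ : Vtx) (T : List Vtx) (s : Vtx) : Bool := all T fun t => !avB G s ρ t

@[fun_prop] lemma pr_onAllB {α : Type*} [Primcodable α] {f : α → List Arc} {k h : α → Vtx}
    {g : α → List Vtx} (hf : Primrec f) (hk : Primrec k) (hg : Primrec g) (hh : Primrec h) :
    Primrec fun x => onAllB (f x) (k x) (g x) (h x) := by
  unfold onAllB
  fun_prop

lemma onAllB_iff {G : List Arc} {ρ s : Vtx} {T : List Vtx} :
    onAllB G ρ T s = true ↔ OnAllPaths (G : Multiset Arc) ρ {v | v ∈ T} s := by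
  rw [onAllPaths_iff, onAllB, all_iff]
  simp only [Bool.not_eq_true', Set.mem_ofPred_eq]
  constructor
  · intro h t ht h1
    have := h t ht
    rw [← Bool.not_eq_true, avB_iff] at this
    exact this h1
  · intro h t ht
    rw [← Bool.not_eq_true, avB_iff]
    exact h t ht

/-- Belonging to the cut. -/
def inCutB (G : List Arc) (ρ : Vtx) (T : List Vtx) (e : Arc) : Bool :=
  (reachB G ρ e.1 && any T fun t => reachB G e.2 t) &&
    !any (verts G) fun s => onAllB G ρ T s && sreachB G e.1 s

@[fun_prop] lemma pr_inCutB {α : Type*} [Primcodable α] {f : α → List Arc} {k : α → Vtx}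
    {g : α → List Vtx} {h : α → Arc} (hf : Primrec f) (hk : Primrec k) (hg : Primrec g)
    (hh : Primrec h) : Primrec fun x => inCutB (f x) (k x) (g x) (h x) := by
  unfold inCutB
  fun_prop

lemma inCutB_iff {G : List Arc} {ρ : Vtx} {T : List Vtx} {e : Arc} :
    inCutB G ρ T e = true ↔ InCut (G : Multiset Arc) ρ {v | v ∈ T} e := by
  rw [inCutB, InCut, Bool.and_eq_true, Bool.and_eq_true, Bool.not_eq_true', ← Bool.not_eq_true,
    reachB_iff, any_iff, any_iff]
  simp only [reachB_iff, Bool.and_eq_true, onAllB_iff, sreachB_iff, Set.mem_ofPred_eq]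
  refine and_congr_right fun _ => not_congr ?_
  constructor
  · rintro ⟨s, _, h⟩
    exact ⟨s, h⟩
  · rintro ⟨s, h1, h2⟩
    refine ⟨s, ?_, h1, h2⟩
    obtain ⟨c, _, h3⟩ := TransGen.tail'_iff.1 h2
    exact mem_verts.2 ⟨_, h3, Or.inr rfl⟩

/-- The cut. -/
def cutB (G : List Arc) (ρ : Vtx) (T : List Vtx) : List Arc := filt G (inCutB G ρ T)

@[fun_prop] lemma pr_cutB {α : Type*} [Primcodable α] {f : α → List Arc} {k : α → Vtx}
    {g : α → List Vtx} (hf : Primrec f) (hk : Primrec k) (hg : Primrec g) :
    Primrec fun x => cutB (f x) (k x) (g x) := by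
  unfold cutB
  fun_prop

lemma coe_cutB {G : List Arc} {ρ : Vtx} {T : List Vtx} :
    ((cutB G ρ T : List Arc) : Multiset Arc) = cut (G : Multiset Arc) ρ {v | v ∈ T} := by
  classical
  rw [cut_eq_filter, cutB, filt_eq, Multiset.filter_coe]
  congr 1
  apply List.filter_congr
  intro e _
  rw [Bool.eq_iff_iff, inCutB_iff, decide_eq_true_iff]

end Reach

section Steps

/-- All results of one step. -/
def reducts (l : List Arc) : List (List Arc) :=
  (splits l).flatMap fun p => (splits p.2).flatMap fun q =>
    (bif beq p.1 q.1 then [p.1 :: q.2] else []) ++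
    (bif beq p.1.2 q.1.1 && (!beq p.1.2 p.1.1 && (!beq p.1.2 q.1.2 &&
      all q.2 (fun e => !beq e.1 p.1.2 && !beq e.2 p.1.2))) then [(p.1.1, q.1.2) :: q.2] else [])

@[fun_prop] lemma pr_reducts {α : Type*} [Primcodable α] {f : α → List Arc} (hf : Primrec f) :
    Primrec fun x => reducts (f x) := by
  unfold reducts
  fun_prop

lemma mem_reducts {l l' : List Arc} (h : l' ∈ reducts l) :
    Step (l : Multiset Arc) (l' : Multiset Arc) := by
  rw [reducts, List.mem_flatMap] at h
  obtain ⟨⟨e, r⟩, h1, h2⟩ := h
  rw [List.mem_flatMap] at h2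
  obtain ⟨⟨f, s⟩, h3, h4⟩ := h2
  have e1 := mem_splits h1
  have e2 := mem_splits h3
  simp only at h4 e2
  rw [List.mem_append] at h4
  rcases h4 with h4 | h4
  · cases hb : beq e f
    · rw [hb] at h4
      simp at h4
    · rw [hb] at h4
      rw [beq_iff] at hb
      subst hb
      simp only [cond_true, List.mem_singleton] at h4
      subst h4
      rw [e1, e2]
      exact Step.parallel _ _
  · cases hb : (beq e.2 f.1 && (!beq e.2 e.1 && (!beq e.2 f.2 &&
      all s (fun g => !beq g.1 e.2 && !beq g.2 e.2))))
    · rw [hb] at h4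
      simp at h4
    · rw [hb] at h4
      simp only [cond_true, List.mem_singleton] at h4
      subst h4
      simp only [Bool.and_eq_true, Bool.not_eq_true', ← Bool.not_eq_true, beq_iff, all_iff] at hb
      obtain ⟨h5, h6, h7, h8⟩ := hb
      rw [e1, e2]
      obtain ⟨e1', e2'⟩ := e
      obtain ⟨f1', f2'⟩ := f
      simp only at h5 h6 h7 h8
      subst h5
      exact Step.suppress _ _ _ _ h6 h7 h8

lemma exists_reducts {l : List Arc} {H : Multiset Arc} (h : Step (l : Multiset Arc) H) :
    ∃ l' ∈ reducts l, (l' : Multiset Arc) = H := by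
  generalize hl : (l : Multiset Arc) = L at h
  cases h with
  | suppress u v w G₀ hvu hvw h₀ =>
    obtain ⟨r, hr1, hr2⟩ := exists_splits hl
    obtain ⟨s, hs1, hs2⟩ := exists_splits hr2
    refine ⟨(u, w) :: s, ?_, ?_⟩
    · rw [reducts, List.mem_flatMap]
      refine ⟨_, hr1, ?_⟩
      rw [List.mem_flatMap]
      refine ⟨_, hs1, ?_⟩
      rw [List.mem_append]
      right
      have : (beq (u, v).2 (v, w).1 && (!beq (u, v).2 (u, v).1 && (!beq (u, v).2 (v, w).2 &&
          all s (fun g => !beq g.1 (u, v).2 && !beq g.2 (u, v).2)))) = true := by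
        simp only [Bool.and_eq_true, Bool.not_eq_true', ← Bool.not_eq_true, beq_iff, all_iff]
        refine ⟨trivial, hvu, hvw, ?_⟩
        intro e he
        apply h₀
        rw [← hs2]
        exact he
      simp only at this ⊢
      rw [this]
      simp
    · rw [← hs2]
      rfl
  | parallel e G₀ =>
    obtain ⟨r, hr1, hr2⟩ := exists_splits hl
    obtain ⟨s, hs1, hs2⟩ := exists_splits hr2
    refine ⟨e :: s, ?_, ?_⟩
    · rw [reducts, List.mem_flatMap]
      refine ⟨_, hr1, ?_⟩
      rw [List.mem_flatMap]
      refine ⟨_, hs1, ?_⟩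
      rw [List.mem_append]
      left
      simp [beq]
    · rw [← hs2]
      rfl

/-- All results of at most `n` steps. -/
def redN (n : ℕ) (l : List Arc) : List (List Arc) :=
  iter n [l] fun acc => acc ++ acc.flatMap fun s => reducts s

@[fun_prop] lemma pr_redN {α : Type*} [Primcodable α] {n : α → ℕ} {f : α → List Arc}
    (hn : Primrec n) (hf : Primrec f) :
    Primrec fun x => redN (n x) (f x) := by
  unfold redN
  fun_prop

lemma redN_succ (n : ℕ) (l : List Arc) :
    redN (n + 1) l = redN n l ++ (redN n l).flatMap fun s => reducts s := by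
  rw [redN, iter, Function.iterate_succ_apply']
  rfl

lemma mem_redN {n : ℕ} {l l' : List Arc} (h : l' ∈ redN n l) :
    ReflTransGen Step (l : Multiset Arc) (l' : Multiset Arc) := by
  induction n generalizing l' with
  | zero =>
    simp only [redN, iter, Function.iterate_zero, id, List.mem_singleton] at h
    rw [h]
  | succ n ih =>
    rw [redN_succ, List.mem_append, List.mem_flatMap] at h
    rcases h with h | ⟨s, h1, h2⟩
    · exact ih h
    · exact (ih h1).tail (mem_reducts h2)

lemma exists_redN {l : List Arc} {H : Multiset Arc}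
    (h : ReflTransGen Step (l : Multiset Arc) H) :
    ∃ n, n + H.card ≤ l.length ∧ ∃ l' ∈ redN n l, (l' : Multiset Arc) = H := by
  induction h with
  | refl => exact ⟨0, by simp, l, by simp [redN, iter], rfl⟩
  | tail _ h2 ih =>
    obtain ⟨n, hn, l', hl', rfl⟩ := ih
    obtain ⟨l'', h3, rfl⟩ := exists_reducts h2
    have := h2.card_lt
    refine ⟨n + 1, by omega, l'', ?_, rfl⟩
    rw [redN_succ, List.mem_append, List.mem_flatMap]
    exact Or.inr ⟨_, hl', h3⟩

lemma redN_mono {n m : ℕ} (hnm : n ≤ m) {l l' : List Arc} (h : l' ∈ redN n l) :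
    l' ∈ redN m l := by
  induction hnm with
  | refl => exact h
  | step _ ih =>
    rw [redN_succ, List.mem_append]
    exact Or.inl ih

/-- All reducts. -/
def redAll (l : List Arc) : List (List Arc) := redN l.length l

@[fun_prop] lemma pr_redAll {α : Type*} [Primcodable α] {f : α → List Arc} (hf : Primrec f) :
    Primrec fun x => redAll (f x) := by
  unfold redAll
  fun_prop

lemma redAll_iff {l : List Arc} {H : Multiset Arc} :
    ReflTransGen Step (l : Multiset Arc) H ↔ ∃ l' ∈ redAll l, (l' : Multiset Arc) = H := by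
  constructor
  · intro h
    obtain ⟨n, hn, l', h1, h2⟩ := exists_redN h
    exact ⟨l', redN_mono (by omega) h1, h2⟩
  · rintro ⟨l', h1, rfl⟩
    exact mem_redN h1

end Steps

section Network

/-- In-degree. -/
def indegB (G : List Arc) (v : Vtx) : ℕ := cnt G fun e => beq e.2 v

/-- Out-degree. -/
def outdegB (G : List Arc) (v : Vtx) : ℕ := cnt G fun e => beq e.1 v

@[fun_prop] lemma pr_indegB {α : Type*} [Primcodable α] {f : α → List Arc} {g : α → Vtx}
    (hf : Primrec f) (hg : Primrec g) : Primrec fun x => indegB (f x) (g x) := by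
  unfold indegB
  fun_prop

@[fun_prop] lemma pr_outdegB {α : Type*} [Primcodable α] {f : α → List Arc} {g : α → Vtx}
    (hf : Primrec f) (hg : Primrec g) : Primrec fun x => outdegB (f x) (g x) := by
  unfold outdegB
  fun_prop

lemma cnt_countP {l : List Arc} {p : Arc → Bool} {q : Arc → Prop} [DecidablePred q]
    (h : ∀ e, p e = true ↔ q e) : cnt l p = (l : Multiset Arc).countP q := by
  rw [cnt, filt_eq, Multiset.coe_countP, List.countP_eq_length_filter]
  congr 1
  apply List.filter_congr
  intro e _
  rw [Bool.eq_iff_iff, h, decide_eq_true_iff]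

lemma indegB_eq {G : List Arc} {v : Vtx} : indegB G v = indeg (G : Multiset Arc) v :=
  cnt_countP fun _ => beq_iff

lemma outdegB_eq {G : List Arc} {v : Vtx} : outdegB G v = outdeg (G : Multiset Arc) v :=
  cnt_countP fun _ => beq_iff

/-- Being a network. -/
def netB (l : List Arc) (ρ : Vtx) : Bool :=
  all (verts l) (fun v => !sreachB l v v) && (all l (fun e => beq (cnt l fun f => beq e f) 1) &&
    (beq (indegB l ρ) 0 && (beq (outdegB l ρ) 2 && all (verts l) fun v =>
      scase v (fun _ => beq (indegB l v) 1 && beq (outdegB l v) 0)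
        (fun _ => beq v ρ || ((beq (indegB l v) 1 && beq (outdegB l v) 2) ||
          (beq (indegB l v) 2 && beq (outdegB l v) 1))))))

@[fun_prop] lemma pr_netB {α : Type*} [Primcodable α] {f : α → List Arc} {g : α → Vtx}
    (hf : Primrec f) (hg : Primrec g) : Primrec fun x => netB (f x) (g x) := by
  unfold netB
  fun_prop

/-- The labels. -/
def labB (G : List Arc) : List ℕ := (verts G).flatMap fun v => scase v (fun x => [x]) fun _ => []

@[fun_prop] lemma pr_labB {α : Type*} [Primcodable α] {f : α → List Arc} (hf : Primrec f) :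
    Primrec fun x => labB (f x) := by
  unfold labB
  fun_prop

lemma mem_labB {G : List Arc} {x : ℕ} : x ∈ labB G ↔ IsVertex (G : Multiset Arc) (Sum.inl x) := by
  rw [labB, List.mem_flatMap, ← mem_verts]
  constructor
  · rintro ⟨v, hv, h⟩
    rcases v with y | k
    · simp only [scase, List.mem_singleton] at h
      rw [h]
      exact hv
    · simp [scase] at h
  · intro h
    exact ⟨_, h, by simp [scase]⟩

lemma netB_iff {l : List Arc} {ρ : Vtx} : netB l ρ = true ↔
    IsNetwork (l : Multiset Arc) ρ (labB l).toFinset := by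
  simp only [netB, Bool.and_eq_true, all_iff, Bool.not_eq_true', ← Bool.not_eq_true,
    sreachB_iff, beq_iff, indegB_eq, outdegB_eq, cnt_eq]
  constructor
  · rintro ⟨h1, h2, h3, h4, h5⟩
    refine ⟨?_, ?_, ⟨h3, h4⟩, ?_, ?_, ?_⟩
    · intro v hv
      obtain ⟨c, hc, _⟩ := TransGen.head'_iff.1 hv
      exact h1 v (mem_verts.2 ⟨_, hc, Or.inl rfl⟩) hv
    · rw [Multiset.nodup_iff_count_le_one]
      intro e
      by_cases he : e ∈ l
      · rw [h2 e he]
      · rw [Multiset.count_eq_zero_of_notMem (by simpa using he)]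
        omega
    · intro x
      rw [List.mem_toFinset, mem_labB]
    · intro x hx
      rw [List.mem_toFinset, mem_labB, ← mem_verts] at hx
      have := h5 _ hx
      simpa [scase] using this
    · intro k hk hkρ
      rw [← mem_verts] at hk
      have := h5 _ hk
      simp only [scase, Bool.or_eq_true, Bool.and_eq_true, beq_iff] at this
      tauto
  · intro h
    refine ⟨fun v _ => h.acyclic v, ?_, h.root.1, h.root.2, ?_⟩
    · intro e he
      have h1 := Multiset.nodup_iff_count_le_one.1 h.simple e
      have h2 : 0 < (l : Multiset Arc).count e := Multiset.count_pos.2 (by simpa using he)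
      omega
    · intro v hv
      rcases v with x | k
      · have h1 := h.leaf x (by
          rw [List.mem_toFinset, mem_labB, ← mem_verts]
          exact hv)
        simpa [scase] using h1
      · simp only [scase, Bool.or_eq_true, Bool.and_eq_true, beq_iff]
        by_cases hk : Sum.inr k = ρ
        · exact Or.inl hk
        · exact Or.inr (h.inner k (mem_verts.1 hv) hk)

lemma IsNetwork.leafset_eq {l : List Arc} {ρ : Vtx} {X : Finset ℕ}
    (h : IsNetwork (l : Multiset Arc) ρ X) : X = (labB l).toFinset := by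
  ext x
  rw [← h.label_iff x, List.mem_toFinset, mem_labB]

end Network

section Topology

/-- All topologies (as pairs of lists). -/
def tops (l : List Arc) (ρ : Vtx) : List (List Arc × List Arc) :=
  (splits l).flatMap fun p => (splits p.2).flatMap fun q =>
    bif beq p.1.1 ρ && beq q.1.1 ρ then
      (bif beq (indegB l p.1.2) 2 then
        [((q.1.2, p.1.2) :: filt q.2 (fun e => beq (indegB l e.2) 2),
          filt q.2 (fun e => !beq (indegB l e.2) 2))] else []) ++
      (bif !beq (indegB l p.1.2) 2 && !beq (indegB l q.1.2) 2 then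
        [(filt q.2 (fun e => beq (indegB l e.2) 2),
          (p.1.2, q.1.2) :: filt q.2 (fun e => !beq (indegB l e.2) 2))] else [])
    else []

@[fun_prop] lemma pr_tops {α : Type*} [Primcodable α] {f : α → List Arc} {g : α → Vtx}
    (hf : Primrec f) (hg : Primrec g) : Primrec fun x => tops (f x) (g x) := by
  unfold tops
  fun_prop

lemma coe_filt {l : List Arc} {p : Arc → Bool} {q : Arc → Prop} [DecidablePred q]
    (h : ∀ e, p e = true ↔ q e) : ((filt l p : List Arc) : Multiset Arc) =
      (l : Multiset Arc).filter q := by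
  rw [filt_eq, Multiset.filter_coe]
  congr 1
  apply List.filter_congr
  intro e _
  rw [Bool.eq_iff_iff, h, decide_eq_true_iff]

lemma coe_map_sym {l : List Arc} : ((l.map fun e => s(e.1, e.2) : List (Sym2 Vtx)) :
    Multiset (Sym2 Vtx)) = (l : Multiset Arc).map fun e => s(e.1, e.2) := by
  rw [Multiset.map_coe]

lemma tops_iff {l : List Arc} {ρ : Vtx} {M : MixedGraph} :
    IsTopology (l : Multiset Arc) ρ M ↔ ∃ p ∈ tops l ρ, toMG p = M := by
  have e2 : ∀ r : List Arc, ((filt r (fun e => beq (indegB l e.2) 2) : List Arc) :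
      Multiset Arc) = (r : Multiset Arc).filter (fun e => indeg (l : Multiset Arc) e.2 = 2) :=
    fun r => coe_filt (fun e => by rw [beq_iff, indegB_eq])
  have e3 : ∀ r : List Arc, ((filt r (fun e => !beq (indegB l e.2) 2) : List Arc) :
      Multiset Arc) = (r : Multiset Arc).filter (fun e => indeg (l : Multiset Arc) e.2 ≠ 2) :=
    fun r => coe_filt (fun e => by
      rw [Bool.not_eq_true', ← Bool.not_eq_true, beq_iff, indegB_eq])
  constructor
  · rintro ⟨c, d, G₀, hl, h⟩
    obtain ⟨r, hr1, hr2⟩ := exists_splits hl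
    obtain ⟨s, hs1, hs2⟩ := exists_splits hr2
    have key : ∀ p ∈ ((bif beq (indegB l c) 2 then
        [((d, c) :: filt s (fun e => beq (indegB l e.2) 2),
          filt s (fun e => !beq (indegB l e.2) 2))] else []) ++
        (bif !beq (indegB l c) 2 && !beq (indegB l d) 2 then
        [(filt s (fun e => beq (indegB l e.2) 2),
          (c, d) :: filt s (fun e => !beq (indegB l e.2) 2))] else [])), p ∈ tops l ρ := by
      intro p hp
      rw [tops, List.mem_flatMap]
      refine ⟨_, hr1, ?_⟩
      rw [List.mem_flatMap]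
      refine ⟨_, hs1, ?_⟩
      simp only
      have : (beq ρ ρ && beq ρ ρ) = true := by simp [beq]
      rw [this]
      exact hp
    rcases h with ⟨h1, h2, h3⟩ | ⟨h1, h1', h2, h3⟩
    · refine ⟨_, key ((d, c) :: filt s (fun e => beq (indegB l e.2) 2),
          filt s (fun e => !beq (indegB l e.2) 2)) ?_, ?_⟩
      · rw [List.mem_append]
        left
        rw [indegB_eq, h1]
        simp [beq]
      · apply MixedGraph.ext'
        · rw [h2, ← hs2, ← e2]
          rfl
        · rw [h3, ← hs2, ← e3]
          rfl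
    · refine ⟨_, key (filt s (fun e => beq (indegB l e.2) 2),
          (c, d) :: filt s (fun e => !beq (indegB l e.2) 2)) ?_, ?_⟩
      · rw [List.mem_append]
        right
        rw [indegB_eq, indegB_eq]
        simp [beq, h1, h1']
      · apply MixedGraph.ext'
        · rw [h2, ← hs2, ← e2]
          rfl
        · rw [h3, ← hs2, ← e3]
          rfl
  · rintro ⟨⟨p1, p2⟩, hp, rfl⟩
    rw [tops, List.mem_flatMap] at hp
    obtain ⟨⟨⟨a, c⟩, r⟩, h1, h2⟩ := hp
    rw [List.mem_flatMap] at h2
    obtain ⟨⟨⟨a', d⟩, s⟩, h3, h4⟩ := h2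
    have f1 := mem_splits h1
    have f2 := mem_splits h3
    simp only at h4 f2
    cases hb : (beq a ρ && beq a' ρ)
    · rw [hb] at h4
      simp at h4
    rw [hb] at h4
    rw [Bool.and_eq_true, beq_iff, beq_iff] at hb
    obtain ⟨rfl, rfl⟩ := hb
    rw [cond_true, List.mem_append] at h4
    refine ⟨c, d, s, by rw [f1, f2], ?_⟩
    rcases h4 with h4 | h4
    · left
      cases hb : beq (indegB l c) 2
      · rw [hb] at h4
        simp at h4
      rw [hb] at h4
      rw [beq_iff, indegB_eq] at hb
      simp only [cond_true, List.mem_singleton, Prod.mk.injEq] at h4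
      obtain ⟨rfl, rfl⟩ := h4
      refine ⟨hb, ?_, ?_⟩
      · rw [← e2]
        rfl
      · rw [← e3]
        rfl
    · right
      cases hb : (!beq (indegB l c) 2 && !beq (indegB l d) 2)
      · rw [hb] at h4
        simp at h4
      rw [hb] at h4
      rw [Bool.and_eq_true, Bool.not_eq_true', Bool.not_eq_true', ← Bool.not_eq_true,
        ← Bool.not_eq_true, beq_iff, beq_iff, indegB_eq, indegB_eq] at hb
      simp only [cond_true, List.mem_singleton, Prod.mk.injEq] at h4
      obtain ⟨rfl, rfl⟩ := h4
      refine ⟨hb.1, hb.2, ?_, ?_⟩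
      · rw [← e2]
        rfl
      · rw [← e3]
        rfl

/-- Equality of undirected edges. -/
def symEq (a b : Arc) : Bool := beq a b || beq a (b.2, b.1)

@[fun_prop] lemma pr_symEq {α : Type*} [Primcodable α] {f g : α → Arc}
    (hf : Primrec f) (hg : Primrec g) : Primrec fun x => symEq (f x) (g x) := by
  unfold symEq
  fun_prop

lemma symEq_iff {a b : Arc} : symEq a b = true ↔ s(a.1, a.2) = s(b.1, b.2) := by
  obtain ⟨a1, a2⟩ := a
  obtain ⟨b1, b2⟩ := b
  simp only [symEq, Bool.or_eq_true, beq_iff, Prod.mk.injEq]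
  rw [Sym2.eq_iff]

/-- Equality of mixed graphs. -/
def eqMG (p q : List Arc × List Arc) : Bool :=
  perm p.1 q.1 && all (p.2 ++ q.2) fun a => beq (cnt p.2 fun b => symEq a b)
    (cnt q.2 fun b => symEq a b)

@[fun_prop] lemma pr_eqMG {α : Type*} [Primcodable α] {f g : α → List Arc × List Arc}
    (hf : Primrec f) (hg : Primrec g) : Primrec fun x => eqMG (f x) (g x) := by
  unfold eqMG
  fun_prop

lemma cnt_sym (l : List Arc) (a : Arc) : cnt l (fun b => symEq a b) =
    (((l.map fun e => s(e.1, e.2) : List (Sym2 Vtx)) : Multiset (Sym2 Vtx))).count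
      s(a.1, a.2) := by
  rw [coe_map_sym, Multiset.count_map, cnt, filt_eq, Multiset.filter_coe, Multiset.coe_card]
  congr 1
  apply List.filter_congr
  intro e _
  rw [Bool.eq_iff_iff, symEq_iff, decide_eq_true_iff]

lemma eqMG_iff {p q : List Arc × List Arc} : eqMG p q = true ↔ toMG p = toMG q := by
  obtain ⟨p1, p2⟩ := p
  obtain ⟨q1, q2⟩ := q
  rw [eqMG, Bool.and_eq_true, perm_iff, all_iff]
  simp only [beq_iff, cnt_sym]
  constructor
  · rintro ⟨h1, h2⟩
    apply MixedGraph.ext'
    · exact h1
    · simp only [toMG]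
      ext a
      by_cases ha : ∃ e ∈ p2 ++ q2, s(e.1, e.2) = a
      · obtain ⟨e, he, rfl⟩ := ha
        exact h2 e he
      · rw [Multiset.count_eq_zero_of_notMem, Multiset.count_eq_zero_of_notMem]
        · rw [Multiset.mem_coe, List.mem_map]
          rintro ⟨e, he, h3⟩
          exact ha ⟨e, List.mem_append_right _ he, h3⟩
        · rw [Multiset.mem_coe, List.mem_map]
          rintro ⟨e, he, h3⟩
          exact ha ⟨e, List.mem_append_left _ he, h3⟩
  · intro h
    simp only [toMG, MixedGraph.mk.injEq] at h
    obtain ⟨h1, h2⟩ := h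
    exact ⟨h1, fun a _ => by rw [h2]⟩

end Topology

end Pool.Agent.Lib.Pa53cac
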