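import Pool.Agent.Lib.Pa53cac.LeafNet2

/-!
# Renaming vertices
-/

namespace Pool.Agent.Lib.Pa53cac

open Relation

variable {V W : Type*}

/-- Rename the vertices of a multigraph. -/
def rn (h : V → W) (G : Multiset (V × V)) : Multiset (W × W) := G.map (Prod.map h h)

@[simp] lemma rn_cons (h : V → W) (e : V × V) (G : Multiset (V × V)) :
    rn h (e ::ₘ G) = (h e.1, h e.2) ::ₘ rn h G := by
  simp [rn, Prod.map]

@[simp] lemma rn_zero (h : V → W) : rn h 0 = 0 := rfl

lemma rn_card (h : V → W) (G : Multiset (V × V)) : (rn h G).card = G.card := by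
  simp [rn]

lemma mem_rn {h : V → W} {G : Multiset (V × V)} {e : W × W} :
    e ∈ rn h G ↔ ∃ f ∈ G, (h f.1, h f.2) = e := by
  simp [rn, Multiset.mem_map, Prod.map]

lemma rn_mem {h : V → W} {G : Multiset (V × V)} {e : V × V} (he : e ∈ G) :
    (h e.1, h e.2) ∈ rn h G := mem_rn.2 ⟨e, he, rfl⟩

lemma rn_mem_iff {h : V → W} (hh : Function.Injective h) {G : Multiset (V × V)} {a b : V} :
    (h a, h b) ∈ rn h G ↔ (a, b) ∈ G := by
  rw [mem_rn]
  constructor
  · rintro ⟨⟨c, d⟩, hf, h1⟩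
    obtain ⟨h2, h3⟩ := Prod.mk.inj h1
    rw [← hh h2, ← hh h3]
    exact hf
  · intro hf
    exact ⟨_, hf, rfl⟩

section

variable {h : V → W} (hh : Function.Injective h) {G : Multiset (V × V)}

include hh

lemma reach_rn {a : V} {w : W} : Reach (rn h G) (h a) w ↔ ∃ b, w = h b ∧ Reach G a b := by
  constructor
  · intro hr
    induction hr with
    | refl => exact ⟨a, rfl, .refl⟩
    | @tail b c _ hbc ih =>
      obtain ⟨b', rfl, hr'⟩ := ih
      obtain ⟨⟨x, y⟩, hf, h1⟩ := mem_rn.1 hbc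
      obtain ⟨h2, h3⟩ := Prod.mk.inj h1
      have h4 := hh h2
      simp only at h4 h3
      subst h4
      exact ⟨y, h3.symm, hr'.tail hf⟩
  · rintro ⟨b, rfl, hr⟩
    induction hr with
    | refl => exact .refl
    | @tail b c _ hbc ih => exact ih.tail (rn_mem hbc)

lemma reach_rn_iff {a b : V} : Reach (rn h G) (h a) (h b) ↔ Reach G a b := by
  rw [reach_rn hh]
  constructor
  · rintro ⟨c, h1, h2⟩
    rw [hh h1]
    exact h2
  · intro h1
    exact ⟨b, rfl, h1⟩

lemma sreach_rn_iff {a b : V} : SReach (rn h G) (h a) (h b) ↔ SReach G a b := by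
  constructor
  · intro hr
    obtain ⟨c, h1, h2⟩ := TransGen.head'_iff.1 hr
    obtain ⟨⟨x, y⟩, hf, h3⟩ := mem_rn.1 h1
    obtain ⟨h4, h5⟩ := Prod.mk.inj h3
    have h6 := hh h4
    simp only at h6 h5
    subst h6 h5
    exact TransGen.head' hf ((reach_rn_iff hh).1 h2)
  · intro hr
    obtain ⟨c, h1, h2⟩ := TransGen.head'_iff.1 hr
    exact TransGen.head' (rn_mem h1) ((reach_rn_iff hh).2 h2)

lemma av_rn_iff {s a b : V} : Av (rn h G) (h s) (h a) (h b) ↔ Av G s a b := by
  constructor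
  · rintro ⟨h1, h2⟩
    refine ⟨fun h3 => h1 (by rw [h3]), ?_⟩
    have key : ∀ w, ReflTransGen (fun p q => Adj (rn h G) p q ∧ q ≠ h s) (h a) w →
        ∃ b, w = h b ∧ ReflTransGen (fun p q => Adj G p q ∧ q ≠ s) a b := by
      intro w hw
      induction hw with
      | refl => exact ⟨a, rfl, .refl⟩
      | @tail b c _ hbc ih =>
        obtain ⟨b', rfl, hr'⟩ := ih
        obtain ⟨⟨x, y⟩, hf, h1⟩ := mem_rn.1 hbc.1
        obtain ⟨h2, h3⟩ := Prod.mk.inj h1
        have h4 := hh h2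
        simp only at h4 h3
        subst h4
        refine ⟨y, h3.symm, hr'.tail ⟨hf, ?_⟩⟩
        rintro rfl
        exact hbc.2 h3.symm
    obtain ⟨b', h3, h4⟩ := key _ h2
    rw [hh h3]
    exact h4
  · rintro ⟨h1, h2⟩
    refine ⟨fun h3 => h1 (hh h3), ?_⟩
    induction h2 with
    | refl => exact .refl
    | @tail b c _ hbc ih =>
      exact ih.tail ⟨rn_mem hbc.1, fun h3 => hbc.2 (hh h3)⟩

lemma onAllPaths_rn_iff {ρ s : V} {T : Set V} :
    OnAllPaths (rn h G) (h ρ) (h '' T) (h s) ↔ OnAllPaths G ρ T s := by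
  rw [onAllPaths_iff, onAllPaths_iff]
  constructor
  · intro h1 t ht hav
    exact h1 (h t) ⟨t, ht, rfl⟩ ((av_rn_iff hh).2 hav)
  · rintro h1 _ ⟨t, ht, rfl⟩ hav
    exact h1 t ht ((av_rn_iff hh).1 hav)

lemma inCut_rn_iff {ρ : V} {T : Set V} {e : V × V} :
    InCut (rn h G) (h ρ) (h '' T) (h e.1, h e.2) ↔ InCut G ρ T e := by
  unfold InCut
  simp only [reach_rn_iff hh]
  have h1 : (∃ t ∈ h '' T, Reach (rn h G) (h e.2) t) ↔ ∃ t ∈ T, Reach G e.2 t := by
    constructor
    · rintro ⟨_, ⟨t, ht, rfl⟩, h2⟩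
      exact ⟨t, ht, (reach_rn_iff hh).1 h2⟩
    · rintro ⟨t, ht, h2⟩
      exact ⟨h t, ⟨t, ht, rfl⟩, (reach_rn_iff hh).2 h2⟩
  have h2 : (∃ s, OnAllPaths (rn h G) (h ρ) (h '' T) s ∧ SReach (rn h G) (h e.1) s) ↔
      ∃ s, OnAllPaths G ρ T s ∧ SReach G e.1 s := by
    constructor
    · rintro ⟨s, h3, h4⟩
      obtain ⟨s', rfl, _⟩ := (reach_rn hh).1 h4.to_reflTransGen
      exact ⟨s', (onAllPaths_rn_iff hh).1 h3, (sreach_rn_iff hh).1 h4⟩
    · rintro ⟨s, h3, h4⟩
      exact ⟨h s, (onAllPaths_rn_iff hh).2 h3, (sreach_rn_iff hh).2 h4⟩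
  rw [h1, h2]

/-- Cutting commutes with renaming. -/
lemma cut_rn (ρ : V) (T : Set V) : cut (rn h G) (h ρ) (h '' T) = rn h (cut G ρ T) := by
  classical
  rw [cut_eq_filter, cut_eq_filter, rn, rn, Multiset.filter_map]
  congr 1
  apply Multiset.filter_congr
  intro e _
  exact inCut_rn_iff hh

lemma step_rn {H : Multiset (V × V)} (hs : Step G H) : Step (rn h G) (rn h H) := by
  cases hs with
  | suppress u v w G₀ hvu hvw h₀ =>
    simp only [rn_cons]
    refine Step.suppress _ _ _ _ (fun h1 => hvu (hh h1)) (fun h1 => hvw (hh h1)) ?_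
    intro e he
    obtain ⟨f, hf, rfl⟩ := mem_rn.1 he
    exact ⟨fun h1 => (h₀ f hf).1 (hh h1), fun h1 => (h₀ f hf).2 (hh h1)⟩
  | parallel e G₀ =>
    simp only [rn_cons]
    exact Step.parallel _ _

lemma steps_rn {H : Multiset (V × V)} (hs : ReflTransGen Step G H) :
    ReflTransGen Step (rn h G) (rn h H) := by
  induction hs with
  | refl => exact .refl
  | tail _ h1 ih => exact ih.tail (step_rn hh h1)

lemma acyclic_rn (hG : Acyclic G) : Acyclic (rn h G) := by
  intro w hw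
  obtain ⟨c, h1, _⟩ := TransGen.head'_iff.1 hw
  obtain ⟨f, _, h2⟩ := mem_rn.1 h1
  obtain ⟨h3, _⟩ := Prod.mk.inj h2
  subst h3
  exact hG _ ((sreach_rn_iff hh).1 hw)

lemma nodup_rn (hG : G.Nodup) : (rn h G).Nodup :=
  hG.map (fun a b h1 => by
    obtain ⟨h2, h3⟩ := Prod.mk.inj h1
    exact Prod.ext (hh h2) (hh h3))

lemma isVertex_rn_iff {v : V} : IsVertex (rn h G) (h v) ↔ IsVertex G v := by
  constructor
  · rintro ⟨e, he, h1⟩
    obtain ⟨f, hf, rfl⟩ := mem_rn.1 he
    rcases h1 with h1 | h1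
    · exact ⟨f, hf, Or.inl (hh h1)⟩
    · exact ⟨f, hf, Or.inr (hh h1)⟩
  · rintro ⟨e, he, h1⟩
    refine ⟨_, rn_mem he, ?_⟩
    rcases h1 with rfl | rfl
    · exact Or.inl rfl
    · exact Or.inr rfl

lemma indeg_rn [DecidableEq V] [DecidableEq W] (v : V) : indeg (rn h G) (h v) = indeg G v := by
  rw [indeg, indeg, rn, Multiset.countP_map, Multiset.countP_eq_card_filter]
  congr 1
  apply Multiset.filter_congr
  intro e _
  exact ⟨fun h1 => hh h1, fun h1 => congrArg h h1⟩

lemma outdeg_rn [DecidableEq V] [DecidableEq W] (v : V) : outdeg (rn h G) (h v) = outdeg G v := by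
  rw [outdeg, outdeg, rn, Multiset.countP_map, Multiset.countP_eq_card_filter]
  congr 1
  apply Multiset.filter_congr
  intro e _
  exact ⟨fun h1 => hh h1, fun h1 => congrArg h h1⟩

end

lemma isVertex_rn {h : V → W} {G : Multiset (V × V)} {w : W} (hw : IsVertex (rn h G) w) :
    ∃ v, IsVertex G v ∧ h v = w := by
  obtain ⟨e, he, h1⟩ := hw
  obtain ⟨f, hf, rfl⟩ := mem_rn.1 he
  rcases h1 with h1 | h1
  · exact ⟨f.1, ⟨f, hf, Or.inl rfl⟩, h1⟩
  · exact ⟨f.2, ⟨f, hf, Or.inr rfl⟩, h1⟩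

lemma rn_congr {h h' : V → W} {G : Multiset (V × V)}
    (hc : ∀ v, IsVertex G v → h v = h' v) : rn h G = rn h' G := by
  apply Multiset.map_congr rfl
  intro e he
  simp only [Prod.map]
  rw [hc e.1 ⟨e, he, Or.inl rfl⟩, hc e.2 ⟨e, he, Or.inr rfl⟩]

lemma rn_rn {U : Type*} (h : V → W) (h' : W → U) (G : Multiset (V × V)) :
    rn h' (rn h G) = rn (h' ∘ h) G := by
  rw [rn, rn, rn, Multiset.map_map]
  rfl

lemma rn_id (G : Multiset (V × V)) : rn id G = G := by
  simp [rn]

/-- Normality is preserved by renaming. -/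
lemma normal_rn [DecidableEq V] [DecidableEq W] {h : V → W} (hh : Function.Injective h)
    {G : Multiset (V × V)} (hG : Normal G) : Normal (rn h G) := by
  intro D hD
  rcases step_cases hD with ⟨u, v, w, hvu, hvw, hf, _⟩ | ⟨e, he, _⟩
  · obtain ⟨m1, m2, _⟩ := mem_of_touch_eq hf
    obtain ⟨⟨u', v'⟩, m1', h1⟩ := mem_rn.1 m1
    obtain ⟨⟨v'', w'⟩, m2', h2⟩ := mem_rn.1 m2
    obtain ⟨rfl, rfl⟩ := Prod.mk.inj h1
    obtain ⟨h3, rfl⟩ := Prod.mk.inj h2
    have h4 := hh h3
    simp only at h4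
    subst h4
    simp only at hf hvu hvw
    refine hG _ (step_suppress (G := G) (u := u') (v := v'') (w := w')
      (fun h' => hvu (by rw [h'])) (fun h' => hvw (by rw [h'])) ?_)
    have inj2 : Function.Injective (Prod.map h h) := hh.prodMap hh
    apply Multiset.map_injective inj2
    have e1 : ((G.filter (touch v'')).map (Prod.map h h)) = (rn h G).filter (touch (h v'')) := by
      rw [rn, Multiset.filter_map]
      congr 1
      apply Multiset.filter_congr
      intro e _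
      simp only [touch, Function.comp, Prod.map]
      constructor
      · rintro (h5 | h5)
        · exact Or.inl (by rw [h5])
        · exact Or.inr (by rw [h5])
      · rintro (h5 | h5)
        · exact Or.inl (hh h5)
        · exact Or.inr (hh h5)
    rw [e1, hf]
    simp [Prod.map]
  · have hmem : e ∈ rn h G := Multiset.count_pos.1 (by omega)
    obtain ⟨f, _, rfl⟩ := mem_rn.1 hmem
    have inj2 : Function.Injective (Prod.map h h) := hh.prodMap hh
    have : (rn h G).count (h f.1, h f.2) = G.count f :=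
      Multiset.count_map_eq_count' (Prod.map h h) G inj2 f
    rw [this] at he
    exact hG _ (step_parallel he)

end Pool.Agent.Lib.Pa53cac
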