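import Pool.Agent.Lib.Pa53cac.Root

/-!
# From networks with unlabelled roots to leaf-rooted networks, and back
-/

namespace Pool.Agent.Lib.Pa53cac

open Relation

variable {G G₀ S : Multiset (Vtx × Vtx)} {ρ : Vtx} {X : Finset ℕ}

lemma Base.isVertex {v : Vtx} (hB : Base G ρ S) (hv : IsVertex S v) : IsVertex G v := by
  rcases hB with ⟨z, _, rfl⟩ | ⟨k, c, d, G₀, _, rfl, _, rfl⟩
  · exact hv
  · rw [isVertex_cons] at hv
    rw [isVertex_cons, isVertex_cons]
    simp only at hv ⊢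
    tauto

/-- Structure of a network at its unlabelled root. -/
lemma RNet.root_facts {c d : Vtx} (h : RNet ((ρ, c) ::ₘ (ρ, d) ::ₘ G₀) ρ X) {k : ℕ}
    (hρ : ρ = Sum.inr k) :
    (∀ e ∈ G₀, e.1 ≠ ρ ∧ e.2 ≠ ρ) ∧ c ≠ ρ ∧ d ≠ ρ ∧ c ≠ d := by
  have h1 : outdeg ((ρ, c) ::ₘ (ρ, d) ::ₘ G₀) ρ = 2 := by
    rcases h.root_out with ⟨z, _, hz, _⟩ | ⟨_, _, h1⟩
    · rw [hρ] at hz
      simp at hz
    · exact h1
  have h2 := h.root_in
  rw [outdeg_cons, outdeg_cons] at h1
  rw [indeg_cons, indeg_cons] at h2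
  simp only [if_true] at h1
  have hc : c ≠ ρ := by
    intro h'
    rw [if_pos h'] at h2
    omega
  have hd : d ≠ ρ := by
    intro h'
    rw [if_pos h'] at h2
    omega
  rw [if_neg hc, if_neg hd] at h2
  refine ⟨fun e he => ⟨outdeg_eq_zero.1 (by omega) e he, indeg_eq_zero.1 (by omega) e he⟩,
    hc, hd, ?_⟩
  rintro rfl
  have := h.simple
  rw [Multiset.nodup_cons] at this
  exact this.1 (Multiset.mem_cons_self _ _)

/-- Insertion of a leaf commutes with suppressing the root. -/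
lemma base_ins {u v y : Vtx} {z m : ℕ} (hr : RNet G ρ X) (hB : Base G ρ S) (huv : (u, v) ∈ S)
    (hym : y = Sum.inr m) (hy : ¬ IsVertex G y) (hz : z ∉ X) :
    ∃ u', (u', v) ∈ G ∧ Base (ins (G.erase (u', v)) u' v y z) ρ
      (ins (S.erase (u, v)) u v y z) := by
  rcases hB with ⟨w, hw, rfl⟩ | ⟨k, c, d, G₀, hk, rfl, hd, rfl⟩
  · exact ⟨u, huv, Or.inl ⟨w, hw, rfl⟩⟩
  · obtain ⟨f1, f2, f3, f4⟩ := hr.root_facts hk
    rw [not_isVertex_iff] at hy
    have hyd : y ≠ d := fun h' => (hy (ρ, d) (by simp)).2 h'.symm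
    have hzv : ¬ IsVertex ((ρ, c) ::ₘ (ρ, d) ::ₘ G₀) (Sum.inl z) :=
      fun h' => hz ((hr.label_iff z).1 h')
    rw [not_isVertex_iff] at hzv
    have hzd : Sum.inl z ≠ d := fun h' => (hzv (ρ, d) (by simp)).2 h'.symm
    by_cases huv' : (u, v) = (d, c)
    · obtain ⟨rfl, rfl⟩ := Prod.mk.inj huv'
      refine ⟨ρ, by simp, Or.inr ⟨k, y, u, (y, v) ::ₘ (y, Sum.inl z) ::ₘ G₀, hk, ?_, ?_, ?_⟩⟩
      · rw [Pa53cac.ins, Multiset.erase_cons_head, Multiset.cons_swap (y, Sum.inl z),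
          Multiset.cons_swap (y, v)]
      · rw [Pa53cac.ins, Multiset.erase_cons_head]
        simp only [indeg_cons] at hd ⊢
        rw [if_neg hyd, if_neg hzd]
        omega
      · rw [Pa53cac.ins, Multiset.erase_cons_head]
    · have huv0 : (u, v) ∈ G₀ := by
        rcases Multiset.mem_cons.1 huv with h1 | h1
        · exact absurd h1 huv'
        · exact h1
      obtain ⟨G₁, rfl⟩ := Multiset.exists_cons_of_mem huv0
      have e1 : ((ρ, c) ::ₘ (ρ, d) ::ₘ (u, v) ::ₘ G₁).erase (u, v) =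
          (ρ, c) ::ₘ (ρ, d) ::ₘ G₁ := by
        rw [Multiset.cons_swap (ρ, d), Multiset.cons_swap (ρ, c), Multiset.erase_cons_head]
      have e2 : ((d, c) ::ₘ (u, v) ::ₘ G₁).erase (u, v) = (d, c) ::ₘ G₁ := by
        rw [Multiset.cons_swap, Multiset.erase_cons_head]
      refine ⟨u, by simp, Or.inr ⟨k, c, d, (u, y) ::ₘ (y, v) ::ₘ (y, Sum.inl z) ::ₘ G₁, hk,
        ?_, ?_, ?_⟩⟩
      · rw [Pa53cac.ins, e1]
        simp only [← Multiset.singleton_add]
        abel
      · rw [Pa53cac.ins, e1]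
        simp only [indeg_cons] at hd ⊢
        rw [if_neg hyd, if_neg hzd]
        omega
      · rw [Pa53cac.ins, e2]
        simp only [← Multiset.singleton_add]
        abel

/-- The leaf-rooted network obtained from a network with unlabelled root by attaching a leaf at
the root. -/
lemma rnet_attach {c d y : Vtx} {z m k : ℕ} (h : RNet ((ρ, c) ::ₘ (ρ, d) ::ₘ G₀) ρ X)
    (hρ : ρ = Sum.inr k) (hym : y = Sum.inr m)
    (hy : ¬ IsVertex ((ρ, c) ::ₘ (ρ, d) ::ₘ G₀) y) (hz : z ∉ X) :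
    RNet ((Sum.inl z, y) ::ₘ (y, c) ::ₘ (y, d) ::ₘ G₀) (Sum.inl z) (insert z X) := by
  have hzv : ¬ IsVertex ((ρ, c) ::ₘ (ρ, d) ::ₘ G₀) (Sum.inl z) :=
    fun h' => hz ((h.label_iff z).1 h')
  obtain ⟨f1, f2, f3, f4⟩ := h.root_facts hρ
  rw [not_isVertex_iff] at hy hzv
  have hyρ : ρ ≠ y := (hy (ρ, c) (by simp)).1
  have hyc : c ≠ y := (hy (ρ, c) (by simp)).2
  have hyd : d ≠ y := (hy (ρ, d) (by simp)).2
  have hzρ : ρ ≠ Sum.inl z := (hzv (ρ, c) (by simp)).1
  have hzc : c ≠ Sum.inl z := (hzv (ρ, c) (by simp)).2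
  have hzd : d ≠ Sum.inl z := (hzv (ρ, d) (by simp)).2
  have hy0 : ∀ e ∈ G₀, e.1 ≠ y ∧ e.2 ≠ y := fun e he =>
    hy e (Multiset.mem_cons_of_mem (Multiset.mem_cons_of_mem he))
  have hz0 : ∀ e ∈ G₀, e.1 ≠ Sum.inl z ∧ e.2 ≠ Sum.inl z := fun e he =>
    hzv e (Multiset.mem_cons_of_mem (Multiset.mem_cons_of_mem he))
  have hynl : ∀ x, y ≠ Sum.inl x := by
    intro x h'
    rw [hym] at h'
    simp at h'
  have hρnl : ∀ x, ρ ≠ Sum.inl x := by
    intro x h'
    rw [hρ] at h'
    simp at h'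
  have hin : ∀ w, indeg ((Sum.inl z, y) ::ₘ (y, c) ::ₘ (y, d) ::ₘ G₀) w = indeg G₀ w +
      (if d = w then 1 else 0) + (if c = w then 1 else 0) + (if y = w then 1 else 0) := by
    intro w
    rw [indeg_cons, indeg_cons, indeg_cons]
  have hout : ∀ w, outdeg ((Sum.inl z, y) ::ₘ (y, c) ::ₘ (y, d) ::ₘ G₀) w = outdeg G₀ w +
      (if y = w then 1 else 0) + (if y = w then 1 else 0) +
      (if Sum.inl z = w then 1 else 0) := by
    intro w
    rw [outdeg_cons, outdeg_cons, outdeg_cons]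
  have hin' : ∀ w, indeg ((ρ, c) ::ₘ (ρ, d) ::ₘ G₀) w = indeg G₀ w +
      (if d = w then 1 else 0) + (if c = w then 1 else 0) := fun w => by
    rw [indeg_cons, indeg_cons]
  have hout' : ∀ w, outdeg ((ρ, c) ::ₘ (ρ, d) ::ₘ G₀) w = outdeg G₀ w +
      (if ρ = w then 1 else 0) + (if ρ = w then 1 else 0) := fun w => by
    rw [outdeg_cons, outdeg_cons]
  have hy1 : indeg G₀ y = 0 ∧ outdeg G₀ y = 0 :=
    ⟨indeg_eq_zero.2 fun e he => (hy0 e he).2, outdeg_eq_zero.2 fun e he => (hy0 e he).1⟩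
  have hz1 : indeg G₀ (Sum.inl z) = 0 ∧ outdeg G₀ (Sum.inl z) = 0 :=
    ⟨indeg_eq_zero.2 fun e he => (hz0 e he).2, outdeg_eq_zero.2 fun e he => (hz0 e he).1⟩
  have hρ1 : indeg G₀ ρ = 0 ∧ outdeg G₀ ρ = 0 :=
    ⟨indeg_eq_zero.2 fun e he => (f1 e he).2, outdeg_eq_zero.2 fun e he => (f1 e he).1⟩
  refine ⟨?_, ?_, ?_, ?_, ?_, ?_, ?_⟩
  · -- acyclicity
    have hac0 : Acyclic G₀ := h.acyclic.mono fun e he =>
      Multiset.mem_cons_of_mem (Multiset.mem_cons_of_mem he)
    have hK : ∀ e ∈ (y, c) ::ₘ (y, d) ::ₘ G₀, e.2 ≠ y ∧ e.2 ≠ Sum.inl z := by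
      intro e he
      rcases Multiset.mem_cons.1 he with rfl | he
      · exact ⟨hyc, hzc⟩
      rcases Multiset.mem_cons.1 he with rfl | he
      · exact ⟨hyd, hzd⟩
      · exact ⟨(hy0 e he).2, (hz0 e he).2⟩
    have key : ∀ a b, SReach ((Sum.inl z, y) ::ₘ (y, c) ::ₘ (y, d) ::ₘ G₀) a b →
        a ≠ y → a ≠ Sum.inl z → SReach G₀ a b := by
      intro a b hab ha1 ha2
      induction hab using TransGen.head_induction_on with
      | single h1 =>
        rcases Multiset.mem_cons.1 h1 with h2 | h2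
        · exact absurd (Prod.mk.inj h2).1 ha2
        rcases Multiset.mem_cons.1 h2 with h2 | h2
        · exact absurd (Prod.mk.inj h2).1 ha1
        rcases Multiset.mem_cons.1 h2 with h2 | h2
        · exact absurd (Prod.mk.inj h2).1 ha1
        · exact .single h2
      | head h1 _ ih =>
        rcases Multiset.mem_cons.1 h1 with h2 | h2
        · exact absurd (Prod.mk.inj h2).1 ha2
        rcases Multiset.mem_cons.1 h2 with h2 | h2
        · exact absurd (Prod.mk.inj h2).1 ha1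
        rcases Multiset.mem_cons.1 h2 with h2 | h2
        · exact absurd (Prod.mk.inj h2).1 ha1
        · exact TransGen.head h2 (ih (hy0 _ h2).2 (hz0 _ h2).2)
    intro v hv
    by_cases hvy : v = y
    · subst hvy
      obtain ⟨w, hw, hw2⟩ := TransGen.tail'_iff.1 hv
      rcases Multiset.mem_cons.1 hw2 with h2 | h2
      · -- last arc is `(z, y)`
        have hwz : w = Sum.inl z := (Prod.mk.inj h2).1
        subst hwz
        rcases ReflTransGen.cases_tail hw with h3 | ⟨w', _, h3⟩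
        · exact absurd h3.symm (hynl z)
        · rcases Multiset.mem_cons.1 h3 with h4 | h4
          · exact absurd (Prod.mk.inj h4).2.symm (hynl z)
          · exact absurd rfl (hK _ h4).2
      · exact absurd rfl (hK _ h2).1
    by_cases hvz : v = Sum.inl z
    · subst hvz
      obtain ⟨w, _, hw2⟩ := TransGen.tail'_iff.1 hv
      rcases Multiset.mem_cons.1 hw2 with h2 | h2
      · exact absurd (Prod.mk.inj h2).2.symm (hynl z)
      · exact absurd rfl (hK _ h2).2
    · exact hac0 v (key v v hv hvy hvz)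
  · have hnd := h.simple
    rw [Multiset.nodup_cons, Multiset.nodup_cons] at hnd
    rw [Multiset.nodup_cons, Multiset.nodup_cons, Multiset.nodup_cons]
    refine ⟨?_, ?_, ?_, hnd.2.2⟩
    · intro hm
      rcases Multiset.mem_cons.1 hm with hm | hm
      · exact hynl z (Prod.mk.inj hm).1.symm
      rcases Multiset.mem_cons.1 hm with hm | hm
      · exact hynl z (Prod.mk.inj hm).1.symm
      · exact (hz0 _ hm).1 rfl
    · intro hm
      rcases Multiset.mem_cons.1 hm with hm | hm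
      · exact f4 (Prod.mk.inj hm).2
      · exact (hy0 _ hm).1 rfl
    · intro hm
      exact (hy0 _ hm).1 rfl
  · rw [hin, if_neg hzd, if_neg hzc, if_neg (hynl z)]
    omega
  · left
    refine ⟨z, Finset.mem_insert_self _ _, rfl, ?_⟩
    rw [hout, if_neg (hynl z), if_pos rfl]
    omega
  · intro x
    have h1 := h.label_iff x
    rw [isVertex_iff_deg, hin', hout', if_neg (hρnl x)] at h1
    rw [isVertex_iff_deg, hin, hout, Finset.mem_insert, ← h1, if_neg (hynl x)]
    by_cases hxz : x = z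
    · subst hxz
      simp
    · have : (Sum.inl z : Vtx) ≠ Sum.inl x := fun h' => hxz (Sum.inl.inj h').symm
      rw [if_neg this]
      simp only [hxz, false_or]
      omega
  · intro x hx hxρ
    have hxz : x ≠ z := fun h' => hxρ (by rw [h'])
    have hx' : x ∈ X := by
      rw [Finset.mem_insert] at hx
      tauto
    have h1 := h.leaf x hx' (fun h' => hρnl x h'.symm)
    rw [hin', hout', if_neg (hρnl x)] at h1
    have : (Sum.inl z : Vtx) ≠ Sum.inl x := fun h' => hxz (Sum.inl.inj h').symm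
    rw [hin, hout, if_neg (hynl x), if_neg this]
    omega
  · intro j hj hjρ
    have hzj : (Sum.inl z : Vtx) ≠ Sum.inr j := by simp
    by_cases hjy : y = Sum.inr j
    · rw [hin, hout, if_neg hzj, ← hjy, if_neg hyd, if_neg hyc, if_pos rfl]
      omega
    · rw [isVertex_iff_deg] at hj
      rw [hin, hout, if_neg hzj, if_neg hjy] at hj ⊢
      have hjρ' : ρ ≠ Sum.inr j := by
        intro h'
        rw [← h', if_neg f3, if_neg f2] at hj
        omega
      have h1 := h.inner j (by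
        rw [isVertex_iff_deg, hin', hout', if_neg hjρ']
        omega) (fun h' => hjρ' h'.symm)
      rw [hin', hout', if_neg hjρ'] at h1
      omega

lemma SD_attach {c d y : Vtx} {z m k : ℕ} (h : RNet ((ρ, c) ::ₘ (ρ, d) ::ₘ G₀) ρ X)
    (hρ : ρ = Sum.inr k) (hd2 : indeg ((ρ, c) ::ₘ (ρ, d) ::ₘ G₀) d ≠ 2) (hym : y = Sum.inr m)
    (hy : ¬ IsVertex ((ρ, c) ::ₘ (ρ, d) ::ₘ G₀) y) (hz : z ∉ X) :
    SD ((Sum.inl z, y) ::ₘ (y, c) ::ₘ (y, d) ::ₘ G₀) = if indeg ((d, c) ::ₘ G₀) c = 2 then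
      insDir (SD ((d, c) ::ₘ G₀)) d c y z else insUnd (SD ((d, c) ::ₘ G₀)) d c y z := by
  have hzv : ¬ IsVertex ((ρ, c) ::ₘ (ρ, d) ::ₘ G₀) (Sum.inl z) :=
    fun h' => hz ((h.label_iff z).1 h')
  obtain ⟨f1, f2, f3, f4⟩ := h.root_facts hρ
  have hd1 := h.child_indeg (d := d) (by simp) hd2
  have hb := SD_base hd1
  rw [not_isVertex_iff] at hy hzv
  have hyρ : ρ ≠ y := (hy (ρ, c) (by simp)).1
  have hyc : c ≠ y := (hy (ρ, c) (by simp)).2
  have hyd : d ≠ y := (hy (ρ, d) (by simp)).2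
  have hzc : c ≠ Sum.inl z := (hzv (ρ, c) (by simp)).2
  have hzd : d ≠ Sum.inl z := (hzv (ρ, d) (by simp)).2
  have hy0 : ∀ e ∈ G₀, e.1 ≠ y ∧ e.2 ≠ y := fun e he =>
    hy e (Multiset.mem_cons_of_mem (Multiset.mem_cons_of_mem he))
  set K := (Sum.inl z, y) ::ₘ (y, c) ::ₘ (y, d) ::ₘ G₀ with hK0
  set G := (ρ, c) ::ₘ (ρ, d) ::ₘ G₀ with hG0
  have hin : ∀ w, w ≠ y → indeg K w = indeg G w := by
    intro w hw
    rw [hK0, hG0, indeg_cons, indeg_cons, indeg_cons, indeg_cons, indeg_cons]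
    simp only
    rw [if_neg hw.symm]
    omega
  have iy : indeg K y = 1 := by
    rw [hK0, indeg_cons, indeg_cons, indeg_cons]
    simp only
    rw [if_neg hyd, if_neg hyc, indeg_eq_zero.2 fun e he => (hy0 e he).2]
    simp
  have ic : indeg K c = indeg G c := hin c hyc
  have id' : indeg K d = 1 := by rw [hin d hyd, hd1]
  have hcS : indeg ((d, c) ::ₘ G₀) c = indeg G c := by
    rw [hG0, indeg_cons, indeg_cons, indeg_cons]
    simp only
    rw [if_neg f4.symm]
    omega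
  have e1 : G₀.filter (fun e => indeg K e.2 = 2) = G₀.filter (fun e => indeg G e.2 = 2) :=
    Multiset.filter_congr fun e he => by rw [hin _ (hy0 e he).2]
  have e2 : G₀.filter (fun e => indeg K e.2 ≠ 2) = G₀.filter (fun e => indeg G e.2 ≠ 2) :=
    Multiset.filter_congr fun e he => by rw [hin _ (hy0 e he).2]
  rw [hcS]
  have hSDS : SD ((d, c) ::ₘ G₀) = ⟨(if indeg G c = 2 then {(d, c)} else 0) +
      G₀.filter (fun e => indeg G e.2 = 2), (if indeg G c = 2 then 0 else {s(d, c)}) +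
      (G₀.filter (fun e => indeg G e.2 ≠ 2)).map fun e => s(e.1, e.2)⟩ :=
    MixedGraph.ext' hb.1 hb.2
  have hKe : K = (Sum.inl z, y) ::ₘ (y, c) ::ₘ (y, d) ::ₘ G₀ := rfl
  clear_value K G
  by_cases h2 : indeg G c = 2
  · simp only [if_pos h2, insDir, hSDS]
    apply MixedGraph.ext'
    · simp only [SD]
      conv_lhs => rw [hKe, Multiset.filter_cons_of_neg _ (by simp [← hKe, iy]),
        Multiset.filter_cons_of_pos _ (by simp [← hKe, ic, h2]),
        Multiset.filter_cons_of_neg _ (by simp [← hKe, id']), ← hKe, e1]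
      simp only [Multiset.singleton_add, Multiset.erase_cons_head]
    · simp only [SD]
      conv_lhs => rw [hKe, Multiset.filter_cons_of_pos _ (by simp [← hKe, iy]),
        Multiset.filter_cons_of_neg _ (by simp [← hKe, ic, h2]),
        Multiset.filter_cons_of_pos _ (by simp [← hKe, id']), ← hKe, e2]
      rw [Multiset.map_cons, Multiset.map_cons, zero_add]
      simp only
      rw [Sym2.eq_swap (a := Sum.inl z), Sym2.eq_swap (a := d), Multiset.cons_swap]
  · simp only [if_neg h2, insUnd, hSDS]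
    apply MixedGraph.ext'
    · simp only [SD]
      conv_lhs => rw [hKe, Multiset.filter_cons_of_neg _ (by simp [← hKe, iy]),
        Multiset.filter_cons_of_neg _ (by simp [← hKe, ic, h2]),
        Multiset.filter_cons_of_neg _ (by simp [← hKe, id']), ← hKe, e1]
      rw [zero_add]
    · simp only [SD]
      conv_lhs => rw [hKe, Multiset.filter_cons_of_pos _ (by simp [← hKe, iy]),
        Multiset.filter_cons_of_pos _ (by simp [← hKe, ic, h2]),
        Multiset.filter_cons_of_pos _ (by simp [← hKe, id']), ← hKe, e2]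
      rw [Multiset.map_cons, Multiset.map_cons, Multiset.map_cons]
      simp only [Multiset.singleton_add, Multiset.erase_cons_head]
      rw [Sym2.eq_swap (a := Sum.inl z), Sym2.eq_swap (a := y) (b := c),
        Sym2.eq_swap (a := y) (b := d), Multiset.cons_swap s(y, Sum.inl z),
        Multiset.cons_swap s(y, Sum.inl z), Multiset.cons_swap s(c, y)]

end Pool.Agent.Lib.Pa53cac
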