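import Pool.Agent.Lib.Pa53cac.Count

/-!
# Rooted networks, rooted at an unlabelled vertex or at a leaf
-/

namespace Pool.Agent.Lib.Pa53cac

open Relation

/-- A network rooted at `ρ`, which is an unlabelled vertex with two children or a leaf with one
child. -/
structure RNet (G : Multiset (Vtx × Vtx)) (ρ : Vtx) (X : Finset ℕ) : Prop where
  acyclic : Acyclic G
  simple : G.Nodup
  root_in : indeg G ρ = 0
  root_out : (∃ z ∈ X, ρ = Sum.inl z ∧ outdeg G ρ = 1) ∨ (∃ k, ρ = Sum.inr k ∧ outdeg G ρ = 2)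
  label_iff : ∀ x, IsVertex G (Sum.inl x) ↔ x ∈ X
  leaf : ∀ x ∈ X, Sum.inl x ≠ ρ → indeg G (Sum.inl x) = 1 ∧ outdeg G (Sum.inl x) = 0
  inner : ∀ k, IsVertex G (Sum.inr k) → Sum.inr k ≠ ρ →
    (indeg G (Sum.inr k) = 1 ∧ outdeg G (Sum.inr k) = 2) ∨
    (indeg G (Sum.inr k) = 2 ∧ outdeg G (Sum.inr k) = 1)

/-- The graph obtained by suppressing an unlabelled root. -/
def Base (G : Multiset (Vtx × Vtx)) (ρ : Vtx) (S : Multiset (Vtx × Vtx)) : Prop :=
  (∃ z, ρ = Sum.inl z ∧ S = G) ∨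
  (∃ k c d G₀, ρ = Sum.inr k ∧ G = (ρ, c) ::ₘ (ρ, d) ::ₘ G₀ ∧ indeg G d ≠ 2 ∧
    S = (d, c) ::ₘ G₀)

variable {G G₀ S : Multiset (Vtx × Vtx)} {ρ : Vtx} {X : Finset ℕ}

lemma IsNetwork.rnet (h : IsNetwork G ρ X) : RNet G ρ X ∧ ∃ k, ρ = Sum.inr k := by
  have hρ : ∃ k, ρ = Sum.inr k := by
    rcases ρ with x | k
    · exfalso
      have hx : x ∈ X := (h.label_iff x).1 (isVertex_of_outdeg (by rw [h.root.2]; omega))
      have := (h.leaf x hx).2
      rw [h.root.2] at this
      omega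
    · exact ⟨k, rfl⟩
  refine ⟨⟨h.acyclic, h.simple, h.root.1, Or.inr ?_, h.label_iff, fun x hx _ => h.leaf x hx,
    h.inner⟩, hρ⟩
  obtain ⟨k, hk⟩ := hρ
  exact ⟨k, hk, h.root.2⟩

lemma RNet.isNetwork {k : ℕ} (h : RNet G (Sum.inr k) X) : IsNetwork G (Sum.inr k) X := by
  refine ⟨h.acyclic, h.simple, ⟨h.root_in, ?_⟩, h.label_iff, fun x hx => h.leaf x hx (by simp),
    h.inner⟩
  rcases h.root_out with ⟨z, _, hz, _⟩ | ⟨_, _, h1⟩
  · simp at hz
  · exact h1

lemma LeafNet.rnet {z : ℕ} (h : LeafNet G z X) : RNet G (Sum.inl z) X :=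
  ⟨h.acyclic, h.simple, h.root.1, Or.inl ⟨z, h.mem, rfl, h.root.2⟩, h.label_iff,
    fun x hx hne => h.leaf x hx (fun h' => hne (by rw [h'])), fun k hk _ => h.inner k hk⟩

lemma RNet.leafNet {z : ℕ} (h : RNet G (Sum.inl z) X) : LeafNet G z X := by
  rcases h.root_out with ⟨w, hw, hz, h1⟩ | ⟨_, h1, _⟩
  · rw [Sum.inl.injEq] at hz
    subst hz
    exact ⟨h.acyclic, h.simple, hw, ⟨h.root_in, h1⟩, h.label_iff,
      fun x hx hne => h.leaf x hx (fun h' => hne (Sum.inl.inj h')),
      fun k hk => h.inner k hk (by simp)⟩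
  · simp at h1

lemma RNet.indeg_pos (h : RNet G ρ X) {v : Vtx} (hv : IsVertex G v) (hvz : v ≠ ρ) :
    0 < indeg G v := by
  rcases v with x | k
  · have := h.leaf x ((h.label_iff x).1 hv) hvz
    omega
  · have := h.inner k hv hvz
    omega

lemma RNet.reach (h : RNet G ρ X) {v : Vtx} (hv : IsVertex G v) : Reach G ρ v :=
  reach_of_root h.acyclic (fun _ hw hwρ => Pa53cac.indeg_pos.1 (h.indeg_pos hw hwρ)) hv

lemma RNet.indeg_le (h : RNet G ρ X) (v : Vtx) : indeg G v ≤ 2 := by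
  by_cases hv : IsVertex G v
  · by_cases hvρ : v = ρ
    · subst hvρ
      rw [h.root_in]
      omega
    · rcases v with x | k
      · have := h.leaf x ((h.label_iff x).1 hv) hvρ
        omega
      · have := h.inner k hv hvρ
        omega
  · have := indeg_outdeg_zero hv
    omega

/-- The two children of the root are not both reticulations. -/
lemma RNet.not_both {c d : Vtx} (h : RNet ((ρ, c) ::ₘ (ρ, d) ::ₘ G₀) ρ X)
    (hc : indeg ((ρ, c) ::ₘ (ρ, d) ::ₘ G₀) c = 2) :
    indeg ((ρ, c) ::ₘ (ρ, d) ::ₘ G₀) d ≠ 2 := by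
  intro hd
  have hcd : c ≠ d := by
    rintro rfl
    have := h.simple
    rw [Multiset.nodup_cons] at this
    exact this.1 (Multiset.mem_cons_self _ _)
  have hρ0 : ∀ e ∈ G₀, e.1 ≠ ρ := by
    have h1 : outdeg ((ρ, c) ::ₘ (ρ, d) ::ₘ G₀) ρ ≤ 2 := by
      rcases h.root_out with ⟨_, _, _, h1⟩ | ⟨_, _, h1⟩ <;> omega
    rw [outdeg_cons, outdeg_cons] at h1
    simp only [if_true] at h1
    exact outdeg_eq_zero.1 (by omega)
  rw [indeg_cons, indeg_cons] at hc hd
  simp only [if_true, hcd, hcd.symm, if_false] at hc hd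
  obtain ⟨a, ha⟩ := Pa53cac.indeg_pos.1 (show 0 < indeg G₀ c by omega)
  obtain ⟨a', ha'⟩ := Pa53cac.indeg_pos.1 (show 0 < indeg G₀ d by omega)
  have haG : Adj ((ρ, c) ::ₘ (ρ, d) ::ₘ G₀) a c :=
    Multiset.mem_cons_of_mem (Multiset.mem_cons_of_mem ha)
  have haG' : Adj ((ρ, c) ::ₘ (ρ, d) ::ₘ G₀) a' d :=
    Multiset.mem_cons_of_mem (Multiset.mem_cons_of_mem ha')
  have below : ∀ v, IsVertex ((ρ, c) ::ₘ (ρ, d) ::ₘ G₀) v → v ≠ ρ →
      Reach ((ρ, c) ::ₘ (ρ, d) ::ₘ G₀) c v ∨ Reach ((ρ, c) ::ₘ (ρ, d) ::ₘ G₀) d v := by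
    intro v hv hvρ
    rcases ReflTransGen.cases_head (h.reach hv) with h1 | ⟨w, h1, h2⟩
    · exact absurd h1.symm hvρ
    · rcases Multiset.mem_cons.1 h1 with h1 | h1
      · rw [(Prod.mk.inj h1).2] at h2
        exact Or.inl h2
      rcases Multiset.mem_cons.1 h1 with h1 | h1
      · rw [(Prod.mk.inj h1).2] at h2
        exact Or.inr h2
      · exact absurd rfl (hρ0 _ h1)
  have hda : Reach ((ρ, c) ::ₘ (ρ, d) ::ₘ G₀) d a := by
    rcases below a ⟨_, haG, Or.inl rfl⟩ (hρ0 _ ha) with h1 | h1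
    · exact absurd (TransGen.tail' h1 haG) (h.acyclic c)
    · exact h1
  have hca : Reach ((ρ, c) ::ₘ (ρ, d) ::ₘ G₀) c a' := by
    rcases below a' ⟨_, haG', Or.inl rfl⟩ (hρ0 _ ha') with h1 | h1
    · exact h1
    · exact absurd (TransGen.tail' h1 haG') (h.acyclic d)
  exact h.acyclic c ((TransGen.tail' hca haG').trans (TransGen.tail' hda haG))

/-- The mixed graph of the graph with suppressed root. -/
lemma SD_base {c d : Vtx} (hd : indeg ((ρ, c) ::ₘ (ρ, d) ::ₘ G₀) d = 1) :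
    (SD ((d, c) ::ₘ G₀)).dir = (if indeg ((ρ, c) ::ₘ (ρ, d) ::ₘ G₀) c = 2 then {(d, c)} else 0) +
      G₀.filter (fun e => indeg ((ρ, c) ::ₘ (ρ, d) ::ₘ G₀) e.2 = 2) ∧
    (SD ((d, c) ::ₘ G₀)).und = (if indeg ((ρ, c) ::ₘ (ρ, d) ::ₘ G₀) c = 2 then 0
      else {s(d, c)}) +
      (G₀.filter (fun e => indeg ((ρ, c) ::ₘ (ρ, d) ::ₘ G₀) e.2 ≠ 2)).map
        fun e => s(e.1, e.2) := by
  have hcd : c ≠ d ∧ indeg G₀ d = 0 := by
    rw [indeg_cons, indeg_cons] at hd
    simp only [if_true] at hd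
    by_cases hcd : c = d
    · rw [if_pos hcd] at hd
      omega
    · exact ⟨hcd, by omega⟩
  set G := (ρ, c) ::ₘ (ρ, d) ::ₘ G₀ with hG
  set S := (d, c) ::ₘ G₀ with hS
  have hin : ∀ v, v ≠ d → indeg S v = indeg G v := by
    intro v hv
    rw [hS, hG]
    simp only [indeg_cons]
    rw [if_neg hv.symm]
    omega
  have hin0 : ∀ e ∈ G₀, indeg S e.2 = indeg G e.2 := fun e he =>
    hin _ (indeg_eq_zero.1 hcd.2 e he)
  have hc : indeg S c = indeg G c := hin c hcd.1
  have e1 : G₀.filter (fun e => indeg S e.2 = 2) = G₀.filter (fun e => indeg G e.2 = 2) :=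
    Multiset.filter_congr fun e he => by rw [hin0 e he]
  have e2 : G₀.filter (fun e => indeg S e.2 ≠ 2) = G₀.filter (fun e => indeg G e.2 ≠ 2) :=
    Multiset.filter_congr fun e he => by rw [hin0 e he]
  by_cases h2 : indeg G c = 2
  · constructor
    · simp only [SD]
      conv_lhs => rw [hS, Multiset.filter_cons_of_pos _ (by simp [← hS, hc, h2])]
      rw [e1, if_pos h2]
      rfl
    · simp only [SD]
      conv_lhs => rw [hS, Multiset.filter_cons_of_neg _ (by simp [← hS, hc, h2])]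
      rw [e2, if_pos h2, zero_add]
  · constructor
    · simp only [SD]
      conv_lhs => rw [hS, Multiset.filter_cons_of_neg _ (by simp [← hS, hc, h2])]
      rw [e1, if_neg h2, zero_add]
    · simp only [SD]
      conv_lhs => rw [hS, Multiset.filter_cons_of_pos _ (by simp [← hS, hc, h2])]
      rw [Multiset.map_cons, e2, if_neg h2]
      rfl

lemma RNet.child_indeg {d : Vtx} (h : RNet G ρ X) (hd : (ρ, d) ∈ G) (hd2 : indeg G d ≠ 2) :
    indeg G d = 1 := by
  have h1 := h.indeg_le d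
  have h2 := indeg_pos_of_mem hd
  omega

/-- The topology of a network in terms of the graph with suppressed root. -/
lemma isTopology_iff (h : IsNetwork G ρ X) {N : MixedGraph} :
    IsTopology G ρ N ↔ ∃ S, Base G ρ S ∧ SD S = N := by
  obtain ⟨hr, k, hk⟩ := h.rnet
  constructor
  · rintro ⟨c, d, G₀, rfl, h1⟩
    have hd2 : indeg ((ρ, c) ::ₘ (ρ, d) ::ₘ G₀) d ≠ 2 := by
      rcases h1 with ⟨h2, _⟩ | ⟨_, h2, _⟩
      · exact hr.not_both h2
      · exact h2
    refine ⟨(d, c) ::ₘ G₀, Or.inr ⟨k, c, d, G₀, hk, rfl, hd2, rfl⟩, ?_⟩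
    have h3 := SD_base (ρ := ρ) (c := c) (d := d) (G₀ := G₀)
      (hr.child_indeg (by simp) hd2)
    apply MixedGraph.ext'
    · rw [h3.1]
      rcases h1 with ⟨h4, h5, h6⟩ | ⟨h4, _, h5, h6⟩
      · rw [if_pos h4, h5]
        rfl
      · rw [if_neg h4, h5, zero_add]
    · rw [h3.2]
      rcases h1 with ⟨h4, h5, h6⟩ | ⟨h4, _, h5, h6⟩
      · rw [if_pos h4, h6, zero_add]
      · rw [if_neg h4, h6, Sym2.eq_swap]
        rfl
  · rintro ⟨S, ⟨z, hz, _⟩ | ⟨k', c, d, G₀, _, rfl, hd2, rfl⟩, rfl⟩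
    · rw [hk] at hz
      simp at hz
    · have h3 := SD_base (ρ := ρ) (c := c) (d := d) (G₀ := G₀)
        (hr.child_indeg (by simp) hd2)
      refine ⟨c, d, G₀, rfl, ?_⟩
      by_cases h4 : indeg ((ρ, c) ::ₘ (ρ, d) ::ₘ G₀) c = 2
      · left
        refine ⟨h4, ?_, ?_⟩
        · rw [h3.1, if_pos h4]
          rfl
        · rw [h3.2, if_pos h4, zero_add]
      · right
        refine ⟨h4, hd2, ?_, ?_⟩
        · rw [h3.1, if_neg h4, zero_add]
        · rw [h3.2, if_neg h4, Sym2.eq_swap (a := c)]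
          rfl

/-! ### Inserting a leaf on an arc -/

/-- Subdivide the arc `(u, v)` of `(u, v) ::ₘ G` by `y` and attach the leaf `z` to `y`. -/
def ins (G : Multiset (Vtx × Vtx)) (u v y : Vtx) (z : ℕ) : Multiset (Vtx × Vtx) :=
  (u, y) ::ₘ (y, v) ::ₘ (y, Sum.inl z) ::ₘ G

lemma acyclic_subdivide {V : Type*} {G : Multiset (V × V)} {u v y : V}
    (hG : Acyclic ((u, v) ::ₘ G)) (hyu : y ≠ u) (hyv : y ≠ v)
    (hy : ∀ e ∈ G, e.1 ≠ y ∧ e.2 ≠ y) : Acyclic ((u, y) ::ₘ (y, v) ::ₘ G) := by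
  have key : ∀ a, a ≠ y → ¬ SReach ((u, y) ::ₘ (y, v) ::ₘ G) a a := fun a ha hr =>
    hG a (sreach_sup hyu hyv hy ha ha hr)
  intro a ha
  by_cases hay : a = y
  · subst hay
    obtain ⟨c, h1, h2⟩ := TransGen.head'_iff.1 ha
    have hc := adj_from hyu hy h1
    subst hc
    exact key c hyv.symm (TransGen.tail' h2 h1)
  · exact key a hay ha

lemma rnet_ins {u v y : Vtx} {z m : ℕ} (h : RNet ((u, v) ::ₘ G) ρ X) (hym : y = Sum.inr m)
    (hy : ¬ IsVertex ((u, v) ::ₘ G) y) (hz : z ∉ X) (hρ : y ≠ ρ) :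
    RNet (ins G u v y z) ρ (insert z X) := by
  have hzv : ¬ IsVertex ((u, v) ::ₘ G) (Sum.inl z) := fun h' => hz ((h.label_iff z).1 h')
  have hy0 := indeg_outdeg_zero hy
  have hz0 := indeg_outdeg_zero hzv
  rw [not_isVertex_iff] at hy hzv
  have hyu : u ≠ y := (hy (u, v) (Multiset.mem_cons_self _ _)).1
  have hyv : v ≠ y := (hy (u, v) (Multiset.mem_cons_self _ _)).2
  have hzu : u ≠ Sum.inl z := (hzv (u, v) (Multiset.mem_cons_self _ _)).1
  have hzv' : v ≠ Sum.inl z := (hzv (u, v) (Multiset.mem_cons_self _ _)).2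
  have hin : ∀ w, indeg (ins G u v y z) w = indeg G w + (if Sum.inl z = w then 1 else 0) +
      (if v = w then 1 else 0) + (if y = w then 1 else 0) := by
    intro w
    rw [Pa53cac.ins, indeg_cons, indeg_cons, indeg_cons]
  have hout : ∀ w, outdeg (ins G u v y z) w = outdeg G w + (if y = w then 1 else 0) +
      (if y = w then 1 else 0) + (if u = w then 1 else 0) := by
    intro w
    rw [Pa53cac.ins, outdeg_cons, outdeg_cons, outdeg_cons]
  have hin' : ∀ w, indeg ((u, v) ::ₘ G) w = indeg G w + (if v = w then 1 else 0) :=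
    fun w => by rw [indeg_cons]
  have hout' : ∀ w, outdeg ((u, v) ::ₘ G) w = outdeg G w + (if u = w then 1 else 0) :=
    fun w => by rw [outdeg_cons]
  have hynl : ∀ x, y ≠ Sum.inl x := by
    intro x h'
    rw [hym] at h'
    simp at h'
  rw [hin', hout', if_neg hyv, if_neg hyu] at hy0
  rw [hin', hout', if_neg hzv', if_neg hzu] at hz0
  have hρv : IsVertex ((u, v) ::ₘ G) ρ := by
    apply isVertex_of_outdeg
    rcases h.root_out with ⟨_, _, _, h1⟩ | ⟨_, _, h1⟩ <;> omega
  have hzρ : Sum.inl z ≠ ρ := by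
    rintro rfl
    exact hz ((h.label_iff z).1 hρv)
  refine ⟨?_, ?_, ?_, ?_, ?_, ?_, ?_⟩
  · rw [Pa53cac.ins, Multiset.cons_swap (y, v), Multiset.cons_swap (u, y)]
    apply Acyclic.cons_sink
    · exact acyclic_subdivide h.acyclic hyu.symm hyv.symm
        fun e he => hy e (Multiset.mem_cons_of_mem he)
    · intro e he
      rcases Multiset.mem_cons.1 he with rfl | he
      · exact hzu
      rcases Multiset.mem_cons.1 he with rfl | he
      · exact hynl z
      · exact (hzv e (Multiset.mem_cons_of_mem he)).1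
    · exact hynl z
  · have hnd := h.simple
    rw [Multiset.nodup_cons] at hnd
    rw [Pa53cac.ins, Multiset.nodup_cons, Multiset.nodup_cons, Multiset.nodup_cons]
    refine ⟨?_, ?_, ?_, hnd.2⟩
    · intro hm
      rcases Multiset.mem_cons.1 hm with hm | hm
      · exact hyu (Prod.mk.inj hm).1
      rcases Multiset.mem_cons.1 hm with hm | hm
      · exact hyu (Prod.mk.inj hm).1
      · exact (hy _ (Multiset.mem_cons_of_mem hm)).2 rfl
    · intro hm
      rcases Multiset.mem_cons.1 hm with hm | hm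
      · exact hzv' (Prod.mk.inj hm).2
      · exact (hy _ (Multiset.mem_cons_of_mem hm)).1 rfl
    · intro hm
      exact (hy _ (Multiset.mem_cons_of_mem hm)).1 rfl
  · have h1 := h.root_in
    rw [hin'] at h1
    rw [hin, if_neg hzρ, if_neg hρ]
    omega
  · have h1 := h.root_out
    rw [hout'] at h1
    rw [hout, if_neg hρ]
    rcases h1 with ⟨w, hw, h2, h3⟩ | ⟨w, h2, h3⟩
    · exact Or.inl ⟨w, Finset.mem_insert_of_mem hw, h2, by omega⟩
    · exact Or.inr ⟨w, h2, by omega⟩
  · intro x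
    have h1 := h.label_iff x
    rw [isVertex_iff_deg, hin', hout'] at h1
    rw [isVertex_iff_deg, hin, hout, Finset.mem_insert, ← h1, if_neg (hynl x)]
    by_cases hxz : x = z
    · subst hxz
      simp
    · have : (Sum.inl z : Vtx) ≠ Sum.inl x := fun h' => hxz (Sum.inl.inj h').symm
      rw [if_neg this]
      simp only [hxz, false_or]
      omega
  · intro x hx hxρ
    rw [hin, hout, if_neg (hynl x)]
    rw [Finset.mem_insert] at hx
    by_cases hxz : x = z
    · subst hxz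
      rw [if_pos rfl, if_neg hzv', if_neg hzu]
      omega
    · have h1 := h.leaf x (by tauto) hxρ
      rw [hin', hout'] at h1
      have : (Sum.inl z : Vtx) ≠ Sum.inl x := fun h' => hxz (Sum.inl.inj h').symm
      rw [if_neg this]
      omega
  · intro k hk hkρ
    rw [hin, hout]
    have hzk : (Sum.inl z : Vtx) ≠ Sum.inr k := by simp
    rw [if_neg hzk]
    by_cases hky : y = Sum.inr k
    · rw [if_pos hky]
      rw [hky] at hy0 hyv hyu
      rw [if_neg hyv, if_neg hyu]
      omega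
    · rw [if_neg hky]
      rw [isVertex_iff_deg, hin, hout, if_neg hzk, if_neg hky] at hk
      have hv : IsVertex ((u, v) ::ₘ G) (Sum.inr k) := by
        rw [isVertex_iff_deg, hin', hout']
        omega
      have h1 := h.inner k hv hkρ
      rw [hin', hout'] at h1
      omega

/-- Insertion of a leaf outside `L` does not change the restriction to `L`. -/
lemma ins_red {u v y : Vtx} {z m : ℕ} {L : Finset ℕ} {P : Multiset (Vtx × Vtx) → Prop}
    (hP : ∀ {K K'}, Acyclic K → Step K K' → (P K ↔ P K'))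
    (h : RNet ((u, v) ::ₘ G) ρ X) (hym : y = Sum.inr m)
    (hy : ¬ IsVertex ((u, v) ::ₘ G) y) (hz : z ∉ X) (hρ : y ≠ ρ) (hL : L ⊆ X)
    (hρL : ∀ x ∈ L, Sum.inl x ≠ ρ)
    (hred : P (cut ((u, v) ::ₘ G) ρ (leafSet L))) :
    P (cut (ins G u v y z) ρ (leafSet L)) := by
  have hzv : ¬ IsVertex ((u, v) ::ₘ G) (Sum.inl z) := fun h' => hz ((h.label_iff z).1 h')
  rw [not_isVertex_iff] at hy hzv
  have hyu : u ≠ y := (hy (u, v) (Multiset.mem_cons_self _ _)).1
  have hyv : v ≠ y := (hy (u, v) (Multiset.mem_cons_self _ _)).2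
  have hzu : u ≠ Sum.inl z := (hzv (u, v) (Multiset.mem_cons_self _ _)).1
  have hynl : ∀ x, y ≠ Sum.inl x := by
    intro x h'
    rw [hym] at h'
    simp at h'
  have hTz : Sum.inl z ∉ leafSet L := by
    rintro ⟨w, hw, hw'⟩
    rw [Sum.inl.injEq] at hw'
    exact hz (hw' ▸ hL hw)
  have e1 : cut (ins G u v y z) ρ (leafSet L) = cut ((u, y) ::ₘ (y, v) ::ₘ G) ρ (leafSet L) := by
    rw [Pa53cac.ins, Multiset.cons_swap (y, v), Multiset.cons_swap (u, y)]
    apply cut_cons_sink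
    · intro e he
      rcases Multiset.mem_cons.1 he with rfl | he
      · exact hzu
      rcases Multiset.mem_cons.1 he with rfl | he
      · exact hynl z
      · exact (hzv e (Multiset.mem_cons_of_mem he)).1
    · exact hynl z
    · exact hTz
  rw [e1]
  have hac : Acyclic ((u, y) ::ₘ (y, v) ::ₘ G) :=
    acyclic_subdivide h.acyclic hyu.symm hyv.symm fun e he => hy e (Multiset.mem_cons_of_mem he)
  have hρin : ∀ e ∈ (u, y) ::ₘ (y, v) ::ₘ G, e.2 ≠ ρ := by
    have h1 := indeg_eq_zero.1 h.root_in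
    intro e he
    rcases Multiset.mem_cons.1 he with rfl | he
    · exact hρ
    rcases Multiset.mem_cons.1 he with rfl | he
    · exact h1 (u, v) (Multiset.mem_cons_self _ _)
    · exact h1 e (Multiset.mem_cons_of_mem he)
  have hT : ∀ t ∈ leafSet L, ∀ e ∈ (u, y) ::ₘ (y, v) ::ₘ G, e.1 ≠ t := by
    rintro t ⟨x, hx, rfl⟩ e he
    have h1 := outdeg_eq_zero.1 (h.leaf x (hL hx) (hρL x hx)).2
    rcases Multiset.mem_cons.1 he with rfl | he
    · exact h1 (u, v) (Multiset.mem_cons_self _ _)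
    rcases Multiset.mem_cons.1 he with rfl | he
    · exact hynl x
    · exact h1 e (Multiset.mem_cons_of_mem he)
  have hst := step_cut (Step.suppress u y v G hyu.symm hyv.symm
    fun e he => hy e (Multiset.mem_cons_of_mem he)) hac hρin hT
  rcases (reflGen_iff _ _ _).1 hst with h' | h'
  · rw [← h']
    exact hred
  · exact (hP (hac.mono fun e he => (mem_cut.1 he).1) h').2 hred

/-- Insertion on mixed graphs, on a directed edge. -/
def insDir (N : MixedGraph) (u v y : Vtx) (z : ℕ) : MixedGraph :=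
  ⟨(y, v) ::ₘ N.dir.erase (u, v), s(u, y) ::ₘ s(y, Sum.inl z) ::ₘ N.und⟩

/-- Insertion on mixed graphs, on an undirected edge. -/
def insUnd (N : MixedGraph) (u v y : Vtx) (z : ℕ) : MixedGraph :=
  ⟨N.dir, s(u, y) ::ₘ s(v, y) ::ₘ s(y, Sum.inl z) ::ₘ N.und.erase s(u, v)⟩

lemma insUnd_comm (N : MixedGraph) (u v y : Vtx) (z : ℕ) :
    insUnd N u v y z = insUnd N v u y z := by
  rw [insUnd, insUnd, Sym2.eq_swap (a := u) (b := v), Multiset.cons_swap]

lemma SD_ins {u v y : Vtx} {z m : ℕ} (hym : y = Sum.inr m)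
    (hy : ¬ IsVertex ((u, v) ::ₘ G) y) (hz : ¬ IsVertex ((u, v) ::ₘ G) (Sum.inl z)) :
    SD (ins G u v y z) = if indeg ((u, v) ::ₘ G) v = 2 then insDir (SD ((u, v) ::ₘ G)) u v y z
      else insUnd (SD ((u, v) ::ₘ G)) u v y z := by
  have hy0 := indeg_outdeg_zero hy
  have hz0 := indeg_outdeg_zero hz
  rw [not_isVertex_iff] at hy hz
  have hyu : u ≠ y := (hy (u, v) (Multiset.mem_cons_self _ _)).1
  have hyv : v ≠ y := (hy (u, v) (Multiset.mem_cons_self _ _)).2
  have hzv' : v ≠ Sum.inl z := (hz (u, v) (Multiset.mem_cons_self _ _)).2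
  have hynl : y ≠ Sum.inl z := by
    intro h'
    rw [hym] at h'
    simp at h'
  have hin : ∀ w, indeg (ins G u v y z) w = indeg G w + (if Sum.inl z = w then 1 else 0) +
      (if v = w then 1 else 0) + (if y = w then 1 else 0) := by
    intro w
    rw [Pa53cac.ins, indeg_cons, indeg_cons, indeg_cons]
  have hin' : ∀ w, indeg ((u, v) ::ₘ G) w = indeg G w + (if v = w then 1 else 0) :=
    fun w => by rw [indeg_cons]
  have iv : indeg (ins G u v y z) v = indeg ((u, v) ::ₘ G) v := by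
    rw [hin, hin', if_neg hzv'.symm, if_neg hyv.symm]
    omega
  have iy : indeg (ins G u v y z) y = 1 := by
    rw [hin', if_neg hyv] at hy0
    rw [hin, if_neg hynl.symm, if_neg hyv, if_pos rfl]
    omega
  have iz : indeg (ins G u v y z) (Sum.inl z) = 1 := by
    rw [hin', if_neg hzv'] at hz0
    rw [hin, if_pos rfl, if_neg hzv', if_neg hynl]
    omega
  have h0 : ∀ e ∈ G, indeg (ins G u v y z) e.2 = indeg ((u, v) ::ₘ G) e.2 := by
    intro e he
    rw [hin, hin', if_neg (hy e (Multiset.mem_cons_of_mem he)).2.symm,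
      if_neg (hz e (Multiset.mem_cons_of_mem he)).2.symm]
    omega
  have e1 : G.filter (fun e => indeg (ins G u v y z) e.2 = 2) =
      G.filter (fun e => indeg ((u, v) ::ₘ G) e.2 = 2) :=
    Multiset.filter_congr fun e he => by rw [h0 e he]
  have e2 : G.filter (fun e => indeg (ins G u v y z) e.2 ≠ 2) =
      G.filter (fun e => indeg ((u, v) ::ₘ G) e.2 ≠ 2) :=
    Multiset.filter_congr fun e he => by rw [h0 e he]
  have hSD' : SD (ins G u v y z) = ⟨(if indeg ((u, v) ::ₘ G) v = 2 then {(y, v)} else 0) +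
      G.filter (fun e => indeg ((u, v) ::ₘ G) e.2 = 2),
      s(u, y) ::ₘ s(y, Sum.inl z) ::ₘ ((if indeg ((u, v) ::ₘ G) v = 2 then 0 else {s(y, v)}) +
        (G.filter (fun e => indeg ((u, v) ::ₘ G) e.2 ≠ 2)).map fun e => s(e.1, e.2))⟩ := by
    clear hin
    set K := ins G u v y z with hK0
    have hK : K = (u, y) ::ₘ (y, v) ::ₘ (y, Sum.inl z) ::ₘ G := rfl
    clear_value K
    by_cases h2 : indeg ((u, v) ::ₘ G) v = 2
    · rw [if_pos h2, if_pos h2]
      apply MixedGraph.ext'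
      · simp only [SD]
        conv_lhs => rw [hK, Multiset.filter_cons_of_neg _ (by simp [← hK, iy]),
          Multiset.filter_cons_of_pos _ (by simp [← hK, iv, h2]),
          Multiset.filter_cons_of_neg _ (by simp [← hK, iz]), ← hK, e1]
        rfl
      · simp only [SD]
        conv_lhs => rw [hK, Multiset.filter_cons_of_pos _ (by simp [← hK, iy]),
          Multiset.filter_cons_of_neg _ (by simp [← hK, iv, h2]),
          Multiset.filter_cons_of_pos _ (by simp [← hK, iz]), ← hK, e2]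
        rw [Multiset.map_cons, Multiset.map_cons, zero_add]
    · rw [if_neg h2, if_neg h2]
      apply MixedGraph.ext'
      · simp only [SD]
        conv_lhs => rw [hK, Multiset.filter_cons_of_neg _ (by simp [← hK, iy]),
          Multiset.filter_cons_of_neg _ (by simp [← hK, iv, h2]),
          Multiset.filter_cons_of_neg _ (by simp [← hK, iz]), ← hK, e1]
        rw [zero_add]
      · simp only [SD]
        conv_lhs => rw [hK, Multiset.filter_cons_of_pos _ (by simp [← hK, iy]),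
          Multiset.filter_cons_of_pos _ (by simp [← hK, iv, h2]),
          Multiset.filter_cons_of_pos _ (by simp [← hK, iz]), ← hK, e2]
        rw [Multiset.map_cons, Multiset.map_cons, Multiset.map_cons]
        simp only
        rw [Multiset.cons_swap s(y, v)]
        rfl
  have hSD : SD ((u, v) ::ₘ G) = ⟨(if indeg ((u, v) ::ₘ G) v = 2 then {(u, v)} else 0) +
      G.filter (fun e => indeg ((u, v) ::ₘ G) e.2 = 2),
      (if indeg ((u, v) ::ₘ G) v = 2 then 0 else {s(u, v)}) +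
        (G.filter (fun e => indeg ((u, v) ::ₘ G) e.2 ≠ 2)).map fun e => s(e.1, e.2)⟩ := by
    by_cases h2 : indeg ((u, v) ::ₘ G) v = 2
    · rw [if_pos h2, if_pos h2]
      apply MixedGraph.ext'
      · simp only [SD]
        rw [Multiset.filter_cons_of_pos _ (by simp [h2])]
        rfl
      · simp only [SD]
        rw [Multiset.filter_cons_of_neg _ (by simp [h2]), zero_add]
    · rw [if_neg h2, if_neg h2]
      apply MixedGraph.ext'
      · simp only [SD]
        rw [Multiset.filter_cons_of_neg _ (by simp [h2]), zero_add]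
      · simp only [SD]
        rw [Multiset.filter_cons_of_pos _ (by simp [h2]), Multiset.map_cons]
        rfl
  rw [hSD']
  by_cases h2 : indeg ((u, v) ::ₘ G) v = 2
  · simp only [if_pos h2, insDir, hSD]
    apply MixedGraph.ext'
    · simp only [Multiset.singleton_add, Multiset.erase_cons_head]
    · simp only [zero_add]
  · simp only [if_neg h2, insUnd, hSD]
    apply MixedGraph.ext'
    · rfl
    · simp only [Multiset.singleton_add, Multiset.erase_cons_head]
      rw [Sym2.eq_swap (a := v) (b := y), Multiset.cons_swap s(y, v)]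

end Pool.Agent.Lib.Pa53cac
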