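import Pool.Agent.Lib.Pa53cac.Plain

/-!
# Small model property for networks with unlabelled roots
-/

namespace Pool.Agent.Lib.Pa53cac

open Relation

lemma Acyclic.cons_source {V : Type*} {G : Multiset (V × V)} (hG : Acyclic G) {u w : V}
    (hu : ∀ e ∈ G, e.2 ≠ u) (huw : u ≠ w) : Acyclic ((u, w) ::ₘ G) := by
  have hnot : ∀ e ∈ (u, w) ::ₘ G, e.2 ≠ u := by
    intro e he
    rcases Multiset.mem_cons.1 he with rfl | he
    · exact huw.symm
    · exact hu e he
  have key : ∀ a b, SReach ((u, w) ::ₘ G) a b → a ≠ u → SReach G a b := by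
    intro a b h
    induction h using TransGen.head_induction_on with
    | single h1 =>
      intro ha
      rcases Multiset.mem_cons.1 h1 with h | h
      · exact absurd (Prod.mk.inj h).1 ha
      · exact .single h
    | head h1 _ ih =>
      intro ha
      rcases Multiset.mem_cons.1 h1 with h | h
      · exact absurd (Prod.mk.inj h).1 ha
      · exact TransGen.head h (ih (hu _ h))
  intro v hv
  have hvu : v ≠ u := by
    rintro rfl
    obtain ⟨c, _, hc⟩ := TransGen.tail'_iff.1 hv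
    exact hnot _ hc rfl
  exact hG v (key v v hv hvu)

/-- From a leaf-rooted network back to a network with an unlabelled root. -/
lemma LeafNet.unroot {G : Multiset (Vtx × Vtx)} {z : ℕ} {X : Finset ℕ} (h : LeafNet G z X)
    {k : ℕ} (hk : ¬ IsVertex G (Sum.inr k)) :
    ∃ R : Multiset (Vtx × Vtx), IsNetwork R (Sum.inr k) X ∧ IsTopology R (Sum.inr k) (SD G) ∧
      R.card = G.card + 1 ∧
      ∀ L : Finset ℕ, z ∉ L →
        cut R (Sum.inr k) (leafSet L) = cut G (Sum.inl z) (leafSet L) := by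
  obtain ⟨y, hy⟩ := outdeg_pos.1 (show 0 < outdeg G (Sum.inl z) by rw [h.root.2]; omega)
  obtain ⟨G₁, rfl⟩ := Multiset.exists_cons_of_mem hy
  have hk0 := indeg_outdeg_zero hk
  have hk' := hk
  rw [not_isVertex_iff] at hk'
  have hyk : y ≠ Sum.inr k := (hk' _ (Multiset.mem_cons_self _ _)).2
  have hyz : (Sum.inl z : Vtx) ≠ y := h.acyclic.ne_of_mem (Multiset.mem_cons_self _ _)
  have hz1 : indeg G₁ (Sum.inl z) = 0 ∧ outdeg G₁ (Sum.inl z) = 0 := by
    have h1 := h.root
    rw [indeg_cons, outdeg_cons] at h1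
    simp only [if_true] at h1
    rw [if_neg hyz.symm] at h1
    omega
  have hzG : ∀ e ∈ G₁, e.1 ≠ Sum.inl z ∧ e.2 ≠ Sum.inl z := fun e he =>
    ⟨outdeg_eq_zero.1 hz1.2 e he, indeg_eq_zero.1 hz1.1 e he⟩
  have hin' : ∀ w, indeg ((Sum.inl z, y) ::ₘ G₁) w = indeg G₁ w + (if y = w then 1 else 0) :=
    fun w => by rw [indeg_cons]
  have hout' : ∀ w, outdeg ((Sum.inl z, y) ::ₘ G₁) w = outdeg G₁ w +
      (if Sum.inl z = w then 1 else 0) := fun w => by rw [outdeg_cons]
  rw [hin', hout', if_neg hyk] at hk0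
  have hlk : ∀ x, (Sum.inl x : Vtx) ≠ Sum.inr k := by simp
  rw [if_neg (hlk z)] at hk0
  have hin : ∀ w, indeg ((Sum.inr k, Sum.inl z) ::ₘ (Sum.inr k, y) ::ₘ G₁) w = indeg G₁ w +
      (if y = w then 1 else 0) + (if Sum.inl z = w then 1 else 0) := fun w => by
    rw [indeg_cons, indeg_cons]
  have hout : ∀ w, outdeg ((Sum.inr k, Sum.inl z) ::ₘ (Sum.inr k, y) ::ₘ G₁) w = outdeg G₁ w +
      (if Sum.inr k = w then 1 else 0) + (if Sum.inr k = w then 1 else 0) := fun w => by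
    rw [outdeg_cons, outdeg_cons]
  have hac1 : Acyclic G₁ := h.acyclic.mono fun e he => Multiset.mem_cons_of_mem he
  have hkG : ∀ e ∈ G₁, e.1 ≠ Sum.inr k ∧ e.2 ≠ Sum.inr k := fun e he =>
    hk' e (Multiset.mem_cons_of_mem he)
  have hac2 : Acyclic ((Sum.inr k, y) ::ₘ G₁) :=
    hac1.cons_source (fun e he => (hkG e he).2) hyk.symm
  have hzs : ∀ e ∈ (Sum.inr k, y) ::ₘ G₁, e.1 ≠ Sum.inl z := by
    intro e he
    rcases Multiset.mem_cons.1 he with rfl | he
    · exact (hlk z).symm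
    · exact (hzG e he).1
  have hac3 : Acyclic ((Sum.inr k, Sum.inl z) ::ₘ (Sum.inr k, y) ::ₘ G₁) :=
    hac2.cons_sink hzs (hlk z).symm
  have hnd := h.simple
  rw [Multiset.nodup_cons] at hnd
  have hnet : IsNetwork ((Sum.inr k, Sum.inl z) ::ₘ (Sum.inr k, y) ::ₘ G₁) (Sum.inr k) X := by
    refine ⟨hac3, ?_, ?_, ?_, ?_, ?_⟩
    · rw [Multiset.nodup_cons, Multiset.nodup_cons]
      refine ⟨?_, fun hm => (hkG _ hm).1 rfl, hnd.2⟩
      intro hm
      rcases Multiset.mem_cons.1 hm with hm | hm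
      · exact hyz (Prod.mk.inj hm).2
      · exact (hkG _ hm).1 rfl
    · rw [hin, hout, if_neg hyk, if_neg (hlk z), if_pos rfl]
      omega
    · intro x
      rw [← h.label_iff x, isVertex_iff_deg, isVertex_iff_deg, hin, hout, hin', hout',
        if_neg (hlk x).symm]
      omega
    · intro x hx
      rw [hin, hout, if_neg (hlk x).symm]
      by_cases hxz : x = z
      · subst hxz
        rw [if_neg hyz.symm, if_pos rfl]
        omega
      · have h1 := h.leaf x hx hxz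
        rw [hin', hout'] at h1
        have hne : (Sum.inl z : Vtx) ≠ Sum.inl x := fun h' => hxz (Sum.inl.inj h').symm
        rw [if_neg hne] at h1 ⊢
        omega
    · intro j hj hjk
      have hzj : (Sum.inl z : Vtx) ≠ Sum.inr j := by simp
      rw [isVertex_iff_deg, hin, hout, if_neg hjk.symm, if_neg hzj] at hj
      have h1 := h.inner j (by
        rw [isVertex_iff_deg, hin', hout', if_neg hzj]
        omega)
      rw [hin', hout', if_neg hzj] at h1
      rw [hin, hout, if_neg hjk.symm, if_neg hzj]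
      omega
  refine ⟨_, hnet, ?_, by simp, ?_⟩
  · rw [isTopology_iff hnet]
    refine ⟨(Sum.inl z, y) ::ₘ G₁, Or.inr ⟨k, y, Sum.inl z, G₁, rfl, ?_, ?_, rfl⟩, rfl⟩
    · rw [Multiset.cons_swap]
    · rw [hin, if_neg hyz.symm, if_pos rfl]
      omega
  · intro L hL
    have hzL : (Sum.inl z : Vtx) ∉ leafSet L := by
      rintro ⟨w, hw, hw'⟩
      rw [Sum.inl.injEq] at hw'
      exact hL (hw' ▸ hw)
    rw [cut_cons_sink hzs (hlk z).symm hzL, cut_top hac2 hkG hyk.symm, cut_top h.acyclic hzG hyz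
      hzL]
    rintro ⟨w, _, hw'⟩
    simp at hw'

variable {ι κ : Type*} {Res : Multiset (Vtx × Vtx) → Finset ℕ → Multiset (Vtx × Vtx) → Vtx → Prop}

/-- A family of rootings (with unlabelled roots) of the same mixed graph `N`, with prescribed
restrictions. -/
structure RFam (Res : Multiset (Vtx × Vtx) → Finset ℕ → Multiset (Vtx × Vtx) → Vtx → Prop)
    (r : ι → κ) (L : ι → Finset ℕ) (T : ι → MixedGraph) (ρ : κ → Vtx) (X : Finset ℕ)
    (G : κ → Multiset (Vtx × Vtx)) (N : MixedGraph) : Prop where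
  net : ∀ j, IsNetwork (G j) (ρ j) X
  top : ∀ j, IsTopology (G j) (ρ j) N
  sub : ∀ i, L i ⊆ X
  red : ∀ i, ∃ H σ, Res (cut (G (r i)) (ρ (r i)) (leafSet (L i))) (L i) H σ ∧
    IsTopology H σ (T i)

theorem RFam.small [Fintype ι] [Fintype κ] [Nonempty κ] (hRes : IsRes Res) {r : ι → κ}
    (hr : Function.Surjective r) {L : ι → Finset ℕ} {T : ι → MixedGraph} {ρ : κ → Vtx}
    {X : Finset ℕ} {G : κ → Multiset (Vtx × Vtx)} {N : MixedGraph}
    (h : RFam Res r L T ρ X G N) {S : Finset Vtx} (hS : ∀ i v, (T i).IsVertex v → v ∈ S) :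
    ∃ (k : ℕ) (X' : Finset ℕ) (G' : κ → Multiset (Vtx × Vtx)) (N' : MixedGraph),
      RFam Res r L T (fun _ => Sum.inr k) X' G' N' ∧ ∀ j, (G' j).card ≤
      2 * ((Finset.univ.biUnion L).card + Fintype.card κ + S.card) + 3 * S.card + 1 := by
  classical
  have hP := fun i => hRes.inv (L i) (T i)
  have hst : St ρ r L (fun i K => ∃ H σ, Res K (L i) H σ ∧ IsTopology H σ (T i)) X G N := by
    refine ⟨fun j => (h.net j).rnet.1, fun j => (isTopology_iff (h.net j)).1 (h.top j), h.sub, ?_,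
      h.red⟩
    intro i j x _ h'
    obtain ⟨k, hk⟩ := (h.net j).rnet.2
    rw [hk] at h'
    simp at h'
  obtain ⟨z, X₁, G₁, N₁, hz, hF⟩ := hst.exists_fam hP
  obtain ⟨X₂, G₂, N₂, hF₂, hcard⟩ := Fam.small hP hr hz (S := S) (fun i v hv => hS i v hv)
    ⟨X₁, G₁, N₁, hF⟩
  obtain ⟨k, hk⟩ := Infinite.exists_notMem_finset
    ((Finset.univ.biUnion fun j => vset (G₂ j)).image (Sum.elim id id : Vtx → ℕ))
  have hk1 : ∀ j, ¬ IsVertex (G₂ j) (Sum.inr k) := by
    intro j hj
    apply hk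
    rw [Finset.mem_image]
    exact ⟨Sum.inr k, Finset.mem_biUnion.2 ⟨j, Finset.mem_univ _, mem_vset.2 hj⟩, rfl⟩
  choose R hR1 hR2 hR3 hR4 using fun j => (hF₂.net j).unroot (hk1 j)
  refine ⟨k, X₂, R, N₂, ⟨hR1, ?_, hF₂.sub, ?_⟩, ?_⟩
  · intro j
    rw [← hF₂.sd j]
    exact hR2 j
  · intro i
    rw [hR4 (r i) (L i) (hz _ _)]
    exact hF₂.red i
  · intro j
    rw [hR3 j]
    have := hcard j
    omega

end Pool.Agent.Lib.Pa53cac
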