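import Pool.Agent.Lib.Pa53cac.Paths

namespace Pool.Agent.Lib.Pa53cac

open Relation

variable {V : Type*}

/-! ### Suppressing one vertex -/

section Suppress

variable {u v w : V} {G₀ : Multiset (V × V)}

lemma adj_suppress_iff {a b : V} : Adj ((u, v) ::ₘ (v, w) ::ₘ G₀) a b ↔
    (a = u ∧ b = v) ∨ (a = v ∧ b = w) ∨ (a, b) ∈ G₀ := by
  simp [Adj, Multiset.mem_cons]

lemma adj_from (hvu : v ≠ u) (h₀ : ∀ e ∈ G₀, e.1 ≠ v ∧ e.2 ≠ v) {b : V}
    (h : Adj ((u, v) ::ₘ (v, w) ::ₘ G₀) v b) : b = w := by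
  rw [adj_suppress_iff] at h
  rcases h with h | h | h
  · exact absurd h.1 hvu
  · exact h.2
  · exact absurd rfl (h₀ _ h).1

lemma adj_to (hvw : v ≠ w) (h₀ : ∀ e ∈ G₀, e.1 ≠ v ∧ e.2 ≠ v) {a : V}
    (h : Adj ((u, v) ::ₘ (v, w) ::ₘ G₀) a v) : a = u := by
  rw [adj_suppress_iff] at h
  rcases h with h | h | h
  · exact h.1
  · exact absurd h.2 hvw
  · exact absurd rfl (h₀ _ h).2

lemma adj_ne {a b : V} (ha : a ≠ v) (hb : b ≠ v)
    (h : Adj ((u, v) ::ₘ (v, w) ::ₘ G₀) a b) : (a, b) ∈ G₀ := by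
  rw [adj_suppress_iff] at h
  rcases h with h | h | h
  · exact absurd h.2 hb
  · exact absurd h.1 ha
  · exact h

lemma reach_sup (hvu : v ≠ u) (hvw : v ≠ w) (h₀ : ∀ e ∈ G₀, e.1 ≠ v ∧ e.2 ≠ v) {a b : V}
    (ha : a ≠ v) (h : Reach ((u, v) ::ₘ (v, w) ::ₘ G₀) a b) :
    (b ≠ v → Reach ((u, w) ::ₘ G₀) a b) ∧ (b = v → Reach ((u, w) ::ₘ G₀) a u) := by
  induction h with
  | refl => exact ⟨fun _ => .refl, fun h => absurd h ha⟩
  | @tail b c _ hbc ih =>
    constructor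
    · intro hc
      by_cases hb : b = v
      · subst hb
        have := adj_from hvu h₀ hbc
        subst this
        exact (ih.2 rfl).tail (Multiset.mem_cons_self _ _)
      · exact (ih.1 hb).tail (Multiset.mem_cons_of_mem (adj_ne hb hc hbc))
    · intro hc
      subst hc
      have := adj_to hvw h₀ hbc
      subst this
      exact ih.1 hvu.symm

lemma av_sup (hvu : v ≠ u) (hvw : v ≠ w) (h₀ : ∀ e ∈ G₀, e.1 ≠ v ∧ e.2 ≠ v) {s a b : V}
    (ha : a ≠ v) (hb : b ≠ v) (h : Av ((u, v) ::ₘ (v, w) ::ₘ G₀) s a b) :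
    Av ((u, w) ::ₘ G₀) s a b := by
  refine ⟨h.1, ?_⟩
  have key : ∀ b, ReflTransGen (fun p q => Adj ((u, v) ::ₘ (v, w) ::ₘ G₀) p q ∧ q ≠ s) a b →
      (b ≠ v → ReflTransGen (fun p q => Adj ((u, w) ::ₘ G₀) p q ∧ q ≠ s) a b) ∧
      (b = v → ReflTransGen (fun p q => Adj ((u, w) ::ₘ G₀) p q ∧ q ≠ s) a u) := by
    intro b h
    induction h with
    | refl => exact ⟨fun _ => .refl, fun h => absurd h ha⟩
    | @tail b c _ hbc ih =>
      obtain ⟨hbc, hcs⟩ := hbc
      constructor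
      · intro hc
        by_cases hb : b = v
        · subst hb
          have := adj_from hvu h₀ hbc
          subst this
          exact (ih.2 rfl).tail ⟨Multiset.mem_cons_self _ _, hcs⟩
        · exact (ih.1 hb).tail ⟨Multiset.mem_cons_of_mem (adj_ne hb hc hbc), hcs⟩
      · intro hc
        subst hc
        have := adj_to hvw h₀ hbc
        subst this
        exact ih.1 hvu.symm
  exact (key b h.2).1 hb

lemma reach_unsup {a b : V} (h : Reach ((u, w) ::ₘ G₀) a b) :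
    Reach ((u, v) ::ₘ (v, w) ::ₘ G₀) a b := by
  induction h with
  | refl => exact .refl
  | @tail b c _ hbc ih =>
    rcases Multiset.mem_cons.1 hbc with h | h
    · obtain ⟨rfl, rfl⟩ := Prod.mk.inj h
      refine (ih.tail (b := b) (c := v) ?_).tail ?_
      · exact Multiset.mem_cons_self _ _
      · exact Multiset.mem_cons_of_mem (Multiset.mem_cons_self _ _)
    · exact ih.tail (Multiset.mem_cons_of_mem (Multiset.mem_cons_of_mem h))

lemma sreach_unsup {a b : V} (h : SReach ((u, w) ::ₘ G₀) a b) :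
    SReach ((u, v) ::ₘ (v, w) ::ₘ G₀) a b := by
  obtain ⟨c, hac, hcb⟩ := TransGen.head'_iff.1 h
  rcases Multiset.mem_cons.1 hac with h | h
  · obtain ⟨rfl, rfl⟩ := Prod.mk.inj h
    refine TransGen.head' (b := v) (Multiset.mem_cons_self _ _) (ReflTransGen.head ?_
      (reach_unsup hcb))
    exact Multiset.mem_cons_of_mem (Multiset.mem_cons_self _ _)
  · exact TransGen.head' (Multiset.mem_cons_of_mem (Multiset.mem_cons_of_mem h))
      (reach_unsup hcb)

lemma av_unsup {s a b : V} (hs : v ≠ s) (h : Av ((u, w) ::ₘ G₀) s a b) :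
    Av ((u, v) ::ₘ (v, w) ::ₘ G₀) s a b := by
  refine ⟨h.1, ?_⟩
  have h2 := h.2
  clear h
  induction h2 with
  | refl => exact .refl
  | @tail b c _ hbc ih =>
    obtain ⟨hbc, hcs⟩ := hbc
    rcases Multiset.mem_cons.1 hbc with h | h
    · obtain ⟨rfl, rfl⟩ := Prod.mk.inj h
      refine (ih.tail (b := b) (c := v) ?_).tail ?_
      · exact ⟨Multiset.mem_cons_self _ _, hs⟩
      · exact ⟨Multiset.mem_cons_of_mem (Multiset.mem_cons_self _ _), hcs⟩
    · exact ih.tail ⟨Multiset.mem_cons_of_mem (Multiset.mem_cons_of_mem h), hcs⟩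

lemma reach_from (hvu : v ≠ u) (h₀ : ∀ e ∈ G₀, e.1 ≠ v ∧ e.2 ≠ v) {b : V}
    (hb : b ≠ v) (h : Reach ((u, v) ::ₘ (v, w) ::ₘ G₀) v b) :
    Reach ((u, v) ::ₘ (v, w) ::ₘ G₀) w b := by
  rcases ReflTransGen.cases_head h with h | ⟨c, h1, h2⟩
  · exact absurd h.symm hb
  · rw [adj_from hvu h₀ h1] at h2
    exact h2

lemma sreach_sup (hvu : v ≠ u) (hvw : v ≠ w) (h₀ : ∀ e ∈ G₀, e.1 ≠ v ∧ e.2 ≠ v) {a b : V}
    (ha : a ≠ v) (hb : b ≠ v) (h : SReach ((u, v) ::ₘ (v, w) ::ₘ G₀) a b) :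
    SReach ((u, w) ::ₘ G₀) a b := by
  obtain ⟨c, hac, hcb⟩ := TransGen.head'_iff.1 h
  by_cases hc : c = v
  · subst hc
    have := adj_to hvw h₀ hac
    subst this
    exact TransGen.head' (Multiset.mem_cons_self _ _)
      ((reach_sup hvu hvw h₀ hvw.symm (reach_from hvu h₀ hb hcb)).1 hb)
  · exact TransGen.head' (Multiset.mem_cons_of_mem (adj_ne ha hc hac))
      ((reach_sup hvu hvw h₀ hc hcb).1 hb)

lemma not_isVertex_sup (hvw : v ≠ w) (h₀ : ∀ e ∈ G₀, e.1 ≠ v ∧ e.2 ≠ v)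
    {a : V} : ¬ SReach ((u, w) ::ₘ G₀) a v := by
  intro h
  obtain ⟨c, _, hcb⟩ := TransGen.tail'_iff.1 h
  rcases Multiset.mem_cons.1 hcb with h | h
  · exact hvw (Prod.mk.inj h).2
  · exact (h₀ _ h).2 rfl

lemma onAllPaths_sup (hvu : v ≠ u) (hvw : v ≠ w) (h₀ : ∀ e ∈ G₀, e.1 ≠ v ∧ e.2 ≠ v)
    {ρ : V} {T : Set V} (hρ : ρ ≠ v) (hT : v ∉ T) {s : V} (hs : s ≠ v) :
    OnAllPaths ((u, v) ::ₘ (v, w) ::ₘ G₀) ρ T s ↔ OnAllPaths ((u, w) ::ₘ G₀) ρ T s := by
  rw [onAllPaths_iff, onAllPaths_iff]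
  constructor
  · intro h t ht hav
    exact h t ht (av_unsup hs.symm hav)
  · intro h t ht hav
    exact h t ht (av_sup hvu hvw h₀ hρ (fun h' => hT (h' ▸ ht)) hav)

lemma onAllPaths_next (hvu : v ≠ u) (h₀ : ∀ e ∈ G₀, e.1 ≠ v ∧ e.2 ≠ v)
    {ρ : V} {T : Set V} (hT : v ∉ T)
    (h : OnAllPaths ((u, v) ::ₘ (v, w) ::ₘ G₀) ρ T v) :
    OnAllPaths ((u, v) ::ₘ (v, w) ::ₘ G₀) ρ T w := by
  rw [onAllPaths_iff] at h ⊢
  intro t ht hav
  rcases hav.split v with ⟨_, h1⟩ | ⟨_, h1⟩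
  · rcases ReflTransGen.cases_head h1.2 with h2 | ⟨c, h2, _⟩
    · exact hT (h2 ▸ ht)
    · exact h2.2 (adj_from hvu h₀ h2.1)
  · exact h t ht h1

end Suppress

/-! ### Steps preserve acyclicity and commute with cutting -/

lemma Step.card_lt {G H : Multiset (V × V)} (h : Step G H) : H.card < G.card := by
  cases h <;> simp

lemma Step.acyclic {G H : Multiset (V × V)} (h : Step G H) (hG : Acyclic G) : Acyclic H := by
  cases h with
  | suppress u v w G₀ _ _ _ => exact fun a ha => hG a (sreach_unsup ha)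
  | parallel e G₀ => exact hG.mono fun e' he' => Multiset.mem_cons_of_mem he'

/-- Cutting commutes with the reduction steps. -/
lemma step_cut {G H : Multiset (V × V)} (h : Step G H) (hG : Acyclic G) {ρ : V} {T : Set V}
    (hρ : ∀ e ∈ G, e.2 ≠ ρ) (hT : ∀ t ∈ T, ∀ e ∈ G, e.1 ≠ t) :
    ReflGen Step (cut G ρ T) (cut H ρ T) := by
  classical
  cases h with
  | parallel e G₀ =>
    have hadj : ∀ a b, Adj (e ::ₘ e ::ₘ G₀) a b ↔ Adj (e ::ₘ G₀) a b := by
      intro a b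
      simp [Adj]
    have hadj' : Adj (e ::ₘ e ::ₘ G₀) = Adj (e ::ₘ G₀) := by
      funext a b
      exact propext (hadj a b)
    have hin : InCut (e ::ₘ e ::ₘ G₀) ρ T = InCut (e ::ₘ G₀) ρ T := by
      funext f
      simp only [InCut, onAllPaths_iff, Av, Reach, SReach, hadj']
    rw [cut_eq_filter, cut_eq_filter]
    simp only [hin]
    by_cases he : InCut (e ::ₘ G₀) ρ T e
    · rw [Multiset.filter_cons_of_pos _ he, Multiset.filter_cons_of_pos _ he]
      exact .single (Step.parallel _ _)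
    · rw [Multiset.filter_cons_of_neg _ he, Multiset.filter_cons_of_neg _ he]
  | suppress u v w G₀ hvu hvw h₀ =>
    have hρv : ρ ≠ v := by
      intro h
      exact hρ (u, v) (Multiset.mem_cons_self _ _) h.symm
    have hTv : v ∉ T := by
      intro h
      exact hT v h (v, w) (Multiset.mem_cons_of_mem (Multiset.mem_cons_self _ _)) rfl
    have hTv' : ∀ t ∈ T, t ≠ v := fun t ht h => hTv (h ▸ ht)
    have huv : Adj ((u, v) ::ₘ (v, w) ::ₘ G₀) u v := Multiset.mem_cons_self _ _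
    have hvw' : Adj ((u, v) ::ₘ (v, w) ::ₘ G₀) v w :=
      Multiset.mem_cons_of_mem (Multiset.mem_cons_self _ _)
    -- stable vertices strictly below `a ≠ v`
    have hstab : ∀ a, a ≠ v →
        ((∃ s, OnAllPaths ((u, v) ::ₘ (v, w) ::ₘ G₀) ρ T s ∧
            SReach ((u, v) ::ₘ (v, w) ::ₘ G₀) a s) ↔
          ∃ s, OnAllPaths ((u, w) ::ₘ G₀) ρ T s ∧ SReach ((u, w) ::ₘ G₀) a s) := by
      intro a ha
      constructor
      · rintro ⟨s, hs, has⟩
        by_cases hsv : s = v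
        · subst hsv
          exact ⟨w, (onAllPaths_sup hvu hvw h₀ hρv hTv hvw.symm).1 (onAllPaths_next hvu h₀ hTv hs),
            sreach_sup hvu hvw h₀ ha hvw.symm (has.tail hvw')⟩
        · exact ⟨s, (onAllPaths_sup hvu hvw h₀ hρv hTv hsv).1 hs,
            sreach_sup hvu hvw h₀ ha hsv has⟩
      · rintro ⟨s, hs, has⟩
        have hsv : s ≠ v := by
          rintro rfl
          exact not_isVertex_sup hvw h₀ has
        exact ⟨s, (onAllPaths_sup hvu hvw h₀ hρv hTv hsv).2 hs, sreach_unsup has⟩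
    have hreach : ∀ a b, a ≠ v → b ≠ v → (Reach ((u, v) ::ₘ (v, w) ::ₘ G₀) a b ↔
        Reach ((u, w) ::ₘ G₀) a b) := fun a b ha hb =>
      ⟨fun h => (reach_sup hvu hvw h₀ ha h).1 hb, reach_unsup⟩
    have h1 : ∀ g ∈ G₀, InCut ((u, v) ::ₘ (v, w) ::ₘ G₀) ρ T g ↔
        InCut ((u, w) ::ₘ G₀) ρ T g := by
      intro g hg
      obtain ⟨hg1, hg2⟩ := h₀ g hg
      unfold InCut
      rw [hstab g.1 hg1, hreach ρ g.1 hρv hg1]
      have : (∃ t ∈ T, Reach ((u, v) ::ₘ (v, w) ::ₘ G₀) g.2 t) ↔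
          ∃ t ∈ T, Reach ((u, w) ::ₘ G₀) g.2 t := by
        constructor
        · rintro ⟨t, ht, h⟩
          exact ⟨t, ht, (hreach _ _ hg2 (hTv' t ht)).1 h⟩
        · rintro ⟨t, ht, h⟩
          exact ⟨t, ht, (hreach _ _ hg2 (hTv' t ht)).2 h⟩
      rw [this]
    have h2 : InCut ((u, v) ::ₘ (v, w) ::ₘ G₀) ρ T (u, v) ↔
        InCut ((u, w) ::ₘ G₀) ρ T (u, w) := by
      unfold InCut
      simp only
      rw [hstab u hvu.symm, hreach ρ u hρv hvu.symm]
      have : (∃ t ∈ T, Reach ((u, v) ::ₘ (v, w) ::ₘ G₀) v t) ↔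
          ∃ t ∈ T, Reach ((u, w) ::ₘ G₀) w t := by
        constructor
        · rintro ⟨t, ht, h⟩
          exact ⟨t, ht, (hreach _ _ hvw.symm (hTv' t ht)).1 (reach_from hvu h₀ (hTv' t ht) h)⟩
        · rintro ⟨t, ht, h⟩
          exact ⟨t, ht, ((hreach _ _ hvw.symm (hTv' t ht)).2 h).head hvw'⟩
      rw [this]
    have h3 : InCut ((u, v) ::ₘ (v, w) ::ₘ G₀) ρ T (v, w) ↔
        InCut ((u, v) ::ₘ (v, w) ::ₘ G₀) ρ T (u, v) := by
      constructor
      · rintro ⟨⟨a1, t, ht, a2⟩, a3⟩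
        simp only at a1 a2 a3
        have hρu : Reach ((u, v) ::ₘ (v, w) ::ₘ G₀) ρ u := by
          rcases ReflTransGen.cases_tail a1 with h | ⟨c, h, h'⟩
          · exact absurd h.symm hρv
          · rw [adj_to hvw h₀ h'] at h
            exact h
        refine ⟨⟨hρu, t, ht, a2.head hvw'⟩, ?_⟩
        rintro ⟨s, hs, hus⟩
        simp only at hus
        by_cases hvs : Reach ((u, v) ::ₘ (v, w) ::ₘ G₀) v s
        · by_cases hsv : v = s
          · subst hsv
            exact a3 ⟨w, onAllPaths_next hvu h₀ hTv hs, .single hvw'⟩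
          · exact a3 ⟨s, hs, sreach_of_reach_ne hvs hsv⟩
        · rw [onAllPaths_iff] at hs
          have b1 : Av ((u, v) ::ₘ (v, w) ::ₘ G₀) s ρ u := by
            rcases av_or s hρu with h | h
            · exact absurd (hus.trans_left h.2) (hG u)
            · exact h
          have b2 : Av ((u, v) ::ₘ (v, w) ::ₘ G₀) s v t := by
            rcases av_or s (a2.head hvw') with h | h
            · exact absurd h.1 hvs
            · exact h
          exact hs t ht ((b1.trans (Av.of_adj huv b1.ne_right b2.ne_left)).trans b2)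
      · rintro ⟨⟨a1, t, ht, a2⟩, a3⟩
        simp only at a1 a2 a3
        refine ⟨⟨a1.tail huv, t, ht, reach_from hvu h₀ (hTv' t ht) a2⟩, ?_⟩
        rintro ⟨s, hs, hus⟩
        exact a3 ⟨s, hs, TransGen.head huv hus⟩
    rw [cut_eq_filter, cut_eq_filter]
    by_cases he : InCut ((u, w) ::ₘ G₀) ρ T (u, w)
    · rw [Multiset.filter_cons_of_pos _ (h2.2 he), Multiset.filter_cons_of_pos _ (h3.2 (h2.2 he)),
        Multiset.filter_cons_of_pos _ he, Multiset.filter_congr h1]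
      refine .single (Step.suppress _ _ _ _ hvu hvw ?_)
      intro e he
      exact h₀ e (Multiset.mem_of_mem_filter he)
    · rw [Multiset.filter_cons_of_neg _ (fun h => he (h2.1 h)),
        Multiset.filter_cons_of_neg _ (fun h => he (h2.1 (h3.1 h))),
        Multiset.filter_cons_of_neg _ he, Multiset.filter_congr h1]

end Pool.Agent.Lib.Pa53cac
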